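import Pool.Agent.H12.LPK.Lq
import Pool.Agent.H18.PN.Pev

/-!
# LPK for own paths: jets and coefficients, the time in the window
-/

set_option autoImplicit false

namespace Pool.LPK12

open Finset Real
open Pool.Agent.H49.Ent Pool.Agent.H32.Dense Pool.STK Pool.KA Pool.KSAT Pool.K2S Pool.PB Pool.GEN
open Pool.S6C Pool.LA91 Pool.OWN68 Pool.AJ18 Pool.PAIR76 Pool.PN18

/-- The path in the parameter of `[0, 1]`. -/
noncomputable def Pq (R : Polynomial ℝ) : Polynomial ℝ :=
  R.comp (Polynomial.C 2 * Polynomial.X - Polynomial.C 1)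

theorem Pq_deg {R : Polynomial ℝ} {D : ℕ} (h : R.natDegree ≤ D) : (Pq R).natDegree ≤ D := by
  unfold Pq
  refine (Polynomial.natDegree_comp_le).trans ?_
  have h1 : (Polynomial.C (2 : ℝ) * Polynomial.X - Polynomial.C 1).natDegree ≤ 1 := by
    refine (Polynomial.natDegree_sub_le _ _).trans (max_le ?_ ?_)
    · exact (Polynomial.natDegree_C_mul_le _ _).trans Polynomial.natDegree_X_le
    · rw [Polynomial.natDegree_C]
      omega
  calc R.natDegree * _ ≤ R.natDegree * 1 := Nat.mul_le_mul_left _ h1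
    _ ≤ D := by omega

theorem Pq_jet (R : Polynomial ℝ) (k : ℕ) (x : ℝ) :
    (Polynomial.derivative^[k] (Pq R)).eval x =
      2 ^ k * (Polynomial.derivative^[k] R).eval (2 * x - 1) := by
  have h : ∀ k : ℕ, Polynomial.derivative^[k] (Pq R) =
      Polynomial.C (2 ^ k) * Pq (Polynomial.derivative^[k] R) := by
    intro k
    induction k with
    | zero => simp
    | succ k ih =>
      rw [Function.iterate_succ_apply', ih, Polynomial.derivative_C_mul]
      unfold Pq
      rw [Polynomial.derivative_comp, Function.iterate_succ_apply']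
      simp only [Polynomial.derivative_sub, Polynomial.derivative_C_mul, Polynomial.derivative_X,
        Polynomial.derivative_C, mul_one, sub_zero]
      rw [← mul_assoc, ← Polynomial.C_mul, pow_succ]
  rw [h k]
  unfold Pq
  simp

theorem Pq_sub (R R' : Polynomial ℝ) : Pq R - Pq R' = Pq (R - R') := by
  unfold Pq
  rw [Polynomial.sub_comp]

/-- **Jets and coefficients**, for two paths at one time. -/
theorem cvt (D : ℕ) : ∃ K : ℝ, 1 ≤ K ∧ ∀ (R R' : Polynomial ℝ) (x : ℝ) (i : ℕ),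
    R.natDegree ≤ D → R'.natDegree ≤ D → 0 ≤ x → x ≤ 1 →
    (((∀ j, i < j → |(Pq R).coeff j - (Pq R').coeff j| ≤ 1) →
      (|(Pq R).coeff i - (Pq R').coeff i| ≤ 1 →
        |(Polynomial.derivative^[i] R).eval (2 * x - 1) -
          (Polynomial.derivative^[i] R').eval (2 * x - 1)| ≤ K) ∧
      (|(Polynomial.derivative^[i] R).eval (2 * x - 1) -
          (Polynomial.derivative^[i] R').eval (2 * x - 1)| ≤ 1 →
        |(Pq R).coeff i - (Pq R').coeff i| ≤ K)) ∧
    ∀ B : ℝ, (∀ j, i ≤ j → j ≤ D → |(Polynomial.derivative^[j] R).eval (2 * x - 1) -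
          (Polynomial.derivative^[j] R').eval (2 * x - 1)| ≤ B) → 0 ≤ B →
      |(Pq R).coeff i - (Pq R').coeff i| ≤ K * B) := by
  obtain ⟨C₁, hC₁, hd⟩ := der_small D
  obtain ⟨C₂, hC₂, hc⟩ := cof_small D
  have h2D : (1 : ℝ) ≤ 2 ^ D := one_le_pow₀ (by norm_num)
  refine ⟨C₂ * (C₁ + 2 ^ D), ?_, ?_⟩
  · nlinarith
  intro R R' x i hR hR' x0 x1
  have hE : (Pq R - Pq R').natDegree ≤ D := by
    rw [Pq_sub]
    exact Pq_deg ((Polynomial.natDegree_sub_le _ _).trans (max_le hR hR'))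
  have hx : |x| ≤ 1 := by
    rw [abs_of_nonneg x0]
    exact x1
  have hjet : ∀ j, (Polynomial.derivative^[j] (Pq R - Pq R')).eval x =
      2 ^ j * ((Polynomial.derivative^[j] R).eval (2 * x - 1) -
        (Polynomial.derivative^[j] R').eval (2 * x - 1)) := by
    intro j
    rw [Polynomial.iterate_derivative_sub, Polynomial.eval_sub, Pq_jet, Pq_jet]
    ring
  have hpw : ∀ j ≤ D, (2 : ℝ) ^ j ≤ 2 ^ D := fun j hj => pow_le_pow_right₀ (by norm_num) hj
  have hle : ∀ j, |(Polynomial.derivative^[j] R).eval (2 * x - 1) -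
        (Polynomial.derivative^[j] R').eval (2 * x - 1)| ≤
      |(Polynomial.derivative^[j] (Pq R - Pq R')).eval x| := by
    intro j
    rw [hjet, abs_mul, abs_of_nonneg (by positivity : (0 : ℝ) ≤ 2 ^ j)]
    exact le_mul_of_one_le_left (abs_nonneg _) (one_le_pow₀ (by norm_num))
  have hge : ∀ j, ∀ B : ℝ, 0 ≤ B → (j ≤ D → |(Polynomial.derivative^[j] R).eval (2 * x - 1) -
        (Polynomial.derivative^[j] R').eval (2 * x - 1)| ≤ B) →
      |(Polynomial.derivative^[j] (Pq R - Pq R')).eval x| ≤ 2 ^ D * B := by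
    intro j B hB h
    by_cases hj : j ≤ D
    · rw [hjet, abs_mul, abs_of_nonneg (by positivity : (0 : ℝ) ≤ 2 ^ j)]
      exact mul_le_mul (hpw j hj) (h hj) (abs_nonneg _) (by positivity)
    · rw [Polynomial.iterate_derivative_eq_zero (by omega), Polynomial.eval_zero, abs_zero]
      positivity
  refine ⟨fun hhi => ⟨fun h1 => ?_, fun h1 => ?_⟩, fun B hB hB0 => ?_⟩
  · have h2 := hd (Pq R - Pq R') i x 1 hE hx (fun j hj => by
      rw [Polynomial.coeff_sub]
      rcases hj.eq_or_lt with h3 | h3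
      · rw [← h3]
        exact h1
      · exact hhi j h3)
    refine (hle i).trans (h2.trans ?_)
    nlinarith
  · have h3 : ∀ j, i ≤ j → |(Polynomial.derivative^[j] (Pq R - Pq R')).eval x| ≤ C₁ + 2 ^ D := by
      intro j hj
      rcases hj.eq_or_lt with h3 | h3
      · subst h3
        have := hge i 1 zero_le_one (fun _ => h1)
        linarith
      · have h4 := hd (Pq R - Pq R') j x 1 hE hx (fun k hk => by
          rw [Polynomial.coeff_sub]
          exact hhi k (by omega))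
        linarith
    have h5 := hc (Pq R - Pq R') i x (C₁ + 2 ^ D) hE hx h3
    rw [Polynomial.coeff_sub] at h5
    exact h5
  · have h5 := hc (Pq R - Pq R') i x (2 ^ D * B) hE hx (fun j hj => hge j B hB0 (hB j hj))
    rw [Polynomial.coeff_sub] at h5
    refine h5.trans ?_
    have e1 : C₂ * (C₁ + 2 ^ D) * B = C₂ * (2 ^ D * B) + C₂ * C₁ * B := by ring
    have e2 : 0 ≤ C₂ * C₁ * B := by positivity
    linarith

/-- Two reals with one floor. -/
theorem floor_eq_abs {x y : ℝ} (h : ⌊x⌋ = ⌊y⌋) : |x - y| ≤ 1 := by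
  have h1 := of_floor_div (a := x) (b := y) (m := 1) one_pos (by rw [div_one, div_one, h])
  exact h1

theorem floor_sub_abs (x y : ℝ) : |((⌊x⌋ : ℤ) : ℝ) - ⌊y⌋| ≤ |x - y| + 1 := by
  have h1 := Int.floor_le x
  have h2 := Int.lt_floor_add_one x
  have h3 := Int.floor_le y
  have h4 := Int.lt_floor_add_one y
  have h5 := le_abs_self (x - y)
  have h6 := neg_abs_le (x - y)
  rw [abs_le]
  constructor <;> linarith

/-- A function near a function of the condition. -/
theorem CH_near {Ω Γ : Type} [Fintype Ω] {q : Ω → ℝ} (hq : IsLaw q) (f : Ω → ℝ) (G : Ω → Γ)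
    {K : ℝ} (h : ∀ ω ω', 0 < q ω → 0 < q ω' → G ω = G ω' → |f ω - f ω'| ≤ K) :
    CH q (fun ω => ⌊f ω⌋) G ≤ Real.log (2 * ((⌈K⌉₊ + 1 : ℕ) : ℝ) + 1) :=
  CH_pair hq _ _ fun ω ω' a b e => floor_sub_le ((h ω ω' a b e).trans (Nat.le_ceil K))

/-- Conditioning on a large part of a conditioned law. -/
theorem cond_and {Ω : Type} [Fintype Ω] {p : Ω → ℝ} {A : Ω → Prop} (G : Ω → Prop)
    (hA : Pe p A ≠ 0) :
    Pool.Agent.H49.Ent.cond (Pool.Agent.H49.Ent.cond p A True) G True =
      Pool.Agent.H49.Ent.cond p (fun ω => A ω ∧ G ω) True := by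
  classical
  rw [← Pool.K2S.Piece.cond_cond (p := p) (A := A) (B := fun ω => A ω ∧ G ω) (fun ω h => h.1) hA]
  have e1 : law (Pool.Agent.H49.Ent.cond p A True) G True =
      law (Pool.Agent.H49.Ent.cond p A True) (fun ω => A ω ∧ G ω) True := by
    have h1 : Pe (Pool.Agent.H49.Ent.cond p A True) G =
        Pe (Pool.Agent.H49.Ent.cond p A True) (fun ω => A ω ∧ G ω) := by
      rw [Pe_cond, Pe_cond]
      congr 2
      funext ω
      exact propext ⟨fun h => ⟨h.1, h⟩, fun h => h.2⟩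
    exact h1
  funext ω
  unfold Pool.Agent.H49.Ent.cond at e1 ⊢
  by_cases hω : A ω
  · by_cases hG : G ω
    · have h4 : (fun ω => A ω ∧ G ω) ω = True := eq_true (And.intro hω hG)
      have h5 : G ω = True := eq_true hG
      rw [e1, if_pos h4, if_pos h5]
    · have h4 : ¬ ((fun ω => A ω ∧ G ω) ω = True) := fun h => hG (of_eq_true h).2
      have h5 : ¬ (G ω = True) := fun h => hG (of_eq_true h)
      rw [if_neg h4, if_neg h5]
  · have h3 : ¬ (A ω = True) := fun h => hω (of_eq_true h)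
    rw [if_neg h3, zero_div, zero_div, ite_self, ite_self]

variable {m J : ℕ}

/-- The time in the window. -/
def tm (F : Fam m J) (W : ℕ) (ω : F.Ω) : ℤ := ((F.T ω % 2 ^ (J - W) : ℕ) : ℤ)

theorem tm_range (F : Fam m J) (W : ℕ) (ω : F.Ω) : 0 ≤ tm F W ω ∧ tm F W ω < 2 ^ (J - W) := by
  unfold tm
  refine ⟨Int.natCast_nonneg _, ?_⟩
  have h1 : F.T ω % 2 ^ (J - W) < 2 ^ (J - W) := Nat.mod_lt _ (by positivity)
  exact_mod_cast h1

theorem tm_uw (F : Fam m J) (W : ℕ) (ω : F.Ω) :
    uw F W ω = 2 * ((tm F W ω : ℝ) / 2 ^ (J - W)) - 1 := by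
  unfold uw tw tm
  have h : (0 : ℝ) < 2 ^ (J - W) := by positivity
  push_cast
  field_simp

theorem tm_unit (F : Fam m J) (W : ℕ) (ω : F.Ω) : 0 ≤ (tm F W ω : ℝ) / 2 ^ (J - W) ∧
    (tm F W ω : ℝ) / 2 ^ (J - W) ≤ 1 := time_unit (tm_range F W ω)

/-- The time in the window is full given the line. -/
theorem tm_full (F : Fam m J) {q : F.Ω → ℝ} (hq : IsLaw q) {w : ℕ} (hw : w ≤ J) {e : ℝ}
    (h : (J : ℝ) * Real.log 2 - e ≤ CH q F.T (fun ω => (F.l ω, F.Z ω))) :
    ((J - w : ℕ) : ℝ) * Real.log 2 - (e + Real.log 3) ≤ CH q (tm F w) (slam F w) := by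
  have h1 := tw_full F hq hw h
  have h2 : CH q (tw F w) (slam F w) = CH q (tm F w) (slam F w) := by
    refine CH_congr hq.nonneg ?_ ?_ (fun _ _ _ _ e => e) (fun _ _ _ _ e => e)
    · intro ω ω' _ _ e
      have e1 := (Prod.ext_iff.mp e).1
      dsimp only at e1
      unfold tw at e1
      unfold tm
      linarith
    · intro ω ω' _ _ e
      have e1 := (Prod.ext_iff.mp e).1
      dsimp only at e1
      unfold tm at e1
      unfold tw
      linarith
  rw [← h2]
  have h3 : ((J - w : ℕ) : ℝ) * Real.log 2 ≤ Real.log (2 * ((2 ^ (J - w) : ℕ) : ℝ) + 1) := by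
    have h4 : Real.log ((2 : ℝ) ^ (J - w)) ≤ Real.log (2 * ((2 ^ (J - w) : ℕ) : ℝ) + 1) := by
      refine Real.log_le_log (by positivity) ?_
      push_cast
      have : (0 : ℝ) < 2 ^ (J - w) := by positivity
      linarith
    rw [Real.log_pow] at h4
    exact h4
  linarith

end Pool.LPK12
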