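import Pool.Agent.H12.LPK.Pth

/-!
# LPK for the own paths of two labels, on one event

`lpk_ev`: `pair_ev` with one alive order on each path (`i₁` resp. `i₂`), `α₂ < α₁`; no condition on
the pair of orders, but the record does not see more of the two jets than the context.
-/

set_option autoImplicit false

namespace Pool.LPK12

open Finset Real MvPolynomial
open Pool.Agent.H49.Ent Pool.Agent.H32.Dense Pool.STK Pool.KA Pool.KSAT Pool.K2S Pool.PB Pool.GEN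
open Pool.S6C Pool.LA91 Pool.OWN68 Pool.AJ18 Pool.PAIR76 Pool.PN18

/-- **LPK for own paths**, rows at the levels of a grid. -/
theorem lpk_nat (D : ℕ) {i₁ i₂ : ℕ} (hi₁ : 1 ≤ i₁ ∧ i₁ ≤ D) (hi₂ : 1 ≤ i₂ ∧ i₂ ≤ D) {a b : ℝ}
    (hb : 0 < b) (hba : b < a) {h : ℝ} (hh : 0 < h) (hhb : h ≤ b) {ε : ℝ} (hε : 0 < ε) :
    ∃ δ : ℝ, 0 < δ ∧ ∃ c₀ : ℝ, 0 < c₀ ∧ ∃ N₀ : ℕ, 0 < N₀ ∧
    ∀ {w μ : ℝ} (_ : 0 ≤ w) (_ : 0 < μ) (_ : w + a * μ ≤ 1),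
    ∃ J₀ : ℕ, ∀ J ≥ J₀, ∀ {m : ℕ} (F : Fam m J) (A : F.Ω → Prop) (_ : 0 < Pe F.p A)
      (R₁ R₂ : LnT F → Polynomial ℝ) {𝒞 Γ : Type} (c : LnT F → 𝒞) (Y : F.Ω → Γ),
    PnH F A R₁ R₂ c Y {i₁} {i₂} D ⌊w * J⌋₊ a b μ δ →
    CH (Pool.Agent.H49.Ent.cond F.p A True)
        (fun ω => (⌊pj F R₁ ⌊w * J⌋₊ i₁ ω⌋, ⌊pj F R₂ ⌊w * J⌋₊ i₂ ω⌋))
        (fun ω => (c (slam F ⌊w * J⌋₊ ω), F.W ω)) ≤
      CH (Pool.Agent.H49.Ent.cond F.p A True)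
        (fun ω => (⌊pj F R₁ ⌊w * J⌋₊ i₁ ω⌋, ⌊pj F R₂ ⌊w * J⌋₊ i₂ ω⌋))
        (fun ω => (c (slam F ⌊w * J⌋₊ ω), Y ω)) + δ * μ * J →
    NFog F A R₂ R₁ c ⌊w * J⌋₊ b a μ h (δ * μ) c₀ N₀ →
    NFog F A R₁ R₂ c ⌊w * J⌋₊ a b μ h (δ * μ) c₀ N₀ →
    ∀ j, 1 ≤ j → j ≤ D → CH (Pool.Agent.H49.Ent.cond F.p A True)
      (fun ω => ⌊pj F R₁ ⌊w * J⌋₊ j ω⌋) Y ≤ ε * μ * J ∧
      CH (Pool.Agent.H49.Ent.cond F.p A True)
      (fun ω => ⌊pj F R₂ ⌊w * J⌋₊ j ω⌋) Y ≤ ε * μ * J := by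
  have ha : 0 < a := hb.trans hba
  obtain ⟨δ, hδ, c₀, hc₀, H⟩ := lpk_path D hi₁ hi₂ hb hba hh hhb hε
  obtain ⟨N₀, hN₀⟩ := exists_nat_ge (12 * (a + b) / δ + 1)
  have hab : 0 < a + b := by positivity
  have hN0 : (0 : ℝ) < N₀ := lt_of_lt_of_le (by positivity) hN₀
  have hNδ : 3 * (a + b) / N₀ ≤ δ / 4 := by
    rw [div_le_iff₀ hN0]
    have h1 : 12 * (a + b) / δ ≤ N₀ := by linarith
    rw [div_le_iff₀ hδ] at h1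
    linarith
  refine ⟨δ / 2, by positivity, c₀, hc₀, N₀, by exact_mod_cast hN0, ?_⟩
  intro w μ hw hμ hwμ
  obtain ⟨J₁, H⟩ := H (w := w) (μ := μ) hw hμ hwμ
  obtain ⟨J₂, hJ₂⟩ := exists_nat_ge (12 * Real.log 7 / (δ * μ))
  refine ⟨max J₁ J₂, ?_⟩
  intro J hJ m F A hA R₁ R₂ 𝒞 Γ c Y HP hI nz nu
  have hJ0 : (0 : ℝ) ≤ J := Nat.cast_nonneg J
  have k7 : 12 * Real.log 7 ≤ δ * μ * J := by
    have h1 : 12 * Real.log 7 / (δ * μ) ≤ J :=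
      hJ₂.trans (by exact_mod_cast (le_max_right _ _).trans hJ)
    rw [div_le_iff₀ (by positivity)] at h1
    linarith
  have err : ∀ x : ℝ, x ≤ 3 * (a + b) → (x * (μ / N₀) + δ / 2 * μ) * J + 3 * Real.log 7 ≤
      δ * μ * J := by
    intro x hx
    have h1 : x * (μ / N₀) ≤ δ / 4 * μ := by
      have h2 : x * (μ / N₀) ≤ 3 * (a + b) * (μ / N₀) := mul_le_mul_of_nonneg_right hx (by positivity)
      have h3 : 3 * (a + b) * (μ / N₀) = 3 * (a + b) / N₀ * μ := by ring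
      rw [h3] at h2
      exact h2.trans (mul_le_mul_of_nonneg_right hNδ hμ.le)
    have h4 := mul_le_mul_of_nonneg_right h1 hJ0
    linarith
  have hNn : 0 < N₀ := by exact_mod_cast hN0
  have hI' : δ / 2 * μ * J ≤ δ * μ * J := by
    have : 0 ≤ δ * μ * J := by positivity
    linarith
  refine H J ((le_max_left _ _).trans hJ) F A hA R₁ R₂ c Y (HP.mono hμ.le (by linarith))
    (by linarith)
    (nz.real hA hNn hμ hb ha hh.le hhb hc₀ ?_) (nu.real hA hNn hμ ha hb hh.le (by linarith) hc₀ ?_)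
  · exact err (2 * b + a) (by linarith)
  · exact err (2 * a + b) (by linarith)

/-- Conversion of a pair. -/
theorem pair_conv {Ω S₁ S₂ T₁ T₂ U : Type} [Fintype Ω] {q : Ω → ℝ} (hq : ∀ ω, 0 ≤ q ω)
    {X₁ : Ω → S₁} {X₂ : Ω → S₂} {Y₁ : Ω → T₁} {Y₂ : Ω → T₂} {Z : Ω → U} {e : ℝ}
    (h1 : CH q X₁ (fun ω => (Y₁ ω, Z ω)) ≤ e) (h2 : CH q X₂ (fun ω => (Y₂ ω, Z ω)) ≤ e) :
    CH q (fun ω => (X₁ ω, X₂ ω)) Z ≤ CH q (fun ω => (Y₁ ω, Y₂ ω)) Z + 2 * e := by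
  have a1 := CH_le_add hq (fun ω => (X₁ ω, X₂ ω)) (fun ω => (Y₁ ω, Y₂ ω)) Z
  have a2 := CH_subadd hq X₁ X₂ (fun ω => ((Y₁ ω, Y₂ ω), Z ω))
  have a3 : CH q X₁ (fun ω => ((Y₁ ω, Y₂ ω), Z ω)) ≤ CH q X₁ (fun ω => (Y₁ ω, Z ω)) :=
    CH_mono_cond hq fun ω ω' _ _ e => by
      simp only [Prod.mk.injEq] at e ⊢
      exact ⟨e.1.1, e.2⟩
  have a4 : CH q X₂ (fun ω => ((Y₁ ω, Y₂ ω), Z ω)) ≤ CH q X₂ (fun ω => (Y₂ ω, Z ω)) :=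
    CH_mono_cond hq fun ω ω' _ _ e => by
      simp only [Prod.mk.injEq] at e ⊢
      exact ⟨e.1.2, e.2⟩
  linarith

/-- The jet of the label at its unit. -/
noncomputable def oj {m J : ℕ} (F : Fam m J) (κ : Fin m) {V : Type} (z' : LnT F → V)
    (G : V → MvPolynomial (Option (Fin m)) ℝ) (W : ℕ) (N : ℝ) (j : ℕ) (ω : F.Ω) : ℤ :=
  ⌊(2 : ℝ) ^ (N * J) * ojet F κ j (G (z' (slam F W ω))) ω⌋

/-- The jets of the path and of the label. -/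
theorem oj_conv {m J : ℕ} {F : Fam m J} {w s : ℝ} (hw : 0 ≤ w) (hWJ : ⌊w * J⌋₊ ≤ J) {κ : Fin m}
    {V Δ : Type} {z' : LnT F → V} {G : V → MvPolynomial (Option (Fin m)) ℝ} {q : F.Ω → ℝ}
    (hq : IsLaw q) (Z : F.Ω → Δ) {j D : ℕ} (hj : j ≤ D) :
    CH q (fun ω => ⌊pj F (jR F ⌊w * J⌋₊ (2 ^ (s * J)) κ z' G) ⌊w * J⌋₊ j ω⌋)
      (fun ω => (oj F κ z' G ⌊w * J⌋₊ (s - j * w) j ω, Z ω)) ≤ LK (2 ^ D) ∧
    CH q (oj F κ z' G ⌊w * J⌋₊ (s - j * w) j)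
      (fun ω => (⌊pj F (jR F ⌊w * J⌋₊ (2 ^ (s * J)) κ z' G) ⌊w * J⌋₊ j ω⌋, Z ω)) ≤ LK (2 ^ D) := by
  have rp : ∀ x : ℝ, (0 : ℝ) < 2 ^ x := fun x => Real.rpow_pos_of_pos (by norm_num) x
  have h2D : (1 : ℝ) ≤ 2 ^ D := one_le_pow₀ (by norm_num)
  have hpj : ∀ ω : F.Ω, pj F (jR F ⌊w * J⌋₊ (2 ^ (s * J)) κ z' G) ⌊w * J⌋₊ j ω =
      2 ^ (s * J) * (1 / 2 ^ (⌊w * J⌋₊ + 1)) ^ j *
        ojet F κ j (G (z' (slam F ⌊w * J⌋₊ ω))) ω := fun ω => jR_jet hWJ ω j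
  obtain ⟨k1, k2⟩ := scale_le (s := s) hw J j
  constructor
  · refine CH_near hq _ _ fun ω ω' _ _ e => ?_
    rw [hpj, hpj]
    refine (Pool.OWN68.fl_scale (by positivity) ?_ (rp ((s - j * w) * J))
      (Prod.ext_iff.mp e).1).trans h2D
    rw [one_mul]
    exact k1
  · refine CH_near hq _ _ fun ω ω' _ _ e => ?_
    have e1 := (Prod.ext_iff.mp e).1
    dsimp only at e1
    rw [hpj, hpj] at e1
    refine (Pool.OWN68.fl_scale (B := 2 ^ j) (rp _).le k2 ?_ e1).trans ?_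
    · have := rp (s * J)
      positivity
    · exact pow_le_pow_right₀ (by norm_num) hj

/-- **LPK for the own paths of two labels**: the coefficients are few bits. -/
theorem lpk_ev (D : ℕ) {i₁ i₂ : ℕ} (hi₁ : 1 ≤ i₁ ∧ i₁ ≤ D) (hi₂ : 1 ≤ i₂ ∧ i₂ ≤ D) {α₁ α₂ : ℝ}
    (hα₂ : 0 < α₂) (hα : α₂ < α₁) {h : ℝ} (hh : 0 < h) (hh2 : h ≤ α₂) {ε : ℝ} (hε : 0 < ε) :
    ∃ δ : ℝ, 0 < δ ∧ ∃ c₀ : ℝ, 0 < c₀ ∧ ∃ N₀ : ℕ, 0 < N₀ ∧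
    ∀ {w q : ℝ} (_ : 0 ≤ w) (_ : 0 < q) (_ : w + α₁ * q ≤ 1),
    ∃ J₀ : ℕ, ∀ J ≥ J₀, ∀ {m : ℕ} (F : Fam m J) (A : F.Ω → Prop) (_ : 0 < Pe F.p A)
      {κ₁ κ₂ : Fin m} {V C Γ : Type} (z' : LnT F → V)
      (G₁ G₂ : V → MvPolynomial (Option (Fin m)) ℝ) (c : LnT F → C) (Y : F.Ω → Γ) {p₁ p₂ : ℝ}
      {N₁ N₂ : ℕ → ℝ},
    (∀ v, (X (some κ₁) - G₁ v).totalDegree ≤ D) → (∀ v, (X (some κ₂) - G₂ v).totalDegree ≤ D) →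
    (J : ℝ) * Real.log 2 - δ * q * J ≤
      CH (Pool.Agent.H49.Ent.cond F.p A True) F.T (fun ω => (F.l ω, F.Z ω)) →
    (∀ ω ω', A ω → A ω' → Y ω = Y ω' → F.T ω = F.T ω' ∧ F.Z ω = F.Z ω') →
    CH (Pool.Agent.H49.Ent.cond F.p A True)
      (fun ω => (z' (slam F ⌊w * J⌋₊ ω), c (slam F ⌊w * J⌋₊ ω))) Y ≤ δ * q * J →
    NwE D {i₁} w p₁ α₁ q N₁ → NwE D {i₂} w p₂ α₂ q N₂ →
    JwE F A κ₁ z' G₁ ⌊w * J⌋₊ D N₁ Y (δ * q * J) →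
    JwE F A κ₂ z' G₂ ⌊w * J⌋₊ D N₂ Y (δ * q * J) →
    CH (Pool.Agent.H49.Ent.cond F.p A True)
        (fun ω => (oj F κ₁ z' G₁ ⌊w * J⌋₊ (p₁ + α₁ * q - i₁ * w) i₁ ω,
          oj F κ₂ z' G₂ ⌊w * J⌋₊ (p₂ + α₂ * q - i₂ * w) i₂ ω))
        (fun ω => (z' (slam F ⌊w * J⌋₊ ω), (c (slam F ⌊w * J⌋₊ ω), F.W ω))) ≤
      CH (Pool.Agent.H49.Ent.cond F.p A True)
        (fun ω => (oj F κ₁ z' G₁ ⌊w * J⌋₊ (p₁ + α₁ * q - i₁ * w) i₁ ω,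
          oj F κ₂ z' G₂ ⌊w * J⌋₊ (p₂ + α₂ * q - i₂ * w) i₂ ω))
        (fun ω => ((z' (slam F ⌊w * J⌋₊ ω), c (slam F ⌊w * J⌋₊ ω)), Y ω)) + δ * q * J →
    RwE F A κ₁ κ₂ z' G₁ G₂ c ⌊w * J⌋₊ p₁ p₂ α₁ α₂ q h (δ * q) c₀ N₀ →
    RwE F A κ₂ κ₁ z' G₂ G₁ c ⌊w * J⌋₊ p₂ p₁ α₂ α₁ q h (δ * q) c₀ N₀ →
    ∀ j, CH (Pool.Agent.H49.Ent.cond F.p A True)
      (fun ω => ⌊jr F ⌊w * J⌋₊ (2 ^ ((p₁ + α₁ * q) * J)) κ₁ z' G₁ j (slam F ⌊w * J⌋₊ ω)⌋) Y ≤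
        ε * q * J ∧
      CH (Pool.Agent.H49.Ent.cond F.p A True)
      (fun ω => ⌊jr F ⌊w * J⌋₊ (2 ^ ((p₂ + α₂ * q) * J)) κ₂ z' G₂ j (slam F ⌊w * J⌋₊ ω)⌋) Y ≤
        ε * q * J := by
  have hα₁ : 0 < α₁ := hα₂.trans hα
  have hD : 1 ≤ D := hi₁.1.trans hi₁.2
  obtain ⟨ε₁, hε₁⟩ : ∃ ε₁ : ℝ, ε₁ = ε / (D + 3) := ⟨_, rfl⟩
  have hε₁0 : 0 < ε₁ := by
    rw [hε₁]
    positivity
  have hεe : (D + 3) * ε₁ = ε := by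
    rw [hε₁]
    field_simp
  obtain ⟨δ₁, hδ₁, c₀, hc₀, N₀, hN₀, H⟩ := lpk_nat D hi₁ hi₂ hα₂ hα hh hh2 hε₁0
  obtain ⟨C, hC, hcoe⟩ := coe_few D
  obtain ⟨δ, hδ⟩ : ∃ δ : ℝ, δ = min (δ₁ / 2) (ε₁ / 2) := ⟨_, rfl⟩
  have hδ0 : 0 < δ := by
    rw [hδ]
    exact lt_min (by positivity) (by positivity)
  have hd1 : δ ≤ δ₁ / 2 := by rw [hδ]; exact min_le_left _ _
  have hd2 : δ ≤ ε₁ / 2 := by rw [hδ]; exact min_le_right _ _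
  refine ⟨δ, hδ0, c₀, hc₀, N₀, hN₀, ?_⟩
  intro w q hw hq hwq
  obtain ⟨J₁, H⟩ := H (w := w) (μ := q) hw hq hwq
  obtain ⟨J₂, hJ₂⟩ := exists_nat_ge ((Real.log 5 + 4 * LK (2 ^ D)) / (δ * q) + C / (ε₁ * q))
  refine ⟨max J₁ J₂, ?_⟩
  intro J hJ m F A hA κ₁ κ₂ V C' Γ z' G₁ G₂ c Y p₁ p₂ N₁ N₂ hg1 hg2 htim hkey hctx hN1 hN2 hj1 hj2
    hI hr1 hr2
  have hαq : 0 < α₁ * q := by positivity
  have hw1 : w ≤ 1 := by linarith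
  have hJ0 : (0 : ℝ) ≤ J := Nat.cast_nonneg J
  have hWJ : ⌊w * J⌋₊ ≤ J := by
    refine Nat.floor_le_of_le ?_
    exact mul_le_of_le_one_left hJ0 hw1
  have hJ2 : (J₂ : ℝ) ≤ J := by exact_mod_cast (le_max_right _ _).trans hJ
  have t0 : 0 ≤ Real.log 5 := Real.log_nonneg (by norm_num)
  have tK := LK_nonneg (2 ^ D)
  have t1 : 0 ≤ (Real.log 5 + 4 * LK (2 ^ D)) / (δ * q) := by positivity
  have t2 : 0 ≤ C / (ε₁ * q) := by positivity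
  have k5 : Real.log 5 + 4 * LK (2 ^ D) ≤ δ * q * J := by
    have h1 : (Real.log 5 + 4 * LK (2 ^ D)) / (δ * q) ≤ J := by linarith
    rw [div_le_iff₀ (by positivity)] at h1
    linarith
  have kC : C ≤ ε₁ * q * J := by
    have h1 : C / (ε₁ * q) ≤ J := by linarith
    rw [div_le_iff₀ (by positivity)] at h1
    linarith
  have hqJ : 0 ≤ q * J := by positivity
  have kd1 : 2 * (δ * q * J) ≤ δ₁ * q * J := by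
    have := mul_le_mul_of_nonneg_right hd1 hqJ
    linarith
  have kd2 : 2 * (δ * q * J) ≤ ε₁ * q * J := by
    have := mul_le_mul_of_nonneg_right hd2 hqJ
    linarith
  have kd0 : 0 ≤ δ * q * J := by positivity
  obtain ⟨q', hq'⟩ : ∃ q' : F.Ω → ℝ, q' = Pool.Agent.H49.Ent.cond F.p A True := ⟨_, rfl⟩
  have hq'l : IsLaw q' := by
    rw [hq']
    exact isLaw_cond F.isLaw hA
  have h0 := hq'l.nonneg
  unfold JwE at hj1 hj2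
  rw [← hq'] at htim hctx hj1 hj2 hI ⊢
  -- the jets of the paths
  have ful : ∀ {κ : Fin m} {G : V → MvPolynomial (Option (Fin m)) ℝ} {p α : ℝ} {N : ℕ → ℝ}
      {I : Finset ℕ}, NwE D I w p α q N →
      (∀ j ≤ D, CH q' (fun ω => ⌊(2 : ℝ) ^ (N j * J) *
        ojet F κ j (G (z' (slam F ⌊w * J⌋₊ ω))) ω⌋) Y ≤ δ * q * J) → ∀ j ≤ D, j ∉ I →
      CH q' (fun ω => ⌊pj F (jR F ⌊w * J⌋₊ (2 ^ ((p + α * q) * J)) κ z' G) ⌊w * J⌋₊ j ω⌋) Y ≤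
        δ₁ * q * J := by
    intro κ G p α N I hN hj j hjD hjI
    have h1 := pj_few (F := F) (w := w) (s := p + α * q) (N := N j) (x := 0) hw hWJ (κ := κ)
      (z' := z') (G := G) hq'l Y j (by linarith [hN.ful j hjD hjI])
    simp only [zero_mul, Real.rpow_zero, div_one] at h1
    linarith [hj j hjD]
  have nat : ∀ {κ : Fin m} {G : V → MvPolynomial (Option (Fin m)) ℝ} {p α : ℝ} {N : ℕ → ℝ}
      {i : ℕ}, i ≤ D → NwE D {i} w p α q N →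
      (∀ j ≤ D, CH q' (fun ω => ⌊(2 : ℝ) ^ (N j * J) *
        ojet F κ j (G (z' (slam F ⌊w * J⌋₊ ω))) ω⌋) Y ≤ δ * q * J) → ∀ j ∈ ({i} : Finset ℕ),
      CH q' (fun ω => ⌊pj F (jR F ⌊w * J⌋₊ (2 ^ ((p + α * q) * J)) κ z' G) ⌊w * J⌋₊ j ω /
        2 ^ ((α * q) * J)⌋) Y ≤ δ₁ * q * J := by
    intro κ G p α N i hiD hN hj j hji
    have h1 := pj_few (F := F) (w := w) (s := p + α * q) (N := N j) (x := α * q) hw hWJ (κ := κ)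
      (z' := z') (G := G) hq'l Y j (by linarith [hN.nat j hji])
    have h2 : j ≤ D := by
      rw [Finset.mem_singleton] at hji
      omega
    linarith [hj j h2]
  have z1 : (0 : ℕ) ∉ ({i₁} : Finset ℕ) := by
    rw [Finset.mem_singleton]
    omega
  have z2 : (0 : ℕ) ∉ ({i₂} : Finset ℕ) := by
    rw [Finset.mem_singleton]
    omega
  -- the jets are not seen
  obtain ⟨R₁, hR₁⟩ : ∃ R₁ : LnT F → Polynomial ℝ,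
      R₁ = jR F ⌊w * J⌋₊ (2 ^ ((p₁ + α₁ * q) * J)) κ₁ z' G₁ := ⟨_, rfl⟩
  obtain ⟨R₂, hR₂⟩ : ∃ R₂ : LnT F → Polynomial ℝ,
      R₂ = jR F ⌊w * J⌋₊ (2 ^ ((p₂ + α₂ * q) * J)) κ₂ z' G₂ := ⟨_, rfl⟩
  have hI' : CH q' (fun ω => (⌊pj F R₁ ⌊w * J⌋₊ i₁ ω⌋, ⌊pj F R₂ ⌊w * J⌋₊ i₂ ω⌋))
        (fun ω => ((z' (slam F ⌊w * J⌋₊ ω), c (slam F ⌊w * J⌋₊ ω)), F.W ω)) ≤
      CH q' (fun ω => (⌊pj F R₁ ⌊w * J⌋₊ i₁ ω⌋, ⌊pj F R₂ ⌊w * J⌋₊ i₂ ω⌋))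
        (fun ω => ((z' (slam F ⌊w * J⌋₊ ω), c (slam F ⌊w * J⌋₊ ω)), Y ω)) + δ₁ * q * J := by
    rw [hR₁, hR₂]
    have a1 := pair_conv (Z := fun ω => ((z' (slam F ⌊w * J⌋₊ ω), c (slam F ⌊w * J⌋₊ ω)), F.W ω))
      h0 (oj_conv (s := p₁ + α₁ * q) (κ := κ₁) (z' := z') (G := G₁) hw hWJ hq'l
        (fun ω => ((z' (slam F ⌊w * J⌋₊ ω), c (slam F ⌊w * J⌋₊ ω)), F.W ω)) hi₁.2).1
      (oj_conv (s := p₂ + α₂ * q) (κ := κ₂) (z' := z') (G := G₂) hw hWJ hq'l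
        (fun ω => ((z' (slam F ⌊w * J⌋₊ ω), c (slam F ⌊w * J⌋₊ ω)), F.W ω)) hi₂.2).1
    have a2 := pair_conv (Z := fun ω => ((z' (slam F ⌊w * J⌋₊ ω), c (slam F ⌊w * J⌋₊ ω)), Y ω))
      h0 (oj_conv (s := p₁ + α₁ * q) (κ := κ₁) (z' := z') (G := G₁) hw hWJ hq'l
        (fun ω => ((z' (slam F ⌊w * J⌋₊ ω), c (slam F ⌊w * J⌋₊ ω)), Y ω)) hi₁.2).2
      (oj_conv (s := p₂ + α₂ * q) (κ := κ₂) (z' := z') (G := G₂) hw hWJ hq'l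
        (fun ω => ((z' (slam F ⌊w * J⌋₊ ω), c (slam F ⌊w * J⌋₊ ω)), Y ω)) hi₂.2).2
    have a3 : CH q' (fun ω => (oj F κ₁ z' G₁ ⌊w * J⌋₊ (p₁ + α₁ * q - i₁ * w) i₁ ω,
          oj F κ₂ z' G₂ ⌊w * J⌋₊ (p₂ + α₂ * q - i₂ * w) i₂ ω))
        (fun ω => ((z' (slam F ⌊w * J⌋₊ ω), c (slam F ⌊w * J⌋₊ ω)), F.W ω)) ≤
        CH q' (fun ω => (oj F κ₁ z' G₁ ⌊w * J⌋₊ (p₁ + α₁ * q - i₁ * w) i₁ ω,
          oj F κ₂ z' G₂ ⌊w * J⌋₊ (p₂ + α₂ * q - i₂ * w) i₂ ω))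
        (fun ω => (z' (slam F ⌊w * J⌋₊ ω), (c (slam F ⌊w * J⌋₊ ω), F.W ω))) :=
      CH_mono_cond h0 fun ω ω' _ _ e => by
        simp only [Prod.mk.injEq] at e ⊢
        exact ⟨e.1.1, e.1.2, e.2⟩
    linarith
  have key := H J ((le_max_left _ _).trans hJ) F A hA R₁ R₂ (fun x => (z' x, c x)) Y
    ⟨fun x => by rw [hR₁]; exact natDegree_jR hg1 x, fun x => by rw [hR₂]; exact natDegree_jR hg2 x,
      by rw [← hq']; linarith, hkey,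
      by rw [← hq']; linarith, by rw [← hq', hR₁]; exact ful hN1 hj1 0 (by omega) z1,
      by rw [← hq', hR₂]; exact ful hN2 hj2 0 (by omega) z2,
      fun j _ hj hI => by rw [← hq', hR₁]; exact ful hN1 hj1 j hj hI,
      fun j _ hj hI => by rw [← hq', hR₂]; exact ful hN2 hj2 j hj hI,
      fun j hj => by rw [← hq', hR₁]; exact nat hi₁.2 hN1 hj1 j hj,
      fun j hj => by rw [← hq', hR₂]; exact nat hi₂.2 hN2 hj2 j hj⟩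
    (by rw [← hq']; exact hI')
    (by
      rw [hR₁, hR₂]
      have h1 := hr2.nfog hA hWJ hc₀
      intro B hB hm i j hij hj
      refine (h1 B hB hm i j hij hj).trans (mul_le_mul_of_nonneg_right ?_ hJ0)
      have : δ * q ≤ δ₁ * q := mul_le_mul_of_nonneg_right (by linarith) hq.le
      linarith)
    (by
      rw [hR₁, hR₂]
      have h1 := hr1.nfog hA hWJ hc₀
      intro B hB hm i j hij hj
      refine (h1 B hB hm i j hij hj).trans (mul_le_mul_of_nonneg_right ?_ hJ0)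
      have : δ * q ≤ δ₁ * q := mul_le_mul_of_nonneg_right (by linarith) hq.le
      linarith)
  rw [← hq', hR₁, hR₂] at key
  have hE0 : 0 ≤ ε₁ * q * J := by positivity
  have hT : ∀ ω ω', 0 < q' ω → 0 < q' ω' → Y ω = Y ω' → F.T ω = F.T ω' := by
    intro ω ω' hω hω' e
    rw [hq'] at hω hω'
    exact (hkey ω ω' (Pool.LA91.of_cond_pos hω) (Pool.LA91.of_cond_pos hω') e).1
  have fin : ∀ {κ : Fin m} {G : V → MvPolynomial (Option (Fin m)) ℝ} {p α : ℝ} {N : ℕ → ℝ}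
      {I : Finset ℕ}, (∀ v, (X (some κ) - G v).totalDegree ≤ D) → (0 : ℕ) ∉ I →
      NwE D I w p α q N →
      (∀ j ≤ D, CH q' (fun ω => ⌊(2 : ℝ) ^ (N j * J) *
        ojet F κ j (G (z' (slam F ⌊w * J⌋₊ ω))) ω⌋) Y ≤ δ * q * J) →
      (∀ j, 1 ≤ j → j ≤ D → CH q' (fun ω => ⌊pj F (jR F ⌊w * J⌋₊ (2 ^ ((p + α * q) * J)) κ z' G)
        ⌊w * J⌋₊ j ω⌋) Y ≤ ε₁ * q * J) →
      ∀ j, CH q' (fun ω => ⌊jr F ⌊w * J⌋₊ (2 ^ ((p + α * q) * J)) κ z' G j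
        (slam F ⌊w * J⌋₊ ω)⌋) Y ≤ ε * q * J := by
    intro κ G p α N I hg hI0 hN hj hk j
    have h1 := hcoe F hq'l (jR F ⌊w * J⌋₊ (2 ^ ((p + α * q) * J)) κ z' G) ⌊w * J⌋₊ Y
      (e := ε₁ * q * J) (x := 0) le_rfl (fun x => natDegree_jR hg x) hT (fun i hi => by
        rw [Real.rpow_zero]
        simp only [div_one]
        rcases Nat.eq_zero_or_pos i with hi0 | hi0
        · subst hi0
          have h2 := pj_few (F := F) (w := w) (s := p + α * q) (N := N 0) (x := 0) hw hWJ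
            (κ := κ) (z' := z') (G := G) hq'l Y 0 (by
              have := hN.ful 0 (by omega) hI0
              linarith)
          simp only [zero_mul, Real.rpow_zero, div_one] at h2
          linarith [hj 0 (by omega)]
        · exact hk i hi0 hi) j
    refine h1.trans ?_
    rw [← hεe]
    linarith
  exact fun j => ⟨fin hg1 z1 hN1 hj1 (fun i h1 h2 => (key i h1 h2).1) j,
    fin hg2 z2 hN2 hj2 (fun i h1 h2 => (key i h1 h2).2) j⟩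

end Pool.LPK12
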