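import Pool.Agent.H12.LPK.Rel

/-!
# The sizes of the displacement polynomials in a large cell
-/

set_option autoImplicit false

namespace Pool.LPK12

open Finset Real
open Pool.Agent.H49.Ent Pool.Agent.H32.Dense Pool.STK Pool.POT Pool.TQ Pool.LPX
open Pool.K2S (Pe)

variable {Ω Ω' τ σ : Type} [Fintype Ω] [Fintype Ω']

/-- The upper bound of the row of the fast coordinate, all digits of the slow one given. -/
def Nz (p : Ω → ℝ) (U Z : Ω → ℤ) (S : Ω → σ) (X : ℕ) (h ϖ d : ℝ) : Prop :=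
  ∀ i ≤ X, ∀ G : Ω → Prop, ϖ ≤ Pe p G →
    CH (cond p G True) Z (fun ω => (tp X i (Z ω), (U ω, S ω))) ≤
      (1 - h) * ((X : ℝ) - i) * Real.log 2 + d

/-- The upper bounds of the rows of the slow coordinate. -/
def Nu (p : Ω → ℝ) (U Z : Ω → ℤ) (S : Ω → σ) (X n : ℕ) (θ h ϖ d : ℝ) : Prop :=
  ∀ i k m : ℕ, i ≤ m → k ≤ X → (m : ℝ) ≤ θ * k → ∀ G : Ω → Prop, ϖ ≤ Pe p G →
    CH (cond p G True) (fun ω => tp n m (U ω)) (fun ω => (tp n i (U ω), (tp X k (Z ω), S ω))) ≤
      (1 - h) * ((m : ℝ) - i) * Real.log 2 + d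

/-- **The abstract hypotheses of LPK.** A law `q` upstairs of `p`, a condition `W`, a time `t` with
`M` digits, full given `W`; the values `U` (slow, `⌈θ X⌉` digits) and `Z` (fast, `X` digits) at the
sample below are polynomials in the time with coefficients `gU`, `gZ`, functions of `W`. -/
structure Lk0 (D : ℕ) (p : Ω → ℝ) (q : Ω' → ℝ) (f : Ω' → Ω) (W : Ω' → τ) (t : Ω' → ℤ)
    (U Z : Ω → ℤ) (S : Ω → σ) (AU AZ : Ω' → ℝ) (gU gZ : Ω' → Fin D → ℝ) (M X : ℕ)
    (C θ h ϖ d : ℝ) : Prop where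
  lp : IsLaw p
  lq : IsLaw q
  im : Im q p f
  t0 : ∀ w, 0 < q w → 0 ≤ t w ∧ t w < 2 ^ M
  XM : X ≤ M
  full : M * Real.log 2 - 4 * d ≤ CH q t W
  u : Rlp q W t (fun w => U (f w)) AU gU M C
  z : Rlp q W t (fun w => Z (f w)) AZ gZ M C
  su : ∀ w, 0 < q w → n1 (gU w) ≤ C * 2 ^ ⌈θ * X⌉₊
  sz : ∀ w, 0 < q w → n1 (gZ w) ≤ C * 2 ^ X
  dS : Det q W (fun w => S (f w))
  nfz : Nz p U Z S X h ϖ d
  nfu : Nu p U Z S X ⌈θ * X⌉₊ θ h ϖ d

/-- The total error. -/
noncomputable def Er2 (X g R Kn : ℕ) (C ϖ' ϖ d : ℝ) : ℝ :=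
  d + (1 / ϖ' / Kn + 1 / ϖ' * ϖ) * (X * Real.log 2 + Real.log 5) + Real.log (Kn + 1) +
    (4 * d + R * Real.log 2) / ϖ' + 2 * (g + R) * Real.log 2 + 4 * Real.log (9 * C)

/-- The cell. -/
def cel {D : ℕ} (gU gZ : Ω' → Fin D → ℝ) (t : Ω' → ℤ) (M X n g N R r : ℕ) (C K : ℝ) (i j : ℕ)
    (w : Ω') : Prop :=
  (idx C g N (n1 (gU w) / 2 ^ n) = i ∧ idx C g N (n1 (gZ w) / 2 ^ X) = j) ∧
    gd t gU M R r K w ∧ gd t gZ M R r K w

theorem tp_range {X R : ℕ} (hRX : R ≤ X) {t : ℤ} (h : 0 ≤ t ∧ t < 2 ^ X) :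
    0 ≤ tp X R t ∧ tp X R t < 2 ^ R := by
  have hz : (0 : ℤ) < 2 ^ (X - R) := by positivity
  refine ⟨Int.ediv_nonneg h.1 hz.le, ?_⟩
  unfold tp
  refine Int.ediv_lt_of_lt_mul hz ?_
  have : (2 : ℤ) ^ R * 2 ^ (X - R) = 2 ^ X := by rw [← pow_add]; congr 1; omega
  rw [this]
  exact h.2

omit [Fintype Ω] in
/-- The time is full given the condition and its first digits, up to the first digits. -/
theorem full_Wr {q : Ω' → ℝ} (hq : IsLaw q) {W : Ω' → τ} {t : Ω' → ℤ}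
    {X R : ℕ} (hRX : R ≤ X) (ht : ∀ ω, 0 < q ω → 0 ≤ t ω ∧ t ω < 2 ^ X) {D : ℝ}
    (full : X * Real.log 2 - D ≤ CH q t W) :
    X * Real.log 2 - (D + R * Real.log 2) ≤ CH q t (Wr W t X R) := by
  have hn := hq.nonneg
  have h1 := CH_le_add hn t (fun ω => tp X R (t ω)) W
  have h2 := time_le hq (fun ω => tp X R (t ω)) W (X := R) fun ω hω => tp_range hRX (ht ω hω)
  have h3 : CH q t (fun ω => (tp X R (t ω), W ω)) ≤ CH q t (Wr W t X R) := by
    refine CH_mono_cond hn fun ω ω' _ _ e => ?_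
    unfold Wr
    simp only [Prod.mk.injEq] at e ⊢
    exact ⟨e.2, e.1⟩
  linarith

variable {D : ℕ} {p : Ω → ℝ} {q : Ω' → ℝ} {f : Ω' → Ω} {W : Ω' → τ} {t : Ω' → ℤ} {U Z : Ω → ℤ}
  {S : Ω → σ} {AU AZ : Ω' → ℝ} {gU gZ : Ω' → Fin D → ℝ} {M X : ℕ} {C θ h ϖ d : ℝ}

/-- **The sizes in a large cell.** -/
theorem cell_okP (H : Lk0 D p q f W t U Z S AU AZ gU gZ M X C θ h ϖ d) (hC : 1 ≤ C)
    (hθ0 : 0 < θ) (hθ1 : θ < 1) (hh0 : 0 < h) (hh1 : h ≤ 1) (hϖ : 0 ≤ ϖ) (hd : 0 ≤ d)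
    {g N Kn R r : ℕ} {K C₂ : ℝ} (hN : X ≤ N * g) (hKn : 0 < Kn) (hK : 1 ≤ K)
    (hR : 4 * K * (D ^ 2 + 1) * 2 ^ (r * D) ≤ 2 ^ R) (hRM : R ≤ M)
    (hC₂ : C₂ = (D + 2) * C) {ϖ' : ℝ} (hϖ' : 0 < ϖ') (i j : ℕ)
    (hG : ϖ' ≤ Pe q (cel gU gZ t M X ⌈θ * X⌉₊ g N R r C K i j)) {e : ℝ}
    (he : Er2 X g R Kn C₂ ϖ' ϖ d ≤ e * (h * Real.log 2)) :
    (X : ℝ) - (j * g : ℕ) ≤ (2 * e + 2) / (1 - θ) ∧
      (⌈θ * X⌉₊ : ℝ) - (i * g : ℕ) ≤ (2 * e + 2) / (1 - θ) + 2 + e := by
  classical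
  have hp := H.lp
  have hq := H.lq
  obtain ⟨n, hnd⟩ : ∃ n : ℕ, n = ⌈θ * X⌉₊ := ⟨_, rfl⟩
  have HNU := H.nfu
  have HSU := H.su
  rw [← hnd] at hG HNU HSU ⊢
  obtain ⟨G, hGd⟩ : ∃ G, G = cel gU gZ t M X n g N R r C K i j := ⟨_, rfl⟩
  rw [← hGd] at hG
  have hD0 : (0 : ℝ) ≤ D := Nat.cast_nonneg D
  have hC0 : 0 ≤ C := by linarith
  have hDC : 0 ≤ D * C := by positivity
  have hC₂1 : 1 ≤ C₂ := by
    rw [hC₂]
    linarith
  have hC₂8 : 2 * C ≤ C₂ := by
    rw [hC₂]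
    linarith
  have hC₂D : D * C ≤ C₂ := by
    rw [hC₂]
    linarith
  have hXr : (0 : ℝ) ≤ X := Nat.cast_nonneg X
  have hn1 : θ * X ≤ n := by
    rw [hnd]
    exact Nat.le_ceil _
  have hn2 : (n : ℝ) < θ * X + 1 := by
    rw [hnd]
    exact Nat.ceil_lt_add_one (by positivity)
  have hnX : n ≤ X := by
    rw [hnd, Nat.ceil_le]
    exact mul_le_of_le_one_left hXr hθ1.le
  have hXM := H.XM
  have hG0 : 0 < Pe q G := lt_of_lt_of_le hϖ' hG
  have hl2 : 0 < Real.log 2 := Real.log_pos (by norm_num)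
  have hl9 : 0 ≤ Real.log (9 * C₂) := Real.log_nonneg (by linarith)
  obtain ⟨W', hW'⟩ : ∃ W', W' = Wr W t M R := ⟨_, rfl⟩
  have full' := full_Wr hq hRM H.t0 H.full
  rw [← hW'] at full'
  have hdG : Det q W' G := by
    intro w w' a b e
    rw [hW'] at e
    have e0 : W w = W w' := (Prod.ext_iff.mp e).1
    have e1 := H.u.dc w w' a b e0
    have e2 := H.z.dc w w' a b e0
    have e3 := det_gd (t := t) (X := M) H.u.dc R r K w w' a b e
    have e4 := det_gd (t := t) (X := M) H.z.dc R r K w w' a b e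
    rw [hGd]
    unfold cel
    rw [e1, e2, e3, e4]
  -- the law of the cell
  obtain ⟨ρ, hr⟩ : ∃ ρ, ρ = cond q G True := ⟨_, rfl⟩
  have hrl : IsLaw ρ := by
    rw [hr]
    exact cond_law hq.nonneg hG0
  have hrq : ∀ w, 0 < ρ w → 0 < q w := fun w hw => by
    rw [hr] at hw
    exact ((cond_pos_iff hq.nonneg G True w).1 hw).1
  have hrG : ∀ w, 0 < ρ w → G w := fun w hw => by
    rw [hr] at hw
    have := ((cond_pos_iff hq.nonneg G True w).1 hw).2
    simpa using this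
  have hUr : Rlp ρ W t (fun w => U (f w)) AU gU M C :=
    ⟨fun w w' a b => H.u.dA w w' (hrq w a) (hrq w' b),
    fun w w' a b => H.u.dc w w' (hrq w a) (hrq w' b), fun w a => H.u.rel w (hrq w a)⟩
  have hZr : Rlp ρ W t (fun w => Z (f w)) AZ gZ M C :=
    ⟨fun w w' a b => H.z.dA w w' (hrq w a) (hrq w' b),
    fun w w' a b => H.z.dc w w' (hrq w a) (hrq w' b), fun w a => H.z.rel w (hrq w a)⟩
  have ht : ∀ w, 0 < ρ w → 0 ≤ t w ∧ t w < 2 ^ M := fun w hw => H.t0 w (hrq w hw)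
  obtain ⟨Df, hDf⟩ : ∃ Df : ℝ, Df = (4 * d + R * Real.log 2) / ϖ' := ⟨_, rfl⟩
  have hDf0 : 0 ≤ Df := by
    rw [hDf]
    positivity
  have fullr : M * Real.log 2 - Df ≤ CH ρ t W' := by
    have h1 := time_ev hq t W' hdG H.t0 full' hG0
    rw [← hr] at h1
    refine le_trans ?_ h1
    have h2 : (4 * d + R * Real.log 2) / Pe q G ≤ Df := by
      rw [hDf]
      exact div_le_div_of_nonneg_left (by positivity) hϖ' hG
    linarith
  -- sizes
  obtain ⟨a, ha⟩ : ∃ a : ℕ, a = i * g := ⟨_, rfl⟩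
  obtain ⟨b, hb⟩ : ∃ b : ℕ, b = j * g := ⟨_, rfl⟩
  have abn : ∀ (c : Fin D → ℝ) (n : ℕ), |n1 c / 2 ^ n| = n1 c / 2 ^ n := fun c n =>
    abs_of_nonneg (div_nonneg (n1_nonneg _) (by positivity))
  have szu : ∀ w, 0 < ρ w → n1 (gU w) / 2 ^ n ≤ C := by
    intro w hw
    rw [div_le_iff₀ (by positivity)]
    exact HSU w (hrq w hw)
  have szz : ∀ w, 0 < ρ w → n1 (gZ w) / 2 ^ X ≤ C := by
    intro w hw
    rw [div_le_iff₀ (by positivity)]
    exact H.sz w (hrq w hw)
  have su1 : ∀ w, 0 < ρ w → n1 (gU w) / 2 ^ n * 2 ^ a ≤ C := by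
    intro w hw
    have e0 : |n1 (gU w) / 2 ^ n| ≤ C := by
      rw [abn]
      exact szu w hw
    have e1 := idx_spec (g := g) (N := N) e0
    have e2 := hrG w hw
    rw [hGd] at e2
    rw [e2.1.1, abn, ← ha] at e1
    exact e1
  have sz1 : ∀ w, 0 < ρ w → n1 (gZ w) / 2 ^ X * 2 ^ b ≤ C := by
    intro w hw
    have e0 : |n1 (gZ w) / 2 ^ X| ≤ C := by
      rw [abn]
      exact szz w hw
    have e1 := idx_spec (g := g) (N := N) e0
    have e2 := hrG w hw
    rw [hGd] at e2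
    rw [e2.1.2, abn, ← hb] at e1
    exact e1
  have su2 : a < X → ∀ w, 0 < ρ w → 1 ≤ n1 (gU w) / 2 ^ n * 2 ^ (a + g) := by
    intro haX w hw
    have e2 := hrG w hw
    rw [hGd] at e2
    have e3 : i < N := by
      by_contra hc
      have : N * g ≤ i * g := Nat.mul_le_mul_right g (not_lt.1 hc)
      omega
    have e4 := idx_low hC (g := g) (N := N) (x := n1 (gU w) / 2 ^ n) (by rw [e2.1.1]; exact e3)
    rw [e2.1.1, abn, ← ha] at e4
    exact e4
  have sz2 : b < X → ∀ w, 0 < ρ w → 1 ≤ n1 (gZ w) / 2 ^ X * 2 ^ (b + g) := by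
    intro hbX w hw
    have e2 := hrG w hw
    rw [hGd] at e2
    have e3 : j < N := by
      by_contra hc
      have : N * g ≤ j * g := Nat.mul_le_mul_right g (not_lt.1 hc)
      omega
    have e4 := idx_low hC (g := g) (N := N) (x := n1 (gZ w) / 2 ^ X) (by rw [e2.1.2]; exact e3)
    rw [e2.1.2, abn, ← hb] at e4
    exact e4
  have gu : ∀ w, 0 < ρ w → gd t gU M R r K w := fun w hw => by
    have e2 := hrG w hw
    rw [hGd] at e2
    exact e2.2.1
  have gz : ∀ w, 0 < ρ w → gd t gZ M R r K w := fun w hw => by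
    have e2 := hrG w hw
    rw [hGd] at e2
    exact e2.2.2
  have upU : Dup ρ W' t (fun w => U (f w)) M n a C₂ := by
    rw [hW']
    exact hUr.up ht su1 hC₂8 hC₂D R
  have upZ : Dup ρ W' t (fun w => Z (f w)) M X b C₂ := by
    rw [hW']
    exact hZr.up ht sz1 hC₂8 hC₂D R
  have loU : a < X → Dlo ρ W' t (fun w => U (f w)) M n (a + (g + R)) C₂ := by
    intro haX
    rw [hW', ← add_assoc]
    exact hUr.lo ht hK hR hRM (su2 haX) gu hC₂8
  have loZ : b < X → Dlo ρ W' t (fun w => Z (f w)) M X (b + (g + R)) C₂ := by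
    intro hbX
    rw [hW', ← add_assoc]
    exact hZr.lo ht hK hR hRM (sz2 hbX) gz hC₂8
  -- the record of the third sample
  have hS : Det ρ W' (fun w => S (f w)) := by
    intro w w' x y e'
    rw [hW'] at e'
    exact H.dS w w' (hrq w x) (hrq w' y) (Prod.ext_iff.mp e').1
  obtain ⟨Q, hQ⟩ : ∃ Q : ℝ, Q = (1 / ϖ' / Kn + 1 / ϖ' * ϖ) := ⟨_, rfl⟩
  have hQ0 : 0 ≤ Q := by
    rw [hQ]
    positivity
  have hlK : 0 ≤ Real.log ((Kn : ℝ) + 1) := Real.log_nonneg (by
    have : (0 : ℝ) ≤ Kn := Nat.cast_nonneg _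
    linarith)
  have hl5 : 0 ≤ Real.log 5 := Real.log_nonneg (by norm_num)
  have hErE : Er2 X g R Kn C₂ ϖ' ϖ d = d + Q * (X * Real.log 2 + Real.log 5) +
      Real.log (Kn + 1) + Df + 2 * (g + R) * Real.log 2 + 4 * Real.log (9 * C₂) := by
    rw [hQ, hDf]
    rfl
  have hgR : 0 ≤ ((g : ℝ) + R) * Real.log 2 := by positivity
  have hQX : 0 ≤ Q * (X * Real.log 2 + Real.log 5) := by positivity
  have he0 : 0 ≤ e := by
    by_contra hc
    push Not at hc
    have h1 : e * (h * Real.log 2) < 0 := mul_neg_of_neg_of_pos hc (by positivity)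
    rw [hErE] at he
    linarith
  have hQn : Q * (n * Real.log 2 + Real.log 5) ≤ Q * (X * Real.log 2 + Real.log 5) := by
    refine mul_le_mul_of_nonneg_left ?_ hQ0
    have : (n : ℝ) * Real.log 2 ≤ X * Real.log 2 :=
      mul_le_mul_of_nonneg_right (by exact_mod_cast hnX) hl2.le
    linarith
  -- claim (a)
  have claimA : ∀ k m : ℕ, k ≤ X → k ≤ b → (m : ℝ) ≤ θ * k → (m : ℝ) ≤ a + e := by
    intro k m hkX hkb hm
    rcases Nat.lt_or_ge a m with ham | ham
    · have hmn : m ≤ n := by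
        have h1 : (m : ℝ) ≤ n := by
          have : θ * k ≤ θ * X := mul_le_mul_of_nonneg_left (by exact_mod_cast hkX) hθ0.le
          linarith
        exact_mod_cast h1
      have haX : a < X := lt_of_lt_of_le ham (hmn.trans hnX)
      obtain ⟨β', hβ⟩ : ∃ β' : ℝ, β' = (1 - h) * ((m : ℝ) - a) * Real.log 2 + d := ⟨_, rfl⟩
      have hma : (0 : ℝ) ≤ (m : ℝ) - a := by
        have : (a : ℝ) ≤ m := by exact_mod_cast ham.le
        linarith
      have hβ0 : 0 ≤ β' := by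
        have : 0 ≤ (1 - h) * ((m : ℝ) - a) * Real.log 2 :=
          mul_nonneg (mul_nonneg (by linarith) hma) hl2.le
        linarith
      have hup := up_row hp hq H.im hϖ' hG hϖ (V := U) hmn ham.le
        (fun ω => (tp X k (Z ω), S ω)) hβ0
        (fun G' hG' => by rw [hβ]; exact HNU a k m ham.le hkX hm G' hG') hKn
      rw [← hr, ← hQ] at hup
      have hKr : CH ρ (fun w => (tp X k (Z (f w)), S (f w))) W' ≤ Real.log (9 * C₂) := by
        have g1 := CH_subadd hrl.nonneg (fun w => tp X k (Z (f w))) (fun w => S (f w)) W'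
        rw [CH_eq_zero hrl.nonneg hS, add_zero] at g1
        refine g1.trans ?_
        have g2 := upZ.few hrl hC₂1 ht (m := k) 0 (by omega)
        simpa using g2
      have g3 := disp_a hrl upU (loU haX) hC₂1 ham.le hmn (hnX.trans hXM) ht fullr
        (fun w => (tp X k (Z (f w)), S (f w))) hKr hup
      have g4 : h * ((m : ℝ) - a) * Real.log 2 ≤ Er2 X g R Kn C₂ ϖ' ϖ d := by
        rw [hErE]
        rw [hβ] at g3
        push_cast at g3
        have g7 : (1 - h) * ((m : ℝ) - a) * Real.log 2 =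
            ((m : ℝ) - a) * Real.log 2 - h * ((m : ℝ) - a) * Real.log 2 := by ring
        rw [g7] at g3
        linarith
      have g5 : ((m : ℝ) - a) * (h * Real.log 2) ≤ e * (h * Real.log 2) := by
        refine le_trans (le_of_eq ?_) (g4.trans he)
        ring
      have g6 := le_of_mul_le_mul_right g5 (by positivity)
      linarith
    · have : (m : ℝ) ≤ a := by exact_mod_cast ham
      linarith
  -- claim (b)
  have hθ' : 0 < 1 - θ := by linarith
  have claimB : (X : ℝ) - b ≤ (2 * e + 2) / (1 - θ) := by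
    rcases Nat.lt_or_ge b X with hbX | hbX
    · -- the size of `a`
      have hA := claimA b ⌊θ * b⌋₊ hbX.le le_rfl (Nat.floor_le (by positivity))
      have hA1 := (Nat.lt_floor_add_one (θ * (b : ℝ))).le
      obtain ⟨x, hx⟩ : ∃ x : ℕ, x = n - a := ⟨_, rfl⟩
      have hnr : (x : ℝ) ≤ θ * ((X : ℝ) - b) + 2 + e := by
        have hXb : (0 : ℝ) ≤ (X : ℝ) - b := by
          have : (b : ℝ) ≤ X := by exact_mod_cast hbX.le
          linarith
        rcases Nat.lt_or_ge a n with ham | ham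
        · rw [hx, Nat.cast_sub ham.le]
          linarith
        · rw [hx, Nat.sub_eq_zero_of_le ham, Nat.cast_zero]
          positivity
      have key : (X : ℝ) - (b + x) ≤ e := by
        rcases Nat.lt_or_ge (b + x) X with hy | hy
        · obtain ⟨β', hβ⟩ : ∃ β' : ℝ,
            β' = (1 - h) * ((X : ℝ) - (b + x : ℕ)) * Real.log 2 + d := ⟨_, rfl⟩
          have hma : (0 : ℝ) ≤ (X : ℝ) - (b + x : ℕ) := by
            have : ((b + x : ℕ) : ℝ) ≤ X := by exact_mod_cast hy.le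
            linarith
          have hβ0 : 0 ≤ β' := by
            have : 0 ≤ (1 - h) * ((X : ℝ) - (b + x : ℕ)) * Real.log 2 :=
              mul_nonneg (mul_nonneg (by linarith) hma) hl2.le
            linarith
          have hup := up_row hp hq H.im hϖ' hG hϖ (V := Z) (m := X) (i := b + x) le_rfl hy.le
            (fun ω => (U ω, S ω)) hβ0 (fun G' hG' => by
              rw [hβ]
              have := H.nfz (b + x) hy.le G' hG'
              simp only [tp_self]
              exact this) hKn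
          rw [← hr, ← hQ] at hup
          simp only [tp_self] at hup
          rw [hx] at hup
          have g3 := disp_b (m := n) (S := fun w => S (f w)) hrl upU
            (fun han => loU (lt_of_lt_of_le han hnX)) upZ (loZ hbX) hC₂1
            le_rfl hbX.le hXM ht fullr hS (by simp only [tp_self]; exact hup)
          rw [← hx] at g3
          have g4 : h * ((X : ℝ) - (b + x : ℕ)) * Real.log 2 ≤ Er2 X g R Kn C₂ ϖ' ϖ d := by
            rw [hErE]
            rw [hβ] at g3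
            push_cast at g3 ⊢
            have g7 : (1 - h) * ((X : ℝ) - (b + x)) * Real.log 2 =
                ((X : ℝ) - (b + x)) * Real.log 2 - h * ((X : ℝ) - (b + x)) * Real.log 2 := by ring
            rw [g7] at g3
            linarith
          have g5 : ((X : ℝ) - (b + x : ℕ)) * (h * Real.log 2) ≤ e * (h * Real.log 2) := by
            refine le_trans (le_of_eq ?_) (g4.trans he)
            ring
          have g6 := le_of_mul_le_mul_right g5 (by positivity)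
          push_cast at g6
          linarith
        · have : (X : ℝ) ≤ b + x := by exact_mod_cast hy
          linarith
      rw [le_div_iff₀ hθ']
      have e7 : ((X : ℝ) - b) * (1 - θ) = ((X : ℝ) - b) - θ * ((X : ℝ) - b) := by ring
      rw [e7]
      linarith
    · have h1 : (X : ℝ) - b ≤ 0 := by
        have : (X : ℝ) ≤ b := by exact_mod_cast hbX
        linarith
      exact h1.trans (by positivity)
  refine ⟨by rw [← hb]; exact claimB, ?_⟩
  -- the size of `a`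
  obtain ⟨k, hk⟩ : ∃ k : ℕ, k = min b X := ⟨_, rfl⟩
  have hkX : k ≤ X := by rw [hk]; exact min_le_right _ _
  have hkb : k ≤ b := by rw [hk]; exact min_le_left _ _
  have hA := claimA k ⌊θ * k⌋₊ hkX hkb (Nat.floor_le (by positivity))
  have hA1 := (Nat.lt_floor_add_one (θ * (k : ℝ))).le
  have hkr : (X : ℝ) - k ≤ (2 * e + 2) / (1 - θ) := by
    rcases le_or_gt b X with h1 | h1
    · have : k = b := by rw [hk]; exact min_eq_left h1
      rw [this]
      exact claimB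
    · have : k = X := by rw [hk]; exact min_eq_right h1.le
      rw [this, sub_self]
      positivity
  have hkX' : (k : ℝ) ≤ X := by exact_mod_cast hkX
  have : θ * ((X : ℝ) - k) ≤ 1 * ((X : ℝ) - k) := by
    refine mul_le_mul_of_nonneg_right hθ1.le ?_
    linarith
  rw [← ha]
  have e8 : θ * ((X : ℝ) - k) = θ * X - θ * k := by ring
  rw [e8, one_mul] at this
  linarith

end Pool.LPK12
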