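import Pool.Agent.H12.LPK.Pq

/-!
# LPK for own paths: the record of the ball and the codes
-/

set_option autoImplicit false

namespace Pool.LPK12

open Finset Real
open Pool.Agent.H49.Ent Pool.Agent.H32.Dense Pool.STK Pool.KA Pool.KSAT Pool.K2S Pool.PB Pool.GEN
open Pool.S6C Pool.LA91 Pool.OWN68 Pool.AJ18 Pool.PAIR76 Pool.PN18

variable {m J : ℕ}

/-- The constant `K` converts jets and coefficients. -/
def Cvt (D : ℕ) (K : ℝ) : Prop := 1 ≤ K ∧ ∀ (R R' : Polynomial ℝ) (x : ℝ) (i : ℕ),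
    R.natDegree ≤ D → R'.natDegree ≤ D → 0 ≤ x → x ≤ 1 →
    (((∀ j, i < j → |(Pq R).coeff j - (Pq R').coeff j| ≤ 1) →
      (|(Pq R).coeff i - (Pq R').coeff i| ≤ 1 →
        |(Polynomial.derivative^[i] R).eval (2 * x - 1) -
          (Polynomial.derivative^[i] R').eval (2 * x - 1)| ≤ K) ∧
      (|(Polynomial.derivative^[i] R).eval (2 * x - 1) -
          (Polynomial.derivative^[i] R').eval (2 * x - 1)| ≤ 1 →
        |(Pq R).coeff i - (Pq R').coeff i| ≤ K)) ∧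
    ∀ B : ℝ, (∀ j, i ≤ j → j ≤ D → |(Polynomial.derivative^[j] R).eval (2 * x - 1) -
          (Polynomial.derivative^[j] R').eval (2 * x - 1)| ≤ B) → 0 ≤ B →
      |(Pq R).coeff i - (Pq R').coeff i| ≤ K * B)

/-- The jets but the one of order `i₀`, which is known to units `2 ^ x`. -/
noncomputable def jv (F : Fam m J) (R : LnT F → Polynomial ℝ) (W D i₀ : ℕ) (x : ℝ) (ω : F.Ω)
    (j : Fin (D + 1)) : ℤ :=
  if (j : ℕ) = i₀ then ⌊pj F R W j ω / 2 ^ x⌋ else ⌊pj F R W j ω⌋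

/-- The coefficients of the orders above `i₀`. -/
noncomputable def hv (F : Fam m J) (R : LnT F → Polynomial ℝ) (D i₀ : ℕ) (x : LnT F)
    (j : Fin (D + 1)) : ℤ :=
  if i₀ < (j : ℕ) then ⌊(Pq (R x)).coeff j⌋ else 0

/-- The code of a line. -/
noncomputable def cd (F : Fam m J) (R : LnT F → Polynomial ℝ) (i₀ : ℕ) (x : LnT F) : ℤ :=
  ⌊(Pq (R x)).coeff i₀⌋

section

variable {F : Fam m J} {R : LnT F → Polynomial ℝ} {W D i₀ : ℕ} {x K : ℝ} {q : F.Ω → ℝ} {Γ : Type}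
  {G : F.Ω → Γ}

theorem pj_eq (k : ℕ) (ω : F.Ω) : pj F R W k ω =
    (Polynomial.derivative^[k] (R (slam F W ω))).eval (2 * ((tm F W ω : ℝ) / 2 ^ (J - W)) - 1) := by
  unfold pj
  rw [tm_uw]

theorem Pq_pj (k : ℕ) (ω : F.Ω) : (Polynomial.derivative^[k] (Pq (R (slam F W ω)))).eval
    ((tm F W ω : ℝ) / 2 ^ (J - W)) = 2 ^ k * pj F R W k ω := by
  rw [Pq_jet, pj_eq]

theorem pj_zero (hdeg : ∀ y, (R y).natDegree ≤ D) {k : ℕ} (hk : D < k) (ω : F.Ω) :
    pj F R W k ω = 0 := by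
  unfold pj
  rw [Polynomial.iterate_derivative_eq_zero (lt_of_le_of_lt (hdeg _) hk), Polynomial.eval_zero]

/-- The jets of two samples over one record. -/
theorem jv_jet (hx : 0 ≤ x) (hdeg : ∀ y, (R y).natDegree ≤ D) {ω ω' : F.Ω}
    (h : jv F R W D i₀ x ω = jv F R W D i₀ x ω') (k : ℕ) :
    |pj F R W k ω - pj F R W k ω'| ≤ 2 ^ x ∧
      (k ≠ i₀ → |pj F R W k ω - pj F R W k ω'| ≤ 1) := by
  have h1 : (1 : ℝ) ≤ 2 ^ x := Real.one_le_rpow (by norm_num) hx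
  by_cases hk : k ≤ D
  · have h2 := congrFun h (⟨k, by omega⟩ : Fin (D + 1))
    unfold jv at h2
    by_cases hi : k = i₀
    · simp only [hi, if_true] at h2
      refine ⟨?_, fun h3 => absurd hi h3⟩
      rw [hi]
      exact of_floor_div (Real.rpow_pos_of_pos (by norm_num) x) h2
    · simp only [hi, if_false] at h2
      have h3 := floor_eq_abs h2
      exact ⟨h3.trans h1, fun _ => h3⟩
  · rw [pj_zero hdeg (by omega), pj_zero hdeg (by omega), sub_zero, abs_zero]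
    exact ⟨by positivity, fun _ => zero_le_one⟩

/-- **The hypotheses on one coordinate.** -/
theorem crq_of (hK : Cvt D K) {n : ℕ} {C₀ C : ℝ} (hi1 : 1 ≤ i₀) (hiD : i₀ ≤ D)
    (hdeg : ∀ y, (R y).natDegree ≤ D) (hx : 0 ≤ x) (h2x : (2 : ℝ) ^ x ≤ C₀ * 2 ^ n)
    (hC : K * C₀ + 1 + 2 ^ D ≤ C) (hC₀ : 0 ≤ C₀) (ht : Det q G (tm F W))
    (hj : Det q G (jv F R W D i₀ x)) :
    Crq D i₀ q G (slam F W) (tm F W) (fun ω => ⌊pj F R W 0 ω⌋)
      (fun ω => cd F R i₀ (slam F W ω)) (fun ω => Pq (R (slam F W ω))) (J - W) n C := by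
  have h2D : (1 : ℝ) ≤ 2 ^ D := one_le_pow₀ (by norm_num)
  have hK0 : 0 ≤ K * C₀ := mul_nonneg (by linarith [hK.1]) hC₀
  have hn : (1 : ℝ) ≤ 2 ^ n := one_le_pow₀ (by norm_num)
  refine ⟨hi1, hiD, ?_, ?_, fun ω _ => Pq_deg (hdeg _), ?_, ?_, ?_, ?_⟩
  · intro ω ω' _ _ e
    show Pq (R (slam F W ω)) = Pq (R (slam F W ω'))
    rw [e]
  · intro ω ω' _ _ e
    show cd F R i₀ (slam F W ω) = cd F R i₀ (slam F W ω')
    rw [e]
  · intro ω _
    have h1 := Pq_pj (F := F) (R := R) (W := W) 0 ω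
    simp only [Function.iterate_zero, id_eq, pow_zero, one_mul] at h1
    rw [h1]
    have h2 := Int.floor_le (pj F R W 0 ω)
    have h3 := Int.lt_floor_add_one (pj F R W 0 ω)
    rw [abs_le]
    constructor <;> linarith
  · intro ω ω' a b e k hk
    have h1 := (jv_jet hx hdeg (hj ω ω' a b e) k).2 hk
    rw [Pq_pj, Pq_pj, ← mul_sub, abs_mul, abs_of_nonneg (by positivity : (0 : ℝ) ≤ 2 ^ k)]
    by_cases hkD : k ≤ D
    · have h2 : (2 : ℝ) ^ k ≤ 2 ^ D := pow_le_pow_right₀ (by norm_num) hkD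
      calc (2 : ℝ) ^ k * |pj F R W k ω - pj F R W k ω'| ≤ 2 ^ D * 1 :=
            mul_le_mul h2 h1 (abs_nonneg _) (by positivity)
        _ ≤ C := by linarith
    · rw [pj_zero hdeg (by omega), pj_zero hdeg (by omega), sub_zero, abs_zero, mul_zero]
      linarith
  · intro ω _
    have h2 := Int.floor_le ((Pq (R (slam F W ω))).coeff i₀)
    have h3 := Int.lt_floor_add_one ((Pq (R (slam F W ω))).coeff i₀)
    unfold cd
    rw [abs_le]
    constructor <;> linarith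
  · intro ω ω' a b e
    have e1 := ht ω ω' a b e
    have h1 := (hK.2 (R (slam F W ω)) (R (slam F W ω')) ((tm F W ω : ℝ) / 2 ^ (J - W)) i₀
      (hdeg _) (hdeg _) (tm_unit F W ω).1 (tm_unit F W ω).2).2 (2 ^ x) (fun j _ _ => by
        have h2 := (jv_jet hx hdeg (hj ω ω' a b e) j).1
        rw [pj_eq, pj_eq, ← e1] at h2
        exact h2) (Real.rpow_pos_of_pos (by norm_num) x).le
    have h2 := floor_sub_abs ((Pq (R (slam F W ω))).coeff i₀) ((Pq (R (slam F W ω'))).coeff i₀)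
    unfold cd
    have h3 : K * 2 ^ x ≤ K * (C₀ * 2 ^ n) :=
      mul_le_mul_of_nonneg_left h2x (by linarith [hK.1])
    have h4 : (K * C₀ + 1 + 2 ^ D) * 2 ^ n ≤ C * 2 ^ n :=
      mul_le_mul_of_nonneg_right hC (by positivity)
    have h5 : 0 ≤ (2 : ℝ) ^ D * 2 ^ n := by positivity
    have h6 : (K * C₀ + 1 + 2 ^ D) * 2 ^ n = K * (C₀ * 2 ^ n) + 2 ^ n + 2 ^ D * 2 ^ n := by ring
    linarith

/-- The constant of the conversions. -/
noncomputable def LK (K : ℝ) : ℝ := Real.log (2 * ((⌈K⌉₊ + 1 : ℕ) : ℝ) + 1)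

theorem LK_nonneg (K : ℝ) : 0 ≤ LK K := Real.log_nonneg (by
  have : (0 : ℝ) ≤ ((⌈K⌉₊ + 1 : ℕ) : ℝ) := Nat.cast_nonneg _
  linarith)

/-- The higher codes are few given the jets of one time. -/
theorem hv_few (hq : IsLaw q) (hK : Cvt D K) (hdeg : ∀ y, (R y).natDegree ≤ D) (hx : 0 ≤ x)
    (ht : Det q G (tm F W)) (hj : Det q G (jv F R W D i₀ x)) :
    CH q (fun ω => hv F R D i₀ (slam F W ω)) G ≤ (D + 1) * LK K := by
  refine (CH_pis hq.nonneg _ G).trans ?_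
  have h1 : ∀ k ∈ (univ : Finset (Fin (D + 1))),
      CH q (fun ω => hv F R D i₀ (slam F W ω) k) G ≤ LK K := by
    intro k _
    unfold hv
    by_cases hk : i₀ < (k : ℕ)
    · simp only [hk, if_true]
      refine CH_near hq _ G fun ω ω' a b e => ?_
      have e1 := ht ω ω' a b e
      have h2 := (hK.2 (R (slam F W ω)) (R (slam F W ω')) ((tm F W ω : ℝ) / 2 ^ (J - W)) k
        (hdeg _) (hdeg _) (tm_unit F W ω).1 (tm_unit F W ω).2).2 1 (fun j hkj _ => by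
          have h2 := (jv_jet hx hdeg (hj ω ω' a b e) j).2 (by omega)
          rw [pj_eq, pj_eq, ← e1] at h2
          exact h2) zero_le_one
      rw [mul_one] at h2
      exact h2
    · simp only [hk, if_false]
      have h2 : CH q (fun _ : F.Ω => (0 : ℤ)) G = 0 := CH_eq_zero hq.nonneg fun _ _ _ _ _ => rfl
      rw [h2]
      exact LK_nonneg K
  refine (Finset.sum_le_sum h1).trans (le_of_eq ?_)
  rw [Finset.sum_const, Finset.card_univ, Fintype.card_fin, nsmul_eq_mul]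
  push_cast
  ring

/-- The coefficients above `i₀` of two lines with the same higher codes. -/
theorem hv_coeff (hdeg : ∀ y, (R y).natDegree ≤ D) {y y' : LnT F}
    (h : hv F R D i₀ y = hv F R D i₀ y') (j : ℕ) (hj : i₀ < j) :
    |(Pq (R y)).coeff j - (Pq (R y')).coeff j| ≤ 1 := by
  by_cases hD : j ≤ D
  · have h1 := congrFun h (⟨j, by omega⟩ : Fin (D + 1))
    unfold hv at h1
    simp only [hj, if_true] at h1
    exact floor_eq_abs h1
  · rw [Polynomial.coeff_eq_zero_of_natDegree_lt (lt_of_le_of_lt (Pq_deg (hdeg y)) (by omega)),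
      Polynomial.coeff_eq_zero_of_natDegree_lt (lt_of_le_of_lt (Pq_deg (hdeg y')) (by omega)),
      sub_zero, abs_zero]
    exact zero_le_one

/-- The jet from the code. -/
theorem jet_cod (hq : IsLaw q) (hK : Cvt D K) (hdeg : ∀ y, (R y).natDegree ≤ D)
    (ht : Det q G (tm F W)) (hh : Det q G (fun ω => hv F R D i₀ (slam F W ω))) :
    CH q (fun ω => ⌊pj F R W i₀ ω⌋) (fun ω => (cd F R i₀ (slam F W ω), G ω)) ≤ LK K := by
  refine CH_near hq _ _ fun ω ω' a b e => ?_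
  simp only [Prod.mk.injEq] at e
  have e1 := ht ω ω' a b e.2
  have h2 := ((hK.2 (R (slam F W ω)) (R (slam F W ω')) ((tm F W ω : ℝ) / 2 ^ (J - W)) i₀
    (hdeg _) (hdeg _) (tm_unit F W ω).1 (tm_unit F W ω).2).1
      (hv_coeff hdeg (hh ω ω' a b e.2))).1 (floor_eq_abs e.1)
  rw [pj_eq, pj_eq, ← e1]
  exact h2

/-- The code from the jet. -/
theorem cod_jet (hq : IsLaw q) (hK : Cvt D K) (hdeg : ∀ y, (R y).natDegree ≤ D)
    (ht : Det q G (tm F W)) (hh : Det q G (fun ω => hv F R D i₀ (slam F W ω))) :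
    CH q (fun ω => cd F R i₀ (slam F W ω)) (fun ω => (⌊pj F R W i₀ ω⌋, G ω)) ≤ LK K := by
  refine CH_near hq _ _ fun ω ω' a b e => ?_
  simp only [Prod.mk.injEq] at e
  have e1 := ht ω ω' a b e.2
  have h3 := floor_eq_abs e.1
  rw [pj_eq, pj_eq, ← e1] at h3
  exact ((hK.2 (R (slam F W ω)) (R (slam F W ω')) ((tm F W ω : ℝ) / 2 ^ (J - W)) i₀
    (hdeg _) (hdeg _) (tm_unit F W ω).1 (tm_unit F W ω).2).1
      (hv_coeff hdeg (hh ω ω' a b e.2))).2 h3

end

end Pool.LPK12
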