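import Pool.Agent.H16.LP.Cell

/-!
# Displacements with a full time, bi-Lipschitz

`V` has `n` digits, the time `X` digits; given the condition, the speed of `V` is between
`2 ^ -(a + g)` and `C 2 ^ -a`. `disp_a`, `disp_b`: the blocks of digits which are full, compared with
upper bounds for their entropies.
-/

set_option autoImplicit false

namespace Pool.LPK12

open Finset Real
open Pool.Agent.H49.Ent Pool.Agent.H32.Dense Pool.STK Pool.POT Pool.LPX
open Pool.K2S (Pe)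

variable {Ω τ σ κ : Type}

/-- The upper bound for the speed. -/
def Dup (q : Ω → ℝ) (W : Ω → τ) (t V : Ω → ℤ) (X n a : ℕ) (C : ℝ) : Prop :=
  ∀ ω ω', 0 < q ω → 0 < q ω' → W ω = W ω' →
    |(V ω : ℝ) - V ω'| ≤ C * 2 ^ n / 2 ^ a * (|(t ω : ℝ) - t ω'| / 2 ^ X) + C

/-- The lower bound for the speed. -/
def Dlo (q : Ω → ℝ) (W : Ω → τ) (t V : Ω → ℤ) (X n a : ℕ) (C : ℝ) : Prop :=
  ∀ ω ω', 0 < q ω → 0 < q ω' → W ω = W ω' →
    2 ^ n / 2 ^ a * (|(t ω : ℝ) - t ω'| / 2 ^ X) ≤ |(V ω : ℝ) - V ω'| + C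

theorem Dup.mono {q : Ω → ℝ} {W : Ω → τ} {t V : Ω → ℤ} {X n a : ℕ} {C : ℝ}
    (h : Dup q W t V X n a C) {r : Ω → ℝ} (hr : ∀ ω, 0 < r ω → 0 < q ω) : Dup r W t V X n a C :=
  fun ω ω' x y e => h ω ω' (hr ω x) (hr ω' y) e

theorem Dlo.mono {q : Ω → ℝ} {W : Ω → τ} {t V : Ω → ℤ} {X n a : ℕ} {C : ℝ}
    (h : Dlo q W t V X n a C) {r : Ω → ℝ} (hr : ∀ ω, 0 < r ω → 0 < q ω) : Dlo r W t V X n a C :=
  fun ω ω' x y e => h ω ω' (hr ω x) (hr ω' y) e

theorem tdif {X : ℕ} {t t' : ℤ} (h : 0 ≤ t ∧ t < 2 ^ X) (h' : 0 ≤ t' ∧ t' < 2 ^ X) :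
    |(t : ℝ) - t'| / 2 ^ X ≤ 1 := by
  have f1 : (0 : ℝ) ≤ t := by exact_mod_cast h.1
  have f2 : (t : ℝ) < 2 ^ X := by exact_mod_cast h.2
  have f3 : (0 : ℝ) ≤ t' := by exact_mod_cast h'.1
  have f4 : (t' : ℝ) < 2 ^ X := by exact_mod_cast h'.2
  rw [div_le_one (by positivity), abs_le]
  constructor <;> linarith

theorem pow_div_le {n a : ℕ} {C : ℝ} (hC : 0 ≤ C) : C * 2 ^ n / 2 ^ a ≤ C * 2 ^ (n - a) := by
  rw [div_le_iff₀ (by positivity), mul_assoc, ← pow_add]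
  refine mul_le_mul_of_nonneg_left (pow_le_pow_right₀ (by norm_num) (by omega)) hC

variable [Fintype Ω] {q : Ω → ℝ}

/-- Digits above the displacement are few given `W`. -/
theorem Dup.few {W : Ω → τ} {t V : Ω → ℤ} {X n a : ℕ} {C : ℝ} (hq : IsLaw q)
    (h : Dup q W t V X n a C) (hC : 1 ≤ C) {m : ℕ}
    (ht : ∀ ω, 0 < q ω → 0 ≤ t ω ∧ t ω < 2 ^ X) (x : ℕ) (hx : m ≤ a + x) :
    CH q (fun ω => tp n m (V ω)) W ≤ x * Real.log 2 + Real.log (9 * C) := by
  have hC0 : 0 ≤ C := by linarith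
  have h1 := CH_few_tp hq V W (X := n) (m := m) (L := 2 * C * 2 ^ x) (by
    intro ω ω' y y' e
    have h2 := h ω ω' y y' e
    have h3 := tdif (ht ω y) (ht ω' y')
    have h4 : C * 2 ^ n / 2 ^ a * (|(t ω : ℝ) - t ω'| / 2 ^ X) ≤ C * 2 ^ (n - a) := by
      refine le_trans (mul_le_mul (pow_div_le hC0) h3 (by positivity) (by positivity)) ?_
      rw [mul_one]
    refine (h2.trans (add_le_add_left h4 C)).trans ?_
    have h6 : (2 : ℝ) ^ (n - a) ≤ 2 ^ x * 2 ^ (n - m) := by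
      rw [← pow_add]
      exact pow_le_pow_right₀ (by norm_num) (by omega)
    have h7 : (1 : ℝ) ≤ 2 ^ x * 2 ^ (n - m) := by
      rw [← pow_add]
      exact one_le_pow₀ (by norm_num)
    have h8 : 2 * C * 2 ^ x * 2 ^ (n - m) = C * (2 ^ x * 2 ^ (n - m)) +
      C * (2 ^ x * 2 ^ (n - m)) := by ring
    rw [h8]
    exact add_le_add (mul_le_mul_of_nonneg_left h6 hC0) (le_mul_of_one_le_right (by positivity) h7))
  refine h1.trans ?_
  have h2 : (0 : ℝ) < 2 ^ x := by positivity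
  have h3 : (1 : ℝ) ≤ 2 ^ x := one_le_pow₀ (by norm_num)
  rw [← Real.log_pow, ← Real.log_mul h2.ne' (by positivity)]
  refine Real.log_le_log (by positivity) ?_
  nlinarith

omit [Fintype Ω] in
/-- From the digits of `V` to the time. -/
theorem Dlo.dt {q : Ω → ℝ} {W : Ω → τ} {t V : Ω → ℤ} {X n a : ℕ} {C : ℝ}
    (h : Dlo q W t V X n a C) (hC : 1 ≤ C) {m : ℕ} (hmn : m ≤ n) {ω ω' : Ω} (y : 0 < q ω)
    (y' : 0 < q ω') (e : W ω = W ω') (e1 : tp n m (V ω) = tp n m (V ω')) :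
    |(t ω : ℝ) - t ω'| * 2 ^ m ≤ 2 * C * 2 ^ a * 2 ^ X := by
  have h2 := h ω ω' y y' e
  have h3 := of_tp_eq n m e1
  have h5 : (1 : ℝ) ≤ 2 ^ (n - m) := one_le_pow₀ (by norm_num)
  have h4 : 2 ^ n / 2 ^ a * (|(t ω : ℝ) - t ω'| / 2 ^ X) ≤ 2 * C * 2 ^ (n - m) := by
    refine h2.trans ?_
    nlinarith
  have hn : (2 : ℝ) ^ n = 2 ^ m * 2 ^ (n - m) := by
    rw [← pow_add]
    congr 1
    omega
  have h6 : 2 ^ n / 2 ^ a * (|(t ω : ℝ) - t ω'| / 2 ^ X) =
      |(t ω : ℝ) - t ω'| * 2 ^ m * (2 ^ (n - m) / (2 ^ a * 2 ^ X)) := by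
    rw [hn]
    field_simp
  rw [h6, ← mul_div_assoc, div_le_iff₀ (by positivity)] at h4
  have h7 : |(t ω : ℝ) - t ω'| * 2 ^ m * 2 ^ (n - m) ≤ (2 * C * 2 ^ a * 2 ^ X) * 2 ^ (n - m) := by
    refine h4.trans (le_of_eq ?_)
    ring
  exact le_of_mul_le_mul_right h7 (by positivity)

/-- The top digits of the time are few given the digits of `V`. -/
theorem Dlo.time {W : Ω → τ} {t V : Ω → ℤ} {X n a g : ℕ} {C : ℝ} (hq : IsLaw q)
    (h : Dlo q W t V X n (a + g) C) (hC : 1 ≤ C) {m r : ℕ} (hmn : m ≤ n) (hr : r + a ≤ m) :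
    CH q (fun ω => tp X r (t ω)) (fun ω => (tp n m (V ω), W ω)) ≤
      g * Real.log 2 + Real.log (9 * C) := by
  have h1 := CH_few_tp hq t (fun ω => (tp n m (V ω), W ω)) (X := X) (m := r)
    (L := 2 * C * 2 ^ g) (by
    intro ω ω' x y e
    obtain ⟨e1, e2⟩ := Prod.ext_iff.mp e
    have h2 := h.dt hC hmn x y e2 e1
    have h3 : (2 : ℝ) ^ m ≠ 0 := by positivity
    have h4 : 2 * C * 2 ^ (a + g) * 2 ^ X ≤ 2 * C * 2 ^ g * 2 ^ (X - r) * 2 ^ m := by
      have h5 : (2 : ℝ) ^ (a + g) * 2 ^ X ≤ 2 ^ g * 2 ^ (X - r) * 2 ^ m := by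
        rw [← pow_add, ← pow_add, ← pow_add]
        exact pow_le_pow_right₀ (by norm_num) (by omega)
      have h6 := mul_le_mul_of_nonneg_left h5 (by linarith : 0 ≤ 2 * C)
      linarith
    exact le_of_mul_le_mul_right (h2.trans h4) (by positivity))
  refine h1.trans ?_
  have h2 : (0 : ℝ) < 2 ^ g := by positivity
  have h3 : (1 : ℝ) ≤ 2 ^ g := one_le_pow₀ (by norm_num)
  rw [← Real.log_pow, ← Real.log_mul h2.ne' (by positivity)]
  refine Real.log_le_log (by positivity) ?_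
  nlinarith

/-- **One block.** The digits `(a, m]` of `V` are full given `W`. -/
theorem disp_a {W : Ω → τ} {t V : Ω → ℤ} {X n a g : ℕ} {C D E β : ℝ} (hq : IsLaw q)
    (h1 : Dup q W t V X n a C) (h2 : Dlo q W t V X n (a + g) C) (hC : 1 ≤ C) {m : ℕ} (ham : a ≤ m)
    (hmn : m ≤ n) (hnX : n ≤ X) (ht : ∀ ω, 0 < q ω → 0 ≤ t ω ∧ t ω < 2 ^ X)
    (full : X * Real.log 2 - D ≤ CH q t W) (K : Ω → κ) (hK : CH q K W ≤ E)
    (hup : CH q (fun ω => tp n m (V ω)) (fun ω => (tp n a (V ω), K ω)) ≤ β) :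
    ((m : ℝ) - a) * Real.log 2 ≤ β + D + E + g * Real.log 2 + 2 * Real.log (9 * C) := by
  have hn := hq.nonneg
  -- from above to `W`
  have e1 : CH q (fun ω => tp n m (V ω)) W ≤
      CH q (fun ω => (tp n a (V ω), K ω)) W +
        CH q (fun ω => tp n m (V ω)) (fun ω => ((tp n a (V ω), K ω), W ω)) := CH_le_add hn _ _ _
  have e2 : CH q (fun ω => tp n m (V ω)) (fun ω => ((tp n a (V ω), K ω), W ω)) ≤ β :=
    (CH_mono_cond hn fun _ _ _ _ e => (Prod.ext_iff.mp e).1).trans hup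
  have e3 : CH q (fun ω => (tp n a (V ω), K ω)) W ≤ Real.log (9 * C) + E := by
    refine (CH_subadd hn _ _ _).trans (add_le_add ?_ hK)
    have := h1.few hq hC ht (m := a) 0 (by omega)
    simpa using this
  -- the time
  have e4 := CH_le_add hn (fun ω => tp X (m - a) (t ω)) (fun ω => tp n m (V ω)) W
  have e5 := h2.time hq hC (m := m) (r := m - a) hmn (by omega)
  have e6 := time_tp hq t W (X := X) (r := m - a) (by omega) full
  rw [Nat.cast_sub ham] at e6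
  linarith

/-- **Two blocks.** The digits `(y, X]` of `Z`, `y = b + (m - a)`, are full given `W` and the
digits of `U` up to `m`. -/
theorem disp_b {W : Ω → τ} {t U Z : Ω → ℤ} {M X n a b g m : ℕ} {C D β : ℝ} {S : Ω → σ}
    (hq : IsLaw q) (hU : Dup q W t U M n a C) (hU' : a < m → Dlo q W t U M n (a + g) C)
    (hZ : Dup q W t Z M X b C) (hZ' : Dlo q W t Z M X (b + g) C) (hC : 1 ≤ C)
    (hmn : m ≤ n) (hbX : b ≤ X) (hXM : X ≤ M)
    (ht : ∀ ω, 0 < q ω → 0 ≤ t ω ∧ t ω < 2 ^ M) (full : M * Real.log 2 - D ≤ CH q t W)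
    (hS : Det q W S)
    (hup : CH q Z (fun ω => (tp X (b + (m - a)) (Z ω), (tp n m (U ω), S ω))) ≤ β) :
    ((X : ℝ) - (b + (m - a : ℕ))) * Real.log 2 ≤
      β + D + 2 * g * Real.log 2 + 4 * Real.log (9 * C) := by
  have hn := hq.nonneg
  have hC0 : 0 ≤ C := by linarith
  have hlog2 : 0 ≤ Real.log 2 := Real.log_nonneg (by norm_num)
  have hl9 : 0 ≤ Real.log (9 * C) := Real.log_nonneg (by linarith)
  obtain ⟨y, hy⟩ : ∃ y : ℕ, y = b + (m - a) := ⟨_, rfl⟩
  rw [← hy] at hup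
  obtain ⟨um, hum⟩ : ∃ um : Ω → ℤ, um = fun ω => tp n m (U ω) := ⟨_, rfl⟩
  obtain ⟨zy, hzy⟩ : ∃ zy : Ω → ℤ, zy = fun ω => tp X y (Z ω) := ⟨_, rfl⟩
  -- `U` up to `m`
  have h1 : CH q um W ≤ (m - a : ℕ) * Real.log 2 + Real.log (9 * C) := by
    rw [hum]
    exact hU.few hq hC ht (m := m) (m - a) (by omega)
  -- `Z` up to `y` given `W` and `U`
  have h2 : CH q zy (fun ω => (um ω, W ω)) ≤ g * Real.log 2 + 2 * Real.log (9 * C) := by
    rcases le_or_gt m a with hma | hma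
    · have e : y = b := by omega
      have h0 : CH q zy W ≤ ((0 : ℕ) : ℝ) * Real.log 2 + Real.log (9 * C) := by
        rw [hzy]
        exact hZ.few hq hC ht (m := y) 0 (by omega)
      have h3 : CH q zy (fun ω => (um ω, W ω)) ≤ CH q zy W :=
        CH_mono_cond hn fun _ _ _ _ e => (Prod.ext_iff.mp e).2
      have h4 : 0 ≤ (g : ℝ) * Real.log 2 := by positivity
      simp only [Nat.cast_zero, zero_mul, zero_add] at h0
      linarith
    · have h3 : ∀ ω ω', 0 < q ω → 0 < q ω' → (um ω, W ω) = (um ω', W ω') →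
          |(Z ω : ℝ) - Z ω'| ≤ (3 * C ^ 2 * 2 ^ g) * 2 ^ (X - y) := by
        intro ω ω' x x' e
        obtain ⟨e1, e2⟩ := Prod.ext_iff.mp e
        rw [hum] at e1
        have g1 := (hU' hma).dt hC hmn x x' e2 e1
        have g2 := hZ ω ω' x x' e2
        have g3 : C * 2 ^ X / 2 ^ b * (|(t ω : ℝ) - t ω'| / 2 ^ M) ≤
            2 * C ^ 2 * 2 ^ g * 2 ^ (X - y) := by
          have g4 : C * 2 ^ X / 2 ^ b * (|(t ω : ℝ) - t ω'| / 2 ^ M) =
              C * 2 ^ X * |(t ω : ℝ) - t ω'| / (2 ^ b * 2 ^ M) := by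
            field_simp
          rw [g4, div_le_iff₀ (by positivity)]
          have h5 : (2 : ℝ) ^ X * 2 ^ (a + g) ≤ 2 ^ g * 2 ^ (X - y) * 2 ^ b * 2 ^ m := by
            rw [← pow_add, ← pow_add, ← pow_add, ← pow_add]
            exact pow_le_pow_right₀ (by norm_num) (by omega)
          have g5 : C * 2 ^ X * |(t ω : ℝ) - t ω'| * 2 ^ m ≤
              (2 * C ^ 2 * 2 ^ g * 2 ^ (X - y) * (2 ^ b * 2 ^ M)) * 2 ^ m := by
            have e3 := mul_le_mul_of_nonneg_left g1 (by positivity : 0 ≤ C * 2 ^ X)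
            have e4 := mul_le_mul_of_nonneg_left h5 (by positivity : 0 ≤ 2 * C ^ 2 * 2 ^ M)
            calc C * 2 ^ X * |(t ω : ℝ) - t ω'| * 2 ^ m =
                C * 2 ^ X * (|(t ω : ℝ) - t ω'| * 2 ^ m) := by ring
              _ ≤ C * 2 ^ X * (2 * C * 2 ^ (a + g) * 2 ^ M) := e3
              _ = 2 * C ^ 2 * 2 ^ M * (2 ^ X * 2 ^ (a + g)) := by ring
              _ ≤ 2 * C ^ 2 * 2 ^ M * (2 ^ g * 2 ^ (X - y) * 2 ^ b * 2 ^ m) := e4
              _ = (2 * C ^ 2 * 2 ^ g * 2 ^ (X - y) * (2 ^ b * 2 ^ M)) * 2 ^ m := by ring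
          exact le_of_mul_le_mul_right g5 (by positivity)
        have g10 : (1 : ℝ) ≤ 2 ^ g * 2 ^ (X - y) := by
          rw [← pow_add]
          exact one_le_pow₀ (by norm_num)
        have g11 : C ≤ C ^ 2 * (2 ^ g * 2 ^ (X - y)) := by
          have : C ≤ C ^ 2 := by nlinarith
          exact this.trans (le_mul_of_one_le_right (by positivity) g10)
        linarith
      have h4 : CH q zy (fun ω => (um ω, W ω)) ≤ Real.log (2 * (3 * C ^ 2 * 2 ^ g) + 3) := by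
        rw [hzy]
        exact CH_few_tp hq Z (fun ω => (um ω, W ω)) (X := X) (m := y) h3
      refine h4.trans ?_
      have h5 : (0 : ℝ) < 2 ^ g := by positivity
      have h6 : (1 : ℝ) ≤ 2 ^ g := one_le_pow₀ (by norm_num)
      have h7 : (2 : ℝ) * Real.log (9 * C) = Real.log ((9 * C) ^ 2) := by
        rw [Real.log_pow]; push_cast; ring
      rw [h7, ← Real.log_pow, ← Real.log_mul h5.ne' (by positivity)]
      refine Real.log_le_log (by positivity) ?_
      nlinarith [mul_pos h5 (by positivity : 0 < C ^ 2), sq_nonneg C]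
  -- the time
  have h3 : CH q (fun ω => tp M (X - b) (t ω)) W ≤
      CH q (fun ω => (zy ω, um ω)) W +
        CH q (fun ω => tp M (X - b) (t ω)) (fun ω => ((zy ω, um ω), W ω)) := CH_le_add hn _ _ _
  have h4 : CH q (fun ω => (zy ω, um ω)) W ≤ (m - a : ℕ) * Real.log 2 + Real.log (9 * C) +
      (g * Real.log 2 + 2 * Real.log (9 * C)) := by
    rw [CH_chain hn]
    exact add_le_add h1 h2
  have h5 : CH q (fun ω => tp M (X - b) (t ω)) (fun ω => ((zy ω, um ω), W ω)) ≤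
      CH q Z (fun ω => ((zy ω, um ω), W ω)) +
        CH q (fun ω => tp M (X - b) (t ω)) (fun ω => (Z ω, ((zy ω, um ω), W ω))) :=
    CH_le_add hn _ _ _
  have h6 : CH q Z (fun ω => ((zy ω, um ω), W ω)) ≤ β := by
    refine (CH_mono_cond hn ?_).trans hup
    intro ω ω' x x' e
    simp only [Prod.mk.injEq] at e
    have h7 := hS ω ω' x x' e.2
    rw [hzy, hum] at e
    simp only [Prod.mk.injEq]
    exact ⟨e.1.1, e.1.2, h7⟩
  have h7 : CH q (fun ω => tp M (X - b) (t ω)) (fun ω => (Z ω, ((zy ω, um ω), W ω))) ≤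
      g * Real.log 2 + Real.log (9 * C) := by
    have h8 := hZ'.time hq hC (m := X) (r := X - b) le_rfl (by omega)
    refine le_trans (CH_mono_cond hn ?_) h8
    intro ω ω' x x' e
    simp only [Prod.mk.injEq] at e
    simp only [Prod.mk.injEq]
    exact ⟨by rw [e.1], e.2.2⟩
  have h8 := time_tp hq t W (X := M) (r := X - b) (by omega) full
  rw [Nat.cast_sub hbX] at h8
  nlinarith

open Classical in
/-- **A full variable is rarely in a small set.** -/
theorem bad_mass {W : Ω → τ} {e : Ω → ℤ} (hq : IsLaw q) {R : ℕ} {D : ℝ}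
    (he : ∀ ω, 0 < q ω → 0 ≤ e ω ∧ e ω < 2 ^ R) (full : R * Real.log 2 - D ≤ CH q e W)
    (T : τ → Finset ℤ) {x : ℝ} (hT : ∀ w, Real.log ((T w).card : ℝ) ≤ R * Real.log 2 - x) :
    Pe q (fun ω => e ω ∈ T (W ω)) * x ≤ D + Real.log 2 := by
  have hn := hq.nonneg
  obtain ⟨I, hI⟩ : ∃ I : Ω → Bool, I = fun ω => decide (e ω ∈ T (W ω)) := ⟨_, rfl⟩
  have h1 := CH_le_add hn e I W
  have h2 : CH q I W ≤ Real.log 2 := by
    have := CH_le_card hn hq.sum_one I W (fun _ => Finset.univ) fun _ _ => Finset.mem_univ _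
    rw [Ex_const hq.sum_one] at this
    simpa using this
  have hR : ((Finset.Ico (0 : ℤ) (2 ^ R)).card : ℝ) = 2 ^ R := by
    rw [Int.card_Ico, sub_zero]
    have : ((2 : ℤ) ^ R) = ((2 ^ R : ℕ) : ℤ) := by push_cast; rfl
    rw [this, Int.toNat_natCast]
    push_cast
    rfl
  have h3 := CH_le_card hn hq.sum_one e (fun ω => (I ω, W ω))
    (fun z => if z.1 then T z.2 else Finset.Ico (0 : ℤ) (2 ^ R)) (by
      intro ω hω
      rw [hI]
      by_cases h : e ω ∈ T (W ω)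
      · simp only [h, decide_true, if_true]
      · simp only [h, decide_false]
        rw [if_neg (by simp), Finset.mem_Ico]
        exact he ω hω)
  have h4 : Ex q (fun ω => Real.log ((if (I ω, W ω).1 then T (I ω, W ω).2 else
      Finset.Ico (0 : ℤ) (2 ^ R)).card : ℝ)) ≤
      Ex q (fun ω => R * Real.log 2 - (if e ω ∈ T (W ω) then x else 0)) := by
    refine Ex_mono hn fun ω _ => ?_
    by_cases h : e ω ∈ T (W ω)
    · have e1 : I ω = true := by
        rw [hI]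
        simp only [h, decide_true]
      simp only [e1, if_true, h]
      exact hT (W ω)
    · have e1 : I ω = false := by
        rw [hI]
        simp only [h, decide_false]
      simp only [e1, if_false, h]
      rw [if_neg (by simp), hR, Real.log_pow]
      linarith
  have h5 : Ex q (fun ω => R * Real.log 2 - (if e ω ∈ T (W ω) then x else 0)) =
      R * Real.log 2 - Pe q (fun ω => e ω ∈ T (W ω)) * x := by
    rw [Pool.K2S.Pe_eq]
    have e1 : ∀ ω, q ω * (R * Real.log 2 - (if e ω ∈ T (W ω) then x else 0)) =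
        R * Real.log 2 * q ω - (if e ω ∈ T (W ω) then q ω else 0) * x := by
      intro ω
      split_ifs <;> ring
    unfold Ex
    rw [Finset.sum_congr rfl fun ω _ => e1 ω, Finset.sum_sub_distrib, ← Finset.mul_sum,
      ← Finset.sum_mul, hq.sum_one, mul_one]
    have e2 : ∀ ω, (if e ω ∈ T (W ω) then q ω else 0) = @ite ℝ (e ω ∈ T (W ω))
        (Classical.propDecidable _) (q ω) 0 := by
      intro ω
      by_cases h : e ω ∈ T (W ω) <;> simp only [h, if_true, if_false]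
    simp only [e2]
  linarith

end Pool.LPK12
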