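import Pool.Agent.H12.LPK.Hop

/-!
# One hop, the fast coordinate

`hop_fast`: if the row of `Z` given `U` is not full, the displacement of `Z` has usually not more
digits than that of `U`.
-/

set_option autoImplicit false

namespace Pool.LPK12

open Finset Real
open Pool.Agent.H49.Ent Pool.Agent.H32.Dense Pool.STK Pool.POT Pool.TQ Pool.LPX
open Pool.K2S (Pe)

section

variable {Ω Ω' τ σ : Type} [Fintype Ω] [Fintype Ω']
  {D : ℕ} {p : Ω → ℝ} {q : Ω' → ℝ} {f : Ω' → Ω} {W : Ω' → τ} {t : Ω' → ℤ} {U Z : Ω → ℤ}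
  {S : Ω → σ} {AU AZ : Ω' → ℝ} {gU gZ : Ω' → Fin D → ℝ} {M X n : ℕ} {C h ϖ d : ℝ}

open Classical in
/-- The displacement of `Z`, with all the numbers. -/
theorem hop_nearN (H : Hop D p q f W t U Z S AU AZ gU gZ M C d) (hnX : n ≤ X) (hXM : X ≤ M)
    (hsu : ∀ w, 0 < q w → n1 (gU w) ≤ C * 2 ^ n) (hsz : ∀ w, 0 < q w → n1 (gZ w) ≤ C * 2 ^ X)
    (hrow : Nz p U Z S X h ϖ d) (hC : 1 ≤ C) (hh0 : 0 < h) (hh1 : h ≤ 1) (hϖ : 0 ≤ ϖ)
    (hd : 0 ≤ d)
    {g N Kn R r : ℕ} {K C₂ : ℝ} (hN : X ≤ N * g) (hKn : 0 < Kn) (hK : 1 ≤ K)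
    (hb : ∀ (c : Fin D → ℝ) (R r : ℕ) (lam : ℝ), r ≤ R →
      K * 2 ^ (r * D) * lam < n1 c → ((bads c R lam).card : ℝ) ≤ D * 2 ^ (R - r))
    (hR : 4 * K * (D ^ 2 + 1) * 2 ^ (r * D) ≤ 2 ^ R) (hrR : r ≤ R) (hRM : R ≤ M)
    (hC₂ : C₂ = (D + 2) * C) {ϖ' : ℝ} (hϖ' : 0 < ϖ') {e : ℝ}
    (he : Er3 X g R Kn C₂ ϖ' ϖ d ≤ e * (h * Real.log 2)) {nn : ℕ}
    (hnn : e ≤ nn) {T : ℝ} (hT : C * 2 ^ (nn + g) ≤ T)
    {x : ℝ} (hx0 : 0 < x) (hx : x ≤ r * Real.log 2 - Real.log (D + 1)) :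
    Ex q (fun w => if n1 (gZ w) ≤ T * max 1 (n1 (gU w)) then 0 else 1) ≤
      (N + 2) ^ 2 * ϖ' + 2 * ((d + Real.log 2) / x) := by
  have hq := H.lq
  obtain ⟨P, hP⟩ : ∃ P : ℕ → ℕ → Prop, P = fun i j => X ≤ j * g + (n - i * g) + nn := ⟨_, rfl⟩
  obtain ⟨gu, hgu⟩ : ∃ gu : Ω' → Prop, gu = gd t gU M R r K := ⟨_, rfl⟩
  obtain ⟨gz, hgz⟩ : ∃ gz : Ω' → Prop, gz = gd t gZ M R r K := ⟨_, rfl⟩
  obtain ⟨I, hI⟩ : ∃ I : Ω' → ℕ, I = fun w => idx C g N (n1 (gU w) / 2 ^ n) := ⟨_, rfl⟩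
  obtain ⟨J, hJ⟩ : ∃ J : Ω' → ℕ, J = fun w => idx C g N (n1 (gZ w) / 2 ^ X) := ⟨_, rfl⟩
  obtain ⟨I', hI'⟩ : ∃ I' : Ω' → ℕ, I' = fun w => if gu w ∧ gz w then I w else N + 1 :=
    ⟨_, rfl⟩
  have hIN : ∀ w, I w ≤ N := fun w => by rw [hI]; exact idx_le _ _ _ _
  have hJN : ∀ w, J w ≤ N := fun w => by rw [hJ]; exact idx_le _ _ _ _
  have hbad := bad_le (q := q) (N + 1) I' J (fun w => by
      rw [hI']
      have := hIN w
      simp only
      split_ifs <;> omega) (fun w => (hJN w).trans (Nat.le_succ _)) hϖ'.le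
    (fun i j => i ≤ N → P i j) (by
      intro i j hij hiN
      have hcel : ϖ' ≤ Pe q (cel gU gZ t M X n g N R r C K i j) := by
        refine hij.trans ?_
        refine Pool.K2S.Pe_mono hq ?_
        rintro w ⟨h1, h2⟩
        rw [hI'] at h1
        simp only at h1
        by_cases hgg : gu w ∧ gz w
        · rw [if_pos hgg] at h1
          refine ⟨⟨?_, ?_⟩, ?_, ?_⟩
          · rw [← h1, hI]
          · rw [← h2, hJ]
          · rw [← hgu]
            exact hgg.1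
          · rw [← hgz]
            exact hgg.2
        · rw [if_neg hgg] at h1
          omega
      rw [hP]
      rcases hop_cell H hnX hXM hsu hsz hrow hC hh0 hh1 hϖ hd hN hKn hK hR hRM hC₂ hϖ' i j hcel he
        with h1 | h1
      · show X ≤ j * g + (n - i * g) + nn
        omega
      · have : (X : ℝ) ≤ ((j * g + (n - i * g) + nn : ℕ) : ℝ) := by
          push_cast at h1 ⊢
          linarith
        exact_mod_cast this)
  -- the bad times
  have mu := hop_mass H hK hrR hRM hb gU H.u.dc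
  have mz := hop_mass H hK hrR hRM hb gZ H.z.dc
  rw [← hgu] at mu
  rw [← hgz] at mz
  have mass : ∀ A : Ω' → Prop, Pe q A * (r * Real.log 2 - Real.log (D + 1)) ≤
      d + Real.log 2 → Pe q A ≤ (d + Real.log 2) / x := by
    intro A hA
    rw [le_div_iff₀ hx0]
    refine le_trans ?_ hA
    exact mul_le_mul_of_nonneg_left hx (Pool.K2S.Pe_nonneg hq A)
  have mu' := mass _ mu
  have mz' := mass _ mz
  -- the sizes
  have abn : ∀ (c : Fin D → ℝ) (n : ℕ), |n1 c / 2 ^ n| = n1 c / 2 ^ n := fun c n =>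
    abs_of_nonneg (div_nonneg (n1_nonneg _) (by positivity))
  have hgood : ∀ w : Ω', 0 < q w → P (I w) (J w) → n1 (gZ w) ≤ T * max 1 (n1 (gU w)) := by
    intro w hw hPw
    rw [hP] at hPw
    have hPw' : X ≤ J w * g + (n - I w * g) + nn := hPw
    have k1 : n1 (gZ w) / 2 ^ X * 2 ^ (J w * g) ≤ C := by
      have e1 : |n1 (gZ w) / 2 ^ X| ≤ C := by
        rw [abn, div_le_iff₀ (by positivity)]
        exact hsz w hw
      have e2 := idx_spec (g := g) (N := N) e1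
      rw [abn] at e2
      rw [hJ]
      exact e2
    have k2 : (2 : ℝ) ^ (n - I w * g) ≤ 2 ^ g * max 1 (n1 (gU w)) := by
      have h2g : (1 : ℝ) ≤ 2 ^ g := one_le_pow₀ (by norm_num)
      rcases Nat.lt_or_ge (I w) N with h1 | h1
      · have e4 := idx_low hC (g := g) (N := N) (x := n1 (gU w) / 2 ^ n) (by
          rw [hI] at h1
          exact h1)
        have e5 : idx C g N (n1 (gU w) / 2 ^ n) = I w := by rw [hI]
        rw [e5, abn, div_mul_eq_mul_div, le_div_iff₀ (by positivity), one_mul] at e4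
        rcases Nat.lt_or_ge n (I w * g) with h2 | h2
        · rw [Nat.sub_eq_zero_of_le h2.le, pow_zero]
          exact one_le_mul_of_one_le_of_one_le h2g (le_max_left _ _)
        · have hPI : (0 : ℝ) < 2 ^ (I w * g) := by positivity
          have e6 : (2 : ℝ) ^ n = 2 ^ (n - I w * g) * 2 ^ (I w * g) := by
            rw [← pow_add]
            congr 1
            omega
          rw [e6, pow_add] at e4
          have e7 : (2 : ℝ) ^ (n - I w * g) * 2 ^ (I w * g) ≤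
              (2 ^ g * n1 (gU w)) * 2 ^ (I w * g) := by
            refine e4.trans (le_of_eq ?_)
            ring
          have e8 := le_of_mul_le_mul_right e7 hPI
          exact e8.trans (mul_le_mul_of_nonneg_left (le_max_right _ _) (by positivity))
      · have h2 : N * g ≤ I w * g := Nat.mul_le_mul_right g h1
        rw [Nat.sub_eq_zero_of_le (by omega), pow_zero]
        exact one_le_mul_of_one_le_of_one_le h2g (le_max_left _ _)
    have hm0 : (0 : ℝ) ≤ max 1 (n1 (gU w)) := le_trans zero_le_one (le_max_left _ _)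
    have k3 : n1 (gZ w) ≤ C * 2 ^ ((n - I w * g) + nn) := by
      rw [div_mul_eq_mul_div, div_le_iff₀ (by positivity)] at k1
      have hPJ : (0 : ℝ) < 2 ^ (J w * g) := by positivity
      have e1 : (2 : ℝ) ^ X ≤ 2 ^ ((n - I w * g) + nn) * 2 ^ (J w * g) := by
        rw [← pow_add]
        exact pow_le_pow_right₀ (by norm_num) (by omega)
      have e2 : n1 (gZ w) * 2 ^ (J w * g) ≤ (C * 2 ^ ((n - I w * g) + nn)) * 2 ^ (J w * g) := by
        refine k1.trans ?_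
        rw [mul_assoc]
        exact mul_le_mul_of_nonneg_left e1 (by linarith)
      exact le_of_mul_le_mul_right e2 hPJ
    refine k3.trans ?_
    have e3 : C * 2 ^ ((n - I w * g) + nn) ≤ (C * 2 ^ (nn + g)) * max 1 (n1 (gU w)) := by
      have e4 : C * 2 ^ ((n - I w * g) + nn) = C * 2 ^ nn * 2 ^ (n - I w * g) := by
        rw [pow_add]
        ring
      have e5 : (C * 2 ^ (nn + g)) * max 1 (n1 (gU w)) =
          C * 2 ^ nn * (2 ^ g * max 1 (n1 (gU w))) := by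
        rw [pow_add]
        ring
      rw [e4, e5]
      exact mul_le_mul_of_nonneg_left k2 (by positivity)
    exact e3.trans (mul_le_mul_of_nonneg_right hT hm0)
  have e2 : Ex q (fun w => if n1 (gZ w) ≤ T * max 1 (n1 (gU w)) then (0 : ℝ) else 1) ≤
      Ex q (fun w => (if (I' w ≤ N → P (I' w) (J w)) then (0 : ℝ) else 1) +
        ((if ¬ gu w then (1 : ℝ) else 0) + (if ¬ gz w then (1 : ℝ) else 0))) := by
    refine Ex_mono hq.nonneg fun w hw => ?_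
    by_cases hgg : gu w ∧ gz w
    · have hI1 : I' w = I w := by
        rw [hI']
        simp only [hgg, and_self, if_true]
      rw [hI1]
      by_cases h1 : P (I w) (J w)
      · rw [if_pos (hgood w hw h1)]
        positivity
      · have h2 : ¬ (I w ≤ N → P (I w) (J w)) := fun h => h1 (h (hIN w))
        rw [if_neg h2]
        have h3 : (0 : ℝ) ≤ (if ¬ gu w then (1 : ℝ) else 0) + (if ¬ gz w then (1 : ℝ) else 0) := by
          positivity
        split_ifs <;> linarith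
    · have h3 : (1 : ℝ) ≤ (if ¬ gu w then (1 : ℝ) else 0) + (if ¬ gz w then (1 : ℝ) else 0) := by
        by_cases h4 : gu w
        · have h5 : ¬ gz w := fun h => hgg ⟨h4, h⟩
          rw [if_neg (not_not.2 h4), if_pos h5]
          norm_num
        · rw [if_pos h4]
          have : (0 : ℝ) ≤ (if ¬ gz w then (1 : ℝ) else 0) := by positivity
          linarith
      have h5 : (0 : ℝ) ≤ (if (I' w ≤ N → P (I' w) (J w)) then (0 : ℝ) else 1) := by positivity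
      split_ifs at h3 h5 ⊢ <;> linarith
  refine e2.trans ?_
  have e3 : Ex q (fun w => (if (I' w ≤ N → P (I' w) (J w)) then (0 : ℝ) else 1) +
        ((if ¬ gu w then (1 : ℝ) else 0) + (if ¬ gz w then (1 : ℝ) else 0))) =
      Ex q (fun w => if (I' w ≤ N → P (I' w) (J w)) then (0 : ℝ) else 1) +
        (Pe q (fun w => ¬ gu w) + Pe q (fun w => ¬ gz w)) := by
    rw [Pool.K2S.Pe_eq, Pool.K2S.Pe_eq]
    unfold Ex
    rw [← Finset.sum_add_distrib, ← Finset.sum_add_distrib]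
    refine Finset.sum_congr rfl fun w _ => ?_
    by_cases h1 : gu w <;> by_cases h2 : gz w <;> simp only [h1, h2, not_true, not_false_iff,
      if_true, if_false] <;> ring
  rw [e3]
  push_cast at hbad
  have e4 : ((N : ℝ) + 1 + 1) ^ 2 * ϖ' = (N + 2) ^ 2 * ϖ' := by ring
  rw [e4] at hbad
  have e5 : Ex q (fun w => if (I' w ≤ N → P (I' w) (J w)) then (0 : ℝ) else 1) ≤
      (N + 2) ^ 2 * ϖ' := by
    refine le_trans (le_of_eq ?_) hbad
    unfold Ex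
    refine Finset.sum_congr rfl fun w _ => ?_
    beta_reduce
    by_cases h1 : (I' w ≤ N → P (I' w) (J w))
    · rw [if_pos h1, if_pos h1]
    · rw [if_neg h1, if_neg h1]
  linarith

end

open Classical in
/-- **One hop, the fast coordinate**: if the row of `Z` given `U` is not full, the displacement of
`Z` has usually not more digits than that of `U`. -/
theorem hop_fast (D : ℕ) (C h ε : ℝ) (hC : 1 ≤ C) (hh0 : 0 < h) (hh1 : h ≤ 1) (hε : 0 < ε) :
    ∃ κ ϖ : ℝ, 0 < κ ∧ 0 < ϖ ∧ ∃ X₀ : ℕ,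
    ∀ {Ω Ω' τ σ : Type} [Fintype Ω] [Fintype Ω'] {p : Ω → ℝ} {q : Ω' → ℝ} {f : Ω' → Ω}
    {W : Ω' → τ} {t : Ω' → ℤ} {U Z : Ω → ℤ} {S : Ω → σ} {AU AZ : Ω' → ℝ}
    {gU gZ : Ω' → Fin D → ℝ} {M X n : ℕ} {d : ℝ},
    Hop D p q f W t U Z S AU AZ gU gZ M C d → n ≤ X → X ≤ M →
    (∀ w, 0 < q w → n1 (gU w) ≤ C * 2 ^ n) → (∀ w, 0 < q w → n1 (gZ w) ≤ C * 2 ^ X) →
    Nz p U Z S X h ϖ d → X₀ ≤ X → 0 ≤ d → d ≤ κ * X →
    Ex q (fun w => if n1 (gZ w) ≤ (2 : ℝ) ^ (ε * X) * max 1 (n1 (gU w)) then 0 else 1) ≤ ε := by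
  obtain ⟨K, hK, hb⟩ := card_bads D
  have hl2 : 0 < Real.log 2 := Real.log_pos (by norm_num)
  have hl2a := Real.log_two_gt_d9
  have hl2b := Real.log_two_lt_d9
  have hl2' : Real.log 2 ≤ 1 := by linarith
  have hD0 : (0 : ℝ) ≤ D := Nat.cast_nonneg D
  obtain ⟨r₀, hr₀⟩ : ∃ r₀ : ℕ, 4 * K * ((D : ℝ) ^ 2 + 1) < 2 ^ r₀ :=
    pow_unbounded_of_one_lt _ one_lt_two
  obtain ⟨Q, hQ⟩ : ∃ Q : ℝ, Q = 1 / h + 1 := ⟨_, rfl⟩
  have hQ0 : 0 < Q := by rw [hQ]; positivity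
  obtain ⟨s, hs⟩ : ∃ s : ℝ, s = ε / (32 * Q) := ⟨_, rfl⟩
  have hs0 : 0 < s := by rw [hs]; positivity
  have hQs : Q * s = ε / 32 := by rw [hs]; field_simp
  have hsε : s ≤ ε / 32 := by
    rw [← hQs]
    refine le_mul_of_one_le_left hs0.le ?_
    rw [hQ]
    have : 0 < 1 / h := by positivity
    linarith
  obtain ⟨η, hη⟩ : ∃ η : ℝ, η = s / 2 := ⟨_, rfl⟩
  have hη0 : 0 < η := by rw [hη]; positivity
  obtain ⟨N, hN⟩ : ∃ N : ℕ, N = ⌈2 / η⌉₊ := ⟨_, rfl⟩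
  have hNη : 2 / η ≤ N := by rw [hN]; exact Nat.le_ceil _
  obtain ⟨ϖ', hϖ'⟩ : ∃ ϖ' : ℝ, ϖ' = ε / (8 * ((N : ℝ) + 2) ^ 2) := ⟨_, rfl⟩
  have hϖ'0 : 0 < ϖ' := by rw [hϖ']; positivity
  obtain ⟨Kn, hKn⟩ : ∃ Kn : ℕ, Kn = ⌈2 / (ϖ' * s)⌉₊ + 1 := ⟨_, rfl⟩
  have hKn0 : 0 < Kn := by rw [hKn]; exact Nat.succ_pos _
  have hKnr : 2 / (ϖ' * s) ≤ Kn := by
    have := Nat.le_ceil (2 / (ϖ' * s))
    rw [hKn]
    push_cast
    linarith
  obtain ⟨ϖ, hϖ⟩ : ∃ ϖ : ℝ, ϖ = s * ϖ' / 2 := ⟨_, rfl⟩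
  have hϖ0 : 0 < ϖ := by rw [hϖ]; positivity
  obtain ⟨η₂, hη₂⟩ : ∃ η₂ : ℝ, η₂ = min (min (s * ϖ') s) (1 / 2) / (D + 1) := ⟨_, rfl⟩
  have hm0 : 0 < min (min (s * ϖ') s) (1 / 2 : ℝ) :=
    lt_min (lt_min (by positivity) hs0) (by norm_num)
  have hη₂0 : 0 < η₂ := by rw [hη₂]; positivity
  have hη₂D : η₂ * (D + 1) = min (min (s * ϖ') s) (1 / 2) := by
    rw [hη₂]
    field_simp
  have hη₂1 : η₂ * (D + 1) ≤ s * ϖ' := by
    rw [hη₂D]
    exact (min_le_left _ _).trans (min_le_left _ _)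
  have hη₂2 : η₂ * (D + 1) ≤ s := by
    rw [hη₂D]
    exact (min_le_left _ _).trans (min_le_right _ _)
  have hη₂3 : η₂ * (D + 1) ≤ 1 / 2 := by
    rw [hη₂D]
    exact min_le_right _ _
  obtain ⟨κ, hκ⟩ : ∃ κ : ℝ, κ = min s (min (s * ϖ' / 4) (ε * η₂ / 64)) := ⟨_, rfl⟩
  have hκ0 : 0 < κ := by
    rw [hκ]
    exact lt_min hs0 (lt_min (by positivity) (by positivity))
  have hκ1 : κ ≤ s := by rw [hκ]; exact min_le_left _ _
  have hκ2 : κ ≤ s * ϖ' / 4 := by rw [hκ]; exact (min_le_right _ _).trans (min_le_left _ _)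
  have hκ3 : κ ≤ ε * η₂ / 64 := by rw [hκ]; exact (min_le_right _ _).trans (min_le_right _ _)
  obtain ⟨C₂, hC₂⟩ : ∃ C₂ : ℝ, C₂ = (D + 2) * C := ⟨_, rfl⟩
  have hC₂1 : 1 ≤ C₂ := by
    rw [hC₂]
    have : 0 ≤ (D : ℝ) * C := by positivity
    linarith
  have hlK : 0 ≤ Real.log ((Kn : ℝ) + 1) := Real.log_nonneg (by
    have : (0 : ℝ) ≤ Kn := Nat.cast_nonneg _
    linarith)
  have hl5 : 0 ≤ Real.log 5 := Real.log_nonneg (by norm_num)
  have hl9 : 0 ≤ Real.log (9 * C₂) := Real.log_nonneg (by linarith)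
  have hlC : 0 ≤ Real.log C := Real.log_nonneg hC
  have hlD : 0 ≤ Real.log ((D : ℝ) + 1) := Real.log_nonneg (by linarith)
  obtain ⟨c₁, hc₁⟩ : ∃ c₁ : ℝ, c₁ = s * Real.log 5 + Real.log (Kn + 1) + r₀ / ϖ' + 2 * r₀ +
    4 * Real.log (9 * C₂) := ⟨_, rfl⟩
  have hc₁0 : 0 ≤ c₁ := by rw [hc₁]; positivity
  obtain ⟨c₀, hc₀⟩ : ∃ c₀ : ℝ, c₀ = Q * c₁ + 2 * Q + Real.log C := ⟨_, rfl⟩
  have hc₀0 : 0 ≤ c₀ := by rw [hc₀]; positivity
  obtain ⟨M₀, hM⟩ : ∃ M₀ : ℝ, M₀ = 2 / η + 8 * c₀ / ε + 2 * r₀ +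
    (1 + Real.log (D + 1)) / (η₂ / 8) + 16 / (ε * η₂) := ⟨_, rfl⟩
  refine ⟨κ, ϖ, hκ0, hϖ0, ⌈M₀⌉₊, ?_⟩
  intro Ω Ω' τ σ _ _ p q f W t U Z S AU AZ gU gZ M X n d H hnX hXM' hsu hsz hrow hX hd hdκ
  have hXM : M₀ ≤ X := (Nat.le_ceil _).trans (by exact_mod_cast hX)
  have t1 : 0 ≤ 2 / η := by positivity
  have t2 : 0 ≤ 8 * c₀ / ε := by positivity
  have t3 : 0 ≤ 2 * (r₀ : ℝ) := by positivity
  have t4 : 0 ≤ (1 + Real.log ((D : ℝ) + 1)) / (η₂ / 8) := by positivity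
  have t5 : 0 ≤ 16 / (ε * η₂) := by positivity
  rw [hM] at hXM
  have hX1 : 2 / η ≤ X := by linarith only [hXM, t1, t2, t3, t4, t5]
  have hX2 : 8 * c₀ / ε ≤ X := by linarith only [hXM, t1, t2, t3, t4, t5]
  have hX3 : 2 * (r₀ : ℝ) ≤ X := by linarith only [hXM, t1, t2, t3, t4, t5]
  have hX4 : (1 + Real.log ((D : ℝ) + 1)) / (η₂ / 8) ≤ X := by
    linarith only [hXM, t1, t2, t3, t4, t5]
  have hX5 : 16 / (ε * η₂) ≤ X := by linarith only [hXM, t1, t2, t3, t4, t5]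
  have hX0 : (0 : ℝ) ≤ X := Nat.cast_nonneg X
  have hηX : 2 ≤ η * X := by
    rw [div_le_iff₀ hη0] at hX1
    linarith only [hX1]
  have hXpos : (0 : ℝ) < X := by
    by_contra hc
    have : (X : ℝ) = 0 := le_antisymm (not_lt.1 hc) hX0
    rw [this, mul_zero] at hηX
    linarith only [hηX]
  obtain ⟨g, hg⟩ : ∃ g : ℕ, g = ⌊η * X⌋₊ := ⟨_, rfl⟩
  have hg1 : (g : ℝ) ≤ η * X := by rw [hg]; exact Nat.floor_le (by positivity)
  have hg2 : η * X / 2 ≤ g := by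
    have := Nat.lt_floor_add_one (η * (X : ℝ))
    rw [hg]
    linarith only [this, hηX]
  have hNg : X ≤ N * g := by
    have h1 : (X : ℝ) ≤ N * g := by
      have h2 : 2 / η * (η * X / 2) ≤ N * g :=
        mul_le_mul hNη hg2 (by positivity) (Nat.cast_nonneg N)
      have h3 : 2 / η * (η * X / 2) = X := by field_simp
      linarith only [h2, h3]
    exact_mod_cast h1
  obtain ⟨r, hr⟩ : ∃ r : ℕ, r = ⌊η₂ * X⌋₊ := ⟨_, rfl⟩
  have hr1 : (r : ℝ) ≤ η₂ * X := by rw [hr]; exact Nat.floor_le (by positivity)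
  have hr2 : η₂ * X - 1 ≤ r := by
    have := Nat.lt_floor_add_one (η₂ * (X : ℝ))
    rw [hr]
    linarith only [this]
  obtain ⟨R, hRd⟩ : ∃ R : ℕ, R = r * (D + 1) + r₀ := ⟨_, rfl⟩
  have hrR : r ≤ R := by
    rw [hRd, Nat.mul_add, Nat.mul_one]
    omega
  have hRr : (R : ℝ) ≤ η₂ * (D + 1) * X + r₀ := by
    rw [hRd]
    push_cast
    have := mul_le_mul_of_nonneg_right hr1 (by positivity : (0 : ℝ) ≤ D + 1)
    linarith only [this]
  have hRX : R ≤ X := by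
    have h1 := mul_le_mul_of_nonneg_right hη₂3 hX0
    have : (R : ℝ) ≤ X := by linarith only [h1, hRr, hX3]
    exact_mod_cast this
  have hR : 4 * K * ((D : ℝ) ^ 2 + 1) * 2 ^ (r * D) ≤ 2 ^ R := by
    have h1 : 4 * K * ((D : ℝ) ^ 2 + 1) * 2 ^ (r * D) ≤ 2 ^ r₀ * 2 ^ (r * D) :=
      mul_le_mul_of_nonneg_right hr₀.le (by positivity)
    refine h1.trans ?_
    rw [← pow_add]
    refine pow_le_pow_right₀ (by norm_num) ?_
    rw [hRd, Nat.mul_add, Nat.mul_one]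
    omega
  have hRx1 : (R : ℝ) * Real.log 2 / ϖ' ≤ s * X + r₀ / ϖ' := by
    have h1 : (R : ℝ) * Real.log 2 ≤ η₂ * (D + 1) * X + r₀ := by
      refine le_trans (mul_le_mul_of_nonneg_left hl2' (Nat.cast_nonneg R)) ?_
      rw [mul_one]
      exact hRr
    have h2 := mul_le_mul_of_nonneg_right hη₂1 hX0
    rw [div_le_iff₀ hϖ'0]
    have h3 : (s * X + r₀ / ϖ') * ϖ' = s * ϖ' * X + r₀ := by field_simp
    rw [h3]
    linarith only [h1, h2]
  have hRx2 : 2 * (R : ℝ) * Real.log 2 ≤ 2 * (s * X) + 2 * r₀ := by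
    have h1 : (R : ℝ) * Real.log 2 ≤ R := mul_le_of_le_one_right (Nat.cast_nonneg R) hl2'
    have h2 := mul_le_mul_of_nonneg_right hη₂2 hX0
    linarith only [h1, h2, hRr]
  have hgx : 2 * (g : ℝ) * Real.log 2 ≤ s * X := by
    have h1 : (g : ℝ) * Real.log 2 ≤ g := mul_le_of_le_one_right (Nat.cast_nonneg g) hl2'
    have h2 : 2 * (η * X) = s * X := by rw [hη]; ring
    linarith only [h1, h2, hg1]
  have hdx1 : d ≤ s * X := hdκ.trans (mul_le_mul_of_nonneg_right hκ1 hX0)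
  have hdx2 : 4 * d / ϖ' ≤ s * X := by
    rw [div_le_iff₀ hϖ'0]
    have h1 : d ≤ s * ϖ' / 4 * X := hdκ.trans (mul_le_mul_of_nonneg_right hκ2 hX0)
    linarith only [h1]
  have hdx3 : d / ϖ' ≤ s * X := by
    have h1 : 4 * d / ϖ' = d / ϖ' + 3 * (d / ϖ') := by ring
    have h2 : 0 ≤ d / ϖ' := by positivity
    linarith only [h1, h2, hdx2]
  have hQ₁ : 1 / ϖ' / Kn + 1 / ϖ' * ϖ ≤ s := by
    have h1 : 1 / ϖ' / Kn ≤ s / 2 := by
      have hKr : (0 : ℝ) < Kn := by exact_mod_cast hKn0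
      rw [div_le_iff₀ hKr, div_le_iff₀ hϖ'0]
      rw [div_le_iff₀ (by positivity)] at hKnr
      linarith only [hKnr]
    have h2 : 1 / ϖ' * ϖ = s / 2 := by
      rw [hϖ]
      field_simp
    linarith only [h1, h2]
  obtain ⟨E, hE⟩ : ∃ E : ℝ, E = Er3 X g R Kn C₂ ϖ' ϖ d := ⟨_, rfl⟩
  have hQ₁0 : 0 ≤ 1 / ϖ' / Kn + 1 / ϖ' * ϖ := by positivity
  have hE0 : 0 ≤ E := by
    rw [hE]
    unfold Er3
    positivity
  have hE1 : E ≤ 7 * (s * X) + c₁ := by
    rw [hE, hc₁]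
    unfold Er3
    have h1 : (1 / ϖ' / Kn + 1 / ϖ' * ϖ) * (X * Real.log 2 + Real.log 5) ≤
        s * X + s * Real.log 5 := by
      have h2 : (X : ℝ) * Real.log 2 + Real.log 5 ≤ X + Real.log 5 := by
        have := mul_le_of_le_one_right hX0 hl2'
        linarith only [this]
      have h3 : 0 ≤ (X : ℝ) * Real.log 2 + Real.log 5 := by positivity
      refine (mul_le_mul hQ₁ h2 h3 hs0.le).trans (le_of_eq ?_)
      ring
    have h4 : (d + R * Real.log 2) / ϖ' = d / ϖ' + R * Real.log 2 / ϖ' := by ring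
    have h5 : 2 * ((g : ℝ) + R) * Real.log 2 = 2 * g * Real.log 2 + 2 * R * Real.log 2 := by ring
    rw [h4, h5]
    linarith only [h1, hdx1, hdx3, hRx1, hRx2, hgx]
  obtain ⟨e, he⟩ : ∃ e : ℝ, e = E / (h * Real.log 2) := ⟨_, rfl⟩
  have he0 : 0 ≤ e := by rw [he]; positivity
  have heE : e * (h * Real.log 2) = E := by
    rw [he, div_mul_cancel₀ _ (by positivity)]
  obtain ⟨nn, hnn⟩ : ∃ nn : ℕ, nn = ⌈e⌉₊ := ⟨_, rfl⟩
  have hn1 : e ≤ nn := by rw [hnn]; exact Nat.le_ceil _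
  have hn2 : (nn : ℝ) ≤ e + 1 := by
    have := (Nat.ceil_lt_add_one he0).le
    rw [hnn]
    exact this
  have hnl : nn * Real.log 2 ≤ Q * E + 2 * Q := by
    have h1 := mul_le_mul_of_nonneg_right hn2 hl2.le
    have h2 : e * Real.log 2 = E / h := by
      rw [he]
      field_simp
    have h3 : E / h ≤ Q * E := by
      have h4 : E / h = 1 / h * E := by ring
      rw [h4]
      exact mul_le_mul_of_nonneg_right (by rw [hQ]; linarith) hE0
    have h5 : Real.log 2 ≤ 2 * Q := by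
      have h6 : 1 ≤ Q := by
        rw [hQ]
        have : 0 < 1 / h := by positivity
        linarith
      linarith
    have h7 : (e + 1) * Real.log 2 = e * Real.log 2 + Real.log 2 := by ring
    rw [h7, h2] at h1
    linarith
  have hc : c₀ ≤ ε / 8 * X := by
    rw [div_le_iff₀ hε] at hX2
    linarith only [hX2]
  have hln : C * (2 : ℝ) ^ (nn + g) ≤ (2 : ℝ) ^ (ε * X) := by
    have h3 : Real.log (C * 2 ^ (nn + g)) ≤ Real.log ((2 : ℝ) ^ (ε * X)) := by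
      rw [Real.log_mul (by positivity) (by positivity), Real.log_pow,
        Real.log_rpow (by norm_num)]
      have h4 : Q * E ≤ 7 * (ε / 32) * X + Q * c₁ := by
        have h5 := mul_le_mul_of_nonneg_left hE1 hQ0.le
        have h6 : Q * (7 * (s * X) + c₁) = 7 * (Q * s) * X + Q * c₁ := by ring
        rw [h6, hQs] at h5
        exact h5
      have h8 : 12 / 32 * (ε * X) ≤ ε * X * Real.log 2 := by
        have h10 : 0 ≤ ε * X := by positivity
        have h11 := mul_le_mul_of_nonneg_left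
          (by linarith only [hl2a] : (12 / 32 : ℝ) ≤ Real.log 2) h10
        linarith only [h11]
      have h9 : (g : ℝ) * Real.log 2 ≤ ε / 32 * X := by
        have h10 := mul_le_mul_of_nonneg_right hsε hX0
        have h11 : 0 ≤ (g : ℝ) * Real.log 2 := by positivity
        linarith only [hgx, h10, h11]
      rw [hc₀] at hc
      push_cast
      rw [add_mul]
      linarith only [h4, h8, hc, hnl, h9]
    exact (Real.log_le_log_iff (by positivity) (by positivity)).1 h3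
  obtain ⟨x, hx⟩ : ∃ x : ℝ, x = η₂ * X / 2 := ⟨_, rfl⟩
  have hx0 : 0 < x := by rw [hx]; positivity
  have hx1 : x ≤ r * Real.log 2 - Real.log (D + 1) := by
    rw [div_le_iff₀ (by positivity)] at hX4
    have h1 : (η₂ * X - 1) * Real.log 2 ≤ r * Real.log 2 := mul_le_mul_of_nonneg_right hr2 hl2.le
    have h2 : η₂ * X * (5 / 8) ≤ η₂ * X * Real.log 2 :=
      mul_le_mul_of_nonneg_left (by linarith only [hl2a]) (by positivity)
    have h3 : (η₂ * X - 1) * Real.log 2 = η₂ * X * Real.log 2 - Real.log 2 := by ring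
    rw [h3] at h1
    rw [hx]
    linarith only [h1, h2, hX4, hl2']
  have hEe : Er3 X g R Kn C₂ ϖ' ϖ d ≤ e * (h * Real.log 2) := by rw [heE, hE]
  have key := hop_nearN H hnX hXM' hsu hsz hrow hC hh0 hh1 hϖ0.le hd hNg hKn0 hK hb hR hrR
    (hRX.trans hXM') hC₂ hϖ'0 hEe hn1 hln hx0 hx1
  refine key.trans ?_
  have hN2 : ((N : ℝ) + 2) ^ 2 * ϖ' = ε / 8 := by
    rw [hϖ']
    field_simp
  have hbad : 2 * ((d + Real.log 2) / x) ≤ ε / 2 := by
    rw [← mul_div_assoc, div_le_iff₀ hx0, hx]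
    have h1 : d ≤ ε * η₂ / 64 * X := hdκ.trans (mul_le_mul_of_nonneg_right hκ3 hX0)
    rw [div_le_iff₀ (by positivity)] at hX5
    have h2 : 0 ≤ ε * η₂ * X := by positivity
    have h3 : ε / 2 * (η₂ * X / 2) = ε * η₂ * X / 4 := by ring
    have h4 : X * (ε * η₂) = ε * η₂ * X := by ring
    have h5 : ε * η₂ / 64 * X = ε * η₂ * X / 64 := by ring
    rw [h3]
    rw [h4] at hX5
    rw [h5] at h1
    linarith only [h1, hX5, hl2', hd]
  rw [hN2]
  linarith only [hbad, hε]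

end Pool.LPK12
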