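import Pool.Agent.H12.LPK.Vec
import Pool.Agent.H12.LPK.Hfa

/-!
# One hop, the fast coordinate, several values

`hopv_fast`: if the row of `Z` given several values is not full, the displacement of `Z` has usually
not more digits than the largest displacement of these values. Only upper bounds are used for them.
-/

set_option autoImplicit false

namespace Pool.LPK12

open Finset Real
open Pool.Agent.H49.Ent Pool.Agent.H32.Dense Pool.STK Pool.POT Pool.TQ Pool.LPX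
open Pool.K2S (Pe)

/-- The upper bound of the row of `Z`, with any given variable. -/
def Nzv {Ω υ σ : Type} [Fintype Ω] (p : Ω → ℝ) (U : Ω → υ) (Z : Ω → ℤ) (S : Ω → σ) (X : ℕ)
    (h ϖ d : ℝ) : Prop :=
  ∀ i ≤ X, ∀ G : Ω → Prop, ϖ ≤ Pe p G →
    CH (cond p G True) Z (fun ω => (tp X i (Z ω), (U ω, S ω))) ≤
      (1 - h) * ((X : ℝ) - i) * Real.log 2 + d

/-- One hop, the data of `Z`. -/
structure Hpz {Ω Ω' τ σ : Type} [Fintype Ω] [Fintype Ω'] (D : ℕ) (p : Ω → ℝ) (q : Ω' → ℝ)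
    (f : Ω' → Ω) (W : Ω' → τ) (t : Ω' → ℤ) (Z : Ω → ℤ) (S : Ω → σ) (AZ : Ω' → ℝ)
    (gZ : Ω' → Fin D → ℝ) (M : ℕ) (C d : ℝ) : Prop where
  lp : IsLaw p
  lq : IsLaw q
  im : Im q p f
  t0 : ∀ w, 0 < q w → 0 ≤ t w ∧ t w < 2 ^ M
  full : M * Real.log 2 - d ≤ CH q t W
  z : Rlp q W t (fun w => Z (f w)) AZ gZ M C
  dS : Det q W (fun w => S (f w))

section

variable {Ω Ω' τ σ ι : Type} [Fintype Ω] [Fintype Ω'] [Fintype ι]
  {D : ℕ} {p : Ω → ℝ} {q : Ω' → ℝ} {f : Ω' → Ω} {W : Ω' → τ} {t : Ω' → ℤ} {U : Ω → ι → ℤ}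
  {Z : Ω → ℤ} {S : Ω → σ} {AU : Ω' → ι → ℝ} {AZ : Ω' → ℝ} {gU : Ω' → ι → Fin D → ℝ}
  {gZ : Ω' → Fin D → ℝ} {M X n : ℕ} {C h ϖ d : ℝ}

/-- The total error. -/
noncomputable def Er4 (X g R Kn m : ℕ) (C ϖ' ϖ d : ℝ) : ℝ :=
  d + (1 / ϖ' / Kn + 1 / ϖ' * ϖ) * (X * Real.log 2 + Real.log 5) + Real.log (Kn + 1) +
    (d + (R + 1) * Real.log 2) / ϖ' + (g + R) * Real.log 2 + (m + 3) * Real.log (9 * C)

/-- **The sizes in a large cell.** -/
theorem fv_cell (H : Hpz D p q f W t Z S AZ gZ M C d) (hXM : X ≤ M)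
    (hu : ∀ i, Rlp q W t (fun w => U (f w) i) (fun w => AU w i) (fun w => gU w i) M C)
    (hrow : Nzv p U Z S X h ϖ d) (hC : 1 ≤ C) (hh0 : 0 < h) (hh1 : h ≤ 1) (hϖ : 0 ≤ ϖ)
    (hd : 0 ≤ d) {a b g Kn R r : ℕ} {K C₂ : ℝ} (hKn : 0 < Kn) (hK : 1 ≤ K)
    (hR : 4 * K * (D ^ 2 + 1) * 2 ^ (r * D) ≤ 2 ^ R) (hRM : R ≤ M)
    (hC₂ : C₂ = (D + 2) * C) {ϖ' : ℝ} (hϖ' : 0 < ϖ') {G : Ω' → Prop} (hG : ϖ' ≤ Pe q G)
    (gu1 : ∀ w, 0 < q w → G w → ∀ i, n1 (gU w i) / 2 ^ n * 2 ^ a ≤ C)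
    (gz1 : ∀ w, 0 < q w → G w → n1 (gZ w) / 2 ^ X * 2 ^ b ≤ C)
    (gz2 : ∀ w, 0 < q w → G w → 1 ≤ n1 (gZ w) / 2 ^ X * 2 ^ (b + g))
    (ggz : ∀ w, 0 < q w → G w → gd t gZ M R r K w) :
    h * ((X : ℝ) - (b + (n - a) : ℕ)) * Real.log 2 ≤ Er4 X g R Kn (Fintype.card ι) C₂ ϖ' ϖ d := by
  classical
  have hp := H.lp
  have hq := H.lq
  have hD0 : (0 : ℝ) ≤ D := Nat.cast_nonneg D
  have hC0 : 0 ≤ C := by linarith
  have hDC : 0 ≤ D * C := by positivity
  have hC₂1 : 1 ≤ C₂ := by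
    rw [hC₂]
    linarith
  have hC₂8 : 2 * C ≤ C₂ := by
    rw [hC₂]
    linarith
  have hC₂D : D * C ≤ C₂ := by
    rw [hC₂]
    linarith
  have hC₂0 : 0 ≤ C₂ := by linarith
  have hG0 : 0 < Pe q G := lt_of_lt_of_le hϖ' hG
  have hl2 : 0 < Real.log 2 := Real.log_pos (by norm_num)
  have hl9 : 0 ≤ Real.log (9 * C₂) := Real.log_nonneg (by linarith)
  obtain ⟨W', hW'⟩ : ∃ W', W' = Wr W t M R := ⟨_, rfl⟩
  have full' := full_Wr hq hRM H.t0 H.full
  rw [← hW'] at full'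
  obtain ⟨ρ, hr⟩ : ∃ ρ, ρ = cond q G True := ⟨_, rfl⟩
  have hrl : IsLaw ρ := by
    rw [hr]
    exact cond_law hq.nonneg hG0
  have hn := hrl.nonneg
  have hrq : ∀ w, 0 < ρ w → 0 < q w ∧ G w := fun w hw => by
    rw [hr] at hw
    have := (cond_pos_iff hq.nonneg G True w).1 hw
    exact ⟨this.1, by simpa using this.2⟩
  obtain ⟨Df, hDf⟩ : ∃ Df : ℝ, Df = (d + (R + 1) * Real.log 2) / ϖ' := ⟨_, rfl⟩
  have hDf0 : 0 ≤ Df := by
    rw [hDf]
    positivity
  have full : M * Real.log 2 - Df ≤ CH ρ t W' := by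
    have h1 := full_any hq t W' H.t0 full' hG0
    rw [← hr] at h1
    refine le_trans ?_ h1
    have h2 : (d + R * Real.log 2 + Real.log 2) / Pe q G ≤ Df := by
      rw [hDf]
      have h3 : d + R * Real.log 2 + Real.log 2 = d + (R + 1) * Real.log 2 := by ring
      rw [h3]
      exact div_le_div_of_nonneg_left (by positivity) hϖ' hG
    linarith
  have hZr : Rlp ρ W t (fun w => Z (f w)) AZ gZ M C :=
    ⟨fun w w' a b => H.z.dA w w' (hrq w a).1 (hrq w' b).1,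
    fun w w' a b => H.z.dc w w' (hrq w a).1 (hrq w' b).1, fun w a => H.z.rel w (hrq w a).1⟩
  have hUr : ∀ i, Rlp ρ W t (fun w => U (f w) i) (fun w => AU w i) (fun w => gU w i) M C :=
    fun i => ⟨fun w w' a b => (hu i).dA w w' (hrq w a).1 (hrq w' b).1,
    fun w w' a b => (hu i).dc w w' (hrq w a).1 (hrq w' b).1,
    fun w a => (hu i).rel w (hrq w a).1⟩
  have ht : ∀ w, 0 < ρ w → 0 ≤ t w ∧ t w < 2 ^ M := fun w hw => H.t0 w (hrq w hw).1
  have upU : ∀ i, Dup ρ W' t (fun w => U (f w) i) M n a C₂ := by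
    intro i
    rw [hW']
    exact (hUr i).up ht (fun w hw => gu1 w (hrq w hw).1 (hrq w hw).2 i) hC₂8 hC₂D R
  have upZ : Dup ρ W' t (fun w => Z (f w)) M X b C₂ := by
    rw [hW']
    exact hZr.up ht (fun w hw => gz1 w (hrq w hw).1 (hrq w hw).2) hC₂8 hC₂D R
  have loZ : Dlo ρ W' t (fun w => Z (f w)) M X (b + (g + R)) C₂ := by
    rw [hW', ← add_assoc]
    exact hZr.lo ht hK hR hRM (fun w hw => gz2 w (hrq w hw).1 (hrq w hw).2)
      (fun w hw => ggz w (hrq w hw).1 (hrq w hw).2) hC₂8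
  obtain ⟨Q, hQ⟩ : ∃ Q : ℝ, Q = (1 / ϖ' / Kn + 1 / ϖ' * ϖ) := ⟨_, rfl⟩
  have hQ0 : 0 ≤ Q := by
    rw [hQ]
    positivity
  have hlK : 0 ≤ Real.log ((Kn : ℝ) + 1) := Real.log_nonneg (by
    have : (0 : ℝ) ≤ Kn := Nat.cast_nonneg _
    linarith)
  have hl5 : 0 ≤ Real.log 5 := Real.log_nonneg (by norm_num)
  obtain ⟨m, hm⟩ : ∃ m : ℕ, m = Fintype.card ι := ⟨_, rfl⟩
  rw [← hm]
  have hErE : Er4 X g R Kn m C₂ ϖ' ϖ d = d + Q * (X * Real.log 2 + Real.log 5) +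
      Real.log (Kn + 1) + Df + (g + R) * Real.log 2 + (m + 3) * Real.log (9 * C₂) := by
    rw [hQ, hDf]
    rfl
  have hgR : 0 ≤ ((g : ℝ) + R) * Real.log 2 := by positivity
  have hQX : 0 ≤ Q * (X * Real.log 2 + Real.log 5) := by positivity
  have hm3 : 0 ≤ ((m : ℝ) + 3) * Real.log (9 * C₂) := by positivity
  obtain ⟨x, hx⟩ : ∃ x : ℕ, x = n - a := ⟨_, rfl⟩
  rw [← hx]
  rcases Nat.lt_or_ge (b + x) X with hy | hy
  swap
  · have h1 : (X : ℝ) - (b + x : ℕ) ≤ 0 := by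
      have : (X : ℝ) ≤ ((b + x : ℕ) : ℝ) := by exact_mod_cast hy
      linarith
    have h2 : h * ((X : ℝ) - (b + x : ℕ)) * Real.log 2 ≤ 0 := by
      refine mul_nonpos_of_nonpos_of_nonneg ?_ hl2.le
      exact mul_nonpos_of_nonneg_of_nonpos hh0.le h1
    rw [hErE]
    linarith
  -- the row
  obtain ⟨β', hβ⟩ : ∃ β' : ℝ,
      β' = (1 - h) * ((X : ℝ) - (b + x : ℕ)) * Real.log 2 + d := ⟨_, rfl⟩
  have hma : (0 : ℝ) ≤ (X : ℝ) - (b + x : ℕ) := by
    have : ((b + x : ℕ) : ℝ) ≤ X := by exact_mod_cast hy.le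
    linarith
  have hβ0 : 0 ≤ β' := by
    have : 0 ≤ (1 - h) * ((X : ℝ) - (b + x : ℕ)) * Real.log 2 :=
      mul_nonneg (mul_nonneg (by linarith) hma) hl2.le
    linarith
  have hup := up_row hp hq H.im hϖ' hG hϖ (V := Z) (m := X) (i := b + x) le_rfl hy.le
    (fun ω => (U ω, S ω)) hβ0 (fun G' hG' => by
      rw [hβ]
      have := hrow (b + x) hy.le G' hG'
      simp only [tp_self]
      exact this) hKn
  rw [← hr, ← hQ] at hup
  simp only [tp_self] at hup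
  -- the displacements of the time
  have hxM : x ≤ M := by omega
  obtain ⟨u, hud⟩ : ∃ u : Ω' → ι → ℤ, u = fun w => U (f w) := ⟨_, rfl⟩
  obtain ⟨z, hzd⟩ : ∃ z : Ω' → ℤ, z = fun w => Z (f w) := ⟨_, rfl⟩
  obtain ⟨zb, hzb⟩ : ∃ zb : Ω' → ℤ, zb = fun w => tp X (b + x) (Z (f w)) := ⟨_, rfl⟩
  obtain ⟨tx, htx⟩ : ∃ tx : Ω' → ℤ, tx = fun w => tp M x (t w) := ⟨_, rfl⟩
  obtain ⟨tz, htz⟩ : ∃ tz : Ω' → ℤ, tz = fun w => tp M (X - b) (t w) := ⟨_, rfl⟩
  have hdt : ∀ w w', tx w = tx w' → |(t w : ℝ) - t w'| / 2 ^ M ≤ 1 / 2 ^ x := by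
    intro w w' e
    rw [htx] at e
    have h1 := of_tp_eq M x e
    rw [div_le_div_iff₀ (by positivity) (by positivity), one_mul]
    have h2 : (2 : ℝ) ^ M = 2 ^ (M - x) * 2 ^ x := by
      rw [← pow_add]
      congr 1
      omega
    rw [h2]
    exact mul_le_mul_of_nonneg_right h1 (by positivity)
  have e1 : CH ρ tx W' ≤ x * Real.log 2 := by
    rw [htx]
    exact time_le hrl (fun w => tp M x (t w)) W' (X := x) (fun w hw => tp_range hxM (ht w hw))
  have e2 : CH ρ u (fun w => (tx w, W' w)) ≤ m * Real.log (9 * C₂) := by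
    refine (CH_fam hn u _).trans ?_
    have h1 : ∀ i ∈ (Finset.univ : Finset ι), CH ρ (fun w => u w i) (fun w => (tx w, W' w)) ≤
        Real.log (9 * C₂) := by
      intro i _
      have h2 := CH_few hrl (fun w => u w i) (fun w => (tx w, W' w)) (L := 2 * C₂) (by
        intro w w' y y' e
        obtain ⟨e3, e4⟩ := Prod.ext_iff.mp e
        have h3 := upU i w w' y y' e4
        have h4 := hdt w w' e3
        have h5 : C₂ * 2 ^ n / 2 ^ a * (|(t w : ℝ) - t w'| / 2 ^ M) ≤ C₂ := by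
          have h6 : C₂ * 2 ^ n / 2 ^ a ≤ C₂ * 2 ^ x := by
            rw [hx]
            exact pow_div_le hC₂0
          have h7 := mul_le_mul h6 h4 (by positivity) (by positivity)
          refine h7.trans (le_of_eq ?_)
          field_simp
        rw [hud]
        push_cast
        linarith)
      refine h2.trans (Real.log_le_log (by positivity) ?_)
      linarith
    refine (Finset.sum_le_sum h1).trans (le_of_eq ?_)
    rw [Finset.sum_const, Finset.card_univ, nsmul_eq_mul, hm]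
  have e3 : CH ρ zb (fun w => (tx w, W' w)) ≤ Real.log (9 * C₂) := by
    rw [hzb]
    have h2 := CH_few_tp hrl (fun w => Z (f w)) (fun w => (tx w, W' w)) (X := X) (m := b + x)
      (L := 2 * C₂) (by
        intro w w' y y' e
        obtain ⟨e3, e4⟩ := Prod.ext_iff.mp e
        have h3 := upZ w w' y y' e4
        have h4 := hdt w w' e3
        have hX : (2 : ℝ) ^ X = 2 ^ (X - (b + x)) * 2 ^ x * 2 ^ b := by
          rw [← pow_add, ← pow_add]
          congr 1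
          omega
        have h5 : C₂ * 2 ^ X / 2 ^ b * (|(t w : ℝ) - t w'| / 2 ^ M) ≤ C₂ * 2 ^ (X - (b + x)) := by
          have h7 := mul_le_mul_of_nonneg_left h4 (by positivity : 0 ≤ C₂ * 2 ^ X / 2 ^ b)
          refine h7.trans (le_of_eq ?_)
          rw [hX]
          field_simp
        have h6 : (1 : ℝ) ≤ 2 ^ (X - (b + x)) := one_le_pow₀ (by norm_num)
        have h7 := le_mul_of_one_le_right hC₂0 h6
        beta_reduce at h3
        have h8 : 2 * C₂ * 2 ^ (X - (b + x)) = C₂ * 2 ^ (X - (b + x)) + C₂ * 2 ^ (X - (b + x)) := by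
          ring
        rw [h8]
        linarith)
    refine h2.trans (Real.log_le_log (by positivity) ?_)
    linarith
  have e4 : CH ρ tz (fun w => (z w, W' w)) ≤ (g + R) * Real.log 2 + Real.log (9 * C₂) := by
    have := loZ.time hrl hC₂1 (m := X) (r := X - b) le_rfl (by omega)
    simp only [tp_self] at this
    rw [htz, hzd]
    push_cast at this
    exact this
  have e5 : ((X : ℝ) - b) * Real.log 2 - Df ≤ CH ρ tz W' := by
    have := time_tp hrl t W' (X := M) (r := X - b) (by omega) full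
    rw [Nat.cast_sub (by omega)] at this
    rw [htz]
    exact this
  -- the chain
  have c1 := CH_le_add hn tz tx W'
  have c2 := CH_le_add hn tz u (fun w => (tx w, W' w))
  have c3 := CH_le_add hn tz zb (fun w => (u w, (tx w, W' w)))
  have c4 := CH_le_add hn tz z (fun w => (zb w, (u w, (tx w, W' w))))
  have c5 : CH ρ zb (fun w => (u w, (tx w, W' w))) ≤ CH ρ zb (fun w => (tx w, W' w)) :=
    CH_mono_cond hn fun _ _ _ _ e => (Prod.ext_iff.mp e).2
  have c6 : CH ρ tz (fun w => (z w, (zb w, (u w, (tx w, W' w))))) ≤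
      CH ρ tz (fun w => (z w, W' w)) := by
    refine CH_mono_cond hn fun w w' _ _ e => ?_
    simp only [Prod.mk.injEq] at e ⊢
    exact ⟨e.1, e.2.2.2.2⟩
  have c7 : CH ρ z (fun w => (zb w, (u w, (tx w, W' w)))) ≤
      CH ρ (fun w => Z (f w)) (fun w => (tp X (b + x) (Z (f w)), (U (f w), S (f w)))) := by
    rw [← hzd]
    refine CH_mono_cond hn fun w w' y y' e => ?_
    simp only [Prod.mk.injEq] at e ⊢
    have e5 : W w = W w' := by
      have := e.2.2.2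
      rw [hW'] at this
      exact (Prod.ext_iff.mp this).1
    have e6 := H.dS w w' (hrq w y).1 (hrq w' y').1 e5
    have e7 := e.1
    have e8 := e.2.1
    rw [hzb] at e7
    rw [hud] at e8
    exact ⟨e7, e8, e6⟩
  rw [hErE]
  rw [hβ] at hup
  push_cast at hup ⊢
  have g7 : (1 - h) * ((X : ℝ) - (b + x)) * Real.log 2 =
      ((X : ℝ) - b) * Real.log 2 - x * Real.log 2 - h * ((X : ℝ) - (b + x)) * Real.log 2 := by ring
  rw [g7] at hup
  linarith

end

open Classical in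
/-- From the cells to the mass. -/
theorem near_abs {Ω' : Type} [Fintype Ω'] {q : Ω' → ℝ} (hq : IsLaw q) {sU sZ : Ω' → ℝ}
    {gz : Ω' → Prop} {X n g N : ℕ} {C : ℝ} (hC : 1 ≤ C) (hnX : n ≤ X) (hN : X ≤ N * g)
    (hU0 : ∀ w, 0 ≤ sU w) (hZ0 : ∀ w, 0 ≤ sZ w)
    (hsz : ∀ w, 0 < q w → sZ w ≤ C * 2 ^ X) {ϖ' : ℝ} (hϖ' : 0 ≤ ϖ') {nn : ℕ}
    (hcell : ∀ i j, i ≤ N → ϖ' ≤ Pe q (fun w => (idx C g N (sU w / 2 ^ n) = i ∧
      idx C g N (sZ w / 2 ^ X) = j) ∧ gz w) → X ≤ j * g + (n - i * g) + nn)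
    {T : ℝ} (hT : C * 2 ^ (nn + g) ≤ T) :
    Ex q (fun w => if sZ w ≤ T * max 1 (sU w) then 0 else 1) ≤
      (N + 2) ^ 2 * ϖ' + Pe q (fun w => ¬ gz w) := by
  obtain ⟨P, hP⟩ : ∃ P : ℕ → ℕ → Prop, P = fun i j => X ≤ j * g + (n - i * g) + nn := ⟨_, rfl⟩
  obtain ⟨I, hI⟩ : ∃ I : Ω' → ℕ, I = fun w => idx C g N (sU w / 2 ^ n) := ⟨_, rfl⟩
  obtain ⟨J, hJ⟩ : ∃ J : Ω' → ℕ, J = fun w => idx C g N (sZ w / 2 ^ X) := ⟨_, rfl⟩
  obtain ⟨I', hI'⟩ : ∃ I' : Ω' → ℕ, I' = fun w => if gz w then I w else N + 1 := ⟨_, rfl⟩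
  have hIN : ∀ w, I w ≤ N := fun w => by rw [hI]; exact idx_le _ _ _ _
  have hJN : ∀ w, J w ≤ N := fun w => by rw [hJ]; exact idx_le _ _ _ _
  have hbad := bad_le (q := q) (N + 1) I' J (fun w => by
      rw [hI']
      have := hIN w
      simp only
      split_ifs <;> omega) (fun w => (hJN w).trans (Nat.le_succ _)) hϖ'
    (fun i j => i ≤ N → P i j) (by
      intro i j hij hiN
      rw [hP]
      refine hcell i j hiN (hij.trans ?_)
      refine Pool.K2S.Pe_mono hq ?_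
      rintro w ⟨h1, h2⟩
      rw [hI'] at h1
      simp only at h1
      by_cases hgg : gz w
      · rw [if_pos hgg] at h1
        exact ⟨⟨by rw [← h1, hI], by rw [← h2, hJ]⟩, hgg⟩
      · rw [if_neg hgg] at h1
        omega)
  have abn : ∀ (c : ℝ) (n : ℕ), 0 ≤ c → |c / 2 ^ n| = c / 2 ^ n := fun c n hc =>
    abs_of_nonneg (div_nonneg hc (by positivity))
  have hgood : ∀ w : Ω', 0 < q w → P (I w) (J w) → sZ w ≤ T * max 1 (sU w) := by
    intro w hw hPw
    rw [hP] at hPw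
    have hPw' : X ≤ J w * g + (n - I w * g) + nn := hPw
    have k1 : sZ w / 2 ^ X * 2 ^ (J w * g) ≤ C := by
      have e1 : |sZ w / 2 ^ X| ≤ C := by
        rw [abn _ _ (hZ0 w), div_le_iff₀ (by positivity)]
        exact hsz w hw
      have e2 := idx_spec (g := g) (N := N) e1
      rw [abn _ _ (hZ0 w)] at e2
      rw [hJ]
      exact e2
    have k2 : (2 : ℝ) ^ (n - I w * g) ≤ 2 ^ g * max 1 (sU w) := by
      have h2g : (1 : ℝ) ≤ 2 ^ g := one_le_pow₀ (by norm_num)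
      rcases Nat.lt_or_ge (I w) N with h1 | h1
      · have e4 := idx_low hC (g := g) (N := N) (x := sU w / 2 ^ n) (by
          rw [hI] at h1
          exact h1)
        have e5 : idx C g N (sU w / 2 ^ n) = I w := by rw [hI]
        rw [e5, abn _ _ (hU0 w), div_mul_eq_mul_div, le_div_iff₀ (by positivity), one_mul] at e4
        rcases Nat.lt_or_ge n (I w * g) with h2 | h2
        · rw [Nat.sub_eq_zero_of_le h2.le, pow_zero]
          exact one_le_mul_of_one_le_of_one_le h2g (le_max_left _ _)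
        · have hPI : (0 : ℝ) < 2 ^ (I w * g) := by positivity
          have e6 : (2 : ℝ) ^ n = 2 ^ (n - I w * g) * 2 ^ (I w * g) := by
            rw [← pow_add]
            congr 1
            omega
          rw [e6, pow_add] at e4
          have e7 : (2 : ℝ) ^ (n - I w * g) * 2 ^ (I w * g) ≤
              (2 ^ g * sU w) * 2 ^ (I w * g) := by
            refine e4.trans (le_of_eq ?_)
            ring
          have e8 := le_of_mul_le_mul_right e7 hPI
          exact e8.trans (mul_le_mul_of_nonneg_left (le_max_right _ _) (by positivity))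
      · have h2 : N * g ≤ I w * g := Nat.mul_le_mul_right g h1
        rw [Nat.sub_eq_zero_of_le (by omega), pow_zero]
        exact one_le_mul_of_one_le_of_one_le h2g (le_max_left _ _)
    have hm0 : (0 : ℝ) ≤ max 1 (sU w) := le_trans zero_le_one (le_max_left _ _)
    have k3 : sZ w ≤ C * 2 ^ ((n - I w * g) + nn) := by
      rw [div_mul_eq_mul_div, div_le_iff₀ (by positivity)] at k1
      have hPJ : (0 : ℝ) < 2 ^ (J w * g) := by positivity
      have e1 : (2 : ℝ) ^ X ≤ 2 ^ ((n - I w * g) + nn) * 2 ^ (J w * g) := by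
        rw [← pow_add]
        exact pow_le_pow_right₀ (by norm_num) (by omega)
      have e2 : sZ w * 2 ^ (J w * g) ≤ (C * 2 ^ ((n - I w * g) + nn)) * 2 ^ (J w * g) := by
        refine k1.trans ?_
        rw [mul_assoc]
        exact mul_le_mul_of_nonneg_left e1 (by linarith)
      exact le_of_mul_le_mul_right e2 hPJ
    refine k3.trans ?_
    have e3 : C * 2 ^ ((n - I w * g) + nn) ≤ (C * 2 ^ (nn + g)) * max 1 (sU w) := by
      have e4 : C * 2 ^ ((n - I w * g) + nn) = C * 2 ^ nn * 2 ^ (n - I w * g) := by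
        rw [pow_add]
        ring
      have e5 : (C * 2 ^ (nn + g)) * max 1 (sU w) =
          C * 2 ^ nn * (2 ^ g * max 1 (sU w)) := by
        rw [pow_add]
        ring
      rw [e4, e5]
      exact mul_le_mul_of_nonneg_left k2 (by positivity)
    exact e3.trans (mul_le_mul_of_nonneg_right hT hm0)
  have e2 : Ex q (fun w => if sZ w ≤ T * max 1 (sU w) then (0 : ℝ) else 1) ≤
      Ex q (fun w => (if (I' w ≤ N → P (I' w) (J w)) then (0 : ℝ) else 1) +
        (if ¬ gz w then (1 : ℝ) else 0)) := by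
    refine Ex_mono hq.nonneg fun w hw => ?_
    by_cases hgg : gz w
    · have hI1 : I' w = I w := by
        rw [hI']
        simp only [hgg, if_true]
      rw [hI1, if_neg (not_not.2 hgg), add_zero]
      by_cases h1 : P (I w) (J w)
      · rw [if_pos (hgood w hw h1)]
        split_ifs <;> norm_num
      · have h2 : ¬ (I w ≤ N → P (I w) (J w)) := fun h => h1 (h (hIN w))
        rw [if_neg h2]
        split_ifs <;> norm_num
    · rw [if_pos hgg]
      have h5 : (0 : ℝ) ≤ (if (I' w ≤ N → P (I' w) (J w)) then (0 : ℝ) else 1) := by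
        split_ifs <;> norm_num
      have h6 : (if sZ w ≤ T * max 1 (sU w) then (0 : ℝ) else 1) ≤ 1 := by
        split_ifs <;> norm_num
      linarith
  refine e2.trans ?_
  have e3 : Ex q (fun w => (if (I' w ≤ N → P (I' w) (J w)) then (0 : ℝ) else 1) +
        (if ¬ gz w then (1 : ℝ) else 0)) =
      Ex q (fun w => if (I' w ≤ N → P (I' w) (J w)) then (0 : ℝ) else 1) +
        Pe q (fun w => ¬ gz w) := by
    rw [Pool.K2S.Pe_eq]
    unfold Ex
    rw [← Finset.sum_add_distrib]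
    refine Finset.sum_congr rfl fun w _ => ?_
    by_cases h1 : gz w <;> simp only [h1, not_true, not_false_iff, if_true, if_false] <;> ring
  rw [e3]
  push_cast at hbad
  have e4 : ((N : ℝ) + 1 + 1) ^ 2 * ϖ' = (N + 2) ^ 2 * ϖ' := by ring
  rw [e4] at hbad
  have e5 : Ex q (fun w => if (I' w ≤ N → P (I' w) (J w)) then (0 : ℝ) else 1) ≤
      (N + 2) ^ 2 * ϖ' := by
    refine le_trans (le_of_eq ?_) hbad
    unfold Ex
    refine Finset.sum_congr rfl fun w _ => ?_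
    beta_reduce
    by_cases h1 : (I' w ≤ N → P (I' w) (J w))
    · rw [if_pos h1, if_pos h1]
    · rw [if_neg h1, if_neg h1]
  linarith

/-- The mass of the bad times, raw form. -/
theorem raw_mass {Ω' τ : Type} [Fintype Ω'] {q : Ω' → ℝ} (hq : IsLaw q) {W : Ω' → τ}
    {t : Ω' → ℤ} {M D : ℕ} {d : ℝ} (t0 : ∀ w, 0 < q w → 0 ≤ t w ∧ t w < 2 ^ M)
    (full : M * Real.log 2 - d ≤ CH q t W) {R r : ℕ} {K : ℝ}
    (hK : 1 ≤ K) (hr : r ≤ R) (hRM : R ≤ M)
    (hb : ∀ (c : Fin D → ℝ) (R r : ℕ) (lam : ℝ), r ≤ R →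
      K * 2 ^ (r * D) * lam < n1 c → ((bads c R lam).card : ℝ) ≤ D * 2 ^ (R - r))
    (c : Ω' → Fin D → ℝ) (hdet : Det q W c) :
    Pe q (fun w => ¬ gd t c M R r K w) *
      (r * Real.log 2 - Real.log (D + 1)) ≤ d + Real.log 2 := by
  classical
  have hl2 : 0 ≤ Real.log 2 := Real.log_nonneg (by norm_num)
  have hlD : 0 ≤ Real.log ((D : ℝ) + 1) := Real.log_nonneg (by
    have : (0 : ℝ) ≤ D := Nat.cast_nonneg D
    linarith)
  have h1 := time_tp hq t W hRM full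
  have h2 := bad_massD hq (e := fun w => tp M R (t w)) (R := R)
    (fun w hw => tp_range hRM (t0 w hw)) h1 (fun w => bads (c w) R (thr K r (c w)))
    (fun w w' x x' e => by
      have := hdet w w' x x' e
      simp only [this])
    (x := r * Real.log 2 - Real.log (D + 1)) (by
      have : (r : ℝ) * Real.log 2 ≤ R * Real.log 2 :=
        mul_le_mul_of_nonneg_right (by exact_mod_cast hr) hl2
      linarith)
    (fun w => log_bads hK hr hb _)
  have h3 : (fun w => ¬ gd t c M R r K w) =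
      (fun w => tp M R (t w) ∈ bads (c w) R (thr K r (c w))) := by
    funext w
    unfold gd
    rw [not_not]
  rw [h3]
  exact h2

open Classical in
/-- **One hop, the fast coordinate, several values.** -/
theorem hopv_fast (D m : ℕ) (C h ε : ℝ) (hC : 1 ≤ C) (hh0 : 0 < h) (hh1 : h ≤ 1) (hε : 0 < ε) :
    ∃ κ ϖ : ℝ, 0 < κ ∧ 0 < ϖ ∧ ∃ X₀ : ℕ,
    ∀ {Ω Ω' τ σ ι : Type} [Fintype Ω] [Fintype Ω'] [Fintype ι] {p : Ω → ℝ} {q : Ω' → ℝ}
    {f : Ω' → Ω} {W : Ω' → τ} {t : Ω' → ℤ} {U : Ω → ι → ℤ} {Z : Ω → ℤ} {S : Ω → σ}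
    {AU : Ω' → ι → ℝ} {AZ : Ω' → ℝ} {gU : Ω' → ι → Fin D → ℝ} {gZ : Ω' → Fin D → ℝ}
    {M X n : ℕ} {d : ℝ},
    Fintype.card ι = m → Hpz D p q f W t Z S AZ gZ M C d →
    (∀ i, Rlp q W t (fun w => U (f w) i) (fun w => AU w i) (fun w => gU w i) M C) →
    n ≤ X → X ≤ M → (∀ w, 0 < q w → ∀ i, n1 (gU w i) ≤ C * 2 ^ n) →
    (∀ w, 0 < q w → n1 (gZ w) ≤ C * 2 ^ X) →
    Nzv p U Z S X h ϖ d → X₀ ≤ X → 0 ≤ d → d ≤ κ * X →
    Ex q (fun w => if n1 (gZ w) ≤ (2 : ℝ) ^ (ε * X) * max 1 (∑ i, n1 (gU w i)) then 0 else 1) ≤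
      ε := by
  obtain ⟨K, hK, hb⟩ := card_bads D
  have hl2 : 0 < Real.log 2 := Real.log_pos (by norm_num)
  have hl2a := Real.log_two_gt_d9
  have hl2b := Real.log_two_lt_d9
  have hl2' : Real.log 2 ≤ 1 := by linarith
  have hD0 : (0 : ℝ) ≤ D := Nat.cast_nonneg D
  have hm0r : (0 : ℝ) ≤ m := Nat.cast_nonneg m
  obtain ⟨C', hC'⟩ : ∃ C' : ℝ, C' = (m + 1) * C := ⟨_, rfl⟩
  have hCC' : C ≤ C' := by
    rw [hC']
    have : 0 ≤ (m : ℝ) * C := by positivity
    linarith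
  have hC1' : 1 ≤ C' := hC.trans hCC'
  obtain ⟨r₀, hr₀⟩ : ∃ r₀ : ℕ, 4 * K * ((D : ℝ) ^ 2 + 1) < 2 ^ r₀ :=
    pow_unbounded_of_one_lt _ one_lt_two
  obtain ⟨Q, hQ⟩ : ∃ Q : ℝ, Q = 1 / h + 1 := ⟨_, rfl⟩
  have hQ0 : 0 < Q := by rw [hQ]; positivity
  obtain ⟨s, hs⟩ : ∃ s : ℝ, s = ε / (32 * Q) := ⟨_, rfl⟩
  have hs0 : 0 < s := by rw [hs]; positivity
  have hQs : Q * s = ε / 32 := by rw [hs]; field_simp
  have hsε : s ≤ ε / 32 := by
    rw [← hQs]
    refine le_mul_of_one_le_left hs0.le ?_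
    rw [hQ]
    have : 0 < 1 / h := by positivity
    linarith
  obtain ⟨η, hη⟩ : ∃ η : ℝ, η = s / 2 := ⟨_, rfl⟩
  have hη0 : 0 < η := by rw [hη]; positivity
  obtain ⟨N, hN⟩ : ∃ N : ℕ, N = ⌈2 / η⌉₊ := ⟨_, rfl⟩
  have hNη : 2 / η ≤ N := by rw [hN]; exact Nat.le_ceil _
  obtain ⟨ϖ', hϖ'⟩ : ∃ ϖ' : ℝ, ϖ' = ε / (8 * ((N : ℝ) + 2) ^ 2) := ⟨_, rfl⟩
  have hϖ'0 : 0 < ϖ' := by rw [hϖ']; positivity
  obtain ⟨Kn, hKn⟩ : ∃ Kn : ℕ, Kn = ⌈2 / (ϖ' * s)⌉₊ + 1 := ⟨_, rfl⟩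
  have hKn0 : 0 < Kn := by rw [hKn]; exact Nat.succ_pos _
  have hKnr : 2 / (ϖ' * s) ≤ Kn := by
    have := Nat.le_ceil (2 / (ϖ' * s))
    rw [hKn]
    push_cast
    linarith
  obtain ⟨ϖ, hϖ⟩ : ∃ ϖ : ℝ, ϖ = s * ϖ' / 2 := ⟨_, rfl⟩
  have hϖ0 : 0 < ϖ := by rw [hϖ]; positivity
  obtain ⟨η₂, hη₂⟩ : ∃ η₂ : ℝ, η₂ = min (min (s * ϖ') s) (1 / 2) / (D + 1) := ⟨_, rfl⟩
  have hm0 : 0 < min (min (s * ϖ') s) (1 / 2 : ℝ) :=
    lt_min (lt_min (by positivity) hs0) (by norm_num)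
  have hη₂0 : 0 < η₂ := by rw [hη₂]; positivity
  have hη₂D : η₂ * (D + 1) = min (min (s * ϖ') s) (1 / 2) := by
    rw [hη₂]
    field_simp
  have hη₂1 : η₂ * (D + 1) ≤ s * ϖ' := by
    rw [hη₂D]
    exact (min_le_left _ _).trans (min_le_left _ _)
  have hη₂2 : η₂ * (D + 1) ≤ s := by
    rw [hη₂D]
    exact (min_le_left _ _).trans (min_le_right _ _)
  have hη₂3 : η₂ * (D + 1) ≤ 1 / 2 := by
    rw [hη₂D]
    exact min_le_right _ _
  obtain ⟨κ, hκ⟩ : ∃ κ : ℝ, κ = min s (min (s * ϖ' / 4) (ε * η₂ / 64)) := ⟨_, rfl⟩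
  have hκ0 : 0 < κ := by
    rw [hκ]
    exact lt_min hs0 (lt_min (by positivity) (by positivity))
  have hκ1 : κ ≤ s := by rw [hκ]; exact min_le_left _ _
  have hκ2 : κ ≤ s * ϖ' / 4 := by rw [hκ]; exact (min_le_right _ _).trans (min_le_left _ _)
  have hκ3 : κ ≤ ε * η₂ / 64 := by rw [hκ]; exact (min_le_right _ _).trans (min_le_right _ _)
  obtain ⟨C₂, hC₂⟩ : ∃ C₂ : ℝ, C₂ = (D + 2) * C' := ⟨_, rfl⟩
  have hC₂1 : 1 ≤ C₂ := by
    rw [hC₂]
    have : 0 ≤ (D : ℝ) * C' := by positivity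
    linarith
  have hlK : 0 ≤ Real.log ((Kn : ℝ) + 1) := Real.log_nonneg (by
    have : (0 : ℝ) ≤ Kn := Nat.cast_nonneg _
    linarith)
  have hl5 : 0 ≤ Real.log 5 := Real.log_nonneg (by norm_num)
  have hl9 : 0 ≤ Real.log (9 * C₂) := Real.log_nonneg (by linarith)
  have hlC : 0 ≤ Real.log C' := Real.log_nonneg hC1'
  have hlD : 0 ≤ Real.log ((D : ℝ) + 1) := Real.log_nonneg (by linarith)
  obtain ⟨c₁, hc₁⟩ : ∃ c₁ : ℝ, c₁ = s * Real.log 5 + Real.log (Kn + 1) + (r₀ + 1) / ϖ' + r₀ +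
    (m + 3) * Real.log (9 * C₂) := ⟨_, rfl⟩
  have hc₁0 : 0 ≤ c₁ := by rw [hc₁]; positivity
  obtain ⟨c₀, hc₀⟩ : ∃ c₀ : ℝ, c₀ = Q * c₁ + 2 * Q + Real.log C' := ⟨_, rfl⟩
  have hc₀0 : 0 ≤ c₀ := by rw [hc₀]; positivity
  obtain ⟨M₀, hM⟩ : ∃ M₀ : ℝ, M₀ = 2 / η + 8 * c₀ / ε + 2 * r₀ +
    (1 + Real.log (D + 1)) / (η₂ / 8) + 16 / (ε * η₂) := ⟨_, rfl⟩
  refine ⟨κ, ϖ, hκ0, hϖ0, ⌈M₀⌉₊, ?_⟩
  intro Ω Ω' τ σ ι _ _ _ p q f W t U Z S AU AZ gU gZ M X n d hcard H hu hnX hXM' hsu hsz hrow hX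
    hd hdκ
  have hXM : M₀ ≤ X := (Nat.le_ceil _).trans (by exact_mod_cast hX)
  have t1 : 0 ≤ 2 / η := by positivity
  have t2 : 0 ≤ 8 * c₀ / ε := by positivity
  have t3 : 0 ≤ 2 * (r₀ : ℝ) := by positivity
  have t4 : 0 ≤ (1 + Real.log ((D : ℝ) + 1)) / (η₂ / 8) := by positivity
  have t5 : 0 ≤ 16 / (ε * η₂) := by positivity
  rw [hM] at hXM
  have hX1 : 2 / η ≤ X := by linarith only [hXM, t1, t2, t3, t4, t5]
  have hX2 : 8 * c₀ / ε ≤ X := by linarith only [hXM, t1, t2, t3, t4, t5]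
  have hX3 : 2 * (r₀ : ℝ) ≤ X := by linarith only [hXM, t1, t2, t3, t4, t5]
  have hX4 : (1 + Real.log ((D : ℝ) + 1)) / (η₂ / 8) ≤ X := by
    linarith only [hXM, t1, t2, t3, t4, t5]
  have hX5 : 16 / (ε * η₂) ≤ X := by linarith only [hXM, t1, t2, t3, t4, t5]
  have hX0 : (0 : ℝ) ≤ X := Nat.cast_nonneg X
  have hηX : 2 ≤ η * X := by
    rw [div_le_iff₀ hη0] at hX1
    linarith only [hX1]
  have hXpos : (0 : ℝ) < X := by
    by_contra hc
    have : (X : ℝ) = 0 := le_antisymm (not_lt.1 hc) hX0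
    rw [this, mul_zero] at hηX
    linarith only [hηX]
  obtain ⟨g, hg⟩ : ∃ g : ℕ, g = ⌊η * X⌋₊ := ⟨_, rfl⟩
  have hg1 : (g : ℝ) ≤ η * X := by rw [hg]; exact Nat.floor_le (by positivity)
  have hg2 : η * X / 2 ≤ g := by
    have := Nat.lt_floor_add_one (η * (X : ℝ))
    rw [hg]
    linarith only [this, hηX]
  have hNg : X ≤ N * g := by
    have h1 : (X : ℝ) ≤ N * g := by
      have h2 : 2 / η * (η * X / 2) ≤ N * g :=
        mul_le_mul hNη hg2 (by positivity) (Nat.cast_nonneg N)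
      have h3 : 2 / η * (η * X / 2) = X := by field_simp
      linarith only [h2, h3]
    exact_mod_cast h1
  obtain ⟨r, hr⟩ : ∃ r : ℕ, r = ⌊η₂ * X⌋₊ := ⟨_, rfl⟩
  have hr1 : (r : ℝ) ≤ η₂ * X := by rw [hr]; exact Nat.floor_le (by positivity)
  have hr2 : η₂ * X - 1 ≤ r := by
    have := Nat.lt_floor_add_one (η₂ * (X : ℝ))
    rw [hr]
    linarith only [this]
  obtain ⟨R, hRd⟩ : ∃ R : ℕ, R = r * (D + 1) + r₀ := ⟨_, rfl⟩
  have hrR : r ≤ R := by
    rw [hRd, Nat.mul_add, Nat.mul_one]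
    omega
  have hRr : (R : ℝ) ≤ η₂ * (D + 1) * X + r₀ := by
    rw [hRd]
    push_cast
    have := mul_le_mul_of_nonneg_right hr1 (by positivity : (0 : ℝ) ≤ D + 1)
    linarith only [this]
  have hRX : R ≤ X := by
    have h1 := mul_le_mul_of_nonneg_right hη₂3 hX0
    have : (R : ℝ) ≤ X := by linarith only [h1, hRr, hX3]
    exact_mod_cast this
  have hR : 4 * K * ((D : ℝ) ^ 2 + 1) * 2 ^ (r * D) ≤ 2 ^ R := by
    have h1 : 4 * K * ((D : ℝ) ^ 2 + 1) * 2 ^ (r * D) ≤ 2 ^ r₀ * 2 ^ (r * D) :=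
      mul_le_mul_of_nonneg_right hr₀.le (by positivity)
    refine h1.trans ?_
    rw [← pow_add]
    refine pow_le_pow_right₀ (by norm_num) ?_
    rw [hRd, Nat.mul_add, Nat.mul_one]
    omega
  have hRx1 : ((R : ℝ) + 1) * Real.log 2 / ϖ' ≤ s * X + (r₀ + 1) / ϖ' := by
    have h1 : ((R : ℝ) + 1) * Real.log 2 ≤ η₂ * (D + 1) * X + r₀ + 1 := by
      refine le_trans (mul_le_mul_of_nonneg_left hl2' (by positivity)) ?_
      rw [mul_one]
      linarith only [hRr]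
    have h2 := mul_le_mul_of_nonneg_right hη₂1 hX0
    rw [div_le_iff₀ hϖ'0]
    have h3 : (s * X + (r₀ + 1) / ϖ') * ϖ' = s * ϖ' * X + (r₀ + 1) := by field_simp
    rw [h3]
    linarith only [h1, h2]
  have hRx2 : (R : ℝ) * Real.log 2 ≤ s * X + r₀ := by
    have h1 : (R : ℝ) * Real.log 2 ≤ R := mul_le_of_le_one_right (Nat.cast_nonneg R) hl2'
    have h2 := mul_le_mul_of_nonneg_right hη₂2 hX0
    linarith only [h1, h2, hRr]
  have hgx : 2 * (g : ℝ) * Real.log 2 ≤ s * X := by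
    have h1 : (g : ℝ) * Real.log 2 ≤ g := mul_le_of_le_one_right (Nat.cast_nonneg g) hl2'
    have h2 : 2 * (η * X) = s * X := by rw [hη]; ring
    linarith only [h1, h2, hg1]
  have hdx1 : d ≤ s * X := hdκ.trans (mul_le_mul_of_nonneg_right hκ1 hX0)
  have hdx3 : d / ϖ' ≤ s * X := by
    have hdx2 : 4 * d / ϖ' ≤ s * X := by
      rw [div_le_iff₀ hϖ'0]
      have h1 : d ≤ s * ϖ' / 4 * X := hdκ.trans (mul_le_mul_of_nonneg_right hκ2 hX0)
      linarith only [h1]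
    have h1 : 4 * d / ϖ' = d / ϖ' + 3 * (d / ϖ') := by ring
    have h2 : 0 ≤ d / ϖ' := by positivity
    linarith only [h1, h2, hdx2]
  have hQ₁ : 1 / ϖ' / Kn + 1 / ϖ' * ϖ ≤ s := by
    have h1 : 1 / ϖ' / Kn ≤ s / 2 := by
      have hKr : (0 : ℝ) < Kn := by exact_mod_cast hKn0
      rw [div_le_iff₀ hKr, div_le_iff₀ hϖ'0]
      rw [div_le_iff₀ (by positivity)] at hKnr
      linarith only [hKnr]
    have h2 : 1 / ϖ' * ϖ = s / 2 := by
      rw [hϖ]
      field_simp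
    linarith only [h1, h2]
  obtain ⟨E, hE⟩ : ∃ E : ℝ, E = Er4 X g R Kn m C₂ ϖ' ϖ d := ⟨_, rfl⟩
  have hQ₁0 : 0 ≤ 1 / ϖ' / Kn + 1 / ϖ' * ϖ := by positivity
  have hE0 : 0 ≤ E := by
    rw [hE]
    unfold Er4
    positivity
  have hgl0 : 0 ≤ (g : ℝ) * Real.log 2 := by positivity
  have hE1 : E ≤ 7 * (s * X) + c₁ := by
    rw [hE, hc₁]
    unfold Er4
    have h1 : (1 / ϖ' / Kn + 1 / ϖ' * ϖ) * (X * Real.log 2 + Real.log 5) ≤
        s * X + s * Real.log 5 := by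
      have h2 : (X : ℝ) * Real.log 2 + Real.log 5 ≤ X + Real.log 5 := by
        have := mul_le_of_le_one_right hX0 hl2'
        linarith only [this]
      have h3 : 0 ≤ (X : ℝ) * Real.log 2 + Real.log 5 := by positivity
      refine (mul_le_mul hQ₁ h2 h3 hs0.le).trans (le_of_eq ?_)
      ring
    have h4 : (d + (R + 1) * Real.log 2) / ϖ' = d / ϖ' + (R + 1) * Real.log 2 / ϖ' := by ring
    have h5 : ((g : ℝ) + R) * Real.log 2 = g * Real.log 2 + R * Real.log 2 := by ring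
    rw [h4, h5]
    have h6 : 0 ≤ s * (X : ℝ) := by positivity
    linarith only [h1, hdx1, hdx3, hRx1, hRx2, hgx, hgl0, h6]
  obtain ⟨e, he⟩ : ∃ e : ℝ, e = E / (h * Real.log 2) := ⟨_, rfl⟩
  have he0 : 0 ≤ e := by rw [he]; positivity
  have heE : e * (h * Real.log 2) = E := by
    rw [he, div_mul_cancel₀ _ (by positivity)]
  obtain ⟨nn, hnn⟩ : ∃ nn : ℕ, nn = ⌈e⌉₊ := ⟨_, rfl⟩
  have hn1 : e ≤ nn := by rw [hnn]; exact Nat.le_ceil _
  have hn2 : (nn : ℝ) ≤ e + 1 := by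
    have := (Nat.ceil_lt_add_one he0).le
    rw [hnn]
    exact this
  have hnl : nn * Real.log 2 ≤ Q * E + 2 * Q := by
    have h1 := mul_le_mul_of_nonneg_right hn2 hl2.le
    have h2 : e * Real.log 2 = E / h := by
      rw [he]
      field_simp
    have h3 : E / h ≤ Q * E := by
      have h4 : E / h = 1 / h * E := by ring
      rw [h4]
      exact mul_le_mul_of_nonneg_right (by rw [hQ]; linarith) hE0
    have h5 : Real.log 2 ≤ 2 * Q := by
      have h6 : 1 ≤ Q := by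
        rw [hQ]
        have : 0 < 1 / h := by positivity
        linarith
      linarith
    have h7 : (e + 1) * Real.log 2 = e * Real.log 2 + Real.log 2 := by ring
    rw [h7, h2] at h1
    linarith
  have hc : c₀ ≤ ε / 8 * X := by
    rw [div_le_iff₀ hε] at hX2
    linarith only [hX2]
  have hln : C' * (2 : ℝ) ^ (nn + g) ≤ (2 : ℝ) ^ (ε * X) := by
    have h3 : Real.log (C' * 2 ^ (nn + g)) ≤ Real.log ((2 : ℝ) ^ (ε * X)) := by
      rw [Real.log_mul (by positivity) (by positivity), Real.log_pow,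
        Real.log_rpow (by norm_num)]
      have h4 : Q * E ≤ 7 * (ε / 32) * X + Q * c₁ := by
        have h5 := mul_le_mul_of_nonneg_left hE1 hQ0.le
        have h6 : Q * (7 * (s * X) + c₁) = 7 * (Q * s) * X + Q * c₁ := by ring
        rw [h6, hQs] at h5
        exact h5
      have h8 : 12 / 32 * (ε * X) ≤ ε * X * Real.log 2 := by
        have h10 : 0 ≤ ε * X := by positivity
        have h11 := mul_le_mul_of_nonneg_left
          (by linarith only [hl2a] : (12 / 32 : ℝ) ≤ Real.log 2) h10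
        linarith only [h11]
      have h9 : (g : ℝ) * Real.log 2 ≤ ε / 32 * X := by
        have h10 := mul_le_mul_of_nonneg_right hsε hX0
        linarith only [hgx, h10, hgl0]
      rw [hc₀] at hc
      push_cast
      rw [add_mul]
      linarith only [h4, h8, hc, hnl, h9]
    exact (Real.log_le_log_iff (by positivity) (by positivity)).1 h3
  obtain ⟨x, hx⟩ : ∃ x : ℝ, x = η₂ * X / 2 := ⟨_, rfl⟩
  have hx0 : 0 < x := by rw [hx]; positivity
  have hx1 : x ≤ r * Real.log 2 - Real.log (D + 1) := by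
    rw [div_le_iff₀ (by positivity)] at hX4
    have h1 : (η₂ * X - 1) * Real.log 2 ≤ r * Real.log 2 := mul_le_mul_of_nonneg_right hr2 hl2.le
    have h2 : η₂ * X * (5 / 8) ≤ η₂ * X * Real.log 2 :=
      mul_le_mul_of_nonneg_left (by linarith only [hl2a]) (by positivity)
    have h3 : (η₂ * X - 1) * Real.log 2 = η₂ * X * Real.log 2 - Real.log 2 := by ring
    rw [h3] at h1
    rw [hx]
    linarith only [h1, h2, hX4, hl2']
  have hEe : Er4 X g R Kn m C₂ ϖ' ϖ d ≤ e * (h * Real.log 2) := by rw [heE, hE]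
  -- the data with the constant `C'`
  have H' : Hpz D p q f W t Z S AZ gZ M C' d := ⟨H.lp, H.lq, H.im, H.t0, H.full,
    H.z.mono hCC', H.dS⟩
  have hu' : ∀ i, Rlp q W t (fun w => U (f w) i) (fun w => AU w i) (fun w => gU w i) M C' :=
    fun i => (hu i).mono hCC'
  have hP1 : (0 : ℝ) < 2 ^ X := by positivity
  have hsz' : ∀ w, 0 < q w → n1 (gZ w) ≤ C' * 2 ^ X := fun w hw =>
    (hsz w hw).trans (mul_le_mul_of_nonneg_right hCC' hP1.le)
  have hsum : ∀ w, 0 < q w → ∑ i, n1 (gU w i) ≤ C' * 2 ^ n := by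
    intro w hw
    have h1 : ∑ i, n1 (gU w i) ≤ ∑ _i : ι, C * 2 ^ n := Finset.sum_le_sum fun i _ => hsu w hw i
    rw [Finset.sum_const, Finset.card_univ, nsmul_eq_mul, hcard] at h1
    refine h1.trans ?_
    rw [hC', ← mul_assoc]
    refine mul_le_mul_of_nonneg_right ?_ (by positivity)
    linarith
  have hsum0 : ∀ w, 0 ≤ ∑ i, n1 (gU w i) := fun w => Finset.sum_nonneg fun i _ => n1_nonneg _
  have abn : ∀ (c : ℝ) (n : ℕ), 0 ≤ c → |c / 2 ^ n| = c / 2 ^ n := fun c n hc =>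
    abs_of_nonneg (div_nonneg hc (by positivity))
  have hcell : ∀ i j, i ≤ N → ϖ' ≤ Pe q (fun w => (idx C' g N ((∑ i, n1 (gU w i)) / 2 ^ n) = i ∧
      idx C' g N (n1 (gZ w) / 2 ^ X) = j) ∧ gd t gZ M R r K w) →
      X ≤ j * g + (n - i * g) + nn := by
    intro i j _ hij
    rcases Nat.lt_or_ge j N with hjN | hjN
    swap
    · have h1 : N * g ≤ j * g := Nat.mul_le_mul_right g hjN
      omega
    have key := fv_cell H' hXM' hu' hrow hC1' hh0 hh1 hϖ0.le hd (a := i * g) (b := j * g)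
      (g := g) (n := n) hKn0 hK hR (hRX.trans hXM') hC₂ hϖ'0 hij
      (fun w hw hG i' => by
        have e4 : |(∑ i, n1 (gU w i)) / 2 ^ n| ≤ C' := by
          rw [abn _ _ (hsum0 w), div_le_iff₀ (by positivity)]
          exact hsum w hw
        have e5 := idx_spec (g := g) (N := N) e4
        rw [hG.1.1, abn _ _ (hsum0 w)] at e5
        refine le_trans ?_ e5
        refine mul_le_mul_of_nonneg_right ?_ (by positivity)
        refine div_le_div_of_nonneg_right ?_ (by positivity)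
        exact Finset.single_le_sum (f := fun i => n1 (gU w i)) (fun i _ => n1_nonneg _)
          (Finset.mem_univ i'))
      (fun w hw hG => by
        have e4 : |n1 (gZ w) / 2 ^ X| ≤ C' := by
          rw [abn _ _ (n1_nonneg _), div_le_iff₀ (by positivity)]
          exact hsz' w hw
        have e5 := idx_spec (g := g) (N := N) e4
        rw [hG.1.2, abn _ _ (n1_nonneg _)] at e5
        exact e5)
      (fun w hw hG => by
        have e5 := idx_low hC1' (g := g) (N := N) (x := n1 (gZ w) / 2 ^ X)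
          (by rw [hG.1.2]; exact hjN)
        rw [hG.1.2, abn _ _ (n1_nonneg _)] at e5
        exact e5)
      (fun w hw hG => hG.2)
    rw [hcard] at key
    have h1 : ((X : ℝ) - (j * g + (n - i * g) : ℕ)) * (h * Real.log 2) ≤
        e * (h * Real.log 2) := by
      refine le_trans (le_of_eq ?_) (key.trans hEe)
      ring
    have h2 := le_of_mul_le_mul_right h1 (by positivity)
    have : (X : ℝ) ≤ ((j * g + (n - i * g) + nn : ℕ) : ℝ) := by
      push_cast at h2 ⊢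
      linarith
    exact_mod_cast this
  have key := near_abs H.lq hC1' hnX hNg hsum0 (fun w => n1_nonneg (gZ w)) hsz' hϖ'0.le hcell hln
  refine key.trans ?_
  have hN2 : ((N : ℝ) + 2) ^ 2 * ϖ' = ε / 8 := by
    rw [hϖ']
    field_simp
  have hgm : Pe q (fun w => ¬ gd t gZ M R r K w) ≤ (d + Real.log 2) / x := by
    have h1 := raw_mass H.lq H.t0 H.full hK hrR (hRX.trans hXM') hb gZ H.z.dc
    rw [le_div_iff₀ hx0]
    exact le_trans (mul_le_mul_of_nonneg_left hx1 (Pool.K2S.Pe_nonneg H.lq _)) h1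
  have hbad : (d + Real.log 2) / x ≤ ε / 4 := by
    rw [div_le_iff₀ hx0, hx]
    have h1 : d ≤ ε * η₂ / 64 * X := hdκ.trans (mul_le_mul_of_nonneg_right hκ3 hX0)
    rw [div_le_iff₀ (by positivity)] at hX5
    have h2 : 0 ≤ ε * η₂ * X := by positivity
    have h3 : ε / 4 * (η₂ * X / 2) = ε * η₂ * X / 8 := by ring
    have h4 : X * (ε * η₂) = ε * η₂ * X := by ring
    have h5 : ε * η₂ / 64 * X = ε * η₂ * X / 64 := by ring
    rw [h3]
    rw [h4] at hX5
    rw [h5] at h1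
    linarith only [h1, hX5, hl2', hd]
  rw [hN2]
  linarith only [hbad, hε, hgm]

/-- **The row with the first digits of several values.** -/
theorem row_of_indv {Ω σ ι : Type} [Fintype Ω] [Fintype ι] {p : Ω → ℝ} (hp : IsLaw p)
    {U : Ω → ι → ℤ} {Z : Ω → ℤ} {S : Ω → σ} {X : ℕ} {n l : ι → ℕ} {h ϖ d e : ℝ}
    (hln : ∀ i, l i ≤ n i) (hϖ : 0 < ϖ) (hrow : Nzv p U Z S X h ϖ d)
    (hind : ∀ G : Ω → Prop, ϖ ≤ Pe p G → (∑ i, ((n i : ℝ) - l i)) * Real.log 2 - e ≤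
      CH (cond p G True) U (fun ω => ((fun i => tp (n i) (l i) (U ω i)), (Z ω, S ω)))) :
    Nzv p (fun ω i => tp (n i) (l i) (U ω i)) Z S X h ϖ
      (d + e + Fintype.card ι * Real.log 5) := by
  intro i hi G hG
  have h1 := hrow i hi G hG
  have h2 := hind G hG
  have h0 : 0 < Pe p G := lt_of_lt_of_le hϖ hG
  have hr : IsLaw (cond p G True) := cond_law hp.nonneg h0
  have hn := hr.nonneg
  obtain ⟨ρ, hρ⟩ : ∃ ρ, ρ = cond p G True := ⟨_, rfl⟩
  rw [← hρ] at h1 h2 hr hn ⊢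
  obtain ⟨u, hu⟩ : ∃ u : Ω → ι → ℤ, u = fun ω i => tp (n i) (l i) (U ω i) := ⟨_, rfl⟩
  have hu2 : ∀ ω, (fun i => tp (n i) (l i) (U ω i)) = u ω := fun ω => by rw [hu]
  simp only [hu2] at h2 ⊢
  have e1 : CH ρ (fun ω => (Z ω, U ω)) (fun ω => (tp X i (Z ω), (u ω, S ω))) =
      CH ρ U (fun ω => (tp X i (Z ω), (u ω, S ω))) +
        CH ρ Z (fun ω => (U ω, (tp X i (Z ω), (u ω, S ω)))) := CH_chain hn _ _ _
  have e2 : CH ρ (fun ω => (U ω, Z ω)) (fun ω => (tp X i (Z ω), (u ω, S ω))) =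
      CH ρ Z (fun ω => (tp X i (Z ω), (u ω, S ω))) +
        CH ρ U (fun ω => (Z ω, (tp X i (Z ω), (u ω, S ω)))) := CH_chain hn _ _ _
  have e3 : CH ρ (fun ω => (Z ω, U ω)) (fun ω => (tp X i (Z ω), (u ω, S ω))) =
      CH ρ (fun ω => (U ω, Z ω)) (fun ω => (tp X i (Z ω), (u ω, S ω))) := by
    refine CH_congr hn ?_ ?_ (fun _ _ _ _ e => e) (fun _ _ _ _ e => e)
    · intro ω ω' _ _ e
      simp only [Prod.mk.injEq] at e ⊢
      exact ⟨e.1.2, e.1.1⟩
    · intro ω ω' _ _ e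
      simp only [Prod.mk.injEq] at e ⊢
      exact ⟨e.1.2, e.1.1⟩
  have e4 : CH ρ Z (fun ω => (U ω, (tp X i (Z ω), (u ω, S ω)))) ≤
      CH ρ Z (fun ω => (tp X i (Z ω), (U ω, S ω))) := by
    refine CH_mono_cond hn fun ω ω' _ _ e => ?_
    simp only [Prod.mk.injEq] at e ⊢
    exact ⟨e.2.1, e.1, e.2.2.2⟩
  have e5 : CH ρ U (fun ω => (u ω, (Z ω, S ω))) ≤
      CH ρ U (fun ω => (Z ω, (tp X i (Z ω), (u ω, S ω)))) := by
    refine CH_mono_cond hn fun ω ω' _ _ e => ?_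
    simp only [Prod.mk.injEq] at e ⊢
    exact ⟨e.2.1, by rw [e.2.1], e.1, e.2.2⟩
  have e6 : CH ρ U (fun ω => (tp X i (Z ω), (u ω, S ω))) ≤
      (∑ i, ((n i : ℝ) - l i)) * Real.log 2 + Fintype.card ι * Real.log 5 := by
    refine (CH_fam hn U _).trans ?_
    have h6 : ∀ j ∈ (Finset.univ : Finset ι), CH ρ (fun ω => U ω j)
        (fun ω => (tp X i (Z ω), (u ω, S ω))) ≤ ((n j : ℝ) - l j) * Real.log 2 + Real.log 5 := by
      intro j _
      have h3 := CH_few_tp hr (fun ω => U ω j) (fun ω => (tp X i (Z ω), (u ω, S ω))) (X := n j)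
        (m := n j) (L := 2 ^ (n j - l j)) (by
          intro ω ω' _ _ e
          have e7 : u ω = u ω' := by
            have := (Prod.ext_iff.mp e).2
            exact (Prod.ext_iff.mp this).1
          have e8 : u ω j = u ω' j := congrFun e7 j
          rw [hu] at e8
          have := of_tp_eq (n j) (l j) e8
          rw [← pow_add]
          have e2 : n j - l j + (n j - n j) = n j - l j := by omega
          rw [e2]
          exact this)
      simp only [tp_self] at h3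
      refine h3.trans ?_
      have h4 : (1 : ℝ) ≤ 2 ^ (n j - l j) := one_le_pow₀ (by norm_num)
      have h5 : Real.log (2 * 2 ^ (n j - l j) + 3) ≤ Real.log (2 ^ (n j - l j) * 5) := by
        refine Real.log_le_log (by positivity) ?_
        linarith
      have h6 : Real.log ((2 : ℝ) ^ (n j - l j) * 5) =
          (n j - l j : ℕ) * Real.log 2 + Real.log 5 := by
        rw [Real.log_mul (by positivity) (by norm_num), Real.log_pow]
      rw [Nat.cast_sub (hln j)] at h6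
      linarith
    refine (Finset.sum_le_sum h6).trans (le_of_eq ?_)
    rw [Finset.sum_add_distrib, ← Finset.sum_mul, Finset.sum_const, Finset.card_univ,
      nsmul_eq_mul]
  linarith

end Pool.LPK12
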