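import Pool.Agent.H12.LPK.Hop

/-!
# One hop, full digits

`hop_ind`: if the displacement of `Z` is small and that of `U` moves the digits behind `l`, then
these digits are full given `Z`, `S` and the digits before, on all large events.
-/

set_option autoImplicit false

namespace Pool.LPK12

open Finset Real
open Pool.Agent.H49.Ent Pool.Agent.H32.Dense Pool.STK Pool.POT Pool.TQ Pool.LPX
open Pool.K2S (Pe)

/-- Images and events. -/
theorem im_cond {Ω Ω' : Type} [Fintype Ω] [Fintype Ω'] {q : Ω' → ℝ} {p : Ω → ℝ} {f : Ω' → Ω}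
    (h : Im q p f) (G : Ω → Prop) :
    Im (cond q (fun w => G (f w)) True) (cond p G True) f := by
  intro ω
  have h1 : law q (fun w => G (f w)) True = law p G True := h.law G True
  have h2 := h ω
  unfold Pool.Agent.H49.Ent.cond
  rw [h1]
  by_cases hG : G ω
  · rw [if_pos (eq_true hG), ← h2, Finset.sum_div]
    refine Finset.sum_congr rfl fun w _ => ?_
    by_cases hw : f w = ω
    · rw [if_pos hw, if_pos hw, if_pos (by beta_reduce; rw [hw]; exact eq_true hG)]
    · rw [if_neg hw, if_neg hw, zero_div]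
  · rw [if_neg (fun e => hG (of_eq_true e))]
    refine Finset.sum_eq_zero fun w _ => ?_
    by_cases hw : f w = ω
    · rw [if_pos hw, if_neg (by beta_reduce; rw [hw]; exact fun e => hG (of_eq_true e))]
    · rw [if_neg hw]

/-- The time is full on any event, if it is full. -/
theorem full_any {Ω' τ : Type} [Fintype Ω'] {q : Ω' → ℝ} (hq : IsLaw q) {F : Ω' → Prop}
    (t : Ω' → ℤ) (W : Ω' → τ) {X : ℕ} (ht : ∀ ω, 0 < q ω → 0 ≤ t ω ∧ t ω < 2 ^ X) {D : ℝ}
    (full : X * Real.log 2 - D ≤ CH q t W) (h0 : 0 < Pe q F) :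
    X * Real.log 2 - (D + Real.log 2) / Pe q F ≤ CH (cond q F True) t W := by
  classical
  have hn := hq.nonneg
  obtain ⟨I, hI⟩ : ∃ I : Ω' → Bool, I = fun ω => decide (F ω) := ⟨_, rfl⟩
  have h1 := CH_le_add hn t I W
  have h2 : CH q I W ≤ Real.log 2 := by
    have := CH_le_card hn hq.sum_one I W (fun _ => Finset.univ) fun _ _ => Finset.mem_univ _
    rw [Ex_const hq.sum_one] at this
    simpa using this
  have h3 : Det q (fun ω => (I ω, W ω)) F := by
    intro ω ω' _ _ e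
    have e1 : I ω = I ω' := (Prod.ext_iff.mp e).1
    rw [hI] at e1
    exact propext (decide_eq_decide.1 e1)
  have h4 := time_ev hq t (fun ω => (I ω, W ω)) h3 ht (D := D + Real.log 2) (by linarith) h0
  refine h4.trans ?_
  exact CH_mono_cond (cond_law hn h0).nonneg fun ω ω' _ _ e => (Prod.ext_iff.mp e).2

variable {Ω Ω' τ σ : Type} [Fintype Ω] [Fintype Ω']
  {D : ℕ} {p : Ω → ℝ} {q : Ω' → ℝ} {f : Ω' → Ω} {W : Ω' → τ} {t : Ω' → ℤ} {U Z : Ω → ℤ}
  {S : Ω → σ} {AU AZ : Ω' → ℝ} {gU gZ : Ω' → Fin D → ℝ} {M X n : ℕ} {C d : ℝ}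

/-- **One cell.** -/
theorem ind_cell (H : Hop D p q f W t U Z S AU AZ gU gZ M C d) (hnX : n ≤ X) (hXM : X ≤ M)
    (hC : 1 ≤ C) {a g k l R r : ℕ} {K C₂ : ℝ} (hkX : k ≤ X) (hK : 1 ≤ K)
    (hR : 4 * K * (D ^ 2 + 1) * 2 ^ (r * D) ≤ 2 ^ R) (hRM : R ≤ M) (hC₂ : C₂ = (D + 2) * C)
    {F : Ω' → Prop} (h0 : 0 < Pe q F)
    (hg : ∀ w, 0 < q w → F w → gd t gU M R r K w)
    (hz : ∀ w, 0 < q w → F w → n1 (gZ w) ≤ 2 ^ k)
    (hu1 : ∀ w, 0 < q w → F w → n1 (gU w) / 2 ^ n * 2 ^ a ≤ C)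
    (hu2 : a < n → ∀ w, 0 < q w → F w → 1 ≤ n1 (gU w) / 2 ^ n * 2 ^ (a + g))
    (hu3 : ∀ w, 0 < q w → F w → 2 ^ n ≤ n1 (gU w) * 2 ^ (l + k)) :
    ((n : ℝ) - l) * Real.log 2 - ((g + R + 2 * k) * Real.log 2 + 4 * Real.log (9 * C₂)) -
      (d + (R + 1) * Real.log 2) / Pe q F ≤
      CH (cond q F True) (fun w => U (f w)) (fun w => (tp n l (U (f w)), (Z (f w), S (f w)))) := by
  classical
  have hp := H.lp
  have hq := H.lq
  have hD0 : (0 : ℝ) ≤ D := Nat.cast_nonneg D
  have hC0 : 0 ≤ C := by linarith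
  have hDC : 0 ≤ D * C := by positivity
  have hC₂1 : 1 ≤ C₂ := by
    rw [hC₂]
    linarith
  have hC₂8 : 2 * C ≤ C₂ := by
    rw [hC₂]
    linarith
  have hC₂D : D * C ≤ C₂ := by
    rw [hC₂]
    linarith
  have hl2 : 0 < Real.log 2 := Real.log_pos (by norm_num)
  have hl9 : 0 ≤ Real.log (9 * C₂) := Real.log_nonneg (by linarith)
  obtain ⟨W', hW'⟩ : ∃ W', W' = Wr W t M R := ⟨_, rfl⟩
  have full' := full_Wr hq hRM H.t0 H.full
  rw [← hW'] at full'
  obtain ⟨ρ, hr⟩ : ∃ ρ, ρ = cond q F True := ⟨_, rfl⟩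
  have hrl : IsLaw ρ := by
    rw [hr]
    exact cond_law hq.nonneg h0
  have hn := hrl.nonneg
  have hrq : ∀ w, 0 < ρ w → 0 < q w ∧ F w := fun w hw => by
    rw [hr] at hw
    have := (cond_pos_iff hq.nonneg F True w).1 hw
    exact ⟨this.1, by simpa using this.2⟩
  have full := full_any hq t W' H.t0 full' h0
  rw [← hr] at full ⊢
  obtain ⟨Df, hDf⟩ : ∃ Df : ℝ, Df = (d + (R + 1) * Real.log 2) / Pe q F := ⟨_, rfl⟩
  have hDf' : (d + R * Real.log 2 + Real.log 2) / Pe q F = Df := by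
    rw [hDf]
    ring
  rw [hDf'] at full
  rw [← hDf]
  have hUr : Rlp ρ W t (fun w => U (f w)) AU gU M C :=
    ⟨fun w w' a b => H.u.dA w w' (hrq w a).1 (hrq w' b).1,
    fun w w' a b => H.u.dc w w' (hrq w a).1 (hrq w' b).1, fun w a => H.u.rel w (hrq w a).1⟩
  have hZr : Rlp ρ W t (fun w => Z (f w)) AZ gZ M C :=
    ⟨fun w w' a b => H.z.dA w w' (hrq w a).1 (hrq w' b).1,
    fun w w' a b => H.z.dc w w' (hrq w a).1 (hrq w' b).1, fun w a => H.z.rel w (hrq w a).1⟩
  have ht : ∀ w, 0 < ρ w → 0 ≤ t w ∧ t w < 2 ^ M := fun w hw => H.t0 w (hrq w hw).1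
  have hCH0 := CH_nonneg hn (fun w => U (f w)) (fun w => (tp n l (U (f w)), (Z (f w), S (f w))))
  have hDf0 : 0 ≤ Df := by
    have h1 := time_le hrl t W' ht
    linarith
  -- the size of `a`
  have haL : (a : ℝ) * Real.log 2 ≤ Real.log C + (l + k) * Real.log 2 := by
    obtain ⟨w, hw⟩ : ∃ w, 0 < ρ w := by
      by_contra hc
      push Not at hc
      have h1 : ∑ w, ρ w ≤ 0 := Finset.sum_nonpos fun w _ => hc w
      rw [hrl.sum_one] at h1
      linarith
    obtain ⟨hw1, hw2⟩ := hrq w hw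
    have h1 := hu1 w hw1 hw2
    have h3 := hu3 w hw1 hw2
    have hPn : (0 : ℝ) < 2 ^ n := by positivity
    have hPa : (0 : ℝ) < 2 ^ a := by positivity
    have hPl : (0 : ℝ) < 2 ^ (l + k) := by positivity
    rw [div_mul_eq_mul_div, div_le_iff₀ hPn] at h1
    have h4 : (2 : ℝ) ^ a ≤ C * 2 ^ (l + k) := by
      have h5 := mul_le_mul_of_nonneg_right h3 hPa.le
      have h6 := mul_le_mul_of_nonneg_right h1 hPl.le
      have h7 : 2 ^ a * (2 : ℝ) ^ n ≤ C * 2 ^ (l + k) * 2 ^ n := by linarith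
      exact le_of_mul_le_mul_right h7 hPn
    have h5 := Real.log_le_log hPa h4
    rw [Real.log_mul (by linarith) hPl.ne', Real.log_pow, Real.log_pow] at h5
    push_cast at h5
    exact h5
  have hCC : Real.log C ≤ Real.log (9 * C₂) := Real.log_le_log (by linarith) (by linarith)
  have hg0 : 0 ≤ (g : ℝ) * Real.log 2 := by positivity
  have hR0 : 0 ≤ (R : ℝ) * Real.log 2 := by positivity
  have hk0 : 0 ≤ (k : ℝ) * Real.log 2 := by positivity
  rcases Nat.lt_or_ge a n with han | han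
  swap
  · refine le_trans ?_ hCH0
    have h1 : (n : ℝ) * Real.log 2 ≤ a * Real.log 2 :=
      mul_le_mul_of_nonneg_right (by exact_mod_cast han) hl2.le
    linarith
  -- speeds
  have upU : Dup ρ W' t (fun w => U (f w)) M n a C₂ := by
    rw [hW']
    exact hUr.up ht (fun w hw => hu1 w (hrq w hw).1 (hrq w hw).2) hC₂8 hC₂D R
  have loU : Dlo ρ W' t (fun w => U (f w)) M n (a + (g + R)) C₂ := by
    rw [hW', ← add_assoc]
    exact hUr.lo ht hK hR hRM (fun w hw => hu2 han w (hrq w hw).1 (hrq w hw).2)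
      (fun w hw => hg w (hrq w hw).1 (hrq w hw).2) hC₂8
  have upZ : Dup ρ W' t (fun w => Z (f w)) M X (X - k) C₂ := by
    rw [hW']
    refine hZr.up ht (C₁ := C) (fun w hw => ?_) hC₂8 hC₂D R
    have h1 := hz w (hrq w hw).1 (hrq w hw).2
    have hP : (0 : ℝ) < 2 ^ X := by positivity
    rw [div_mul_eq_mul_div, div_le_iff₀ hP]
    have h2 : n1 (gZ w) * 2 ^ (X - k) ≤ 2 ^ k * 2 ^ (X - k) :=
      mul_le_mul_of_nonneg_right h1 (by positivity)
    rw [← pow_add, Nat.add_sub_cancel' hkX] at h2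
    exact h2.trans (le_mul_of_one_le_left hP.le hC)
  obtain ⟨u, hu⟩ : ∃ u : Ω' → ℤ, u = fun w => U (f w) := ⟨_, rfl⟩
  obtain ⟨ul, hul⟩ : ∃ ul : Ω' → ℤ, ul = fun w => tp n l (U (f w)) := ⟨_, rfl⟩
  obtain ⟨z, hzd⟩ : ∃ z : Ω' → ℤ, z = fun w => Z (f w) := ⟨_, rfl⟩
  obtain ⟨tr, htr⟩ : ∃ tr : Ω' → ℤ, tr = fun w => tp M (n - a) (t w) := ⟨_, rfl⟩
  have e1 : CH ρ ul W' ≤ (l - a : ℕ) * Real.log 2 + Real.log (9 * C₂) := by
    rw [hul]
    exact upU.few hrl hC₂1 ht (m := l) (l - a) (by omega)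
  have e2 : CH ρ z W' ≤ k * Real.log 2 + Real.log (9 * C₂) := by
    have := upZ.few hrl hC₂1 ht (m := X) k (by omega)
    simp only [tp_self] at this
    rw [hzd]
    exact this
  have e3 : CH ρ tr (fun w => (u w, W' w)) ≤ (g + R) * Real.log 2 + Real.log (9 * C₂) := by
    have := loU.time hrl hC₂1 (m := n) (r := n - a) le_rfl (by omega)
    simp only [tp_self] at this
    rw [htr, hu]
    push_cast at this
    exact this
  have e4 : ((n : ℝ) - a) * Real.log 2 - Df ≤ CH ρ tr W' := by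
    have := time_tp hrl t W' (X := M) (r := n - a) (by omega) full
    rw [Nat.cast_sub han.le] at this
    rw [htr]
    exact this
  -- the chain
  have c1 := CH_le_add hn tr ul W'
  have c2 := CH_le_add hn tr z (fun w => (ul w, W' w))
  have c3 := CH_le_add hn tr u (fun w => (z w, (ul w, W' w)))
  have c4 : CH ρ z (fun w => (ul w, W' w)) ≤ CH ρ z W' :=
    CH_mono_cond hn fun _ _ _ _ e => (Prod.ext_iff.mp e).2
  have c5 : CH ρ tr (fun w => (u w, (z w, (ul w, W' w)))) ≤ CH ρ tr (fun w => (u w, W' w)) := by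
    refine CH_mono_cond hn fun w w' _ _ e => ?_
    simp only [Prod.mk.injEq] at e ⊢
    exact ⟨e.1, e.2.2.2⟩
  have c6 : CH ρ u (fun w => (z w, (ul w, W' w))) ≤
      CH ρ (fun w => U (f w)) (fun w => (tp n l (U (f w)), (Z (f w), S (f w)))) := by
    rw [← hu]
    refine CH_mono_cond hn fun w w' x x' e => ?_
    simp only [Prod.mk.injEq] at e ⊢
    have e5 : W w = W w' := by
      have := e.2.2
      rw [hW'] at this
      exact (Prod.ext_iff.mp this).1
    have e6 := H.dS w w' (hrq w x).1 (hrq w' x').1 e5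
    have e7 := e.1
    have e8 := e.2.1
    rw [hzd] at e7
    rw [hul] at e8
    exact ⟨e8, e7, e6⟩
  have h9 : ((n : ℝ) - l) * Real.log 2 ≤ ((n : ℝ) - a) * Real.log 2 - (l - a : ℕ) * Real.log 2 +
      (Real.log C + k * Real.log 2) := by
    rcases le_total a l with hal | hal
    · rw [Nat.cast_sub hal]
      have := Real.log_nonneg hC
      linarith
    · have : l - a = 0 := by omega
      rw [this]
      push_cast
      linarith
  linarith

open Classical in
/-- The index of a cell. -/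
noncomputable def jx (gU gZ : Ω' → Fin D → ℝ) (t : Ω' → ℤ) (M n g N R r l k : ℕ) (C K : ℝ)
    (w : Ω') : ℕ :=
  if gd t gU M R r K w ∧ n1 (gZ w) ≤ 2 ^ k ∧ 2 ^ n ≤ n1 (gU w) * 2 ^ (l + k) then
    idx C g N (n1 (gU w) / 2 ^ n) + 1 else 0

/-- **All cells together.** -/
theorem ind_all (H : Hop D p q f W t U Z S AU AZ gU gZ M C d) (hnX : n ≤ X) (hXM : X ≤ M)
    (hC : 1 ≤ C) {g N k l R r : ℕ} {K C₂ : ℝ} (hkX : k ≤ X) (hN : X ≤ N * g)
    (hsu : ∀ w, 0 < q w → n1 (gU w) ≤ C * 2 ^ n) (hK : 1 ≤ K)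
    (hR : 4 * K * (D ^ 2 + 1) * 2 ^ (r * D) ≤ 2 ^ R) (hRM : R ≤ M) (hC₂ : C₂ = (D + 2) * C)
    (hd : 0 ≤ d) (G : Ω → Prop) (h0 : 0 < Pe p G) {b : ℝ}
    (hb : Pe q (fun w => jx gU gZ t M n g N R r l k C K w = 0) ≤ b) :
    ((n : ℝ) - l) * Real.log 2 - ((g + R + 2 * k) * Real.log 2 + 4 * Real.log (9 * C₂)) -
      b / Pe p G * (n * Real.log 2) - (N + 2) * ((d + (R + 1) * Real.log 2) / Pe p G) ≤
      CH (cond p G True) U (fun ω => (tp n l (U ω), (Z ω, S ω))) := by
  classical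
  have hp := H.lp
  have hq := H.lq
  have hl2 : 0 < Real.log 2 := Real.log_pos (by norm_num)
  have hD0 : (0 : ℝ) ≤ D := Nat.cast_nonneg D
  have hC₂1 : 1 ≤ C₂ := by
    have : 0 ≤ D * C := by positivity
    rw [hC₂]
    linarith
  have hl9 : 0 ≤ Real.log (9 * C₂) := Real.log_nonneg (by linarith)
  obtain ⟨E, hE⟩ : ∃ E : Ω' → Prop, E = fun w => G (f w) := ⟨_, rfl⟩
  have hPE : Pe q E = Pe p G := by
    rw [hE]
    exact H.im.law G True
  rw [← hPE] at h0 ⊢
  obtain ⟨qE, hqE⟩ : ∃ qE, qE = cond q E True := ⟨_, rfl⟩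
  have hqEl : IsLaw qE := by
    rw [hqE]
    exact cond_law hq.nonneg h0
  have him : Im qE (cond p G True) f := by
    rw [hqE, hE]
    exact im_cond H.im G
  obtain ⟨X', hX'⟩ : ∃ X' : Ω' → ℤ, X' = fun w => U (f w) := ⟨_, rfl⟩
  obtain ⟨Y, hY⟩ : ∃ Y : Ω' → ℤ × (ℤ × σ), Y = fun w => (tp n l (U (f w)), (Z (f w), S (f w))) :=
    ⟨_, rfl⟩
  have e0 : CH (cond p G True) U (fun ω => (tp n l (U ω), (Z ω, S ω))) = CH qE X' Y := by
    rw [hX', hY]
    exact (him.CH U (fun ω => (tp n l (U ω), (Z ω, S ω)))).symm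
  rw [e0]
  obtain ⟨e₁, he₁⟩ : ∃ e₁ : ℝ, e₁ = (g + R + 2 * k) * Real.log 2 + 4 * Real.log (9 * C₂) :=
    ⟨_, rfl⟩
  obtain ⟨Dd, hDd⟩ : ∃ Dd : ℝ, Dd = d + (R + 1) * Real.log 2 := ⟨_, rfl⟩
  have hDd0 : 0 ≤ Dd := by rw [hDd]; positivity
  have he₁0 : 0 ≤ e₁ := by rw [he₁]; positivity
  rw [← he₁, ← hDd]
  obtain ⟨J, hJ⟩ : ∃ J : Ω' → ℕ, J = jx gU gZ t M n g N R r l k C K := ⟨_, rfl⟩
  rw [← hJ] at hb
  have hb' : Pe q (fun w => J w = 0) ≤ b := hb
  have hb0 : 0 ≤ b := le_trans (law_nonneg hq.nonneg _ _) hb'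
  obtain ⟨y, hy⟩ : ∃ y : ℝ, y = ((n : ℝ) - l) * Real.log 2 - e₁ := ⟨_, rfl⟩
  rw [← hy]
  have hyn : y ≤ n * Real.log 2 := by
    rw [hy]
    have : 0 ≤ (l : ℝ) * Real.log 2 := by positivity
    linarith
  have hN2 : 0 ≤ ((N : ℝ) + 2) * (Dd / Pe q E) := by positivity
  have hb1 : 0 ≤ b / Pe q E * (n * Real.log 2) := by positivity
  rcases le_or_gt y 0 with hy0 | hy0
  · refine le_trans ?_ (CH_nonneg hqEl.nonneg X' Y)
    linarith
  have h1 : CH qE X' (fun w => (Y w, J w)) ≤ CH qE X' Y :=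
    CH_mono_cond hqEl.nonneg fun _ _ _ _ e => (Prod.ext_iff.mp e).1
  refine le_trans ?_ h1
  rw [Pool.KS3.MKC.CH_pair_eq_sum hqEl.nonneg X' Y J]
  have hlaw : ∀ j, law qE J j = Pe q (fun w => E w ∧ J w = j) / Pe q E := fun j => by
    rw [← Pool.K2S.Piece.law_val, hqE]
    exact Pool.K2S.Pe_cond _
  have key : ∀ j ∈ univ.image J, law qE J j * y - (if j = 0 then law qE J 0 * y else 0) -
      Dd / Pe q E ≤ law qE J j * CH (cond qE J j) X' Y := by
    intro j _
    have hDE : 0 ≤ Dd / Pe q E := by positivity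
    rcases (law_nonneg hqEl.nonneg J j).eq_or_lt with h2 | h2
    · rw [← h2, zero_mul, zero_mul]
      have h3 : (0 : ℝ) ≤ if j = 0 then law qE J 0 * y else 0 := by
        split_ifs
        · exact mul_nonneg (law_nonneg hqEl.nonneg J 0) hy0.le
        · exact le_rfl
      linarith
    · by_cases hj : j = 0
      · rw [if_pos hj, hj]
        have h3 : 0 ≤ law qE J 0 * CH (cond qE J 0) X' Y :=
          mul_nonneg (law_nonneg hqEl.nonneg J 0) (CH_nonneg (cond_nonneg hqEl.nonneg J 0) X' Y)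
        linarith
      · rw [if_neg hj, sub_zero]
        obtain ⟨F, hF⟩ : ∃ F : Ω' → Prop, F = fun w => E w ∧ J w = j := ⟨_, rfl⟩
        have h3 : cond qE J j = cond q F True := by
          rw [hqE, hF, ← Pool.K2S.Piece.cond_val, Pool.K2S.Piece.cond_inter h0.ne']
        have h4 : law qE J j = Pe q F / Pe q E := by
          rw [hlaw, hF]
        have hF0 : 0 < Pe q F := by
          rw [h4] at h2
          rcases (law_nonneg hq.nonneg F True).eq_or_lt with h5 | h5
          · have h6 : Pe q F = 0 := h5.symm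
            rw [h6, zero_div] at h2
            exact absurd h2 (lt_irrefl 0)
          · exact h5
        have hFs : ∀ w, F w → (gd t gU M R r K w ∧ n1 (gZ w) ≤ 2 ^ k ∧
            2 ^ n ≤ n1 (gU w) * 2 ^ (l + k)) ∧ idx C g N (n1 (gU w) / 2 ^ n) + 1 = j := by
          intro w hw
          rw [hF] at hw
          have h5 := hw.2
          rw [hJ] at h5
          unfold jx at h5
          by_cases hc : gd t gU M R r K w ∧ n1 (gZ w) ≤ 2 ^ k ∧ 2 ^ n ≤ n1 (gU w) * 2 ^ (l + k)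
          · rw [if_pos hc] at h5
            exact ⟨hc, h5⟩
          · rw [if_neg hc] at h5
            exact absurd h5.symm hj
        have abn : ∀ c : Fin D → ℝ, |n1 c / 2 ^ n| = n1 c / 2 ^ n := fun c =>
          abs_of_nonneg (div_nonneg (n1_nonneg _) (by positivity))
        obtain ⟨i, hi⟩ : ∃ i, j = i + 1 := ⟨j - 1, by omega⟩
        have hcell := ind_cell H hnX hXM hC (a := i * g) (g := g) (k := k) (l := l) hkX hK hR hRM
          hC₂ hF0 (fun w _ hw => (hFs w hw).1.1) (fun w _ hw => (hFs w hw).1.2.1)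
          (fun w hw hFw => by
            have e2 := (hFs w hFw).2
            have e3 : idx C g N (n1 (gU w) / 2 ^ n) = i := by omega
            have e4 : |n1 (gU w) / 2 ^ n| ≤ C := by
              rw [abn, div_le_iff₀ (by positivity)]
              exact hsu w hw
            have e5 := idx_spec (g := g) (N := N) e4
            rw [e3, abn] at e5
            exact e5)
          (fun hin w hw hFw => by
            have e2 := (hFs w hFw).2
            have e3 : idx C g N (n1 (gU w) / 2 ^ n) = i := by omega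
            have e4 : i < N := by
              by_contra hc
              have : N * g ≤ i * g := Nat.mul_le_mul_right g (not_lt.1 hc)
              omega
            have e5 := idx_low hC (g := g) (N := N) (x := n1 (gU w) / 2 ^ n)
              (by rw [e3]; exact e4)
            rw [e3, abn] at e5
            exact e5)
          (fun w _ hw => (hFs w hw).1.2.2)
        rw [← he₁, ← hDd, ← hy, ← h3, ← hX', ← hY] at hcell
        have h5 := mul_le_mul_of_nonneg_left hcell h2.le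
        have h6 : law qE J j * (y - Dd / Pe q F) = law qE J j * y - Dd / Pe q E := by
          rw [h4, mul_sub]
          congr 1
          field_simp
        linarith
  refine le_trans ?_ (Finset.sum_le_sum key)
  rw [Finset.sum_sub_distrib, Finset.sum_sub_distrib, ← Finset.sum_mul, sum_law, hqEl.sum_one,
    one_mul, Finset.sum_const, nsmul_eq_mul]
  have h2 : ∑ j ∈ univ.image J, (if j = 0 then law qE J 0 * y else 0) ≤ law qE J 0 * y := by
    rw [Finset.sum_ite_eq' (univ.image J) 0]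
    split_ifs
    · exact le_rfl
    · exact mul_nonneg (law_nonneg hqEl.nonneg J 0) hy0.le
  have h3 : law qE J 0 ≤ b / Pe q E := by
    rw [hlaw]
    refine div_le_div_of_nonneg_right (le_trans ?_ hb') h0.le
    exact Pool.K2S.Pe_mono hq fun w hw => hw.2
  have h4 : law qE J 0 * y ≤ b / Pe q E * (n * Real.log 2) :=
    mul_le_mul h3 hyn hy0.le (by positivity)
  have h5 : ((univ.image J).card : ℝ) ≤ N + 2 := by
    have h6 : univ.image J ⊆ Finset.range (N + 2) := by
      intro j hj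
      rw [Finset.mem_image] at hj
      obtain ⟨w, _, rfl⟩ := hj
      rw [Finset.mem_range, hJ]
      unfold jx
      split_ifs
      · have := idx_le C g N (n1 (gU w) / 2 ^ n)
        omega
      · omega
    have h7 := Finset.card_le_card h6
    rw [Finset.card_range] at h7
    exact_mod_cast h7
  have h6 := mul_le_mul_of_nonneg_right h5 (by positivity : 0 ≤ Dd / Pe q E)
  linarith

end Pool.LPK12
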