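import Pool.Agent.H12.LPK.Hin

/-!
# One hop, the numbers, and the row

`hop_ind`: if the displacement of `Z` is usually small and that of `U` usually moves the digits
behind `l`, then these digits are full given `Z`, `S` and the digits before, on all large events.
`row_of_ind`: so a row of `Z` given `U` which is not full is a row of `Z` given the first `l` digits
of `U`.
-/

set_option autoImplicit false

namespace Pool.LPK12

open Finset Real
open Pool.Agent.H49.Ent Pool.Agent.H32.Dense Pool.STK Pool.POT Pool.TQ Pool.LPX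
open Pool.K2S (Pe)

open Classical in
/-- **One hop, full digits.** -/
theorem hop_ind (D : ℕ) (C ε ϖ : ℝ) (hC : 1 ≤ C) (hε : 0 < ε) (hϖ : 0 < ϖ) :
    ∃ κ : ℝ, 0 < κ ∧ ∃ X₀ : ℕ,
    ∀ {Ω Ω' τ σ : Type} [Fintype Ω] [Fintype Ω'] {p : Ω → ℝ} {q : Ω' → ℝ} {f : Ω' → Ω}
    {W : Ω' → τ} {t : Ω' → ℤ} {U Z : Ω → ℤ} {S : Ω → σ} {AU AZ : Ω' → ℝ}
    {gU gZ : Ω' → Fin D → ℝ} {M X n l : ℕ} {d : ℝ},
    Hop D p q f W t U Z S AU AZ gU gZ M C d → n ≤ X → X ≤ M →
    (∀ w, 0 < q w → n1 (gU w) ≤ C * 2 ^ n) →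
    Ex q (fun w => if n1 (gZ w) ≤ (2 : ℝ) ^ (κ * X) ∧ (2 : ℝ) ^ ((n : ℝ) - l - κ * X) ≤ n1 (gU w)
      then 0 else 1) ≤ κ →
    X₀ ≤ X → 0 ≤ d → d ≤ κ * X → ∀ G : Ω → Prop, ϖ ≤ Pe p G →
    ((n : ℝ) - l) * Real.log 2 - ε * X ≤
      CH (cond p G True) U (fun ω => (tp n l (U ω), (Z ω, S ω))) := by
  obtain ⟨K, hK, hb⟩ := card_bads D
  have hl2 : 0 < Real.log 2 := Real.log_pos (by norm_num)
  have hl2a := Real.log_two_gt_d9
  have hl2b := Real.log_two_lt_d9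
  have hl2' : Real.log 2 ≤ 1 := by linarith
  have hD0 : (0 : ℝ) ≤ D := Nat.cast_nonneg D
  obtain ⟨r₀, hr₀⟩ : ∃ r₀ : ℕ, 4 * K * ((D : ℝ) ^ 2 + 1) < 2 ^ r₀ :=
    pow_unbounded_of_one_lt _ one_lt_two
  obtain ⟨η, hη⟩ : ∃ η : ℝ, η = ε / 32 := ⟨_, rfl⟩
  have hη0 : 0 < η := by rw [hη]; positivity
  obtain ⟨N, hN⟩ : ∃ N : ℕ, N = ⌈2 / η⌉₊ := ⟨_, rfl⟩
  have hNη : 2 / η ≤ N := by rw [hN]; exact Nat.le_ceil _
  obtain ⟨A, hA⟩ : ∃ A : ℝ, A = (N : ℝ) + 2 := ⟨_, rfl⟩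
  have hA0 : 0 < A := by rw [hA]; positivity
  obtain ⟨η₂, hη₂⟩ : ∃ η₂ : ℝ, η₂ = min (min (η * ϖ / A) η) (1 / 2) / (D + 1) := ⟨_, rfl⟩
  have hm0 : 0 < min (min (η * ϖ / A) η) (1 / 2 : ℝ) :=
    lt_min (lt_min (by positivity) hη0) (by norm_num)
  have hη₂0 : 0 < η₂ := by rw [hη₂]; positivity
  have hη₂D : η₂ * (D + 1) = min (min (η * ϖ / A) η) (1 / 2) := by
    rw [hη₂]
    field_simp
  have hη₂1 : η₂ * (D + 1) ≤ η * ϖ / A := by
    rw [hη₂D]
    exact (min_le_left _ _).trans (min_le_left _ _)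
  have hη₂2 : η₂ * (D + 1) ≤ η := by
    rw [hη₂D]
    exact (min_le_left _ _).trans (min_le_right _ _)
  have hη₂3 : η₂ * (D + 1) ≤ 1 / 2 := by
    rw [hη₂D]
    exact min_le_right _ _
  obtain ⟨κ, hκ⟩ : ∃ κ : ℝ, κ = min (min (1 / 4) (η / 2)) (min (η * ϖ / A)
    (min (η * ϖ * η₂ / 4) (η * ϖ / 2))) := ⟨_, rfl⟩
  have hκ0 : 0 < κ := by
    rw [hκ]
    exact lt_min (lt_min (by norm_num) (by positivity)) (lt_min (by positivity)
      (lt_min (by positivity) (by positivity)))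
  have hκ1 : κ ≤ 1 / 4 := by rw [hκ]; exact (min_le_left _ _).trans (min_le_left _ _)
  have hκ2 : κ ≤ η / 2 := by rw [hκ]; exact (min_le_left _ _).trans (min_le_right _ _)
  have hκ3 : κ ≤ η * ϖ / A := by rw [hκ]; exact (min_le_right _ _).trans (min_le_left _ _)
  have hκ4 : κ ≤ η * ϖ * η₂ / 4 := by
    rw [hκ]; exact (min_le_right _ _).trans ((min_le_right _ _).trans (min_le_left _ _))
  have hκ5 : κ ≤ η * ϖ / 2 := by
    rw [hκ]; exact (min_le_right _ _).trans ((min_le_right _ _).trans (min_le_right _ _))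
  obtain ⟨C₂, hC₂⟩ : ∃ C₂ : ℝ, C₂ = (D + 2) * C := ⟨_, rfl⟩
  have hC₂1 : 1 ≤ C₂ := by
    rw [hC₂]
    have : 0 ≤ (D : ℝ) * C := by positivity
    linarith
  have hl9 : 0 ≤ Real.log (9 * C₂) := Real.log_nonneg (by linarith)
  have hlD : 0 ≤ Real.log ((D : ℝ) + 1) := Real.log_nonneg (by linarith)
  obtain ⟨c₀, hc₀⟩ : ∃ c₀ : ℝ, c₀ = r₀ + 2 + 4 * Real.log (9 * C₂) + 2 / (η₂ * ϖ) +
    A * ((r₀ + 1) / ϖ) := ⟨_, rfl⟩
  have hc₀0 : 0 ≤ c₀ := by rw [hc₀]; positivity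
  obtain ⟨M₀, hM⟩ : ∃ M₀ : ℝ, M₀ = 2 / η + 2 * c₀ / ε + 2 * r₀ +
    (1 + Real.log (D + 1)) / (η₂ / 8) + 4 := ⟨_, rfl⟩
  refine ⟨κ, hκ0, ⌈M₀⌉₊, ?_⟩
  intro Ω Ω' τ σ _ _ p q f W t U Z S AU AZ gU gZ M X n l d H hnX hXM' hsu hsz hX hd hdκ G hG
  have hq := H.lq
  have hXM : M₀ ≤ X := (Nat.le_ceil _).trans (by exact_mod_cast hX)
  have t1 : 0 ≤ 2 / η := by positivity
  have t2 : 0 ≤ 2 * c₀ / ε := by positivity
  have t3 : 0 ≤ 2 * (r₀ : ℝ) := by positivity
  have t4 : 0 ≤ (1 + Real.log ((D : ℝ) + 1)) / (η₂ / 8) := by positivity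
  rw [hM] at hXM
  have hX1 : 2 / η ≤ X := by linarith only [hXM, t1, t2, t3, t4]
  have hX2 : 2 * c₀ / ε ≤ X := by linarith only [hXM, t1, t2, t3, t4]
  have hX3 : 2 * (r₀ : ℝ) ≤ X := by linarith only [hXM, t1, t2, t3, t4]
  have hX4 : (1 + Real.log ((D : ℝ) + 1)) / (η₂ / 8) ≤ X := by linarith only [hXM, t1, t2, t3, t4]
  have hX5 : (4 : ℝ) ≤ X := by linarith only [hXM, t1, t2, t3, t4]
  have hX0 : (0 : ℝ) ≤ X := Nat.cast_nonneg X
  have hXpos : (0 : ℝ) < X := by linarith only [hX5]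
  have hηX : 2 ≤ η * X := by
    rw [div_le_iff₀ hη0] at hX1
    linarith only [hX1]
  obtain ⟨g, hg⟩ : ∃ g : ℕ, g = ⌊η * X⌋₊ := ⟨_, rfl⟩
  have hg1 : (g : ℝ) ≤ η * X := by rw [hg]; exact Nat.floor_le (by positivity)
  have hg2 : η * X / 2 ≤ g := by
    have := Nat.lt_floor_add_one (η * (X : ℝ))
    rw [hg]
    linarith only [this, hηX]
  have hNg : X ≤ N * g := by
    have h1 : (X : ℝ) ≤ N * g := by
      have h2 : 2 / η * (η * X / 2) ≤ N * g :=
        mul_le_mul hNη hg2 (by positivity) (Nat.cast_nonneg N)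
      have h3 : 2 / η * (η * X / 2) = X := by field_simp
      linarith only [h2, h3]
    exact_mod_cast h1
  obtain ⟨r, hr⟩ : ∃ r : ℕ, r = ⌊η₂ * X⌋₊ := ⟨_, rfl⟩
  have hr1 : (r : ℝ) ≤ η₂ * X := by rw [hr]; exact Nat.floor_le (by positivity)
  have hr2 : η₂ * X - 1 ≤ r := by
    have := Nat.lt_floor_add_one (η₂ * (X : ℝ))
    rw [hr]
    linarith only [this]
  obtain ⟨R, hRd⟩ : ∃ R : ℕ, R = r * (D + 1) + r₀ := ⟨_, rfl⟩
  have hrR : r ≤ R := by
    rw [hRd, Nat.mul_add, Nat.mul_one]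
    omega
  have hRr : (R : ℝ) ≤ η₂ * (D + 1) * X + r₀ := by
    rw [hRd]
    push_cast
    have := mul_le_mul_of_nonneg_right hr1 (by positivity : (0 : ℝ) ≤ D + 1)
    linarith only [this]
  have hRX : R ≤ X := by
    have h1 := mul_le_mul_of_nonneg_right hη₂3 hX0
    have : (R : ℝ) ≤ X := by linarith only [h1, hRr, hX3]
    exact_mod_cast this
  have hR : 4 * K * ((D : ℝ) ^ 2 + 1) * 2 ^ (r * D) ≤ 2 ^ R := by
    have h1 : 4 * K * ((D : ℝ) ^ 2 + 1) * 2 ^ (r * D) ≤ 2 ^ r₀ * 2 ^ (r * D) :=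
      mul_le_mul_of_nonneg_right hr₀.le (by positivity)
    refine h1.trans ?_
    rw [← pow_add]
    refine pow_le_pow_right₀ (by norm_num) ?_
    rw [hRd, Nat.mul_add, Nat.mul_one]
    omega
  obtain ⟨k, hk⟩ : ∃ k : ℕ, k = ⌈κ * X⌉₊ := ⟨_, rfl⟩
  have hk1 : κ * X ≤ k := by rw [hk]; exact Nat.le_ceil _
  have hk2 : (k : ℝ) ≤ κ * X + 1 := by
    rw [hk]
    exact (Nat.ceil_lt_add_one (by positivity)).le
  have hkX : k ≤ X := by
    have h1 := mul_le_mul_of_nonneg_right hκ1 hX0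
    have : (k : ℝ) ≤ X := by linarith only [h1, hk2, hX5]
    exact_mod_cast this
  obtain ⟨x, hx⟩ : ∃ x : ℝ, x = η₂ * X / 2 := ⟨_, rfl⟩
  have hx0 : 0 < x := by rw [hx]; positivity
  have hx1 : x ≤ r * Real.log 2 - Real.log (D + 1) := by
    rw [div_le_iff₀ (by positivity)] at hX4
    have h1 : (η₂ * X - 1) * Real.log 2 ≤ r * Real.log 2 := mul_le_mul_of_nonneg_right hr2 hl2.le
    have h2 : η₂ * X * (5 / 8) ≤ η₂ * X * Real.log 2 :=
      mul_le_mul_of_nonneg_left (by linarith only [hl2a]) (by positivity)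
    have h3 : (η₂ * X - 1) * Real.log 2 = η₂ * X * Real.log 2 - Real.log 2 := by ring
    rw [h3] at h1
    rw [hx]
    linarith only [h1, h2, hX4, hl2']
  -- the bad mass
  have hgd : Pe q (fun w => ¬ gd t gU M R r K w) ≤ (d + Real.log 2) / x := by
    have h1 := hop_mass H hK hrR (hRX.trans hXM') hb gU H.u.dc
    rw [le_div_iff₀ hx0]
    refine le_trans (mul_le_mul_of_nonneg_left hx1 (law_nonneg hq.nonneg _ _)) h1
  have hbad : Pe q (fun w => jx gU gZ t M n g N R r l k C K w = 0) ≤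
      (d + Real.log 2) / x + κ := by
    refine le_trans ?_ (add_le_add hgd hsz)
    rw [Pool.K2S.Pe_eq, Pool.K2S.Pe_eq]
    unfold Ex
    rw [← Finset.sum_add_distrib]
    refine Finset.sum_le_sum fun w _ => ?_
    beta_reduce
    have hw := hq.nonneg w
    by_cases h1 : jx gU gZ t M n g N R r l k C K w = 0
    · rw [if_pos h1]
      by_cases h2 : gd t gU M R r K w
      · rw [if_neg (not_not.2 h2), zero_add]
        by_cases h3 : n1 (gZ w) ≤ (2 : ℝ) ^ (κ * X) ∧ (2 : ℝ) ^ ((n : ℝ) - l - κ * X) ≤ n1 (gU w)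
        · exfalso
          unfold jx at h1
          have h4 : gd t gU M R r K w ∧ n1 (gZ w) ≤ 2 ^ k ∧
              2 ^ n ≤ n1 (gU w) * 2 ^ (l + k) := by
            refine ⟨h2, h3.1.trans ?_, ?_⟩
            · rw [← Real.rpow_natCast]
              exact Real.rpow_le_rpow_of_exponent_le (by norm_num) hk1
            · have h5 : (2 : ℝ) ^ n ≤ (2 : ℝ) ^ ((n : ℝ) - l - κ * X) * 2 ^ (l + k) := by
                rw [← Real.rpow_natCast, ← Real.rpow_natCast, ← Real.rpow_add (by norm_num)]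
                refine Real.rpow_le_rpow_of_exponent_le (by norm_num) ?_
                push_cast
                linarith only [hk1]
              exact h5.trans (mul_le_mul_of_nonneg_right h3.2 (by positivity))
          rw [if_pos h4] at h1
          exact Nat.succ_ne_zero _ h1
        · rw [if_neg h3, mul_one]
      · rw [if_pos h2]
        have h3 : (0 : ℝ) ≤ q w * (if n1 (gZ w) ≤ (2 : ℝ) ^ (κ * X) ∧
            (2 : ℝ) ^ ((n : ℝ) - l - κ * X) ≤ n1 (gU w) then 0 else 1) := by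
          refine mul_nonneg hw ?_
          split_ifs <;> norm_num
        linarith only [h3]
    · rw [if_neg h1]
      have h3 : (0 : ℝ) ≤ q w * (if n1 (gZ w) ≤ (2 : ℝ) ^ (κ * X) ∧
          (2 : ℝ) ^ ((n : ℝ) - l - κ * X) ≤ n1 (gU w) then 0 else 1) := by
        refine mul_nonneg hw ?_
        split_ifs <;> norm_num
      by_cases h5 : gd t gU M R r K w
      · rw [if_neg (not_not.2 h5)]
        linarith only [h3]
      · rw [if_pos h5]
        linarith only [h3, hw]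
  have h0 : 0 < Pe p G := lt_of_lt_of_le hϖ hG
  have key := ind_all H hnX hXM' hC (l := l) hkX hNg hsu hK hR (hRX.trans hXM') hC₂ hd G h0 hbad
  refine le_trans ?_ key
  obtain ⟨bb, hbb⟩ : ∃ bb : ℝ, bb = (d + Real.log 2) / x + κ := ⟨_, rfl⟩
  rw [← hbb]
  have hbb0 : 0 ≤ bb := by rw [hbb]; positivity
  -- the first error
  have E1 : (g + R + 2 * k) * Real.log 2 ≤ 3 * (η * X) + r₀ + 2 := by
    have h1 : ((g : ℝ) + R + 2 * k) * Real.log 2 ≤ g + R + 2 * k :=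
      mul_le_of_le_one_right (by positivity) hl2'
    have h2 := mul_le_mul_of_nonneg_right hη₂2 hX0
    have h3 := mul_le_mul_of_nonneg_right hκ2 hX0
    linarith only [h1, h2, h3, hg1, hRr, hk2]
  -- the second error
  have E2 : bb / Pe p G * (n * Real.log 2) ≤ η * X + 2 / (η₂ * ϖ) := by
    have h1 : bb / Pe p G ≤ bb / ϖ := div_le_div_of_nonneg_left hbb0 hϖ hG
    have h2 : (n : ℝ) * Real.log 2 ≤ X := by
      have h3 : (n : ℝ) ≤ X := by exact_mod_cast hnX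
      exact (mul_le_of_le_one_right (Nat.cast_nonneg n) hl2').trans h3
    have h4 : bb / Pe p G * (n * Real.log 2) ≤ bb / ϖ * X :=
      mul_le_mul h1 h2 (by positivity) (by positivity)
    refine h4.trans ?_
    rw [div_mul_eq_mul_div, div_le_iff₀ hϖ]
    have h5 : bb * X = (d + Real.log 2) * (2 / η₂) + κ * X := by
      rw [hbb, hx]
      field_simp
    rw [h5]
    have h6 : (d + Real.log 2) * (2 / η₂) ≤ (κ * X + 1) * (2 / η₂) :=
      mul_le_mul_of_nonneg_right (by linarith only [hdκ, hl2']) (by positivity)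
    have h7 : κ * X * (2 / η₂) ≤ η * ϖ / 2 * X := by
      have h8 := mul_le_mul_of_nonneg_right hκ4 (by positivity : 0 ≤ (X : ℝ) * (2 / η₂))
      have h9 : η * ϖ * η₂ / 4 * (X * (2 / η₂)) = η * ϖ / 2 * X := by
        field_simp
        norm_num
      rw [h9] at h8
      linarith only [h8]
    have h8 := mul_le_mul_of_nonneg_right hκ5 hX0
    have h9 : (η * X + 2 / (η₂ * ϖ)) * ϖ = η * ϖ * X + 2 / η₂ := by
      field_simp
    rw [h9]
    linarith only [h6, h7, h8]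
  -- the third error
  have E3 : (N + 2) * ((d + (R + 1) * Real.log 2) / Pe p G) ≤
      2 * (η * X) + A * ((r₀ + 1) / ϖ) := by
    rw [← hA]
    have h1 : (d + (R + 1) * Real.log 2) / Pe p G ≤ (d + (R + 1) * Real.log 2) / ϖ :=
      div_le_div_of_nonneg_left (by positivity) hϖ hG
    have h2 : d + (R + 1) * Real.log 2 ≤ κ * X + (η₂ * (D + 1) * X + r₀ + 1) := by
      have h3 : ((R : ℝ) + 1) * Real.log 2 ≤ R + 1 := mul_le_of_le_one_right (by positivity) hl2'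
      linarith only [h3, hdκ, hRr]
    have h3 : A * ((d + (R + 1) * Real.log 2) / Pe p G) ≤
        A * ((κ * X + (η₂ * (D + 1) * X + r₀ + 1)) / ϖ) :=
      mul_le_mul_of_nonneg_left (h1.trans (div_le_div_of_nonneg_right h2 hϖ.le)) hA0.le
    refine h3.trans ?_
    have h4 : κ * X ≤ η * ϖ / A * X := mul_le_mul_of_nonneg_right hκ3 hX0
    have h5 : η₂ * (D + 1) * X ≤ η * ϖ / A * X := mul_le_mul_of_nonneg_right hη₂1 hX0
    have h6 : A * ((κ * X + (η₂ * (D + 1) * X + r₀ + 1)) / ϖ) ≤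
        A * ((η * ϖ / A * X + (η * ϖ / A * X + r₀ + 1)) / ϖ) := by
      refine mul_le_mul_of_nonneg_left (div_le_div_of_nonneg_right ?_ hϖ.le) hA0.le
      linarith only [h4, h5]
    refine h6.trans (le_of_eq ?_)
    field_simp
    ring
  have hc : c₀ ≤ ε / 2 * X := by
    rw [div_le_iff₀ hε] at hX2
    linarith only [hX2]
  have hηε : 6 * (η * X) ≤ ε / 2 * X := by
    rw [hη]
    have : 0 ≤ ε * X := by positivity
    linarith only [this]
  rw [hc₀] at hc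
  linarith only [E1, E2, E3, hc, hηε]

/-- **The row with the first digits of `U`.** -/
theorem row_of_ind {Ω σ : Type} [Fintype Ω] {p : Ω → ℝ} (hp : IsLaw p) {U Z : Ω → ℤ} {S : Ω → σ}
    {X n l : ℕ} {h ϖ d e : ℝ} (hln : l ≤ n) (hϖ : 0 < ϖ)
    (hrow : Nz p U Z S X h ϖ d)
    (hind : ∀ G : Ω → Prop, ϖ ≤ Pe p G → ((n : ℝ) - l) * Real.log 2 - e ≤
      CH (cond p G True) U (fun ω => (tp n l (U ω), (Z ω, S ω)))) :
    Nz p (fun ω => tp n l (U ω)) Z S X h ϖ (d + e + Real.log 5) := by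
  intro i hi G hG
  have h1 := hrow i hi G hG
  have h2 := hind G hG
  have h0 : 0 < Pe p G := lt_of_lt_of_le hϖ hG
  have hr : IsLaw (cond p G True) := cond_law hp.nonneg h0
  have hn := hr.nonneg
  obtain ⟨ρ, hρ⟩ : ∃ ρ, ρ = cond p G True := ⟨_, rfl⟩
  rw [← hρ] at h1 h2 hr hn ⊢
  -- `Z, U` in two ways
  have e1 : CH ρ (fun ω => (Z ω, U ω)) (fun ω => (tp X i (Z ω), (tp n l (U ω), S ω))) =
      CH ρ U (fun ω => (tp X i (Z ω), (tp n l (U ω), S ω))) +
        CH ρ Z (fun ω => (U ω, (tp X i (Z ω), (tp n l (U ω), S ω)))) := CH_chain hn _ _ _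
  have e2 : CH ρ (fun ω => (U ω, Z ω)) (fun ω => (tp X i (Z ω), (tp n l (U ω), S ω))) =
      CH ρ Z (fun ω => (tp X i (Z ω), (tp n l (U ω), S ω))) +
        CH ρ U (fun ω => (Z ω, (tp X i (Z ω), (tp n l (U ω), S ω)))) := CH_chain hn _ _ _
  have e3 : CH ρ (fun ω => (Z ω, U ω)) (fun ω => (tp X i (Z ω), (tp n l (U ω), S ω))) =
      CH ρ (fun ω => (U ω, Z ω)) (fun ω => (tp X i (Z ω), (tp n l (U ω), S ω))) := by
    refine CH_congr hn ?_ ?_ (fun _ _ _ _ e => e) (fun _ _ _ _ e => e)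
    · intro ω ω' _ _ e
      simp only [Prod.mk.injEq] at e ⊢
      exact ⟨e.1.2, e.1.1⟩
    · intro ω ω' _ _ e
      simp only [Prod.mk.injEq] at e ⊢
      exact ⟨e.1.2, e.1.1⟩
  have e4 : CH ρ Z (fun ω => (U ω, (tp X i (Z ω), (tp n l (U ω), S ω)))) ≤
      CH ρ Z (fun ω => (tp X i (Z ω), (U ω, S ω))) := by
    refine CH_mono_cond hn fun ω ω' _ _ e => ?_
    simp only [Prod.mk.injEq] at e ⊢
    exact ⟨e.2.1, e.1, e.2.2.2⟩
  have e5 : CH ρ U (fun ω => (tp n l (U ω), (Z ω, S ω))) ≤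
      CH ρ U (fun ω => (Z ω, (tp X i (Z ω), (tp n l (U ω), S ω)))) := by
    refine CH_mono_cond hn fun ω ω' _ _ e => ?_
    simp only [Prod.mk.injEq] at e ⊢
    exact ⟨e.2.1, by rw [e.2.1], e.1, e.2.2⟩
  have e6 : CH ρ U (fun ω => (tp X i (Z ω), (tp n l (U ω), S ω))) ≤
      ((n : ℝ) - l) * Real.log 2 + Real.log 5 := by
    have h3 := CH_few_tp hr U (fun ω => (tp X i (Z ω), (tp n l (U ω), S ω))) (X := n) (m := n)
      (L := 2 ^ (n - l)) (by
        intro ω ω' _ _ e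
        have e7 : tp n l (U ω) = tp n l (U ω') := by
          have := (Prod.ext_iff.mp e).2
          exact (Prod.ext_iff.mp this).1
        have := of_tp_eq n l e7
        rw [← pow_add]
        have e2 : n - l + (n - n) = n - l := by omega
        rw [e2]
        exact this)
    simp only [tp_self] at h3
    refine h3.trans ?_
    have h4 : (1 : ℝ) ≤ 2 ^ (n - l) := one_le_pow₀ (by norm_num)
    have h5 : Real.log (2 * 2 ^ (n - l) + 3) ≤ Real.log (2 ^ (n - l) * 5) := by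
      refine Real.log_le_log (by positivity) ?_
      linarith
    have h6 : Real.log ((2 : ℝ) ^ (n - l) * 5) = (n - l : ℕ) * Real.log 2 + Real.log 5 := by
      rw [Real.log_mul (by positivity) (by norm_num), Real.log_pow]
    rw [Nat.cast_sub hln] at h6
    linarith
  linarith

end Pool.LPK12
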