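import Pool.Agent.H12.LPK.Nea

/-!
# One hop

`Hop`: a law upstairs of `p`, a time which is full given `W`, two values at the sample below which
are polynomials in the time with coefficients determined by `W`. No sizes and no rows.
`hop_nearN`: if the row of `Z` given `U` is not full, the displacement of `Z` has usually not more
digits than that of `U`.
-/

set_option autoImplicit false

namespace Pool.LPK12

open Finset Real
open Pool.Agent.H49.Ent Pool.Agent.H32.Dense Pool.STK Pool.POT Pool.TQ Pool.LPX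
open Pool.K2S (Pe)

variable {Ω Ω' τ σ : Type} [Fintype Ω] [Fintype Ω']

/-- **One hop.** -/
structure Hop (D : ℕ) (p : Ω → ℝ) (q : Ω' → ℝ) (f : Ω' → Ω) (W : Ω' → τ) (t : Ω' → ℤ)
    (U Z : Ω → ℤ) (S : Ω → σ) (AU AZ : Ω' → ℝ) (gU gZ : Ω' → Fin D → ℝ) (M : ℕ)
    (C d : ℝ) : Prop where
  lp : IsLaw p
  lq : IsLaw q
  im : Im q p f
  t0 : ∀ w, 0 < q w → 0 ≤ t w ∧ t w < 2 ^ M
  full : M * Real.log 2 - d ≤ CH q t W
  u : Rlp q W t (fun w => U (f w)) AU gU M C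
  z : Rlp q W t (fun w => Z (f w)) AZ gZ M C
  dS : Det q W (fun w => S (f w))

omit [Fintype Ω'] in
/-- The first digits of a value. -/
theorem Rlp.trunc {D : ℕ} {q : Ω' → ℝ} {W : Ω' → τ} {t V : Ω' → ℤ} {A : Ω' → ℝ}
    {c : Ω' → Fin D → ℝ} {M n k : ℕ} {C : ℝ} (h : Rlp q W t V A c M C) (hC : 0 ≤ C) :
    Rlp q W t (fun w => tp n k (V w)) (fun w => A w / 2 ^ (n - k))
      (fun w j => c w j / 2 ^ (n - k)) M (C + 1) := by
  have hP : (0 : ℝ) < 2 ^ (n - k) := by positivity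
  have hP1 : (1 : ℝ) ≤ 2 ^ (n - k) := one_le_pow₀ (by norm_num)
  refine ⟨?_, ?_, ?_⟩
  · intro w w' a b e
    show A w / 2 ^ (n - k) = A w' / 2 ^ (n - k)
    rw [h.dA w w' a b e]
  · intro w w' a b e
    show (fun j => c w j / 2 ^ (n - k)) = fun j => c w' j / 2 ^ (n - k)
    rw [h.dc w w' a b e]
  · intro w hw
    have h1 := h.rel w hw
    have h2 : (pol (fun j => c w j / 2 ^ (n - k))).eval ((t w : ℝ) / 2 ^ M) =
        (pol (c w)).eval ((t w : ℝ) / 2 ^ M) / 2 ^ (n - k) := by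
      rw [pol_eval, pol_eval, Finset.sum_div]
      refine Finset.sum_congr rfl fun j _ => ?_
      ring
    rw [h2, ← add_div]
    obtain ⟨y, hy⟩ : ∃ y : ℝ, y = A w + (pol (c w)).eval ((t w : ℝ) / 2 ^ M) := ⟨_, rfl⟩
    rw [← hy] at h1 ⊢
    have hz : (0 : ℤ) < 2 ^ (n - k) := by positivity
    have f1 := Int.ediv_mul_le (V w) hz.ne'
    have f2 := Int.lt_ediv_add_one_mul_self (V w) hz
    have f3 : (tp n k (V w) : ℝ) * 2 ^ (n - k) ≤ V w := by
      have : ((V w / 2 ^ (n - k) * 2 ^ (n - k) : ℤ) : ℝ) ≤ V w := by exact_mod_cast f1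
      push_cast at this
      exact this
    have f4 : (V w : ℝ) < ((tp n k (V w) : ℝ) + 1) * 2 ^ (n - k) := by
      have : ((V w : ℤ) : ℝ) < (((V w / 2 ^ (n - k)) + 1) * 2 ^ (n - k) : ℤ) := by
        exact_mod_cast f2
      push_cast at this
      exact this
    have f5 : |(tp n k (V w) : ℝ) - V w / 2 ^ (n - k)| ≤ 1 := by
      rw [abs_le]
      constructor
      · rw [neg_le_sub_iff_le_add, div_le_iff₀ hP]
        linarith
      · have : (tp n k (V w) : ℝ) ≤ V w / 2 ^ (n - k) := by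
          rw [le_div_iff₀ hP]
          exact f3
        linarith
    have f6 : |(V w : ℝ) / 2 ^ (n - k) - y / 2 ^ (n - k)| ≤ C := by
      rw [← sub_div, abs_div, abs_of_pos hP, div_le_iff₀ hP]
      exact h1.trans (le_mul_of_one_le_right hC hP1)
    have f7 : (tp n k (V w) : ℝ) - y / 2 ^ (n - k) = ((tp n k (V w) : ℝ) - V w / 2 ^ (n - k)) +
        ((V w : ℝ) / 2 ^ (n - k) - y / 2 ^ (n - k)) := by ring
    rw [f7]
    refine (abs_add_le _ _).trans ?_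
    linarith

omit [Fintype Ω'] in
theorem Rlp.mono {D : ℕ} {q : Ω' → ℝ} {W : Ω' → τ} {t V : Ω' → ℤ} {A : Ω' → ℝ}
    {c : Ω' → Fin D → ℝ} {M : ℕ} {C C' : ℝ} (h : Rlp q W t V A c M C) (hC : C ≤ C') :
    Rlp q W t V A c M C' := ⟨h.dA, h.dc, fun w hw => (h.rel w hw).trans hC⟩

theorem n1_div {D : ℕ} (c : Fin D → ℝ) (y : ℝ) (hy : 0 < y) :
    n1 (fun j => c j / y) = n1 c / y := by
  unfold n1
  rw [Finset.sum_div]
  refine Finset.sum_congr rfl fun j _ => ?_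
  rw [abs_div, abs_of_pos hy]

/-- **The same hop for the first digits** of `U` (`ν` of `n` digits) and of `Z` (`k` of `X`). -/
theorem Hop.trunc {D : ℕ} {p : Ω → ℝ} {q : Ω' → ℝ} {f : Ω' → Ω} {W : Ω' → τ} {t : Ω' → ℤ}
    {U Z : Ω → ℤ} {S : Ω → σ} {AU AZ : Ω' → ℝ} {gU gZ : Ω' → Fin D → ℝ} {M : ℕ} {C d : ℝ}
    (H : Hop D p q f W t U Z S AU AZ gU gZ M C d) (hC : 0 ≤ C) (n ν X k : ℕ) :
    Hop D p q f W t (fun ω => tp n ν (U ω)) (fun ω => tp X k (Z ω)) S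
      (fun w => AU w / 2 ^ (n - ν)) (fun w => AZ w / 2 ^ (X - k))
      (fun w j => gU w j / 2 ^ (n - ν)) (fun w j => gZ w j / 2 ^ (X - k)) M (C + 1) d :=
  ⟨H.lp, H.lq, H.im, H.t0, H.full, H.u.trunc hC, H.z.trunc hC, H.dS⟩

/-- More can be conditioned on, if it is a function of the condition. -/
theorem Hop.side {D : ℕ} {p : Ω → ℝ} {q : Ω' → ℝ} {f : Ω' → Ω} {W : Ω' → τ} {t : Ω' → ℤ}
    {U Z : Ω → ℤ} {S : Ω → σ} {AU AZ : Ω' → ℝ} {gU gZ : Ω' → Fin D → ℝ} {M : ℕ} {C d : ℝ}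
    (H : Hop D p q f W t U Z S AU AZ gU gZ M C d) {C' d' : ℝ} (hC : C ≤ C') (hd : d ≤ d') :
    Hop D p q f W t U Z S AU AZ gU gZ M C' d' :=
  ⟨H.lp, H.lq, H.im, H.t0, by linarith [H.full], H.u.mono hC, H.z.mono hC, H.dS⟩

/-- The total error. -/
noncomputable def Er3 (X g R Kn : ℕ) (C ϖ' ϖ d : ℝ) : ℝ :=
  d + (1 / ϖ' / Kn + 1 / ϖ' * ϖ) * (X * Real.log 2 + Real.log 5) + Real.log (Kn + 1) +
    (d + R * Real.log 2) / ϖ' + 2 * (g + R) * Real.log 2 + 4 * Real.log (9 * C)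

variable {D : ℕ} {p : Ω → ℝ} {q : Ω' → ℝ} {f : Ω' → Ω} {W : Ω' → τ} {t : Ω' → ℤ} {U Z : Ω → ℤ}
  {S : Ω → σ} {AU AZ : Ω' → ℝ} {gU gZ : Ω' → Fin D → ℝ} {M X n : ℕ} {C h ϖ d : ℝ}

/-- **The sizes in a large cell**, from the row of `Z` alone. -/
theorem hop_cell (H : Hop D p q f W t U Z S AU AZ gU gZ M C d) (hnX : n ≤ X) (hXM : X ≤ M)
    (hsu : ∀ w, 0 < q w → n1 (gU w) ≤ C * 2 ^ n) (hsz : ∀ w, 0 < q w → n1 (gZ w) ≤ C * 2 ^ X)
    (hrow : Nz p U Z S X h ϖ d) (hC : 1 ≤ C) (hh0 : 0 < h) (hh1 : h ≤ 1) (hϖ : 0 ≤ ϖ)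
    (hd : 0 ≤ d)
    {g N Kn R r : ℕ} {K C₂ : ℝ} (hN : X ≤ N * g) (hKn : 0 < Kn) (hK : 1 ≤ K)
    (hR : 4 * K * (D ^ 2 + 1) * 2 ^ (r * D) ≤ 2 ^ R) (hRM : R ≤ M)
    (hC₂ : C₂ = (D + 2) * C) {ϖ' : ℝ} (hϖ' : 0 < ϖ') (i j : ℕ)
    (hG : ϖ' ≤ Pe q (cel gU gZ t M X n g N R r C K i j)) {e : ℝ}
    (he : Er3 X g R Kn C₂ ϖ' ϖ d ≤ e * (h * Real.log 2)) :
    X ≤ j * g ∨ (X : ℝ) - (j * g + (n - i * g) : ℕ) ≤ e := by
  classical
  have hp := H.lp
  have hq := H.lq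
  obtain ⟨G, hGd⟩ : ∃ G, G = cel gU gZ t M X n g N R r C K i j := ⟨_, rfl⟩
  rw [← hGd] at hG
  have hD0 : (0 : ℝ) ≤ D := Nat.cast_nonneg D
  have hC0 : 0 ≤ C := by linarith
  have hDC : 0 ≤ D * C := by positivity
  have hC₂1 : 1 ≤ C₂ := by
    rw [hC₂]
    linarith
  have hC₂8 : 2 * C ≤ C₂ := by
    rw [hC₂]
    linarith
  have hC₂D : D * C ≤ C₂ := by
    rw [hC₂]
    linarith
  have hG0 : 0 < Pe q G := lt_of_lt_of_le hϖ' hG
  have hl2 : 0 < Real.log 2 := Real.log_pos (by norm_num)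
  have hl9 : 0 ≤ Real.log (9 * C₂) := Real.log_nonneg (by linarith)
  obtain ⟨W', hW'⟩ : ∃ W', W' = Wr W t M R := ⟨_, rfl⟩
  have full' := full_Wr hq hRM H.t0 H.full
  rw [← hW'] at full'
  have hdG : Det q W' G := by
    intro w w' a b e
    rw [hW'] at e
    have e0 : W w = W w' := (Prod.ext_iff.mp e).1
    have e1 := H.u.dc w w' a b e0
    have e2 := H.z.dc w w' a b e0
    have e3 := det_gd (t := t) (X := M) H.u.dc R r K w w' a b e
    have e4 := det_gd (t := t) (X := M) H.z.dc R r K w w' a b e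
    rw [hGd]
    unfold cel
    rw [e1, e2, e3, e4]
  -- the law of the cell
  obtain ⟨ρ, hr⟩ : ∃ ρ, ρ = cond q G True := ⟨_, rfl⟩
  have hrl : IsLaw ρ := by
    rw [hr]
    exact cond_law hq.nonneg hG0
  have hrq : ∀ w, 0 < ρ w → 0 < q w := fun w hw => by
    rw [hr] at hw
    exact ((cond_pos_iff hq.nonneg G True w).1 hw).1
  have hrG : ∀ w, 0 < ρ w → G w := fun w hw => by
    rw [hr] at hw
    have := ((cond_pos_iff hq.nonneg G True w).1 hw).2
    simpa using this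
  have hUr : Rlp ρ W t (fun w => U (f w)) AU gU M C :=
    ⟨fun w w' a b => H.u.dA w w' (hrq w a) (hrq w' b),
    fun w w' a b => H.u.dc w w' (hrq w a) (hrq w' b), fun w a => H.u.rel w (hrq w a)⟩
  have hZr : Rlp ρ W t (fun w => Z (f w)) AZ gZ M C :=
    ⟨fun w w' a b => H.z.dA w w' (hrq w a) (hrq w' b),
    fun w w' a b => H.z.dc w w' (hrq w a) (hrq w' b), fun w a => H.z.rel w (hrq w a)⟩
  have ht : ∀ w, 0 < ρ w → 0 ≤ t w ∧ t w < 2 ^ M := fun w hw => H.t0 w (hrq w hw)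
  obtain ⟨Df, hDf⟩ : ∃ Df : ℝ, Df = (d + R * Real.log 2) / ϖ' := ⟨_, rfl⟩
  have hDf0 : 0 ≤ Df := by
    rw [hDf]
    positivity
  have fullr : M * Real.log 2 - Df ≤ CH ρ t W' := by
    have h1 := time_ev hq t W' hdG H.t0 full' hG0
    rw [← hr] at h1
    refine le_trans ?_ h1
    have h2 : (d + R * Real.log 2) / Pe q G ≤ Df := by
      rw [hDf]
      exact div_le_div_of_nonneg_left (by positivity) hϖ' hG
    linarith
  -- sizes
  obtain ⟨a, ha⟩ : ∃ a : ℕ, a = i * g := ⟨_, rfl⟩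
  obtain ⟨b, hb⟩ : ∃ b : ℕ, b = j * g := ⟨_, rfl⟩
  rw [← ha, ← hb]
  rcases Nat.lt_or_ge b X with hbX | hbX
  swap
  · exact Or.inl hbX
  refine Or.inr ?_
  have abn : ∀ (c : Fin D → ℝ) (n : ℕ), |n1 c / 2 ^ n| = n1 c / 2 ^ n := fun c n =>
    abs_of_nonneg (div_nonneg (n1_nonneg _) (by positivity))
  have szu : ∀ w, 0 < ρ w → n1 (gU w) / 2 ^ n ≤ C := by
    intro w hw
    rw [div_le_iff₀ (by positivity)]
    exact hsu w (hrq w hw)
  have szz : ∀ w, 0 < ρ w → n1 (gZ w) / 2 ^ X ≤ C := by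
    intro w hw
    rw [div_le_iff₀ (by positivity)]
    exact hsz w (hrq w hw)
  have su1 : ∀ w, 0 < ρ w → n1 (gU w) / 2 ^ n * 2 ^ a ≤ C := by
    intro w hw
    have e0 : |n1 (gU w) / 2 ^ n| ≤ C := by
      rw [abn]
      exact szu w hw
    have e1 := idx_spec (g := g) (N := N) e0
    have e2 := hrG w hw
    rw [hGd] at e2
    rw [e2.1.1, abn, ← ha] at e1
    exact e1
  have sz1 : ∀ w, 0 < ρ w → n1 (gZ w) / 2 ^ X * 2 ^ b ≤ C := by
    intro w hw
    have e0 : |n1 (gZ w) / 2 ^ X| ≤ C := by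
      rw [abn]
      exact szz w hw
    have e1 := idx_spec (g := g) (N := N) e0
    have e2 := hrG w hw
    rw [hGd] at e2
    rw [e2.1.2, abn, ← hb] at e1
    exact e1
  have su2 : a < X → ∀ w, 0 < ρ w → 1 ≤ n1 (gU w) / 2 ^ n * 2 ^ (a + g) := by
    intro haX w hw
    have e2 := hrG w hw
    rw [hGd] at e2
    have e3 : i < N := by
      by_contra hc
      have : N * g ≤ i * g := Nat.mul_le_mul_right g (not_lt.1 hc)
      omega
    have e4 := idx_low hC (g := g) (N := N) (x := n1 (gU w) / 2 ^ n) (by rw [e2.1.1]; exact e3)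
    rw [e2.1.1, abn, ← ha] at e4
    exact e4
  have sz2 : ∀ w, 0 < ρ w → 1 ≤ n1 (gZ w) / 2 ^ X * 2 ^ (b + g) := by
    intro w hw
    have e2 := hrG w hw
    rw [hGd] at e2
    have e3 : j < N := by
      by_contra hc
      have : N * g ≤ j * g := Nat.mul_le_mul_right g (not_lt.1 hc)
      omega
    have e4 := idx_low hC (g := g) (N := N) (x := n1 (gZ w) / 2 ^ X) (by rw [e2.1.2]; exact e3)
    rw [e2.1.2, abn, ← hb] at e4
    exact e4
  have gu : ∀ w, 0 < ρ w → gd t gU M R r K w := fun w hw => by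
    have e2 := hrG w hw
    rw [hGd] at e2
    exact e2.2.1
  have gz : ∀ w, 0 < ρ w → gd t gZ M R r K w := fun w hw => by
    have e2 := hrG w hw
    rw [hGd] at e2
    exact e2.2.2
  have upU : Dup ρ W' t (fun w => U (f w)) M n a C₂ := by
    rw [hW']
    exact hUr.up ht su1 hC₂8 hC₂D R
  have upZ : Dup ρ W' t (fun w => Z (f w)) M X b C₂ := by
    rw [hW']
    exact hZr.up ht sz1 hC₂8 hC₂D R
  have loU : a < X → Dlo ρ W' t (fun w => U (f w)) M n (a + (g + R)) C₂ := by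
    intro haX
    rw [hW', ← add_assoc]
    exact hUr.lo ht hK hR hRM (su2 haX) gu hC₂8
  have loZ : Dlo ρ W' t (fun w => Z (f w)) M X (b + (g + R)) C₂ := by
    rw [hW', ← add_assoc]
    exact hZr.lo ht hK hR hRM sz2 gz hC₂8
  -- the record of the third sample
  have hS : Det ρ W' (fun w => S (f w)) := by
    intro w w' x y e'
    rw [hW'] at e'
    exact H.dS w w' (hrq w x) (hrq w' y) (Prod.ext_iff.mp e').1
  obtain ⟨Q, hQ⟩ : ∃ Q : ℝ, Q = (1 / ϖ' / Kn + 1 / ϖ' * ϖ) := ⟨_, rfl⟩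
  have hQ0 : 0 ≤ Q := by
    rw [hQ]
    positivity
  have hlK : 0 ≤ Real.log ((Kn : ℝ) + 1) := Real.log_nonneg (by
    have : (0 : ℝ) ≤ Kn := Nat.cast_nonneg _
    linarith)
  have hl5 : 0 ≤ Real.log 5 := Real.log_nonneg (by norm_num)
  have hErE : Er3 X g R Kn C₂ ϖ' ϖ d = d + Q * (X * Real.log 2 + Real.log 5) +
      Real.log (Kn + 1) + Df + 2 * (g + R) * Real.log 2 + 4 * Real.log (9 * C₂) := by
    rw [hQ, hDf]
    rfl
  have hgR : 0 ≤ ((g : ℝ) + R) * Real.log 2 := by positivity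
  have hQX : 0 ≤ Q * (X * Real.log 2 + Real.log 5) := by positivity
  have he0 : 0 ≤ e := by
    by_contra hc
    push Not at hc
    have h1 : e * (h * Real.log 2) < 0 := mul_neg_of_neg_of_pos hc (by positivity)
    rw [hErE] at he
    linarith
  obtain ⟨x, hx⟩ : ∃ x : ℕ, x = n - a := ⟨_, rfl⟩
  rw [← hx]
  rcases Nat.lt_or_ge (b + x) X with hy | hy
  · obtain ⟨β', hβ⟩ : ∃ β' : ℝ,
        β' = (1 - h) * ((X : ℝ) - (b + x : ℕ)) * Real.log 2 + d := ⟨_, rfl⟩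
    have hma : (0 : ℝ) ≤ (X : ℝ) - (b + x : ℕ) := by
      have : ((b + x : ℕ) : ℝ) ≤ X := by exact_mod_cast hy.le
      linarith
    have hβ0 : 0 ≤ β' := by
      have : 0 ≤ (1 - h) * ((X : ℝ) - (b + x : ℕ)) * Real.log 2 :=
        mul_nonneg (mul_nonneg (by linarith) hma) hl2.le
      linarith
    have hup := up_row hp hq H.im hϖ' hG hϖ (V := Z) (m := X) (i := b + x) le_rfl hy.le
      (fun ω => (U ω, S ω)) hβ0 (fun G' hG' => by
        rw [hβ]
        have := hrow (b + x) hy.le G' hG'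
        simp only [tp_self]
        exact this) hKn
    rw [← hr, ← hQ] at hup
    simp only [tp_self] at hup
    rw [hx] at hup
    have g3 := disp_b (m := n) (S := fun w => S (f w)) hrl upU
      (fun han => loU (lt_of_lt_of_le han hnX)) upZ loZ hC₂1
      le_rfl hbX.le hXM ht fullr hS (by simp only [tp_self]; exact hup)
    rw [← hx] at g3
    have g4 : h * ((X : ℝ) - (b + x : ℕ)) * Real.log 2 ≤ Er3 X g R Kn C₂ ϖ' ϖ d := by
      rw [hErE]
      rw [hβ] at g3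
      push_cast at g3 ⊢
      have g7 : (1 - h) * ((X : ℝ) - (b + x)) * Real.log 2 =
          ((X : ℝ) - (b + x)) * Real.log 2 - h * ((X : ℝ) - (b + x)) * Real.log 2 := by ring
      rw [g7] at g3
      linarith
    have g5 : ((X : ℝ) - (b + x : ℕ)) * (h * Real.log 2) ≤ e * (h * Real.log 2) := by
      refine le_trans (le_of_eq ?_) (g4.trans he)
      ring
    exact le_of_mul_le_mul_right g5 (by positivity)
  · have : (X : ℝ) ≤ ((b + x : ℕ) : ℝ) := by exact_mod_cast hy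
    linarith

/-- The mass of the bad times. -/
theorem hop_mass (H : Hop D p q f W t U Z S AU AZ gU gZ M C d) {R r : ℕ} {K : ℝ}
    (hK : 1 ≤ K) (hr : r ≤ R) (hRM : R ≤ M)
    (hb : ∀ (c : Fin D → ℝ) (R r : ℕ) (lam : ℝ), r ≤ R →
      K * 2 ^ (r * D) * lam < n1 c → ((bads c R lam).card : ℝ) ≤ D * 2 ^ (R - r))
    (c : Ω' → Fin D → ℝ) (hdet : Det q W c) :
    Pe q (fun w => ¬ gd t c M R r K w) *
      (r * Real.log 2 - Real.log (D + 1)) ≤ d + Real.log 2 := by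
  classical
  have hq := H.lq
  have hl2 : 0 ≤ Real.log 2 := Real.log_nonneg (by norm_num)
  have hlD : 0 ≤ Real.log ((D : ℝ) + 1) := Real.log_nonneg (by
    have : (0 : ℝ) ≤ D := Nat.cast_nonneg D
    linarith)
  have h1 := time_tp hq t W hRM H.full
  have h2 := bad_massD hq (e := fun w => tp M R (t w)) (R := R)
    (fun w hw => tp_range hRM (H.t0 w hw)) h1 (fun w => bads (c w) R (thr K r (c w)))
    (fun w w' x x' e => by
      have := hdet w w' x x' e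
      simp only [this])
    (x := r * Real.log 2 - Real.log (D + 1)) (by
      have : (r : ℝ) * Real.log 2 ≤ R * Real.log 2 :=
        mul_le_mul_of_nonneg_right (by exact_mod_cast hr) hl2
      linarith)
    (fun w => log_bads hK hr hb _)
  have h3 : (fun w => ¬ gd t c M R r K w) =
      (fun w => tp M R (t w) ∈ bads (c w) R (thr K r (c w))) := by
    funext w
    unfold gd
    rw [not_not]
  rw [h3]
  exact h2

end Pool.LPK12
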