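import Pool.Agent.H12.LPK.Ipr
import Pool.Agent.H18.PN.Nrp
import Pool.Agent.H30.LP.Ipa

/-!
# The near path of a family of labels, and the far digits

`mxp_ex`: a closed code which determines the closed codes. `hp_of_lbx`: the near path of the labels
of a family is few bits given the context of the family. `hu_of_jf`: the far digits of the chain over
the labels of `w` are few bits given the near path over the labels of `v`. `ip2_pair`: (I') for the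
family of a pair.
-/

set_option autoImplicit false

namespace Pool.LPK12

open Finset Real MvPolynomial
open Pool.Agent.H49.Ent Pool.Agent.H32.Dense Pool.STK Pool.KA Pool.KSAT Pool.K2S Pool.PB Pool.GEN
open Pool.S6C Pool.RCD Pool.LA91 Pool.OWN68 Pool.AJW Pool.AJX Pool.CHT Pool.PN18
open Pool.GRD (LbP)
open Pool.LP30 (paQ)

/-- **A closed code which determines the closed codes.** -/
theorem mxp_ex {m : ℕ} {S : PCl m} {C₀ : ℝ} (htm : TmC S C₀) {w k : ℝ} (hk : 0 ≤ k) :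
    Bas S (fun J F A => ∃ (Y : Type) (y : PtT F → Y) (y' : LnT F → Y),
      (∀ ω, A ω → y (ptr F J ω) = y' (slam F ⌊w * J⌋₊ ω)) ∧
      MxP w k J F A Y (fun ω => y' (slam F ⌊w * J⌋₊ ω))) := by
  refine Bas.mono 0 (Pool.GRW.tmc_bas htm one_pos) ?_
  rintro J - F A ⟨hA, -⟩
  obtain ⟨V, z, ⟨⟨φ, hφ⟩, ψ, hψ⟩, hz⟩ :=
    Pool.V1E.mx_any (fun J F => ptr F J) (vg w) hk (F := F) (A := A) hA
  have h0 := (isLaw_cond F.isLaw hA).nonneg
  refine ⟨V, φ, ψ, fun ω hω => ?_, ⟨⟨φ, fun ω hω => ?_⟩, ψ, fun ω _ => rfl⟩, fun V' z' hz' => ?_⟩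
  · exact (hφ ω hω).symm.trans (hψ ω hω)
  · exact (hψ ω hω).symm.trans (hφ ω hω)
  · refine le_trans (CH_mono_cond h0 fun ω ω' hω hω' hh => ?_) (hz V' z' hz')
    rw [hψ ω (of_cond_pos hω), hψ ω' (of_cond_pos hω')]
    exact hh

/-- **The near path of the labels of a family** is few bits given the context of the family. -/
theorem hp_of_lbx {m : ℕ} {S : PCl m} {C₀ : ℝ} (htm : TmC S C₀) {c : ℕ → Fin m} {r K : ℕ}
    {v lam e e₁ γ δ₁ : ℝ} {E rd p n nH nV : ℕ → ℝ} (hv0 : 0 ≤ v) (hv1 : v ≤ 1) (hγ : 0 ≤ γ)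
    (hH : ∀ l < r, nH l ≤ n l + γ) (hV : ∀ l < r, nV l ≤ n l - v + γ) (he : e ≤ e₁)
    (hδ : 2 * r * (γ * Real.log 2) < δ₁) {Ψ : Fm2 m}
    (hΨ : ∀ (J : ℕ) (F : Fam m J) (A : F.Ω → Prop) (V C : Type) (z : PtT F → V) (z' : LnT F → V)
      (G₁ G₂ : V → MvPolynomial (Option (Fin m)) ℝ) (cc : LnT F → C),
      Ψ J F A V C z z' G₁ G₂ cc → ∃ g : V → ℕ → MvPolynomial (Option (Fin m)) ℝ,
        LbX F c 0 (r + 1) K e E v rd p A z z' g ∧
        ∃ φ : C → (Fin m → ℤ × ℤ) × (ℕ → ℕ → ℤ), ∀ x,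
          ctxN F c 0 r ⌊v * J⌋₊ ⌊(v + lam) * J⌋₊ K z' g n x = φ (cc x)) :
    ∃ K₁ : ℕ, Bas S (fun J F A => ∀ (V C : Type) (z : PtT F → V) (z' : LnT F → V)
      (G₁ G₂ : V → MvPolynomial (Option (Fin m)) ℝ) (cc : LnT F → C),
      Ψ J F A V C z z' G₁ G₂ cc →
      ∃ pa : F.Ω → ℕ → ℕ → ℤ, (paQ m c r v p nH nV).P K₁ e₁ J F A pa ∧
        CH (Pool.Agent.H49.Ent.cond F.p A True) pa
          (fun ω => (z' (slam F ⌊v * J⌋₊ ω), (cc (slam F ⌊v * J⌋₊ ω), F.W ω))) ≤ δ₁ * J) := by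
  classical
  obtain ⟨Cj, hCj0, hCj⟩ := oj_near K
  obtain ⟨Ll, hLl⟩ : ∃ Ll : ℝ, Ll = Real.log (4 * Cj + 7) := ⟨_, rfl⟩
  have hLl0 : 0 ≤ Ll := by
    rw [hLl]
    exact Real.log_nonneg (by linarith)
  obtain ⟨N, hN⟩ : ∃ N : ℕ → ℕ → ℝ, N = fun l j => if j = 0 then nH l else nV l := ⟨_, rfl⟩
  have hNn : ∀ l < r, ∀ j < 2, N l j ≤ n l - (j : ℕ) * v + γ := by
    intro l hl j hj
    rcases Nat.eq_zero_or_pos j with rfl | h1
    · rw [hN]
      simp only [if_true, Nat.cast_zero, zero_mul, sub_zero]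
      exact hH l hl
    · obtain rfl : j = 1 := by omega
      rw [hN]
      simp only [one_ne_zero, if_false, Nat.cast_one, one_mul]
      exact hV l hl
  -- counts
  choose M J₁ hc using fun l j => cnt_jetX m K j (N l j) (E l + e) (rd l + e) v
  obtain ⟨s, hs⟩ : ∃ s : ℝ, s = δ₁ - 2 * r * (γ * Real.log 2) := ⟨_, rfl⟩
  have hs0 : 0 < s := by
    rw [hs]
    linarith
  obtain ⟨J₂, hJ₂⟩ := exists_nat_ge (2 * r * Ll / s)
  refine ⟨max K (∑ l ∈ range r, ∑ j ∈ range 2, M l j),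
    Bas.mono (max (∑ l ∈ range r, ∑ j ∈ range 2, J₁ l j) J₂) (Pool.GRW.tmc_bas htm one_pos) ?_⟩
  rintro J hJ F A ⟨hA, -⟩ V C z z' G₁ G₂ cc hcc
  obtain ⟨g, hlb, φ, hφ⟩ := hΨ J F A V C z z' G₁ G₂ cc hcc
  have hJ0 : (0 : ℝ) ≤ J := Nat.cast_nonneg J
  have hJ2 : (J₂ : ℝ) ≤ J := by exact_mod_cast (le_max_right _ _).trans hJ
  have hsJ : 2 * r * Ll ≤ s * J := by
    have := hJ₂.trans hJ2
    rw [div_le_iff₀ hs0] at this
    linarith
  have hql := isLaw_cond F.isLaw hA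
  have h0 := hql.nonneg
  obtain ⟨q, hq⟩ : ∃ q : F.Ω → ℝ, q = Pool.Agent.H49.Ent.cond F.p A True := ⟨_, rfl⟩
  rw [← hq] at hql h0 ⊢
  obtain ⟨pa, hpa⟩ : ∃ pa : F.Ω → ℕ → ℕ → ℤ, pa = fun ω l j => if l < r ∧ j < 2 then
    oj F (c l) z' (fun v => g v l) ⌊v * J⌋₊ (N l j) j ω else 0 := ⟨_, rfl⟩
  have hpl : ∀ l < r, ∀ j < 2, (fun ω => pa ω l j) =
      oj F (c l) z' (fun v => g v l) ⌊v * J⌋₊ (N l j) j := by
    intro l hl j hj
    funext ω
    rw [hpa]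
    dsimp only
    rw [if_pos ⟨hl, hj⟩]
  refine ⟨pa, ⟨fun l _ hl j hj => ?_, fun ω _ l j h => ?_⟩, ?_⟩
  · have hl' : l ∈ range r := Finset.mem_range.2 hl
    have hj' : j ∈ range 2 := Finset.mem_range.2 (by omega)
    rw [hpl l hl j (by omega)]
    refine ⟨?_, V, z, z', fun v => g v l, (LbP.of (hlb l (Nat.zero_le _) (by omega))).mono
      (Finset.Subset.refl _) (le_max_left _ _)
      (Nat.floor_le_floor (mul_le_mul_of_nonneg_right (by linarith) hJ0)), fun ω _ => ?_⟩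
    · have e1 : J₁ l j ≤ ∑ l ∈ range r, ∑ j ∈ range 2, J₁ l j :=
        (Finset.single_le_sum (f := fun j => J₁ l j) (fun _ _ => Nat.zero_le _) hj').trans
          (Finset.single_le_sum (f := fun l => ∑ j ∈ range 2, J₁ l j)
            (fun _ _ => Nat.zero_le _) hl')
      have e2 : M l j ≤ ∑ l ∈ range r, ∑ j ∈ range 2, M l j :=
        (Finset.single_le_sum (f := fun j => M l j) (fun _ _ => Nat.zero_le _) hj').trans
          (Finset.single_le_sum (f := fun l => ∑ j ∈ range 2, M l j)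
            (fun _ _ => Nat.zero_le _) hl')
      refine (hc l j J (e1.trans ((le_max_left _ _).trans hJ)) F _ _ _ A V z z' (fun v => g v l)
        (hlb l (Nat.zero_le _) (by omega))).trans
        (Real.exp_le_exp.2 (mul_le_mul_of_nonneg_right ?_ hJ0))
      exact_mod_cast e2.trans (le_max_right _ _)
    · rw [hN]
      rfl
  · rw [hpa]
    dsimp only
    rw [if_neg fun h1 => h ⟨Nat.zero_le _, h1.1, by omega⟩]
  · obtain ⟨Lc, hLc⟩ : ∃ Lc : F.Ω → V × (C × (ℕ × F.ζ)), Lc = fun ω =>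
      (z' (slam F ⌊v * J⌋₊ ω), (cc (slam F ⌊v * J⌋₊ ω), F.W ω)) := ⟨_, rfl⟩
    rw [← hLc]
    have key : ∀ l < r, ∀ j < 2, CH q (fun ω => pa ω l j) Lc ≤ γ * J * Real.log 2 + Ll := by
      intro l hl j hj
      have hdeg : ∀ v, (g v l).totalDegree ≤ K + 1 := fun v =>
        ((hlb l (Nat.zero_le _) (by omega)).deg v).trans (Nat.le_succ K)
      obtain ⟨Φ, hΦ⟩ := hCj F (κ := c l) z' (fun v => g v l) hdeg (w := v) (p := n l) hv0 hv1
        (X := fun _ => 0) (Nat.zero_le j) (by omega) (fun _ _ => le_rfl)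
      rw [hpl l hl j hj, hLl]
      refine ch_oj hql Lc (n' := n l - (j : ℕ) * v) (hNn l hl j hj) hγ hCj0
        (fun x => Φ (fun i => (φ x.2.1).2 l i) x.2.2.1) fun ω => ?_
      have h1 := hΦ ω
      have h2 := hφ (slam F ⌊v * J⌋₊ ω)
      rw [hLc]
      dsimp only
      rw [← h2]
      unfold ctxN
      simp only [Nat.zero_le, true_and, add_zero, if_true] at h1 ⊢
      have e1 : (fun i : Fin (K + 3) => if l < r ∧ (i : ℕ) < K + 3 then
          ⌊jr F ⌊v * J⌋₊ (2 ^ (n l * J)) (c l) z' (fun v => g v l) i (slam F ⌊v * J⌋₊ ω)⌋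
          else 0) = fun i : Fin (K + 3) =>
          ⌊jr F ⌊v * J⌋₊ (2 ^ (n l * J)) (c l) z' (fun v => g v l) i (slam F ⌊v * J⌋₊ ω)⌋ := by
        funext i
        rw [if_pos ⟨hl, i.2⟩]
      rw [e1]
      exact h1
    have h3 : CH q pa Lc ≤ CH q (fun ω (l : Fin r) (j : Fin 2) => pa ω l j) Lc := by
      refine CH_mono_left h0 fun ω ω' _ _ hh => ?_
      have h4 := (Prod.ext_iff.mp hh).1
      funext l j
      by_cases h5 : l < r ∧ j < 2
      · exact congrFun (congrFun h4 ⟨l, h5.1⟩) ⟨j, h5.2⟩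
      · rw [hpa]
        dsimp only
        rw [if_neg h5, if_neg h5]
    have h4 : CH q (fun ω (l : Fin r) (j : Fin 2) => pa ω l j) Lc ≤
        ∑ l : Fin r, ∑ j : Fin 2, CH q (fun ω => pa ω l j) Lc :=
      (CH_pis h0 _ _).trans (Finset.sum_le_sum fun l _ => CH_pis h0 _ _)
    have h5 : ∑ l : Fin r, ∑ j : Fin 2, CH q (fun ω => pa ω l j) Lc ≤
        ∑ l : Fin r, ∑ j : Fin 2, (γ * J * Real.log 2 + Ll) :=
      Finset.sum_le_sum fun l _ => Finset.sum_le_sum fun j _ => key l l.2 j j.2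
    have h6 : ∑ l : Fin r, ∑ j : Fin 2, (γ * J * Real.log 2 + Ll) =
        2 * r * (γ * Real.log 2) * J + 2 * r * Ll := by
      simp only [Finset.sum_const, Finset.card_univ, Fintype.card_fin, nsmul_eq_mul]
      push_cast
      ring
    have h7 : δ₁ * J = 2 * r * (γ * Real.log 2) * J + s * J := by
      rw [hs]
      ring
    linarith only [h3, h4, h5, h6, h7, hsJ]

/-- **The far digits of the chain over the labels of `w`** are few bits given the near path over the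
labels of `v`. -/
theorem hu_of_jf {m : ℕ} {S : PCl m} {C₀ : ℝ} (htm : TmC S C₀) {c : ℕ → Fin m} {r : ℕ}
    {sn : ℕ → ℝ → ℝ} {G : Set ℝ} {v w X φ lam kf : ℝ} {v₀ pf nH nV : ℕ → ℝ} {Nf : ℕ → ℕ → ℝ}
    {K : ℕ} (hch : ChG S c (r + 1) sn G) (H : JfN r sn G v w X φ lam kf v₀ K)
    (hpf : ∀ l < r, sn l w - φ ≤ pf l) {γ : ℝ} (hγX : γ ≤ X)
    (hH : ∀ l < r, nX r sn v X l ≤ nH l) (hV : ∀ l < r, nX r sn v X l - v ≤ nV l)
    (hN : ∀ l < r, ∀ j ≤ 1, Nf l j ≤ nX r sn v X l + γ - (j : ℕ) * v)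
    (hNH : ∀ l < r, Nf l 0 ≤ nH l) (hNV : ∀ l < r, Nf l 1 ≤ nV l) {e e₁ δ₃ : ℝ}
    (he : e ≤ φ / 8) (he₁ : e₁ ≤ φ / 8) (hδ₃ : 0 < δ₃) (K₀ K₁ : ℕ) :
    Bas S (fun J F A => ∀ (u₀ : F.Ω → ℕ → ℕ → ℤ) (pa : F.Ω → ℕ → ℕ → ℤ),
      (qJets m c 0 r 1 (fun _ _ => w) (fun l _ => pf l) Nf).P K₀ e J F A u₀ →
      (paQ m c r v (fun l => sn l v) nH nV).P K₁ e₁ J F A pa → ∃ (V₁ : Type) (z₁ : F.Ω → V₁),
      Cl2 (ptr F J) (vg w J F) A z₁ ∧ CH (Pool.Agent.H49.Ent.cond F.p A True) u₀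
        (fun ω => (pa ω, (z₁ ω, F.T ω))) ≤ δ₃ * J) := by
  obtain ⟨uw, rw, hrw, hcw⟩ := hch.ch w H.wG
  have hvw := H.vw
  have hφ := H.φ0
  have hX := H.XK
  have hφX := H.φX
  have hkf := H.kfX
  have hlam := H.lamk
  have hl1 := H.l1
  have hKD : 0 ≤ (K : ℝ) * (w - v) := mul_nonneg (Nat.cast_nonneg K) (by linarith)
  have hXD : 12 * (w - v) ≤ X := by nlinarith
  have hX0 : 0 ≤ X := by linarith
  have hrφ : 0 ≤ (r : ℝ) * φ := mul_nonneg (Nat.cast_nonneg r) hφ.le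
  have hX1 : 32 * φ ≤ X := by nlinarith
  have ha : ∀ l < r, X ≤ aX r X l := fun l _ => aX_ge hX0 l
  have hak : ∀ l < r, 3 * aX r X l ≤ kf := fun l hl => (aX_le hX0 hl).trans hkf
  have hfl : ∀ i < r, sn i v + (w - v) - φ ≤ sn i w ∧ sn i w ≤ sn i v + (w - v) + φ :=
    fun i hi => by
      have := abs_le.1 (H.fl i hi)
      exact ⟨by linarith [this.1], by linarith [this.2]⟩
  have hmn : ∀ i < r, sn i v - 2 * φ ≤ min (sn i v) (pf i) := fun i hi =>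
    le_min (by linarith) (by linarith [(hfl i hi).1, hpf i hi])
  have hms : ∀ i < r, sn i v - φ ≤ min (sn i v) (sn i w) := fun i hi =>
    le_min (by linarith) (by linarith [(hfl i hi).1])
  have hw1 : w < 1 := hcw.u0
  have hmin : min (1 : ℝ) (1 - w) = 1 - w := min_eq_right (by linarith [hcw.w0])
  have h1 : F1 S (fun J F => ptr F J) (vg w) (fun (J : ℕ) (F : Fam m J) => F.T)
      (paQ m c r v (fun l => sn l v) nH nV)
      (qJets m c 0 r 1 (fun _ _ => w) (fun l _ => pf l) Nf) (φ / 8) δ₃ := by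
    refine qjets_F1 (lw := fun l => aX r X l - (w - v) - 2 * φ) (p₀ := 1) (lam := 1) htm
      (hcw.take (Nat.zero_le _) (Nat.le_succ r)) (fun _ _ _ _ _ => hvw.le)
      (fun _ _ _ _ _ => le_rfl) hw1 le_rfl one_pos hφ (fun l _ hl => by linarith [ha l hl])
      (fun l _ hl j hj => ?_) (fun l _ hl j hj => ?_) (fun l _ hl j hj l' _ hl' => ?_)
      (fun l _ hl j hj => ?_) (fun l _ hl j hj => ?_) (fun l _ hl j hj l' _ hl' => ?_)
      ptr_id (kn_T c _ _) hδ₃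
    · have g2 := (hfl l hl).2
      show sn l w + (aX r X l - (w - v) - 2 * φ) + φ ≤ (if j = 0 then nH l else nV l) + (j : ℕ) * w
      rcases Nat.le_one_iff_eq_zero_or_eq_one.1 hj with rfl | rfl
      · have g1 := hH l hl
        simp only [if_true, Nat.cast_zero, zero_mul, add_zero]
        unfold nX at g1
        linarith
      · have g1 := hV l hl
        simp only [one_ne_zero, if_false, Nat.cast_one, one_mul]
        unfold nX at g1
        linarith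
    · have g1 := hak l hl
      have g2 := (hfl l hl).2
      have g3 := hms l hl
      have g4 := ha l hl
      rw [hmin]
      show sn l w + (aX r X l - (w - v) - 2 * φ) + φ ≤ min (sn l v) (sn l w) + (1 - w)
      linarith
    · have g1 := aX_nest hX0 hl' hl
      have g2 := (hfl l hl).2
      have g3 := hms l hl
      have g4 := ha l hl
      show sn l w + (aX r X l - (w - v) - 2 * φ) + φ ≤
        min (sn l v) (sn l w) + (aX r X l' - (w - v) - 2 * φ)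
      linarith
    · show Nf l j ≤ if j = 0 then nH l else nV l
      rcases Nat.le_one_iff_eq_zero_or_eq_one.1 hj with rfl | rfl
      · simp only [if_true]
        exact hNH l hl
      · simp only [one_ne_zero, if_false]
        exact hNV l hl
    · have g1 := hN l hl j hj
      have g2 := hmn l hl
      have g3 := hak l hl
      have g4 := ha l hl
      have g5 : (j : ℝ) ≤ 1 := by exact_mod_cast hj
      have g6 : (j : ℝ) * (w - v) ≤ w - v := by nlinarith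
      rw [hmin]
      unfold nX at g1
      show Nf l j + (j : ℕ) * w + φ ≤ min (sn l v) (pf l) + (1 - w)
      linarith
    · have g1 := hN l hl j hj
      have g2 := hmn l hl
      have g3 := aX_nest hX0 hl' hl
      have g4 := ha l hl
      have g5 : (j : ℝ) ≤ 1 := by exact_mod_cast hj
      have g6 : (j : ℝ) * (w - v) ≤ w - v := by nlinarith
      unfold nX at g1
      show Nf l j + (j : ℕ) * w + φ ≤ min (sn l v) (pf l) + (aX r X l' - (w - v) - 2 * φ)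
      linarith
  refine Bas.mono 0 (h1 (max K₀ K₁)) ?_
  intro J _ F A h u₀ pa hu hp
  exact h pa u₀ ((paQ m c r v (fun l => sn l v) nH nV).mono (le_max_right _ _) he₁ hp)
    ((qJets m c 0 r 1 _ _ Nf).mono (le_max_left _ _) he hu)

/-- **(I') for the family of a pair**, from the two record comparison: the far digits of the chain
over the labels of `w` are those of the context of the family, up to `γ`. -/
theorem ip2_pair {m : ℕ} {S : PCl m} {C₀ : ℝ} (htm : TmC S C₀) {c : ℕ → Fin m} {r : ℕ}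
    {sn : ℕ → ℝ → ℝ} {G : Set ℝ} {v w X φ lam kf : ℝ} {v₀ pf : ℕ → ℝ} {Nf : ℕ → ℕ → ℝ}
    {Kj : ℕ} (hch : ChG S c (r + 1) sn G) (H : JfN r sn G v w X φ lam kf v₀ Kj)
    (hpf : ∀ l < r, sn l w - φ ≤ pf l) {γ : ℝ} (hγ : 0 ≤ γ) (hγX : γ ≤ X)
    (hNf : ∀ l < r, ∀ j ≤ 1, Nf l j = nX r sn v X l + γ - (j : ℕ) * v)
    {K : ℕ} {I₂ : Finset (Fin m)} {κ₂ : Fin m} {lc e E₂ r₂ p₁ p₂ p₂' : ℝ} {E rd : ℕ → ℝ}
    {Ψ : Fm2 m}
    (hΨ : PsL Ψ c r K I₂ κ₂ v lc e E₂ r₂ p₂' E rd (fun i => sn i v) (nX r sn v X))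
    {e₁ k κ δ₂ δ γ₁ γ₂ n₁ n₂ m₁ m₂ : ℝ} {X₁ X₂ : ℕ → ℝ} {i₁ i₂ : ℕ} (hi₁ : i₁ ≤ K + 2)
    (hi₂ : i₂ ≤ K + 2) (hX₁ : ∀ l, i₁ ≤ l → X₁ i₁ ≤ X₁ l) (hX₂ : ∀ l, i₂ ≤ l → X₂ i₂ ≤ X₂ l)
    (hm₁ : m₁ ≤ p₁ + X₁ i₁ - i₁ * v + γ₁) (hm₂ : m₂ ≤ p₂ + X₂ i₂ - i₂ * v + γ₂)
    (hγ₁ : 0 ≤ γ₁) (hγ₂ : 0 ≤ γ₂) (hk : 0 ≤ k) (hee : e ≤ e₁) (he₁ : e₁ ≤ φ / 8)
    (HT : TwO S Ψ (c r) κ₂ v i₁ i₂ n₁ n₂ m₁ m₂ w (paQ m c r v (fun l => sn l v)
      (fun l => nX r sn v X l + γ) (fun l => nX r sn v X l + γ - v)) e₁ k κ)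
    (HC : Fw2 S (fun J F => ptr F J) w (fun _ F => F.T)
      (qJets m c 0 r 1 (fun _ _ => w) (fun l _ => pf l) Nf)
      (CxJ Ψ K (c r) κ₂ v p₁ p₂ i₁ i₂ X₁ X₂ (MxP v k)) (τ := fun _ _ _ C => C)
      (fun J F _ _ _ _ _ c ω => c (vg v J F ω)) e δ₂)
    (hδ : κ + 2 * r * (γ * Real.log 2) + δ₂ + k + (γ₁ + γ₂) * Real.log 2 < δ) :
    Ip2 S (fun J F => ptr F J) w (fun _ F => F.T)
      (qJets m c 0 r 1 (fun _ _ => w) (fun l _ => pf l) Nf)
      (CxJ Ψ K (c r) κ₂ v p₁ p₂ i₁ i₂ X₁ X₂ (MxP v k)) (c r) κ₂ v n₁ n₂ i₁ i₂ e δ := by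
  obtain ⟨uv, rv, hrv, hcv⟩ := hch.ch v H.vG
  obtain ⟨uw, rw, hrw, hcw⟩ := hch.ch w H.wG
  have hv0 : 0 ≤ v := hcv.w0
  have hvw := H.vw.le
  have hw1 : w < 1 := hcw.u0
  obtain ⟨s, hs⟩ : ∃ s : ℝ, s = δ - (κ + 2 * r * (γ * Real.log 2) + δ₂ + k +
    (γ₁ + γ₂) * Real.log 2) := ⟨_, rfl⟩
  have hs0 : 0 < s := by
    rw [hs]
    linarith
  refine ip2_of_two K htm (Qp := paQ m c r v (fun l => sn l v) (fun l => nX r sn v X l + γ)
      (fun l => nX r sn v X l + γ - v)) (e₁ := e₁) (δ₁ := 2 * r * (γ * Real.log 2) + s / 4)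
    (δ₃ := s / 4) hv0 hvw hw1.le hi₁ hi₂ hX₁ hX₂ hm₁ hm₂ hγ₁ hγ₂ hk ?_ HT ?_ HC ?_ ?_
  · intro J F A V C z z' G₁ G₂ cc h
    obtain ⟨⟨g, h1, rfl, -⟩, h2⟩ := hΨ.1 J F A V C z z' G₁ G₂ cc h
    exact ⟨fun v => ((h1 r (Nat.zero_le _) (Nat.lt_succ_self r)).deg v).trans (Nat.le_succ K),
      fun v => (h2.deg v).trans (Nat.le_succ K), h2.cls⟩
  · refine hp_of_lbx (K := K) (lam := lc) (e := e) (γ := γ) (E := E) (rd := rd)
      (n := nX r sn v X) htm hv0 (by linarith) hγ (fun l _ => le_rfl)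
      (fun l _ => by linarith) hee (by linarith) ?_
    rintro J F A V C z z' G₁ G₂ cc ⟨C₀, Y, c₀, y, y', h1, h2, h3, ⟨φ, hφ⟩, -⟩
    obtain ⟨⟨g, a1, a2, φ', a3⟩, a4⟩ := hΨ.1 J F A V C₀ z z' G₁ G₂ c₀ h1
    refine ⟨g, a1, fun x => φ' (φ x).1, fun x => ?_⟩
    show _ = φ' (φ (cc x)).1
    rw [a3, ← hφ]
    rfl
  · intro K₀ K₁
    refine hu_of_jf htm hch H hpf hγX (fun l _ => by linarith) (fun l _ => by linarith)
      (fun l hl j hj => (hNf l hl j hj).le) (fun l hl => ?_) (fun l hl => ?_) (hee.trans he₁) he₁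
      (by linarith) K₀ K₁
    · have := hNf l hl 0 (by omega)
      rw [this, Nat.cast_zero, zero_mul, sub_zero]
    · have := hNf l hl 1 le_rfl
      rw [this, Nat.cast_one, one_mul]
  · linarith

end Pool.LPK12
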