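import Pool.Agent.H12.LPK.Rbp
import Pool.Agent.H18.PN.Stg4
import Pool.Agent.H63.JAB.Fwj
import Pool.Agent.H92.D2.Him

/-!
# (I') from the two record comparison

`ip2_of_two`: for the family `CxJ` (jets of both labels and any closed code which determines the
closed codes of the window), (I') follows if the entropy of the pair of jets given its natural
digits, a path and the closed codes of the window is at most the one given the path and the closed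
codes of the record.
-/

set_option autoImplicit false

namespace Pool.LPK12

open Finset Real MvPolynomial
open Pool.Agent.H49.Ent Pool.Agent.H32.Dense Pool.STK Pool.KA Pool.KSAT Pool.K2S Pool.PB Pool.GEN
open Pool.S6C Pool.RCD Pool.LA91 Pool.OWN68 Pool.AJW Pool.PN18
open Pool.GRD (LbP)

/-- A closed code of the window `w` which determines the closed codes, up to `k`. -/
def MxP {m : ℕ} (w k : ℝ) : Cdp m := fun _ F A _ y =>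
  Mx (fun J F => ptr F J) (vg w) k F A y

/-- **The two record comparison** for a pair of jets: the jets at precisions `n₁`, `n₂` given the
digits at precisions `m₁`, `m₂`, a quantity and the closed codes of the window `w`, against the
quantity and the closed codes of the record `a`. -/
def TwO {m : ℕ} (S : PCl m) (Ψ : Fm2 m) (κ₁ κ₂ : Fin m) (w : ℝ) (i₁ i₂ : ℕ) (n₁ n₂ m₁ m₂ a : ℝ)
    {U : Type} (Qp : Qt m U) (e₁ k κ : ℝ) : Prop :=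
  ∀ K₀ : ℕ, Bas S (fun J F A => ∀ (V C : Type) (z : PtT F → V) (z' : LnT F → V)
    (G₁ G₂ : V → MvPolynomial (Option (Fin m)) ℝ) (c : LnT F → C), Ψ J F A V C z z' G₁ G₂ c →
    ∀ (X : Type) (x : F.Ω → X), Mx (fun J F => ptr F J) (vg w) k F A x →
    ∀ (Y : Type) (y : F.Ω → Y), Mx (fun J F => ptr F J) (vg a) k F A y →
    ∀ pa : F.Ω → U, Qp.P K₀ e₁ J F A pa →
      CH (Pool.Agent.H49.Ent.cond F.p A True)
        (fun ω => (oj F κ₁ z' G₁ ⌊w * J⌋₊ n₁ i₁ ω, oj F κ₂ z' G₂ ⌊w * J⌋₊ n₂ i₂ ω))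
        (fun ω => ((oj F κ₁ z' G₁ ⌊w * J⌋₊ m₁ i₁ ω, oj F κ₂ z' G₂ ⌊w * J⌋₊ m₂ i₂ ω),
          (pa ω, (x ω, F.W ω)))) ≤
      CH (Pool.Agent.H49.Ent.cond F.p A True)
        (fun ω => (oj F κ₁ z' G₁ ⌊w * J⌋₊ n₁ i₁ ω, oj F κ₂ z' G₂ ⌊w * J⌋₊ n₂ i₂ ω))
        (fun ω => (pa ω, (y ω, F.W ω))) + κ * J)

/-- The digits of a jet are few bits given a code near it, with a gap. -/
theorem ch_oj {m J : ℕ} {F : Fam m J} {κ : Fin m} {V Γ : Type} {z' : LnT F → V}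
    {G : V → MvPolynomial (Option (Fin m)) ℝ} {q : F.Ω → ℝ} (hq : IsLaw q) (g : F.Ω → Γ)
    {W : ℕ} {n n' γ : ℝ} {i : ℕ} (hn : n ≤ n' + γ) (hγ : 0 ≤ γ) {C : ℝ} (hC : 0 ≤ C) (Φ : Γ → ℝ)
    (h : ∀ ω, |(2 : ℝ) ^ (n' * J) * ojet F κ i (G (z' (slam F W ω))) ω - Φ (g ω)| ≤ C) :
    CH q (oj F κ z' G W n i) g ≤ γ * J * Real.log 2 + Real.log (4 * C + 7) := by
  have hJ0 : (0 : ℝ) ≤ J := Nat.cast_nonneg J
  have h2 : (1 : ℝ) ≤ (2 : ℝ) ^ (γ * J) := Real.one_le_rpow one_le_two (mul_nonneg hγ hJ0)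
  have h3 : (2 : ℝ) ^ ((n - n') * J) ≤ (2 : ℝ) ^ (γ * J) := by
    refine Real.rpow_le_rpow_of_exponent_le one_le_two ?_
    exact mul_le_mul_of_nonneg_right (by linarith) hJ0
  have h4 : (0 : ℝ) < (2 : ℝ) ^ ((n - n') * J) := by positivity
  have h1 : CH q (oj F κ z' G W n i) g ≤
      Real.log (2 * ((⌈2 * (C * (2 : ℝ) ^ (γ * J))⌉₊ + 1 : ℕ) : ℝ) + 1) := by
    refine CH_phi hq _ g (fun v => (2 : ℝ) ^ ((n - n') * J) * Φ v) fun ω => ?_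
    have e1 : (2 : ℝ) ^ (n * J) = (2 : ℝ) ^ ((n - n') * J) * (2 : ℝ) ^ (n' * J) := by
      rw [← Real.rpow_add two_pos]
      ring_nf
    have e2 : (2 : ℝ) ^ (n * J) * ojet F κ i (G (z' (slam F W ω))) ω -
        (2 : ℝ) ^ ((n - n') * J) * Φ (g ω) = (2 : ℝ) ^ ((n - n') * J) *
        ((2 : ℝ) ^ (n' * J) * ojet F κ i (G (z' (slam F W ω))) ω - Φ (g ω)) := by
      rw [e1]
      ring
    rw [e2, abs_mul, abs_of_pos h4, mul_comm C]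
    exact mul_le_mul h3 (h ω) (abs_nonneg _) (by positivity)
  refine h1.trans ?_
  have h5 : ((⌈2 * (C * (2 : ℝ) ^ (γ * J))⌉₊ + 1 : ℕ) : ℝ) ≤ 2 * (C * (2 : ℝ) ^ (γ * J)) + 2 := by
    have := (Nat.ceil_lt_add_one (a := 2 * (C * (2 : ℝ) ^ (γ * J))) (by positivity)).le
    push_cast
    linarith
  have h6 : 2 * ((⌈2 * (C * (2 : ℝ) ^ (γ * J))⌉₊ + 1 : ℕ) : ℝ) + 1 ≤
      (2 : ℝ) ^ (γ * J) * (4 * C + 7) := by
    have h7 : 2 * (2 * (C * (2 : ℝ) ^ (γ * J)) + 2) + 1 ≤ (2 : ℝ) ^ (γ * J) * (4 * C + 7) := by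
      have : 5 ≤ (2 : ℝ) ^ (γ * J) * 7 := by linarith
      linarith [this]
    linarith
  have h8 : (0 : ℝ) < 2 * ((⌈2 * (C * (2 : ℝ) ^ (γ * J))⌉₊ + 1 : ℕ) : ℝ) + 1 := by
    have : (0 : ℝ) ≤ ((⌈2 * (C * (2 : ℝ) ^ (γ * J))⌉₊ + 1 : ℕ) : ℝ) := Nat.cast_nonneg _
    linarith
  refine (Real.log_le_log h8 h6).trans (le_of_eq ?_)
  rw [Real.log_mul (by positivity) (by positivity), Real.log_rpow two_pos]

/-- **(I') from the two record comparison.** -/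
theorem ip2_of_two (K : ℕ) {m : ℕ} {S : PCl m} {C₀ : ℝ} (htm : TmC S C₀) {κ₁ κ₂ : Fin m}
    {w a p₁ p₂ n₁ n₂ m₁ m₂ γ₁ γ₂ : ℝ} (hw0 : 0 ≤ w) (hwa : w ≤ a) (ha : a ≤ 1) {X₁ X₂ : ℕ → ℝ}
    {i₁ i₂ : ℕ} (hi₁ : i₁ ≤ K + 2) (hi₂ : i₂ ≤ K + 2)
    (hX₁ : ∀ l, i₁ ≤ l → X₁ i₁ ≤ X₁ l) (hX₂ : ∀ l, i₂ ≤ l → X₂ i₂ ≤ X₂ l)
    (hm₁ : m₁ ≤ p₁ + X₁ i₁ - i₁ * w + γ₁) (hm₂ : m₂ ≤ p₂ + X₂ i₂ - i₂ * w + γ₂)
    (hγ₁ : 0 ≤ γ₁) (hγ₂ : 0 ≤ γ₂)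
    {U₀ U : Type} {Qu : Qt m U₀} {Qp : Qt m U} {e e₁ k κ δ₁ δ₂ δ₃ δ : ℝ} (hk : 0 ≤ k) {Ψ : Fm2 m}
    (hdeg : ∀ (J : ℕ) (F : Fam m J) (A : F.Ω → Prop) (V C : Type) (z : PtT F → V)
      (z' : LnT F → V) (G₁ G₂ : V → MvPolynomial (Option (Fin m)) ℝ) (c : LnT F → C),
      Ψ J F A V C z z' G₁ G₂ c → (∀ v, (G₁ v).totalDegree ≤ K + 1) ∧
      (∀ v, (G₂ v).totalDegree ≤ K + 1) ∧ ∀ ω, A ω → z (ptr F J ω) = z' (slam F ⌊w * J⌋₊ ω))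
    (HT : TwO S Ψ κ₁ κ₂ w i₁ i₂ n₁ n₂ m₁ m₂ a Qp e₁ k κ)
    (HP : ∃ K₁ : ℕ, Bas S (fun J F A => ∀ (V C : Type) (z : PtT F → V) (z' : LnT F → V)
      (G₁ G₂ : V → MvPolynomial (Option (Fin m)) ℝ) (c : LnT F → C),
      CxJ Ψ K κ₁ κ₂ w p₁ p₂ i₁ i₂ X₁ X₂ (MxP w k) J F A V C z z' G₁ G₂ c →
      ∃ pa : F.Ω → U, Qp.P K₁ e₁ J F A pa ∧ CH (Pool.Agent.H49.Ent.cond F.p A True) pa
        (fun ω => (z' (slam F ⌊w * J⌋₊ ω), (c (slam F ⌊w * J⌋₊ ω), F.W ω))) ≤ δ₁ * J))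
    (HC : Fw2 S (fun J F => ptr F J) a (fun _ F => F.T) Qu
      (CxJ Ψ K κ₁ κ₂ w p₁ p₂ i₁ i₂ X₁ X₂ (MxP w k)) (τ := fun _ _ _ C => C)
      (fun J F _ _ _ _ _ c ω => c (vg w J F ω)) e δ₂)
    (HU : ∀ K₀ K₁ : ℕ, Bas S (fun J F A => ∀ (u₀ : F.Ω → U₀) (pa : F.Ω → U),
      Qu.P K₀ e J F A u₀ → Qp.P K₁ e₁ J F A pa → ∃ (V₁ : Type) (z₁ : F.Ω → V₁),
      Cl2 (ptr F J) (vg a J F) A z₁ ∧ CH (Pool.Agent.H49.Ent.cond F.p A True) u₀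
        (fun ω => (pa ω, (z₁ ω, F.T ω))) ≤ δ₃ * J))
    (hδ : κ + δ₁ + δ₂ + δ₃ + k + (γ₁ + γ₂) * Real.log 2 < δ) :
    Ip2 S (fun J F => ptr F J) a (fun _ F => F.T) Qu
      (CxJ Ψ K κ₁ κ₂ w p₁ p₂ i₁ i₂ X₁ X₂ (MxP w k)) κ₁ κ₂ w n₁ n₂ i₁ i₂ e δ := by
  classical
  obtain ⟨Cj, hCj0, hCj⟩ := oj_near K
  obtain ⟨L, hL⟩ : ∃ L : ℝ, L = Real.log (4 * Cj + 7) := ⟨_, rfl⟩
  obtain ⟨s, hs⟩ : ∃ s : ℝ, s = δ - (κ + δ₁ + δ₂ + δ₃ + k + (γ₁ + γ₂) * Real.log 2) := ⟨_, rfl⟩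
  have hs0 : 0 < s := by
    rw [hs]
    linarith
  obtain ⟨J₀, hJ₀⟩ := exists_nat_ge (2 * L / s)
  obtain ⟨K₁, HP⟩ := HP
  intro K₀
  refine Bas.mono J₀ (((HT K₁).and HP).and (((HC K₀).and (HU K₀ K₁)).and
    (Pool.GRW.tmc_bas htm one_pos))) ?_
  rintro J hJ F A ⟨⟨hT, hP⟩, ⟨hC, hU⟩, hA, -⟩ V C z z' G₁ G₂ c hcx u₀ hu₀ V₁ z₁ hz₁
  obtain ⟨pa, hpa, hpaC⟩ := hP V C z z' G₁ G₂ c hcx
  obtain ⟨Vc, zc, hzc, hzC⟩ := hC V C z z' G₁ G₂ c hcx u₀ hu₀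
  obtain ⟨Vu, zu, hzu, hzU⟩ := hU u₀ pa hu₀ hpa
  obtain ⟨C₀', Y', c₀, yy, y', hΨ, hyy, hMx, ⟨φ, hφ⟩, ψ, hψ⟩ := hcx
  obtain ⟨hdg1, hdg2, hcls⟩ := hdeg J F A V C₀' z z' G₁ G₂ c₀ hΨ
  obtain ⟨Vy, zy, hzy⟩ := Pool.V1E.mx_any (fun J F => ptr F J) (vg a) hk hA
  have hTw := hT V C₀' z z' G₁ G₂ c₀ hΨ Y' _ hMx Vy zy hzy pa hpa
  obtain ⟨q, hq⟩ : ∃ q : F.Ω → ℝ, q = Pool.Agent.H49.Ent.cond F.p A True := ⟨_, rfl⟩
  have hql : IsLaw q := by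
    rw [hq]
    exact isLaw_cond F.isLaw hA
  have h0 := hql.nonneg
  have hJ0 : (0 : ℝ) ≤ J := Nat.cast_nonneg J
  have hJr : (J₀ : ℝ) ≤ J := by exact_mod_cast hJ
  have hLJ : 2 * L ≤ s * J := by
    have := hJ₀.trans hJr
    rw [div_le_iff₀ hs0] at this
    linarith
  rw [← hq] at hpaC hzC hzU hTw ⊢
  obtain ⟨W, hW⟩ : ∃ W : ℕ, W = ⌊w * J⌋₊ := ⟨_, rfl⟩
  have hvg : ∀ ω, vg w J F ω = slam F W ω := fun ω => by rw [hW]; rfl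
  simp only [hvg] at hzC
  rw [← hW] at hpaC hTw hcls ⊢
  -- the two sides
  obtain ⟨X, hX⟩ : ∃ X : F.Ω → ℤ × ℤ, X = fun ω => (oj F κ₁ z' G₁ W n₁ i₁ ω,
    oj F κ₂ z' G₂ W n₂ i₂ ω) := ⟨_, rfl⟩
  obtain ⟨M₁, hM₁⟩ : ∃ M₁ : F.Ω → ℤ, M₁ = oj F κ₁ z' G₁ W m₁ i₁ := ⟨_, rfl⟩
  obtain ⟨M₂, hM₂⟩ : ∃ M₂ : F.Ω → ℤ, M₂ = oj F κ₂ z' G₂ W m₂ i₂ := ⟨_, rfl⟩
  obtain ⟨Lc, hLc⟩ : ∃ Lc : F.Ω → V × (C × (ℕ × F.ζ)), Lc = fun ω => (z' (slam F W ω),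
    (c (slam F W ω), F.W ω)) := ⟨_, rfl⟩
  have a1 : CH q M₁ Lc ≤ γ₁ * J * Real.log 2 + L := by
    obtain ⟨Φ, hΦ⟩ := hCj F (κ := κ₁) z' G₁ hdg1 (w := w) (p := p₁) hw0 (hwa.trans ha) (X := X₁)
      (le_refl i₁) hi₁ hX₁
    rw [← hW] at hΦ
    rw [hM₁, hL]
    refine ch_oj hql Lc hm₁ hγ₁ hCj0 (fun v => Φ (φ v.2.1).2.1.1 v.2.2.1) fun ω => ?_
    have h1 := hΦ ω
    have h2 := hφ (slam F W ω)
    rw [hLc]
    dsimp only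
    rw [← h2]
    unfold cxf jcut
    dsimp only
    rw [← hW]
    exact h1
  have a2 : CH q M₂ Lc ≤ γ₂ * J * Real.log 2 + L := by
    obtain ⟨Φ, hΦ⟩ := hCj F (κ := κ₂) z' G₂ hdg2 (w := w) (p := p₂) hw0 (hwa.trans ha) (X := X₂)
      (le_refl i₂) hi₂ hX₂
    rw [← hW] at hΦ
    rw [hM₂, hL]
    refine ch_oj hql Lc hm₂ hγ₂ hCj0 (fun v => Φ (φ v.2.1).2.1.2 v.2.2.1) fun ω => ?_
    have h1 := hΦ ω
    have h2 := hφ (slam F W ω)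
    rw [hLc]
    dsimp only
    rw [← h2]
    unfold cxf jcut
    dsimp only
    rw [← hW]
    exact h1
  have a3 : CH q pa Lc ≤ δ₁ * J := by
    rw [hLc]
    exact hpaC
  -- the left side
  have a4 := CH_subadd h0 M₁ M₂ Lc
  have a5 := CH_subadd h0 (fun ω => (M₁ ω, M₂ ω)) pa Lc
  have a6 := CH_le_add h0 X (fun ω => ((M₁ ω, M₂ ω), pa ω)) Lc
  have a7 : CH q X (fun ω => (((M₁ ω, M₂ ω), pa ω), Lc ω)) ≤
      CH q X (fun ω => ((M₁ ω, M₂ ω), (pa ω, (y' (slam F W ω), F.W ω)))) := by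
    refine CH_mono_cond h0 fun ω ω' _ _ hh => ?_
    obtain ⟨e1, e2⟩ := Prod.ext_iff.mp hh
    obtain ⟨e3, e4⟩ := Prod.ext_iff.mp e1
    dsimp only at e3 e4
    rw [hLc] at e2
    have e5 : c (slam F W ω) = c (slam F W ω') := (Prod.ext_iff.mp (Prod.ext_iff.mp e2).2).1
    have e6 : F.W ω = F.W ω' := (Prod.ext_iff.mp (Prod.ext_iff.mp e2).2).2
    have e7 : y' (slam F W ω) = y' (slam F W ω') := by
      have h1 := hφ (slam F W ω)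
      have h2 := hφ (slam F W ω')
      rw [e5, ← h2] at h1
      exact (Prod.ext_iff.mp (Prod.ext_iff.mp h1).2).2
    rw [e3, e4, e6, e7]
  have a8 : CH q X (fun ω => ((M₁ ω, M₂ ω), (pa ω, (y' (slam F W ω), F.W ω)))) ≤
      CH q X (fun ω => (pa ω, (zy ω, F.W ω))) + κ * J := by
    rw [hX, hM₁, hM₂]
    exact hTw
  -- the right side
  obtain ⟨φg, hφg⟩ := vg_mono hwa ha J F
  have b1 : Cl2 (ptr F J) (vg a J F) A (fun ω => z' (slam F W ω)) := by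
    refine ⟨⟨z, fun ω hω => (hcls ω hω).symm⟩, ⟨fun x => z' (φg x), fun ω _ => ?_⟩⟩
    dsimp only
    rw [← hφg ω, hvg ω]
  have b2 := hzy.2 _ _ (b1.join (hz₁.join (hzc.join hzu)))
  rw [← hq] at b2
  obtain ⟨Bj, hBj⟩ : ∃ Bj : F.Ω → V × (V₁ × (Vc × Vu)), Bj = fun ω => (z' (slam F W ω),
    (z₁ ω, (zc ω, zu ω))) := ⟨_, rfl⟩
  obtain ⟨Ry, hRy⟩ : ∃ Ry : F.Ω → U × (Vy × (ℕ × F.ζ)), Ry = fun ω => (pa ω, (zy ω, F.W ω)) :=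
    ⟨_, rfl⟩
  obtain ⟨E, hE⟩ : ∃ E : F.Ω → (V × C) × (U₀ × (V₁ × ℕ)), E = fun ω =>
    ((z' (slam F W ω), c (slam F W ω)), (u₀ ω, (z₁ ω, F.T ω))) := ⟨_, rfl⟩
  have b3 : CH q Bj Ry ≤ k * J := by
    rw [hBj]
    refine le_trans (CH_mono_cond h0 fun ω ω' _ _ hh => ?_) b2
    rw [hRy] at hh
    exact (Prod.ext_iff.mp (Prod.ext_iff.mp hh).2).1
  have b4 : CH q u₀ (fun ω => (Bj ω, Ry ω)) ≤ δ₃ * J := by
    refine le_trans (CH_mono_cond h0 fun ω ω' _ _ hh => ?_) hzU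
    obtain ⟨e1, e2⟩ := Prod.ext_iff.mp hh
    rw [hBj] at e1
    rw [hRy] at e2
    have e3 := (Prod.ext_iff.mp (Prod.ext_iff.mp (Prod.ext_iff.mp e1).2).2).2
    have e4 := (Prod.ext_iff.mp e2).1
    have e5 := (Prod.ext_iff.mp (Prod.ext_iff.mp (Prod.ext_iff.mp e2).2).2).1
    exact Prod.ext e4 (Prod.ext e3 e5)
  have b5 : CH q (fun ω => c (slam F W ω)) (fun ω => (u₀ ω, (Bj ω, Ry ω))) ≤ δ₂ * J := by
    refine le_trans (CH_mono_cond h0 fun ω ω' _ _ hh => ?_) hzC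
    obtain ⟨e0, hh⟩ := Prod.ext_iff.mp hh
    obtain ⟨e1, e2⟩ := Prod.ext_iff.mp hh
    dsimp only at e0 e1 e2
    rw [hBj] at e1
    rw [hRy] at e2
    have e3 := (Prod.ext_iff.mp (Prod.ext_iff.mp (Prod.ext_iff.mp e1).2).2).1
    have e5 := (Prod.ext_iff.mp (Prod.ext_iff.mp (Prod.ext_iff.mp e2).2).2).1
    exact Prod.ext e0 (Prod.ext e3 e5)
  have b6 : CH q E (fun ω => (Bj ω, Ry ω)) ≤ δ₃ * J + δ₂ * J := by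
    have h1 : CH q E (fun ω => (Bj ω, Ry ω)) ≤
        CH q (fun ω => (c (slam F W ω), u₀ ω)) (fun ω => (Bj ω, Ry ω)) := by
      refine CH_mono_left h0 fun ω ω' _ _ hh => ?_
      obtain ⟨e1, e2⟩ := Prod.ext_iff.mp hh
      obtain ⟨e3, e4⟩ := Prod.ext_iff.mp e1
      obtain ⟨e5, e6⟩ := Prod.ext_iff.mp e2
      dsimp only at e3 e4 e5 e6
      rw [hBj] at e5
      rw [hRy] at e6
      have e7 := (Prod.ext_iff.mp e5).1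
      have e8 := (Prod.ext_iff.mp (Prod.ext_iff.mp e5).2).1
      have e9 : F.T ω = F.T ω' := (Prod.ext_iff.mp (Prod.ext_iff.mp (Prod.ext_iff.mp e6).2).2).1
      rw [hE]
      exact Prod.ext (Prod.ext e7 e3) (Prod.ext e4 (Prod.ext e8 e9))
    have h2 := CH_chain h0 (fun ω => c (slam F W ω)) u₀ (fun ω => (Bj ω, Ry ω))
    linarith
  have b7 := CH_le_add h0 E Bj Ry
  have b8 : CH q X Ry ≤ CH q E Ry + CH q X (fun ω => (E ω, Ry ω)) := CH_le_add h0 X E Ry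
  have b9 : CH q X (fun ω => (E ω, Ry ω)) ≤ CH q X E :=
    CH_mono_cond h0 fun ω ω' _ _ hh => (Prod.ext_iff.mp hh).1
  have b10 : CH q X Ry = CH q X (fun ω => (pa ω, (zy ω, F.W ω))) := by rw [hRy]
  -- the end
  have c1 : δ * J = (κ * J + δ₁ * J + δ₂ * J + δ₃ * J + k * J) +
      (γ₁ * J * Real.log 2 + γ₂ * J * Real.log 2) + s * J := by
    rw [hs]
    ring
  have c2 : CH q X Lc ≤ CH q X E + δ * J := by
    rw [c1]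
    linarith only [a1, a2, a3, a4, a5, a6, a7, a8, b3, b6, b7, b8, b9, b10, hLJ]
  rw [hX, hLc, hE] at c2
  exact c2

end Pool.LPK12
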