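import Pool.Agent.H12.LPK.Ord

/-!
# LPK, one alive order on each path: near form and few form
-/

set_option autoImplicit false

namespace Pool.LPK12

open Finset Real
open Pool.Agent.H49.Ent Pool.Agent.H32.Dense Pool.STK Pool.POT Pool.TQ Pool.LPX
open Pool.K2S (Pe)

/-- The hypotheses: `U` slow with `⌈θ X⌉` digits, `Z` fast with `X` digits, the time has `M` digits;
the full time is a hypothesis. -/
structure LqOf {Ω β Λ υ σ : Type} [Fintype Ω] (D iu iz : ℕ) (p : Ω → ℝ) (B : Ω → β) (ln : Ω → Λ)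
    (Y : Ω → υ) (S : Ω → σ) (t U Z au az : Ω → ℤ) (Pu Pz : Ω → Polynomial ℝ)
    (Nb : υ → Finset υ) (M X : ℕ) (C θ h ϖ d κ₀ : ℝ) : Prop where
  XM : X ≤ M
  ok : Lp p B ln Y S t Nb M d κ₀
  u : Crq D iu p B ln t U au Pu M ⌈θ * X⌉₊ C
  z : Crq D iz p B ln t Z az Pz M X C
  full : M * Real.log 2 - 4 * d ≤
    CH (q3 p B ln) (fun w => t w.1.1) (Wq ln t Y (Pool.LPX.kk au az))
  nfz : Nz p U Z S X h ϖ d
  nfu : Nu p U Z S X ⌈θ * X⌉₊ θ h ϖ d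

/-- The hypotheses with (I'): the ball does not know more of the alive codes than `nat`, a function of
the line and a function of the ball. -/
structure LqO {Ω β Λ υ σ ν : Type} [Fintype Ω] (D iu iz : ℕ) (p : Ω → ℝ) (B : Ω → β) (ln : Ω → Λ)
    (Y : Ω → υ) (S : Ω → σ) (t U Z au az : Ω → ℤ) (Pu Pz : Ω → Polynomial ℝ) (nat : Ω → ν)
    (Nb : υ → Finset υ) (M X : ℕ) (C θ h ϖ d κ₀ : ℝ) : Prop where
  XM : X ≤ M
  ok : Lp p B ln Y S t Nb M d κ₀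
  u : Crq D iu p B ln t U au Pu M ⌈θ * X⌉₊ C
  z : Crq D iz p B ln t Z az Pz M X C
  natl : Det p ln nat
  natB : Det p B nat
  ind : CH p (fun ω => (au ω, az ω)) (fun ω => (Y ω, nat ω)) ≤
    CH p (fun ω => (au ω, az ω)) (fun ω => (Y ω, B ω)) + d
  nfz : Nz p U Z S X h ϖ d
  nfu : Nu p U Z S X ⌈θ * X⌉₊ θ h ϖ d

theorem LqO.of {Ω β Λ υ σ ν : Type} [Fintype Ω] {D iu iz : ℕ} {p : Ω → ℝ} {B : Ω → β} {ln : Ω → Λ}
    {Y : Ω → υ} {S : Ω → σ} {t U Z au az : Ω → ℤ} {Pu Pz : Ω → Polynomial ℝ} {nat : Ω → ν}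
    {Nb : υ → Finset υ} {M X : ℕ} {C θ h ϖ d κ₀ : ℝ}
    (H : LqO D iu iz p B ln Y S t U Z au az Pu Pz nat Nb M X C θ h ϖ d κ₀) :
    LqOf D iu iz p B ln Y S t U Z au az Pu Pz Nb M X C θ h ϖ d κ₀ where
  XM := H.XM
  ok := H.ok
  u := H.u
  z := H.z
  full := time_fullI H.ok (fun ω => (au ω, az ω))
    (fun ω ω' a b e => by rw [Prod.mk.injEq]; exact ⟨H.u.da _ _ a b e, H.z.da _ _ a b e⟩) nat
    H.natl H.natB H.ind (Pool.LPX.kk au az)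
    (fun x y => (y.1 - x.1, y.2 - x.2)) (fun _ _ => rfl)
  nfz := H.nfz
  nfu := H.nfu

/-- The hypotheses of `lk0_near` from those of one alive order. -/
theorem LqOf.lk0 (D : ℕ) : ∃ K : ℝ, 1 ≤ K ∧
    ∀ {Ω β Λ υ σ : Type} [Fintype Ω] {iu iz : ℕ} {p : Ω → ℝ} {B : Ω → β} {ln : Ω → Λ}
    {Y : Ω → υ} {S : Ω → σ} {t U Z au az : Ω → ℤ} {Pu Pz : Ω → Polynomial ℝ}
    {Nb : υ → Finset υ} {M X : ℕ} {C θ h ϖ d κ₀ : ℝ},
    LqOf D iu iz p B ln Y S t U Z au az Pu Pz Nb M X C θ h ϖ d κ₀ → 0 ≤ C →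
    Lk0 D p (q3 p B ln) Prod.snd (Wq ln t Y (Pool.LPX.kk au az)) (fun w => t w.1.1) U Z S
      (fun w => (Pu w.1.1).eval ((t w.2 : ℝ) / 2 ^ M) +
        ((au w.1.2 : ℝ) - au w.1.1) * ((t w.2 : ℝ) / 2 ^ M) ^ iu)
      (fun w => (Pz w.1.1).eval ((t w.2 : ℝ) / 2 ^ M) +
        ((az w.1.2 : ℝ) - az w.1.1) * ((t w.2 : ℝ) / 2 ^ M) ^ iz)
      (gq D iu t au M) (gq D iz t az M) M X (K * C) θ h ϖ d := by
  obtain ⟨K, hK, hrel⟩ := crq_rel D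
  refine ⟨K + 2 * 2 ^ D, by
    have : (0 : ℝ) ≤ 2 * 2 ^ D := by positivity
    linarith, ?_⟩
  intro Ω β Λ υ σ _ iu iz p B ln Y S t U Z au az Pu Pz Nb M X C θ h ϖ d κ₀ H hC
  have h0 := H.ok.law.nonneg
  have hq := q3_law (B := B) (ln := ln) H.ok.law
  have hKC : K * C ≤ (K + 2 * 2 ^ D) * C :=
    mul_le_mul_of_nonneg_right (by
      have : (0 : ℝ) ≤ 2 * 2 ^ D := by positivity
      linarith) hC
  have hU := hrel H.ok H.u hC (Pool.LPX.kk au az) (fun z => z.1) (fun _ _ => rfl)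
  have hZ := hrel H.ok H.z hC (Pool.LPX.kk au az) (fun z => z.2) (fun _ _ => rfl)
  have hs : ∀ {V a : Ω → ℤ} {P : Ω → Polynomial ℝ} {n i₀ : ℕ}, Crq D i₀ p B ln t V a P M n C →
      ∀ w, 0 < q3 p B ln w → n1 (gq D i₀ t a M w) ≤ (K + 2 * 2 ^ D) * C * 2 ^ n := by
    intro V a P n i₀ hV w hw
    obtain ⟨a1, a2, a3, a4, a5⟩ := q3_pos h0 hw
    have e1 := gq_le (a := a) hV.iD (w := w) (H.ok.t0 _ a3)
    have e3 := hV.siz _ _ a2 a1 a4.symm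
    have e4 : |(a w.1.2 : ℝ) - a w.1.1| ≤ 2 * C * 2 ^ n := by
      have e2 : 0 ≤ C * 2 ^ n := by positivity
      linarith
    have e5 := mul_le_mul_of_nonneg_left e4 (by positivity : (0 : ℝ) ≤ 2 ^ D)
    have e6 : 0 ≤ K * C * 2 ^ n := by positivity
    have e7 : (K + 2 * 2 ^ D) * C * 2 ^ n = K * C * 2 ^ n + 2 ^ D * (2 * C * 2 ^ n) := by ring
    linarith
  exact {
    lp := H.ok.law
    lq := hq
    im := q3_3 h0
    t0 := fun w hw => H.ok.t0 _ (q3_pos h0 hw).1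
    XM := H.XM
    full := H.full
    u := ⟨hU.dA, hU.dc, fun w hw => (hU.rel w hw).trans hKC⟩
    z := ⟨hZ.dA, hZ.dc, fun w hw => (hZ.rel w hw).trans hKC⟩
    su := hs H.u
    sz := hs H.z
    dS := by
      intro w w' x y e0
      obtain ⟨-, x2, x3, -, x5⟩ := q3_pos h0 x
      obtain ⟨-, y2, y3, -, y5⟩ := q3_pos h0 y
      have e1 : t w.2 = t w'.2 := congrArg (fun z => z.2.1) e0
      have e2 : Y w.1.2 = Y w'.1.2 := congrArg (fun z => z.2.2.1) e0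
      have e3 := H.ok.lY _ _ x2 x3 x5
      have e4 := H.ok.lY _ _ y2 y3 y5
      have e6 : Y w.2 = Y w'.2 := by rw [← e3, e2, e4]
      exact H.ok.SY _ _ x3 y3 (Prod.ext e6 e1)
    nfz := H.nfz
    nfu := H.nfu }

/-- The near form gives the few form; the sizes are relative to the ball. -/
theorem near_rel {Ω β : Type} [Fintype Ω] {p : Ω → ℝ} (hp : IsLaw p) (b : Ω → β) (V : Ω → ℤ)
    {M L δ : ℝ} (hM : 0 ≤ M) (hL : 0 ≤ L)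
    (hV : ∀ ω ω', 0 < p ω → 0 < p ω' → b ω = b ω' → |(V ω : ℝ) - V ω'| ≤ L)
    (hδ : Ex (dbl p b) (fun w => if |(V w.1 : ℝ) - V w.2| ≤ M then 0 else 1) ≤ δ) :
    CH p V b ≤ Real.log 2 + Real.log (2 * M + 1) + δ * Real.log (2 * L + 1) := by
  classical
  obtain ⟨rep, hrep⟩ : ∃ rep : β → ℤ, ∀ ω, 0 < p ω → ∃ ω', 0 < p ω' ∧ b ω' = b ω ∧
      rep (b ω) = V ω' := by
    refine ⟨fun x => if h : ∃ ω', 0 < p ω' ∧ b ω' = x then V h.choose else 0, fun ω hω => ?_⟩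
    have h : ∃ ω', 0 < p ω' ∧ b ω' = b ω := ⟨ω, hω, rfl⟩
    refine ⟨h.choose, h.choose_spec.1, h.choose_spec.2, ?_⟩
    dsimp only
    rw [dif_pos h]
  have e1 : CH p V b = CH p (fun ω => V ω - rep (b ω)) b := by
    refine CH_congr hp.nonneg ?_ ?_ (fun _ _ _ _ e => e) (fun _ _ _ _ e => e)
    · intro ω ω' _ _ e
      simp only [Prod.mk.injEq] at e
      show V ω - rep (b ω) = V ω' - rep (b ω')
      rw [e.1, e.2]
    · intro ω ω' _ _ e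
      simp only [Prod.mk.injEq] at e
      have e3 := e.1
      rw [e.2] at e3
      exact sub_left_injective e3
  rw [e1]
  refine near_int hp b (fun ω => V ω - rep (b ω)) hM hL ?_ ?_
  · intro ω hω
    obtain ⟨ω', h1, h2, h3⟩ := hrep ω hω
    push_cast
    rw [h3]
    exact hV ω ω' hω h1 h2.symm
  · refine le_trans (Ex_mono (dbl_nonneg hp.nonneg) fun w hw => ?_) hδ
    have h3 : ((V w.1 - rep (b w.1) : ℤ) : ℝ) - ((V w.2 - rep (b w.2) : ℤ) : ℝ) =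
        (V w.1 : ℝ) - V w.2 := by
      have h4 : b w.1 = b w.2 := ((glue_pos_iff hp.nonneg hp.nonneg w).mp hw).2.2
      rw [h4]
      push_cast
      ring
    rw [h3]

open Classical in
/-- **LPK, one alive order on each path, near form, the full time as a hypothesis.** -/
theorem lq_nearF (D : ℕ) (C θ h ε : ℝ) (hC : 1 ≤ C) (hθ0 : 0 < θ) (hθ1 : θ < 1) (hh0 : 0 < h)
    (hh1 : h ≤ 1) (hε : 0 < ε) : ∃ κ ϖ : ℝ, 0 < κ ∧ 0 < ϖ ∧ ∃ X₀ : ℕ,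
    ∀ {Ω β Λ υ σ : Type} [Fintype Ω] {iu iz : ℕ} {p : Ω → ℝ} {B : Ω → β} {ln : Ω → Λ}
    {Y : Ω → υ} {S : Ω → σ} {t U Z au az : Ω → ℤ} {Pu Pz : Ω → Polynomial ℝ}
    {Nb : υ → Finset υ} {M X : ℕ} {d κ₀ : ℝ},
    LqOf D iu iz p B ln Y S t U Z au az Pu Pz Nb M X C θ h ϖ d κ₀ → X₀ ≤ X → 0 ≤ d →
    d ≤ κ * X →
    Ex (dbl p B) (fun w => if |(az w.1 : ℝ) - az w.2| ≤ (2 : ℝ) ^ (ε * X) ∧
      |(au w.1 : ℝ) - au w.2| ≤ (2 : ℝ) ^ (ε * X) then 0 else 1) ≤ ε := by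
  obtain ⟨K, hK, hlk⟩ := LqOf.lk0 D
  have hKC : 1 ≤ K * C := by nlinarith
  obtain ⟨κ, ϖ, h1, h2, X₀, h3⟩ := lk0_near D (K * C) θ h ε hKC hθ0 hθ1 hh0 hh1 hε
  refine ⟨κ, ϖ, h1, h2, X₀, ?_⟩
  intro Ω β Λ υ σ _ iu iz p B ln Y S t U Z au az Pu Pz Nb M X d κ₀ H hX hd hdκ
  have h4 := h3 (hlk H (by linarith)) hX hd hdκ
  refine le_trans ?_ h4
  have h0 := H.ok.law.nonneg
  have hq := q3_law (B := B) (ln := ln) H.ok.law
  have e1 := (q3_12 (B := B) (ln := ln) h0).Ex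
    (fun w : Ω × Ω => if |(az w.1 : ℝ) - az w.2| ≤ (2 : ℝ) ^ (ε * X) ∧
      |(au w.1 : ℝ) - au w.2| ≤ (2 : ℝ) ^ (ε * X) then (0 : ℝ) else 1)
  rw [← e1]
  refine Ex_mono hq.nonneg fun w hw => ?_
  by_cases h5 : n1 (gq D iz t az M w) ≤ (2 : ℝ) ^ (ε * X) ∧
      n1 (gq D iu t au M w) ≤ (2 : ℝ) ^ (ε * X)
  · rw [if_pos h5, if_pos]
    constructor
    · rw [abs_sub_comm]
      exact (le_gq H.z.i1 H.z.iD).trans h5.1
    · rw [abs_sub_comm]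
      exact (le_gq H.u.i1 H.u.iD).trans h5.2
  · rw [if_neg h5]
    split_ifs <;> norm_num

open Classical in
/-- **LPK, one alive order on each path, near form.** -/
theorem lq_near (D : ℕ) (C θ h ε : ℝ) (hC : 1 ≤ C) (hθ0 : 0 < θ) (hθ1 : θ < 1) (hh0 : 0 < h)
    (hh1 : h ≤ 1) (hε : 0 < ε) : ∃ κ ϖ : ℝ, 0 < κ ∧ 0 < ϖ ∧ ∃ X₀ : ℕ,
    ∀ {Ω β Λ υ σ ν : Type} [Fintype Ω] {iu iz : ℕ} {p : Ω → ℝ} {B : Ω → β} {ln : Ω → Λ}
    {Y : Ω → υ} {S : Ω → σ} {t U Z au az : Ω → ℤ} {Pu Pz : Ω → Polynomial ℝ} {nat : Ω → ν}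
    {Nb : υ → Finset υ} {M X : ℕ} {d κ₀ : ℝ},
    LqO D iu iz p B ln Y S t U Z au az Pu Pz nat Nb M X C θ h ϖ d κ₀ → X₀ ≤ X → 0 ≤ d →
    d ≤ κ * X →
    Ex (dbl p B) (fun w => if |(az w.1 : ℝ) - az w.2| ≤ (2 : ℝ) ^ (ε * X) ∧
      |(au w.1 : ℝ) - au w.2| ≤ (2 : ℝ) ^ (ε * X) then 0 else 1) ≤ ε := by
  obtain ⟨κ, ϖ, h1, h2, X₀, h3⟩ := lq_nearF D C θ h ε hC hθ0 hθ1 hh0 hh1 hε
  exact ⟨κ, ϖ, h1, h2, X₀, fun H hX hd hdκ => h3 H.of hX hd hdκ⟩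

/-- **LPK, one alive order on each path, few form, the full time as a hypothesis.** -/
theorem lq_fewF (D : ℕ) (C θ h ε : ℝ) (hC : 1 ≤ C) (hθ0 : 0 < θ) (hθ1 : θ < 1) (hh0 : 0 < h)
    (hh1 : h ≤ 1) (hε : 0 < ε) : ∃ κ ϖ : ℝ, 0 < κ ∧ 0 < ϖ ∧ ∃ X₀ : ℕ,
    ∀ {Ω β Λ υ σ : Type} [Fintype Ω] {iu iz : ℕ} {p : Ω → ℝ} {B : Ω → β} {ln : Ω → Λ}
    {Y : Ω → υ} {S : Ω → σ} {t U Z au az : Ω → ℤ} {Pu Pz : Ω → Polynomial ℝ}
    {Nb : υ → Finset υ} {M X : ℕ} {d κ₀ : ℝ},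
    LqOf D iu iz p B ln Y S t U Z au az Pu Pz Nb M X C θ h ϖ d κ₀ → X₀ ≤ X → 0 ≤ d →
    d ≤ κ * X → CH p (fun ω => (az ω, au ω)) B ≤ ε * X := by
  classical
  have hl2 : 0 < Real.log 2 := Real.log_pos (by norm_num)
  have hl2b := Real.log_two_lt_d9
  have hl2' : Real.log 2 ≤ 1 := by linarith
  obtain ⟨ε', hε'⟩ : ∃ ε' : ℝ, ε' = ε / 8 := ⟨_, rfl⟩
  have hε'0 : 0 < ε' := by rw [hε']; positivity
  obtain ⟨κ, ϖ, hκ, hϖ, X₀, H⟩ := lq_nearF D C θ h ε' hC hθ0 hθ1 hh0 hh1 hε'0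
  obtain ⟨M₀, hM⟩ : ∃ M₀ : ℝ, M₀ = 4 * (3 + ε' * Real.log (3 * C)) / ε := ⟨_, rfl⟩
  refine ⟨κ, ϖ, hκ, hϖ, max X₀ ⌈M₀⌉₊, ?_⟩
  intro Ω β Λ υ σ _ iu iz p B ln Y S t U Z au az Pu Pz Nb M X d κ₀ HL hX hd hdκ
  have hnear := H HL ((le_max_left _ _).trans hX) hd hdκ
  have hXM : M₀ ≤ X := by
    have h1 : ⌈M₀⌉₊ ≤ X := (le_max_right _ _).trans hX
    exact (Nat.le_ceil _).trans (by exact_mod_cast h1)
  have hX0 : (0 : ℝ) ≤ X := Nat.cast_nonneg X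
  have hp := HL.ok.law
  have h0 := hp.nonneg
  have hnX : ⌈θ * X⌉₊ ≤ X := by
    rw [Nat.ceil_le]
    exact mul_le_of_le_one_left hX0 hθ1.le
  have rp : (1 : ℝ) ≤ (2 : ℝ) ^ (ε' * X) := Real.one_le_rpow (by norm_num) (by positivity)
  have hpw : (1 : ℝ) ≤ 2 ^ X := one_le_pow₀ (by norm_num)
  have hb1 : Real.log (2 * (2 : ℝ) ^ (ε' * X) + 1) ≤ 2 + ε' * X := by
    have h1 : Real.log (2 * (2 : ℝ) ^ (ε' * X) + 1) ≤ Real.log (3 * (2 : ℝ) ^ (ε' * X)) :=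
      Real.log_le_log (by linarith) (by linarith)
    rw [Real.log_mul (by norm_num) (by linarith), Real.log_rpow (by norm_num)] at h1
    have h2 : Real.log 3 ≤ 2 := by
      have := Real.log_le_sub_one_of_pos (by norm_num : (0 : ℝ) < 3)
      linarith
    have h3 : ε' * X * Real.log 2 ≤ ε' * X := mul_le_of_le_one_right (by positivity) hl2'
    linarith
  have hb2 : Real.log (2 * (C * 2 ^ X) + 1) ≤ X + Real.log (3 * C) := by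
    have h1 : Real.log (2 * (C * 2 ^ X) + 1) ≤ Real.log (3 * C * 2 ^ X) := by
      refine Real.log_le_log (by positivity) ?_
      nlinarith
    rw [Real.log_mul (by positivity) (by positivity), Real.log_pow] at h1
    have h3 : (X : ℝ) * Real.log 2 ≤ X := mul_le_of_le_one_right hX0 hl2'
    linarith
  have hone : ∀ V : Ω → ℤ, (∀ ω ω', 0 < p ω → 0 < p ω' → B ω = B ω' →
      |(V ω : ℝ) - V ω'| ≤ C * 2 ^ X) →
      Ex (dbl p B) (fun w => if |(V w.1 : ℝ) - V w.2| ≤ (2 : ℝ) ^ (ε' * X) then 0 else 1) ≤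
        ε' → CH p V B ≤ 3 + 2 * (ε' * X) + ε' * Real.log (3 * C) := by
    intro V hV hδ
    refine (near_rel hp B V (by positivity) (by positivity) hV hδ).trans ?_
    have := mul_le_mul_of_nonneg_left hb2 hε'0.le
    linarith
  have c1 := hone az HL.z.siz (le_trans (Ex_mono (dbl_nonneg h0) fun w _ => by
    by_cases h2 : |(az w.1 : ℝ) - az w.2| ≤ (2 : ℝ) ^ (ε' * X)
    · rw [if_pos h2]
      split_ifs <;> norm_num
    · rw [if_neg h2, if_neg (fun h => h2 h.1)]) hnear)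
  have c2 := hone au (fun ω ω' hω hω' e => (HL.u.siz ω ω' hω hω' e).trans
    (mul_le_mul_of_nonneg_left (pow_le_pow_right₀ (by norm_num) hnX) (by linarith)))
    (le_trans (Ex_mono (dbl_nonneg h0) fun w _ => by
    by_cases h2 : |(au w.1 : ℝ) - au w.2| ≤ (2 : ℝ) ^ (ε' * X)
    · rw [if_pos h2]
      split_ifs <;> norm_num
    · rw [if_neg h2, if_neg (fun h => h2 h.2)]) hnear)
  have c3 := CH_subadd h0 az au B
  rw [hM, div_le_iff₀ hε] at hXM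
  rw [hε'] at c1 c2 hXM
  linarith

/-- **LPK, one alive order on each path, few form.** -/
theorem lq_few (D : ℕ) (C θ h ε : ℝ) (hC : 1 ≤ C) (hθ0 : 0 < θ) (hθ1 : θ < 1) (hh0 : 0 < h)
    (hh1 : h ≤ 1) (hε : 0 < ε) : ∃ κ ϖ : ℝ, 0 < κ ∧ 0 < ϖ ∧ ∃ X₀ : ℕ,
    ∀ {Ω β Λ υ σ ν : Type} [Fintype Ω] {iu iz : ℕ} {p : Ω → ℝ} {B : Ω → β} {ln : Ω → Λ}
    {Y : Ω → υ} {S : Ω → σ} {t U Z au az : Ω → ℤ} {Pu Pz : Ω → Polynomial ℝ} {nat : Ω → ν}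
    {Nb : υ → Finset υ} {M X : ℕ} {d κ₀ : ℝ},
    LqO D iu iz p B ln Y S t U Z au az Pu Pz nat Nb M X C θ h ϖ d κ₀ → X₀ ≤ X → 0 ≤ d →
    d ≤ κ * X → CH p (fun ω => (az ω, au ω)) B ≤ ε * X := by
  obtain ⟨κ, ϖ, h1, h2, X₀, h3⟩ := lq_fewF D C θ h ε hC hθ0 hθ1 hh0 hh1 hε
  exact ⟨κ, ϖ, h1, h2, X₀, fun H hX hd hdκ => h3 H.of hX hd hdκ⟩

end Pool.LPK12
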