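import Pool.Agent.H12.LPK.Hfa
import Pool.Agent.H12.LPK.Lq

/-!
# The slope is constant on the lines

Two lines over one ball whose velocities differ by `Δa` in `v` and by `κ (t) Δa` in `N`. If `N - κ v`
is not full given the first digits of `v`, then the coefficients of `κ` of order at least one are
small.
-/

set_option autoImplicit false

namespace Pool.LPK12

open Finset Real
open Pool.Agent.H49.Ent Pool.Agent.H32.Dense Pool.STK Pool.POT Pool.TQ Pool.LPX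
open Pool.K2S (Pe)

/-! ### The polynomial -/

/-- The polynomial with given coefficients. -/
noncomputable def pof {D : ℕ} (k : Fin (D + 1) → ℝ) : Polynomial ℝ :=
  ∑ j : Fin (D + 1), Polynomial.monomial (j : ℕ) (k j)

theorem pof_eval {D : ℕ} (k : Fin (D + 1) → ℝ) (x : ℝ) :
    (pof k).eval x = ∑ j : Fin (D + 1), k j * x ^ (j : ℕ) := by
  unfold pof
  rw [Polynomial.eval_finsetSum]
  refine Finset.sum_congr rfl fun j _ => ?_
  rw [Polynomial.eval_monomial]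

theorem pof_coeff {D : ℕ} (k : Fin (D + 1) → ℝ) (j : Fin (D + 1)) :
    (pof k).coeff (j : ℕ) = k j := by
  unfold pof
  rw [Polynomial.finsetSum_coeff, Finset.sum_eq_single j]
  · rw [Polynomial.coeff_monomial, if_pos rfl]
  · intro b _ hb
    rw [Polynomial.coeff_monomial, if_neg (fun e => hb (Fin.ext e))]
  · intro h
    exact absurd (Finset.mem_univ _) h

theorem pof_deg {D : ℕ} (k : Fin (D + 1) → ℝ) : (pof k).natDegree ≤ D := by
  unfold pof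
  refine Polynomial.natDegree_sum_le_of_forall_le _ _ fun j _ => ?_
  refine (Polynomial.natDegree_monomial_le _).trans ?_
  have := j.isLt
  omega

/-- A polynomial and its coefficients of order at least one. -/
theorem eval_pol {D : ℕ} (R : Polynomial ℝ) (h : R.natDegree ≤ D) (x : ℝ) :
    R.eval x = R.coeff 0 + (pol (fun j : Fin D => R.coeff ((j : ℕ) + 1))).eval x := by
  rw [pol_eval, Polynomial.eval_eq_sum_range' (Nat.lt_succ_of_le h), Finset.sum_range_succ',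
    pow_zero, mul_one, add_comm]
  congr 1
  rw [Fin.sum_univ_eq_sum_range (fun j => R.coeff (j + 1) * x ^ (j + 1))]

/-- The polynomial `(s - x) (κ (x) - κ (s))`. -/
noncomputable def rpk {D : ℕ} (k : Fin (D + 1) → ℝ) (s : ℝ) : Polynomial ℝ :=
  (Polynomial.C s - Polynomial.X) * (pof k - Polynomial.C ((pof k).eval s))

theorem rpk_eval {D : ℕ} (k : Fin (D + 1) → ℝ) (s x : ℝ) :
    (rpk k s).eval x = (s - x) * ((pof k).eval x - (pof k).eval s) := by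
  unfold rpk
  simp

theorem rpk_deg {D : ℕ} (k : Fin (D + 1) → ℝ) (s : ℝ) : (rpk k s).natDegree ≤ D + 1 := by
  unfold rpk
  refine (Polynomial.natDegree_mul_le).trans ?_
  have h1 : (Polynomial.C s - Polynomial.X : Polynomial ℝ).natDegree ≤ 1 := by
    refine (Polynomial.natDegree_sub_le _ _).trans ?_
    rw [Polynomial.natDegree_C, Polynomial.natDegree_X]
    exact le_rfl
  have h2 : (pof k - Polynomial.C ((pof k).eval s)).natDegree ≤ D := by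
    refine (Polynomial.natDegree_sub_le _ _).trans ?_
    rw [Polynomial.natDegree_C]
    exact max_le (pof_deg k) (Nat.zero_le _)
  omega

theorem rpk_coeff {D : ℕ} (k : Fin (D + 1) → ℝ) (s : ℝ) (i : ℕ) :
    (rpk k s).coeff (i + 1) = s * (pof k - Polynomial.C ((pof k).eval s)).coeff (i + 1) -
      (pof k - Polynomial.C ((pof k).eval s)).coeff i := by
  unfold rpk
  rw [sub_mul, Polynomial.coeff_sub, Polynomial.coeff_C_mul, Polynomial.coeff_X_mul]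

/-- The coefficients of `κ` from those of the product. -/
theorem le_rpk {D : ℕ} (k : Fin (D + 1) → ℝ) {s : ℝ} (h0 : 0 ≤ s) (h1 : s ≤ 1) :
    ∑ j : Fin D, |k j.succ| ≤ D * n1 (fun j : Fin (D + 1) => (rpk k s).coeff ((j : ℕ) + 1)) := by
  obtain ⟨E, hE⟩ : ∃ E : Polynomial ℝ, E = pof k - Polynomial.C ((pof k).eval s) := ⟨_, rfl⟩
  have hrec : ∀ i, (rpk k s).coeff (i + 1) = s * E.coeff (i + 1) - E.coeff i := fun i => by
    rw [hE]
    exact rpk_coeff k s i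
  have hEd : E.natDegree ≤ D := by
    rw [hE]
    refine (Polynomial.natDegree_sub_le _ _).trans ?_
    rw [Polynomial.natDegree_C]
    exact max_le (pof_deg k) (Nat.zero_le _)
  have key : ∀ m, m ≤ D + 1 → |E.coeff (D + 1 - m)| ≤
      ∑ i ∈ Finset.Ico (D + 2 - m) (D + 2), |(rpk k s).coeff i| := by
    intro m
    induction m with
    | zero =>
      intro _
      have : E.coeff (D + 1 - 0) = 0 := Polynomial.coeff_eq_zero_of_natDegree_lt (by omega)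
      rw [this, abs_zero]
      exact Finset.sum_nonneg fun _ _ => abs_nonneg _
    | succ m ih =>
      intro hm
      have h2 := ih (by omega)
      have e1 : D + 1 - m = (D + 1 - (m + 1)) + 1 := by omega
      have h3 := hrec (D + 1 - (m + 1))
      have h4 : E.coeff (D + 1 - (m + 1)) = s * E.coeff (D + 1 - m) - (rpk k s).coeff (D + 1 - m) := by
        rw [e1]
        linarith
      have h5 : ∑ i ∈ Finset.Ico (D + 2 - (m + 1)) (D + 2), |(rpk k s).coeff i| =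
          |(rpk k s).coeff (D + 1 - m)| +
            ∑ i ∈ Finset.Ico (D + 2 - m) (D + 2), |(rpk k s).coeff i| := by
        have e2 : D + 2 - (m + 1) = D + 1 - m := by omega
        have e3 : D + 2 - m = (D + 1 - m) + 1 := by omega
        rw [e2, e3, Finset.sum_eq_sum_Ico_succ_bot (by omega)]
      rw [h5, h4]
      refine (abs_sub _ _).trans ?_
      rw [abs_mul, abs_of_nonneg h0]
      have h6 : s * |E.coeff (D + 1 - m)| ≤ |E.coeff (D + 1 - m)| :=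
        mul_le_of_le_one_left (abs_nonneg _) h1
      linarith
  have hn1 : n1 (fun j : Fin (D + 1) => (rpk k s).coeff ((j : ℕ) + 1)) =
      ∑ i ∈ Finset.Ico 1 (D + 2), |(rpk k s).coeff i| := by
    unfold n1
    rw [Fin.sum_univ_eq_sum_range (fun j => |(rpk k s).coeff (j + 1)|),
      Finset.range_eq_Ico, Finset.sum_Ico_add' (fun j => |(rpk k s).coeff j|) 0 (D + 1) 1]
  have hall : ∀ j, j ≤ D → |E.coeff j| ≤
      n1 (fun j : Fin (D + 1) => (rpk k s).coeff ((j : ℕ) + 1)) := by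
    intro j hj
    have h2 := key (D + 1 - j) (by omega)
    have e1 : D + 1 - (D + 1 - j) = j := by omega
    have e2 : D + 2 - (D + 1 - j) = j + 1 := by omega
    rw [e1, e2] at h2
    rw [hn1]
    refine h2.trans (Finset.sum_le_sum_of_subset_of_nonneg ?_ fun _ _ _ => abs_nonneg _)
    exact Finset.Ico_subset_Ico_left (by omega)
  have hk : ∀ j : Fin D, |k j.succ| ≤
      n1 (fun j : Fin (D + 1) => (rpk k s).coeff ((j : ℕ) + 1)) := by
    intro j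
    have h2 : k j.succ = E.coeff ((j : ℕ) + 1) := by
      rw [hE, Polynomial.coeff_sub, Polynomial.coeff_C_succ, sub_zero]
      have := pof_coeff k j.succ
      rw [Fin.val_succ] at this
      exact this.symm
    rw [h2]
    exact hall _ (by have := j.isLt; omega)
  refine (Finset.sum_le_sum fun j _ => hk j).trans (le_of_eq ?_)
  rw [Finset.sum_const, Finset.card_univ, Fintype.card_fin, nsmul_eq_mul]

/-- The size of the product. -/
theorem rpk_le {D : ℕ} (k : Fin (D + 1) → ℝ) {s : ℝ} (h0 : 0 ≤ s) (h1 : s ≤ 1) {c : ℝ}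
    (hk : ∀ j, |k j| ≤ c) :
    n1 (fun j : Fin (D + 1) => (rpk k s).coeff ((j : ℕ) + 1)) ≤ 4 * (D + 1) ^ 2 * c := by
  have hc0 : 0 ≤ c := (abs_nonneg _).trans (hk 0)
  obtain ⟨E, hE⟩ : ∃ E : Polynomial ℝ, E = pof k - Polynomial.C ((pof k).eval s) := ⟨_, rfl⟩
  have hev : |(pof k).eval s| ≤ (D + 1) * c := by
    rw [pof_eval]
    refine (Finset.abs_sum_le_sum_abs _ _).trans ?_
    have h2 : ∀ j ∈ (Finset.univ : Finset (Fin (D + 1))), |k j * s ^ (j : ℕ)| ≤ c := by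
      intro j _
      rw [abs_mul, abs_of_nonneg (pow_nonneg h0 _)]
      exact (mul_le_of_le_one_right (abs_nonneg _) (pow_le_one₀ h0 h1)).trans (hk j)
    refine (Finset.sum_le_sum h2).trans (le_of_eq ?_)
    rw [Finset.sum_const, Finset.card_univ, Fintype.card_fin, nsmul_eq_mul]
    push_cast
    rfl
  have hEc : ∀ i, |E.coeff i| ≤ (D + 2) * c := by
    intro i
    rw [hE, Polynomial.coeff_sub]
    have h2 : |(pof k).coeff i| ≤ c := by
      rcases Nat.lt_or_ge i (D + 1) with h | h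
      · have := pof_coeff k ⟨i, h⟩
        simp only at this
        rw [this]
        exact hk _
      · rw [Polynomial.coeff_eq_zero_of_natDegree_lt (lt_of_le_of_lt (pof_deg k) (by omega)),
          abs_zero]
        exact hc0
    have h3 : |(Polynomial.C ((pof k).eval s)).coeff i| ≤ (D + 1) * c := by
      rw [Polynomial.coeff_C]
      split_ifs
      · exact hev
      · rw [abs_zero]
        positivity
    refine (abs_sub _ _).trans ?_
    linarith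
  have hr : ∀ j ∈ (Finset.univ : Finset (Fin (D + 1))),
      |(rpk k s).coeff ((j : ℕ) + 1)| ≤ 2 * ((D + 2) * c) := by
    intro j _
    have h2 := rpk_coeff k s (j : ℕ)
    rw [← hE] at h2
    rw [h2]
    refine (abs_sub _ _).trans ?_
    rw [abs_mul, abs_of_nonneg h0]
    have h3 := hEc ((j : ℕ) + 1)
    have h4 := hEc (j : ℕ)
    have h5 : s * |E.coeff ((j : ℕ) + 1)| ≤ |E.coeff ((j : ℕ) + 1)| :=
      mul_le_of_le_one_left (abs_nonneg _) h1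
    linarith
  unfold n1
  refine (Finset.sum_le_sum hr).trans ?_
  rw [Finset.sum_const, Finset.card_univ, Fintype.card_fin, nsmul_eq_mul]
  push_cast
  have hD : (0 : ℝ) ≤ D := Nat.cast_nonneg D
  have h2 : ((D : ℝ) + 1) * (2 * ((D + 2) * c)) = 2 * ((D + 1) * (D + 2)) * c := by ring
  rw [h2]
  refine mul_le_mul_of_nonneg_right ?_ hc0
  nlinarith

/-- A polynomial of degree at most one. -/
theorem aff_eval {P : Polynomial ℝ} (h : P.natDegree ≤ 1) (x y : ℝ) :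
    P.eval x = P.eval y + P.coeff 1 * (x - y) := by
  have h1 : ∀ z, P.eval z = P.coeff 0 + P.coeff 1 * z := fun z => by
    rw [Polynomial.eval_eq_sum_range' (show P.natDegree < 2 by omega), Finset.sum_range_succ,
      Finset.sum_range_one, pow_zero, mul_one, pow_one]
  rw [h1, h1]
  ring

/-! ### The data -/

/-- Two coordinates with affine paths and the slope `κ` of the second over the first along the
hops. `au`, `mu`: the codes of the velocity of `v` and of `κ`. -/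
structure Kp {Ω β Λ υ σ σ' ν : Type} [Fintype Ω] (D : ℕ) (p : Ω → ℝ) (B : Ω → β) (ln : Ω → Λ)
    (Y : Ω → υ) (S : Ω → σ) (S' : Ω → σ') (t U Z au : Ω → ℤ) (mu : Ω → Fin (D + 1) → ℤ)
    (Pv PN : Ω → Polynomial ℝ) (ka : Ω → Fin (D + 1) → ℝ) (nat : Ω → ν) (Nb : υ → Finset υ)
    (M X n : ℕ) (C h ϖ d κ₀ : ℝ) : Prop where
  nX : n ≤ X
  XM : X ≤ M
  ok : Lp p B ln Y S t Nb M d κ₀
  dv : Det p ln Pv
  dN : Det p ln PN
  dk : Det p ln ka
  da : Det p ln au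
  dm : Det p ln mu
  degv : ∀ ω, 0 < p ω → (Pv ω).natDegree ≤ 1
  degN : ∀ ω, 0 < p ω → (PN ω).natDegree ≤ 1
  ru : ∀ ω, 0 < p ω → |(U ω : ℝ) - 2 ^ n * (Pv ω).eval ((t ω : ℝ) / 2 ^ M)| ≤ C
  rz : ∀ ω, 0 < p ω → |(Z ω : ℝ) - 2 ^ X * ((PN ω).eval ((t ω : ℝ) / 2 ^ M) -
    (pof (ka ω)).eval ((t ω : ℝ) / 2 ^ M) * (Pv ω).eval ((t ω : ℝ) / 2 ^ M))| ≤ C
  bv : ∀ ω, 0 < p ω → ∀ x, 0 ≤ x → x ≤ 1 → |(Pv ω).eval x| ≤ C
  ba : ∀ ω, 0 < p ω → |(Pv ω).coeff 1| ≤ C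
  bk : ∀ ω, 0 < p ω → ∀ j, |ka ω j| ≤ C
  ca : ∀ ω, 0 < p ω → |(au ω : ℝ) - 2 ^ X * (Pv ω).coeff 1| ≤ C
  cm : ∀ ω, 0 < p ω → ∀ j, |(mu ω j : ℝ) - 2 ^ X * ka ω j| ≤ C
  jv : ∀ ω ω', 0 < p ω → 0 < p ω' → B ω = B ω' →
    |(Pv ω').eval ((t ω : ℝ) / 2 ^ M) - (Pv ω).eval ((t ω : ℝ) / 2 ^ M)| ≤ C / 2 ^ X
  jN : ∀ ω ω', 0 < p ω → 0 < p ω' → B ω = B ω' →
    |(PN ω').eval ((t ω : ℝ) / 2 ^ M) - (PN ω).eval ((t ω : ℝ) / 2 ^ M)| ≤ C / 2 ^ X
  jD : ∀ ω ω', 0 < p ω → 0 < p ω' → B ω = B ω' →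
    |(PN ω').coeff 1 - (PN ω).coeff 1 - (pof (ka ω')).eval ((t ω : ℝ) / 2 ^ M) *
      ((Pv ω').coeff 1 - (Pv ω).coeff 1)| ≤ C / 2 ^ X
  SY' : Det p (fun ω => ((Y ω, mu ω), t ω)) S'
  natl : Det p ln nat
  natB : Det p B nat
  ind : CH p (fun ω => (au ω, mu ω)) (fun ω => (Y ω, nat ω)) ≤
    CH p (fun ω => (au ω, mu ω)) (fun ω => (Y ω, B ω)) + d
  nfz : Nz p U Z S' X h ϖ d

/-- The codes of a pair. -/
def kx {Ω : Type} {D : ℕ} (au : Ω → ℤ) (mu : Ω → Fin (D + 1) → ℤ) (ω ω' : Ω) :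
    ℤ × (Fin (D + 1) → ℤ) := (au ω' - au ω, mu ω')

section

variable {Ω β Λ υ σ σ' ν : Type} {D : ℕ} {p : Ω → ℝ} {B : Ω → β} {ln : Ω → Λ}
  {Y : Ω → υ} {S : Ω → σ} {S' : Ω → σ'} {t U Z au : Ω → ℤ} {mu : Ω → Fin (D + 1) → ℤ}
  {Pv PN : Ω → Polynomial ℝ} {ka : Ω → Fin (D + 1) → ℝ} {nat : Ω → ν} {Nb : υ → Finset υ}
  {M X n : ℕ} {C h ϖ d κ₀ : ℝ}

/-- The rounded slope. -/
noncomputable def kh (X : ℕ) (mu : Fin (D + 1) → ℤ) (j : Fin (D + 1)) : ℝ := (mu j : ℝ) / 2 ^ X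

/-- The coefficients of the displacements. -/
noncomputable def gUk (X n : ℕ) (au : Ω → ℤ) (w : (Ω × Ω) × Ω) : Fin (D + 1) → ℝ :=
  fun j => if j = 0 then - (2 ^ n * (((au w.1.2 : ℝ) - au w.1.1) / 2 ^ X)) else 0

noncomputable def gZk (X M : ℕ) (t au : Ω → ℤ) (mu : Ω → Fin (D + 1) → ℤ) (w : (Ω × Ω) × Ω) :
    Fin (D + 1) → ℝ := fun j => 2 ^ X * ((((au w.1.2 : ℝ) - au w.1.1) / 2 ^ X) *
      (rpk (kh X (mu w.1.2)) ((t w.2 : ℝ) / 2 ^ M)).coeff ((j : ℕ) + 1))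

theorem n1_gUk (w : (Ω × Ω) × Ω) : n1 (gUk (D := D) X n au w) =
    2 ^ n * |((au w.1.2 : ℝ) - au w.1.1) / 2 ^ X| := by
  unfold n1 gUk
  rw [Finset.sum_eq_single (0 : Fin (D + 1))]
  · rw [if_pos rfl, abs_neg, abs_mul, abs_of_pos (by positivity : (0 : ℝ) < 2 ^ n)]
  · intro j _ hj
    rw [if_neg hj, abs_zero]
  · intro h
    exact absurd (Finset.mem_univ _) h

theorem n1_gZk (w : (Ω × Ω) × Ω) : n1 (gZk X M t au mu w) =
    2 ^ X * (|((au w.1.2 : ℝ) - au w.1.1) / 2 ^ X| *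
      n1 (fun j : Fin (D + 1) =>
        (rpk (kh X (mu w.1.2)) ((t w.2 : ℝ) / 2 ^ M)).coeff ((j : ℕ) + 1))) := by
  unfold gZk n1
  rw [Finset.mul_sum, Finset.mul_sum]
  refine Finset.sum_congr rfl fun j _ => ?_
  rw [abs_mul, abs_mul, abs_of_pos (by positivity : (0 : ℝ) < 2 ^ X)]

theorem pol_gUk (w : (Ω × Ω) × Ω) (x : ℝ) : (pol (gUk (D := D) X n au w)).eval x =
    - (2 ^ n * (((au w.1.2 : ℝ) - au w.1.1) / 2 ^ X)) * x := by
  rw [pol_eval, Finset.sum_eq_single (0 : Fin (D + 1))]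
  · unfold gUk
    rw [if_pos rfl]
    simp
  · intro j _ hj
    unfold gUk
    rw [if_neg hj, zero_mul]
  · intro h
    exact absurd (Finset.mem_univ _) h

theorem pol_gZk (w : (Ω × Ω) × Ω) (x : ℝ) : (pol (gZk X M t au mu w)).eval x =
    2 ^ X * ((((au w.1.2 : ℝ) - au w.1.1) / 2 ^ X) *
      ((((t w.2 : ℝ) / 2 ^ M) - x) * ((pof (kh X (mu w.1.2))).eval x -
        (pof (kh X (mu w.1.2))).eval ((t w.2 : ℝ) / 2 ^ M)) -
      (rpk (kh X (mu w.1.2)) ((t w.2 : ℝ) / 2 ^ M)).coeff 0)) := by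
  have h1 := eval_pol (rpk (kh X (mu w.1.2)) ((t w.2 : ℝ) / 2 ^ M)) (rpk_deg _ _) x
  rw [rpk_eval] at h1
  rw [h1, pol_eval, pol_eval, add_sub_cancel_left, Finset.mul_sum, Finset.mul_sum]
  refine Finset.sum_congr rfl fun j _ => ?_
  unfold gZk
  ring

theorem kh_near {ω : Ω} (hm : ∀ j, |(mu ω j : ℝ) - 2 ^ X * ka ω j| ≤ C) {x : ℝ} (h0 : 0 ≤ x)
    (h1 : x ≤ 1) :
    |(pof (kh X (mu ω))).eval x - (pof (ka ω)).eval x| ≤ (D + 1) * C / 2 ^ X := by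
  rw [pof_eval, pof_eval, ← Finset.sum_sub_distrib]
  refine (Finset.abs_sum_le_sum_abs _ _).trans ?_
  have h2 : ∀ j ∈ (Finset.univ : Finset (Fin (D + 1))),
      |kh X (mu ω) j * x ^ (j : ℕ) - ka ω j * x ^ (j : ℕ)| ≤ C / 2 ^ X := by
    intro j _
    have e1 : kh X (mu ω) j * x ^ (j : ℕ) - ka ω j * x ^ (j : ℕ) =
        ((mu ω j : ℝ) - 2 ^ X * ka ω j) / 2 ^ X * x ^ (j : ℕ) := by
      unfold kh
      field_simp
    rw [e1, abs_mul, abs_div, abs_of_nonneg (pow_nonneg h0 _),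
      abs_of_pos (by positivity : (0 : ℝ) < 2 ^ X)]
    refine (mul_le_of_le_one_right (by positivity) (pow_le_one₀ h0 h1)).trans ?_
    exact div_le_div_of_nonneg_right (hm j) (by positivity)
  refine (Finset.sum_le_sum h2).trans (le_of_eq ?_)
  rw [Finset.sum_const, Finset.card_univ, Fintype.card_fin, nsmul_eq_mul]
  push_cast
  ring

theorem pof_le {k : Fin (D + 1) → ℝ} {c : ℝ} (hk : ∀ j, |k j| ≤ c) {x : ℝ} (h0 : 0 ≤ x)
    (h1 : x ≤ 1) : |(pof k).eval x| ≤ (D + 1) * c := by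
  rw [pof_eval]
  refine (Finset.abs_sum_le_sum_abs _ _).trans ?_
  have h2 : ∀ j ∈ (Finset.univ : Finset (Fin (D + 1))), |k j * x ^ (j : ℕ)| ≤ c := by
    intro j _
    rw [abs_mul, abs_of_nonneg (pow_nonneg h0 _)]
    exact (mul_le_of_le_one_right (abs_nonneg _) (pow_le_one₀ h0 h1)).trans (hk j)
  refine (Finset.sum_le_sum h2).trans (le_of_eq ?_)
  rw [Finset.sum_const, Finset.card_univ, Fintype.card_fin, nsmul_eq_mul]
  push_cast
  rfl

/-- The elementary estimate. -/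
theorem kp_est {N₁ N₀ D₁ D₀ v₁ v₀ a₁ a₀ a' κx κy κx' κy' x y C E m : ℝ} (hC : 1 ≤ C)
    (hE : 0 < E) (hm : 1 ≤ m) (hx0 : 0 ≤ x) (hx1 : x ≤ 1) (hy0 : 0 ≤ y) (hy1 : y ≤ 1)
    (he₁ : |N₁ - N₀| ≤ C * E) (he₃ : |D₁ - D₀ - κy * (a₁ - a₀)| ≤ C * E)
    (he₂ : |v₁ - v₀| ≤ C * E) (ha : |a' - (a₁ - a₀)| ≤ 2 * C * E) (haC : |a'| ≤ 4 * C)
    (hκx : |κx' - κx| ≤ m * C * E) (hκy : |κy' - κy| ≤ m * C * E)
    (hκxC : |κx| ≤ m * C) (hκyC : |κy| ≤ m * C) (hv₀ : |v₀ + a₀ * (x - y)| ≤ C) :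
    |(N₁ + D₁ * (x - y) - κx * (v₁ + a₁ * (x - y))) -
      (N₀ + D₀ * (x - y) - κx' * (v₀ + a₀ * (x - y)) + a' * ((x - y) * (κy' - κx')))| ≤
      16 * m * C ^ 2 * E := by
  have hC0 : 0 < C := by linarith
  have hm0 : 0 < m := by linarith
  have hxy : |x - y| ≤ 1 := by
    rw [abs_le]
    constructor <;> linarith
  have hCE : C * E ≤ m * C ^ 2 * E := by
    have h1 : C ≤ C ^ 2 := by nlinarith
    have h2 : C ^ 2 ≤ m * C ^ 2 := le_mul_of_one_le_left (by positivity) hm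
    exact mul_le_mul_of_nonneg_right (h1.trans h2) hE.le
  -- the six terms
  have b1 : |(κx' - κx) * (v₀ + a₀ * (x - y))| ≤ m * C ^ 2 * E := by
    rw [abs_mul]
    refine (mul_le_mul hκx hv₀ (abs_nonneg _) (by positivity)).trans (le_of_eq ?_)
    ring
  have b2 : |(x - y) * ((a' - (a₁ - a₀)) * (κy - κx))| ≤ 4 * (m * C ^ 2 * E) := by
    rw [abs_mul, abs_mul]
    have h1 : |κy - κx| ≤ 2 * (m * C) := (abs_sub _ _).trans (by linarith)
    have h2 := mul_le_mul ha h1 (abs_nonneg _) (by positivity)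
    have h3 := mul_le_mul hxy h2 (by positivity) zero_le_one
    refine h3.trans (le_of_eq ?_)
    ring
  have b3 : |(x - y) * (a' * ((κy' - κy) - (κx' - κx)))| ≤ 8 * (m * C ^ 2 * E) := by
    rw [abs_mul, abs_mul]
    have h1 : |(κy' - κy) - (κx' - κx)| ≤ 2 * (m * C * E) := (abs_sub _ _).trans (by linarith)
    have h2 := mul_le_mul haC h1 (abs_nonneg _) (by positivity)
    have h3 := mul_le_mul hxy h2 (by positivity) zero_le_one
    refine h3.trans (le_of_eq ?_)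
    ring
  have b4 : |(x - y) * (D₁ - D₀ - κy * (a₁ - a₀))| ≤ m * C ^ 2 * E := by
    rw [abs_mul]
    have h3 := mul_le_mul hxy he₃ (abs_nonneg _) zero_le_one
    linarith
  have b5 : |κx * (v₁ - v₀)| ≤ m * C ^ 2 * E := by
    rw [abs_mul]
    refine (mul_le_mul hκxC he₂ (abs_nonneg _) (by positivity)).trans (le_of_eq ?_)
    ring
  have key : (N₁ + D₁ * (x - y) - κx * (v₁ + a₁ * (x - y))) -
      (N₀ + D₀ * (x - y) - κx' * (v₀ + a₀ * (x - y)) + a' * ((x - y) * (κy' - κx'))) =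
      (κx' - κx) * (v₀ + a₀ * (x - y)) - (x - y) * ((a' - (a₁ - a₀)) * (κy - κx)) -
        (x - y) * (a' * ((κy' - κy) - (κx' - κx))) + (N₁ - N₀) +
        (x - y) * (D₁ - D₀ - κy * (a₁ - a₀)) - κx * (v₁ - v₀) := by ring
  rw [key]
  obtain ⟨z1, hz1⟩ : ∃ z, z = (κx' - κx) * (v₀ + a₀ * (x - y)) := ⟨_, rfl⟩
  obtain ⟨z2, hz2⟩ : ∃ z, z = (x - y) * ((a' - (a₁ - a₀)) * (κy - κx)) := ⟨_, rfl⟩
  obtain ⟨z3, hz3⟩ : ∃ z, z = (x - y) * (a' * ((κy' - κy) - (κx' - κx))) := ⟨_, rfl⟩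
  obtain ⟨z4, hz4⟩ : ∃ z, z = (x - y) * (D₁ - D₀ - κy * (a₁ - a₀)) := ⟨_, rfl⟩
  obtain ⟨z5, hz5⟩ : ∃ z, z = κx * (v₁ - v₀) := ⟨_, rfl⟩
  obtain ⟨z6, hz6⟩ : ∃ z, z = N₁ - N₀ := ⟨_, rfl⟩
  rw [← hz1] at b1 ⊢
  rw [← hz2] at b2 ⊢
  rw [← hz3] at b3 ⊢
  rw [← hz4] at b4 ⊢
  rw [← hz5] at b5 ⊢
  rw [← hz6] at he₁ ⊢
  rw [abs_le] at b1 b2 b3 b4 b5 he₁ ⊢
  constructor <;> linarith

variable [Fintype Ω]

/-- **The relations** of the hop. -/
theorem Kp.hop (H : Kp D p B ln Y S S' t U Z au mu Pv PN ka nat Nb M X n C h ϖ d κ₀)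
    (hC : 1 ≤ C) :
    Hop (D + 1) p (q3 p B ln) Prod.snd (Wq ln t Y (kx au mu)) (fun w => t w.1.1) U Z S'
      (fun w => 2 ^ n * ((Pv w.1.1).eval ((t w.2 : ℝ) / 2 ^ M) +
        (((au w.1.2 : ℝ) - au w.1.1) / 2 ^ X) * ((t w.2 : ℝ) / 2 ^ M)))
      (fun w => 2 ^ X * ((PN w.1.1).eval ((t w.2 : ℝ) / 2 ^ M) -
        (pof (kh X (mu w.1.2))).eval ((t w.2 : ℝ) / 2 ^ M) *
          (Pv w.1.1).eval ((t w.2 : ℝ) / 2 ^ M) +
        (((au w.1.2 : ℝ) - au w.1.1) / 2 ^ X) *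
          (rpk (kh X (mu w.1.2)) ((t w.2 : ℝ) / 2 ^ M)).coeff 0))
      (gUk X n au) (gZk X M t au mu) M (32 * (D + 1) ^ 2 * C ^ 2) (4 * d) ∧
    (∀ w, 0 < q3 p B ln w → n1 (gUk (D := D) X n au w) ≤ 32 * (D + 1) ^ 2 * C ^ 2 * 2 ^ n) ∧
    ∀ w, 0 < q3 p B ln w → n1 (gZk X M t au mu w) ≤ 32 * (D + 1) ^ 2 * C ^ 2 * 2 ^ X := by
  have h0 := H.ok.law.nonneg
  have hq := q3_law (B := B) (ln := ln) H.ok.law
  have hC0 : 0 < C := by linarith
  have hD0 : (0 : ℝ) ≤ D := Nat.cast_nonneg D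
  have hP : (0 : ℝ) < 2 ^ X := by positivity
  have hP1 : (1 : ℝ) ≤ 2 ^ X := one_le_pow₀ (by norm_num)
  have hn1 : (0 : ℝ) < 2 ^ n := by positivity
  have hnX : (2 : ℝ) ^ n ≤ 2 ^ X := pow_le_pow_right₀ (by norm_num) H.nX
  obtain ⟨E, hE⟩ : ∃ E : ℝ, E = 1 / 2 ^ X := ⟨_, rfl⟩
  have hE0 : 0 < E := by rw [hE]; positivity
  have hE1 : E ≤ 1 := by
    rw [hE, div_le_one hP]
    exact hP1
  have hEX : 2 ^ X * E = 1 := by rw [hE]; field_simp
  have hCX : C / 2 ^ X = C * E := by rw [hE]; ring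
  have hD1 : (1 : ℝ) ≤ (D + 1) ^ 2 := by nlinarith
  have hCC : C ≤ C ^ 2 := by nlinarith
  have hKC : C ≤ (D + 1) ^ 2 * C ^ 2 := by
    have : C ^ 2 ≤ (D + 1) ^ 2 * C ^ 2 := le_mul_of_one_le_left (by positivity) hD1
    linarith
  -- the rounded velocity
  have hav : ∀ w, 0 < q3 p B ln w →
      |((au w.1.2 : ℝ) - au w.1.1) / 2 ^ X - ((Pv w.1.2).coeff 1 - (Pv w.1.1).coeff 1)| ≤
        2 * C * E := by
    intro w hw
    obtain ⟨a1, a2, a3, a4, a5⟩ := q3_pos h0 hw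
    have c1 := H.ca _ a1
    have c2 := H.ca _ a2
    have e1 : ((au w.1.2 : ℝ) - au w.1.1) / 2 ^ X - ((Pv w.1.2).coeff 1 - (Pv w.1.1).coeff 1) =
        (((au w.1.2 : ℝ) - 2 ^ X * (Pv w.1.2).coeff 1) -
          ((au w.1.1 : ℝ) - 2 ^ X * (Pv w.1.1).coeff 1)) * E := by
      rw [hE]
      field_simp
      ring
    rw [e1, abs_mul, abs_of_pos hE0]
    refine mul_le_mul_of_nonneg_right ?_ hE0.le
    exact (abs_sub _ _).trans (by linarith)
  have haC : ∀ w, 0 < q3 p B ln w → |((au w.1.2 : ℝ) - au w.1.1) / 2 ^ X| ≤ 4 * C := by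
    intro w hw
    obtain ⟨a1, a2, a3, a4, a5⟩ := q3_pos h0 hw
    have c1 := H.ba _ a1
    have c2 := H.ba _ a2
    have c3 := hav w hw
    have c4 : |(Pv w.1.2).coeff 1 - (Pv w.1.1).coeff 1| ≤ 2 * C := (abs_sub _ _).trans (by linarith)
    have c5 : 2 * C * E ≤ 2 * C := mul_le_of_le_one_right (by positivity) hE1
    rw [abs_le] at c3 c4 ⊢
    constructor <;> linarith
  have hkh : ∀ ω, 0 < p ω → ∀ j, |kh X (mu ω) j| ≤ 2 * C := by
    intro ω hω j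
    have c1 := H.cm ω hω j
    have c2 := H.bk ω hω j
    have e1 : kh X (mu ω) j = ((mu ω j : ℝ) - 2 ^ X * ka ω j) * E + ka ω j := by
      unfold kh
      rw [hE]
      field_simp
      ring
    rw [e1]
    have c3 : |((mu ω j : ℝ) - 2 ^ X * ka ω j) * E| ≤ C := by
      rw [abs_mul, abs_of_pos hE0]
      exact (mul_le_of_le_one_right (abs_nonneg _) hE1).trans c1
    exact (abs_add_le _ _).trans (by linarith)
  refine ⟨⟨H.ok.law, hq, q3_3 h0, fun w hw => H.ok.t0 _ (q3_pos h0 hw).1, ?_, ⟨?_, ?_, ?_⟩,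
    ⟨?_, ?_, ?_⟩, ?_⟩, ?_, ?_⟩
  · exact time_fullI H.ok (fun ω => (au ω, mu ω))
      (fun ω ω' a b e => by rw [Prod.mk.injEq]; exact ⟨H.da _ _ a b e, H.dm _ _ a b e⟩) nat
      H.natl H.natB H.ind (kx au mu) (fun x y => (y.1 - x.1, y.2)) (fun _ _ => rfl)
  · intro w w' x x' e
    have e1 : ln w.1.1 = ln w'.1.1 := congrArg (fun z => z.1) e
    have e2 : t w.2 = t w'.2 := congrArg (fun z => z.2.1) e
    have e3 := H.dv _ _ (q3_pos h0 x).1 (q3_pos h0 x').1 e1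
    have e4 : au w.1.2 - au w.1.1 = au w'.1.2 - au w'.1.1 := congrArg (fun z => z.2.2.2.1) e
    have e5 : (au w.1.2 : ℝ) - au w.1.1 = (au w'.1.2 : ℝ) - au w'.1.1 := by exact_mod_cast e4
    simp only [e2, e3, e5]
  · intro w w' x x' e
    have e4 : au w.1.2 - au w.1.1 = au w'.1.2 - au w'.1.1 := congrArg (fun z => z.2.2.2.1) e
    have e5 : (au w.1.2 : ℝ) - au w.1.1 = (au w'.1.2 : ℝ) - au w'.1.1 := by exact_mod_cast e4
    unfold gUk
    simp only [e5]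
  · intro w hw
    obtain ⟨a1, a2, a3, a4, a5⟩ := q3_pos h0 hw
    have g3 := H.ru _ a3
    have g5 := H.ok.tB _ _ a1 a2 a4
    have g7 := H.dv _ _ a2 a3 a5
    rw [← g7] at g3
    obtain ⟨x0, x1⟩ := time_unit (H.ok.t0 _ a3)
    obtain ⟨y0, y1⟩ := time_unit (H.ok.t0 _ a1)
    obtain ⟨x, hx⟩ : ∃ x : ℝ, x = (t w.2 : ℝ) / 2 ^ M := ⟨_, rfl⟩
    obtain ⟨y, hy⟩ : ∃ y : ℝ, y = (t w.1.1 : ℝ) / 2 ^ M := ⟨_, rfl⟩
    have g4 := H.jv _ _ a1 a2 a4
    have g8 := hav w hw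
    obtain ⟨a', ha'⟩ : ∃ a' : ℝ, a' = ((au w.1.2 : ℝ) - au w.1.1) / 2 ^ X := ⟨_, rfl⟩
    simp only [pol_gUk]
    rw [← ha'] at g8
    simp only [← ha']
    rw [← hx] at x0 x1 g3
    rw [← hy] at y0 y1 g4
    simp only [← hx, ← hy]
    rw [hCX] at g4
    rw [aff_eval (H.degv _ a2) x y] at g3
    rw [aff_eval (H.degv _ a1) x y]
    have hxy : |x - y| ≤ 1 := by
      rw [abs_le]
      constructor <;> linarith
    obtain ⟨r, hr⟩ : ∃ r : ℝ, r = ((Pv w.1.2).eval y + (Pv w.1.2).coeff 1 * (x - y)) -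
        ((Pv w.1.1).eval y + (Pv w.1.1).coeff 1 * (x - y) + a' * (x - y)) := ⟨_, rfl⟩
    have hr1 : |r| ≤ 3 * C * E := by
      have e1 : r = ((Pv w.1.2).eval y - (Pv w.1.1).eval y) -
          (a' - ((Pv w.1.2).coeff 1 - (Pv w.1.1).coeff 1)) * (x - y) := by
        rw [hr]
        ring
      rw [e1]
      refine (abs_sub _ _).trans ?_
      rw [abs_mul]
      have := mul_le_mul g8 hxy (abs_nonneg _) (by positivity)
      linarith
    have hr2 : |2 ^ n * r| ≤ 3 * C := by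
      rw [abs_mul, abs_of_pos hn1]
      have h1 : 2 ^ n * |r| ≤ 2 ^ X * (3 * C * E) := mul_le_mul hnX hr1 (abs_nonneg _) hP.le
      refine h1.trans (le_of_eq ?_)
      have : 2 ^ X * (3 * C * E) = 3 * C * (2 ^ X * E) := by ring
      rw [this, hEX, mul_one]
    have e2 : (U w.2 : ℝ) - (2 ^ n * ((Pv w.1.1).eval y + (Pv w.1.1).coeff 1 * (x - y) + a' * x) +
        -(2 ^ n * a') * y) = ((U w.2 : ℝ) - 2 ^ n * ((Pv w.1.2).eval y +
          (Pv w.1.2).coeff 1 * (x - y))) + 2 ^ n * r := by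
      rw [hr]
      ring
    rw [e2]
    refine (abs_add_le _ _).trans ?_
    have h5 : 32 * ((D : ℝ) + 1) ^ 2 * C ^ 2 = 32 * ((D + 1) ^ 2 * C ^ 2) := by ring
    rw [h5]
    linarith
  · intro w w' x x' e
    have e1 : ln w.1.1 = ln w'.1.1 := congrArg (fun z => z.1) e
    have e2 : t w.2 = t w'.2 := congrArg (fun z => z.2.1) e
    have e3 := H.dv _ _ (q3_pos h0 x).1 (q3_pos h0 x').1 e1
    have e3' := H.dN _ _ (q3_pos h0 x).1 (q3_pos h0 x').1 e1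
    have e4 : au w.1.2 - au w.1.1 = au w'.1.2 - au w'.1.1 := congrArg (fun z => z.2.2.2.1) e
    have e5 : (au w.1.2 : ℝ) - au w.1.1 = (au w'.1.2 : ℝ) - au w'.1.1 := by exact_mod_cast e4
    have e6 : mu w.1.2 = mu w'.1.2 := congrArg (fun z => z.2.2.2.2) e
    simp only [e2, e3, e3', e5, e6]
  · intro w w' x x' e
    have e2 : t w.2 = t w'.2 := congrArg (fun z => z.2.1) e
    have e4 : au w.1.2 - au w.1.1 = au w'.1.2 - au w'.1.1 := congrArg (fun z => z.2.2.2.1) e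
    have e5 : (au w.1.2 : ℝ) - au w.1.1 = (au w'.1.2 : ℝ) - au w'.1.1 := by exact_mod_cast e4
    have e6 : mu w.1.2 = mu w'.1.2 := congrArg (fun z => z.2.2.2.2) e
    unfold gZk
    simp only [e2, e5, e6]
  · intro w hw
    obtain ⟨a1, a2, a3, a4, a5⟩ := q3_pos h0 hw
    have g3 := H.rz _ a3
    have g5 := H.ok.tB _ _ a1 a2 a4
    have g7 := H.dv _ _ a2 a3 a5
    have g7' := H.dN _ _ a2 a3 a5
    have g7k := H.dk _ _ a2 a3 a5
    rw [← g7, ← g7', ← g7k] at g3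
    obtain ⟨x0, x1⟩ := time_unit (H.ok.t0 _ a3)
    obtain ⟨y0, y1⟩ := time_unit (H.ok.t0 _ a1)
    obtain ⟨x, hx⟩ : ∃ x : ℝ, x = (t w.2 : ℝ) / 2 ^ M := ⟨_, rfl⟩
    obtain ⟨y, hy⟩ : ∃ y : ℝ, y = (t w.1.1 : ℝ) / 2 ^ M := ⟨_, rfl⟩
    have g4 := H.jv _ _ a1 a2 a4
    have g4' := H.jN _ _ a1 a2 a4
    have g4'' := H.jD _ _ a1 a2 a4
    have g8 := hav w hw
    have g9 := haC w hw
    simp only [pol_gZk]
    obtain ⟨a', ha'⟩ : ∃ a' : ℝ, a' = ((au w.1.2 : ℝ) - au w.1.1) / 2 ^ X := ⟨_, rfl⟩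
    rw [← ha'] at g8 g9
    simp only [← ha']
    rw [← hx] at x0 x1 g3
    rw [← hy] at y0 y1 g4 g4' g4''
    simp only [← hx, ← hy]
    rw [hCX] at g4 g4' g4''
    have hv0 := H.bv _ a1 x x0 x1
    rw [aff_eval (H.degv _ a1) x y] at hv0 ⊢
    rw [aff_eval (H.degv _ a2) x y, aff_eval (H.degN _ a2) x y] at g3
    rw [aff_eval (H.degN _ a1) x y]
    have kx1 := kh_near (H.cm _ a2) x0 x1
    have ky1 := kh_near (H.cm _ a2) y0 y1
    have kxc := pof_le (H.bk _ a2) x0 x1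
    have kyc := pof_le (H.bk _ a2) y0 y1
    have e0 : ((D : ℝ) + 1) * C / 2 ^ X = (D + 1) * C * E := by rw [hE]; ring
    rw [e0] at kx1 ky1
    have est := kp_est hC hE0 (by linarith : (1 : ℝ) ≤ D + 1) x0 x1 y0 y1 g4' g4'' g4 g8 g9 kx1
      ky1 kxc kyc hv0
    obtain ⟨r, hr⟩ : ∃ r : ℝ, r = ((PN w.1.2).eval y + (PN w.1.2).coeff 1 * (x - y) -
      (pof (ka w.1.2)).eval x * ((Pv w.1.2).eval y + (Pv w.1.2).coeff 1 * (x - y))) -
      ((PN w.1.1).eval y + (PN w.1.1).coeff 1 * (x - y) - (pof (kh X (mu w.1.2))).eval x *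
        ((Pv w.1.1).eval y + (Pv w.1.1).coeff 1 * (x - y)) + a' * ((x - y) *
        ((pof (kh X (mu w.1.2))).eval y - (pof (kh X (mu w.1.2))).eval x))) := ⟨_, rfl⟩
    rw [← hr] at est
    have hr2 : |2 ^ X * r| ≤ 16 * ((D + 1) ^ 2 * C ^ 2) := by
      rw [abs_mul, abs_of_pos hP]
      have h1 : 2 ^ X * |r| ≤ 2 ^ X * (16 * (D + 1) * C ^ 2 * E) :=
        mul_le_mul_of_nonneg_left est hP.le
      refine h1.trans ?_
      have h2 : 2 ^ X * (16 * (D + 1) * C ^ 2 * E) = 16 * ((D + 1) * C ^ 2) * (2 ^ X * E) := by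
        ring
      rw [h2, hEX, mul_one]
      refine mul_le_mul_of_nonneg_left (mul_le_mul_of_nonneg_right ?_ (by positivity))
        (by norm_num)
      nlinarith
    have e2 : (Z w.2 : ℝ) - (2 ^ X * ((PN w.1.1).eval y + (PN w.1.1).coeff 1 * (x - y) -
        (pof (kh X (mu w.1.2))).eval x * ((Pv w.1.1).eval y + (Pv w.1.1).coeff 1 * (x - y)) +
        a' * (rpk (kh X (mu w.1.2)) x).coeff 0) + 2 ^ X * (a' * ((x - y) *
        ((pof (kh X (mu w.1.2))).eval y - (pof (kh X (mu w.1.2))).eval x) -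
        (rpk (kh X (mu w.1.2)) x).coeff 0))) =
        ((Z w.2 : ℝ) - 2 ^ X * ((PN w.1.2).eval y + (PN w.1.2).coeff 1 * (x - y) -
        (pof (ka w.1.2)).eval x * ((Pv w.1.2).eval y + (Pv w.1.2).coeff 1 * (x - y)))) +
        2 ^ X * r := by
      rw [hr]
      ring
    rw [e2]
    refine (abs_add_le _ _).trans ?_
    have h5 : 32 * ((D : ℝ) + 1) ^ 2 * C ^ 2 = 32 * ((D + 1) ^ 2 * C ^ 2) := by ring
    rw [h5]
    linarith
  · intro w w' x y e0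
    obtain ⟨-, x2, x3, -, x5⟩ := q3_pos h0 x
    obtain ⟨-, y2, y3, -, y5⟩ := q3_pos h0 y
    have e1 : t w.2 = t w'.2 := congrArg (fun z => z.2.1) e0
    have e2 : Y w.1.2 = Y w'.1.2 := congrArg (fun z => z.2.2.1) e0
    have e2' : mu w.1.2 = mu w'.1.2 := congrArg (fun z => z.2.2.2.2) e0
    have e3 := H.ok.lY _ _ x2 x3 x5
    have e4 := H.ok.lY _ _ y2 y3 y5
    have e3' := H.dm _ _ x2 x3 x5
    have e4' := H.dm _ _ y2 y3 y5
    have e6 : Y w.2 = Y w'.2 := by rw [← e3, e2, e4]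
    have e6' : mu w.2 = mu w'.2 := by rw [← e3', e2', e4']
    exact H.SY' _ _ x3 y3 (Prod.ext (Prod.ext e6 e6') e1)
  · intro w hw
    rw [n1_gUk, mul_comm]
    refine mul_le_mul_of_nonneg_right ?_ hn1.le
    have h5 : 32 * ((D : ℝ) + 1) ^ 2 * C ^ 2 = 32 * ((D + 1) ^ 2 * C ^ 2) := by ring
    rw [h5]
    linarith [haC w hw]
  · intro w hw
    obtain ⟨a1, a2, a3, a4, a5⟩ := q3_pos h0 hw
    obtain ⟨x0, x1⟩ := time_unit (H.ok.t0 _ a3)
    rw [n1_gZk, mul_comm]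
    refine mul_le_mul_of_nonneg_right ?_ hP.le
    have h1 := rpk_le (kh X (mu w.1.2)) x0 x1 (hkh _ a2)
    have h2 := mul_le_mul (haC w hw) h1 (n1_nonneg _) (by positivity)
    refine h2.trans (le_of_eq ?_)
    ring

end

end Pool.LPK12
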