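import Pool.Agent.H12.LPK.Kap

/-!
# The slope is constant on the lines, the numbers

`kap_small`, `kap_line`: if `N - κ v` is not full given the first digits of `v`, then the coefficients
of `κ` of order at least one are small.
-/

set_option autoImplicit false

namespace Pool.LPK12

open Finset Real
open Pool.Agent.H49.Ent Pool.Agent.H32.Dense Pool.STK Pool.POT Pool.TQ Pool.LPX
open Pool.K2S (Pe)

open Classical in
/-- **The slope is constant on the lines**, pairs of lines over one ball. -/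
theorem kap_small (D : ℕ) (C h ε : ℝ) (hC : 1 ≤ C) (hh0 : 0 < h) (hh1 : h ≤ 1) (hε : 0 < ε) :
    ∃ κ ϖ : ℝ, 0 < κ ∧ 0 < ϖ ∧ ∃ X₀ : ℕ,
    ∀ {Ω β Λ υ σ σ' ν : Type} [Fintype Ω] {p : Ω → ℝ} {B : Ω → β} {ln : Ω → Λ}
    {Y : Ω → υ} {S : Ω → σ} {S' : Ω → σ'} {t U Z au : Ω → ℤ} {mu : Ω → Fin (D + 1) → ℤ}
    {Pv PN : Ω → Polynomial ℝ} {ka : Ω → Fin (D + 1) → ℝ} {nat : Ω → ν} {Nb : υ → Finset υ}
    {M X n : ℕ} {d κ₀ : ℝ},
    Kp D p B ln Y S S' t U Z au mu Pv PN ka nat Nb M X n C h ϖ d κ₀ → X₀ ≤ X → 0 ≤ d →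
    d ≤ κ * X →
    Ex (q3 p B ln) (fun w => if 2 ^ X * |(Pv w.1.2).coeff 1 - (Pv w.1.1).coeff 1| *
      ∑ j : Fin D, |ka w.1.2 j.succ| ≤ (2 : ℝ) ^ (ε * X) *
        max 1 (2 ^ n * |(Pv w.1.2).coeff 1 - (Pv w.1.1).coeff 1|) then 0 else 1) ≤ ε := by
  obtain ⟨C₁, hC₁⟩ : ∃ C₁ : ℝ, C₁ = 32 * (D + 1) ^ 2 * C ^ 2 := ⟨_, rfl⟩
  have hC0 : 0 < C := by linarith
  have hD0 : (0 : ℝ) ≤ D := Nat.cast_nonneg D
  have hCsq : C ≤ C ^ 2 := by nlinarith
  have hC₁1 : 1 ≤ C₁ := by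
    have h1 : (1 : ℝ) ≤ (D + 1) ^ 2 := by nlinarith
    have h2 : 1 ≤ C ^ 2 := by nlinarith
    have h3 : 1 ≤ (D + 1) ^ 2 * C ^ 2 := by nlinarith
    have h4 : C₁ = 32 * ((D + 1) ^ 2 * C ^ 2) := by rw [hC₁]; ring
    rw [h4]
    linarith
  obtain ⟨κ, ϖ, hκ, hϖ, X₁, H⟩ := hop_fast (D + 1) C₁ h (ε / 2) hC₁1 hh0 hh1 (by positivity)
  obtain ⟨c, hc⟩ : ∃ c : ℝ, c = 13 * (D + 1) * C ^ 2 := ⟨_, rfl⟩
  have hc1 : 1 ≤ c := by
    rw [hc]
    have h2 : 1 ≤ C ^ 2 := by nlinarith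
    nlinarith
  obtain ⟨X₂, hX₂⟩ := exists_nat_ge (Real.log c / (ε / 4))
  refine ⟨κ / 4, ϖ, by positivity, hϖ, max X₁ X₂, ?_⟩
  intro Ω β Λ υ σ σ' ν _ p B ln Y S S' t U Z au mu Pv PN ka nat Nb M X n d κ₀ HK hX hd hdκ
  obtain ⟨hop, hsu, hsz⟩ := HK.hop hC
  rw [← hC₁] at hop hsu hsz
  have key := H hop HK.nX HK.XM hsu hsz (fun i hi G hG => (HK.nfz i hi G hG).trans (by linarith))
    ((le_max_left _ _).trans hX) (by positivity) (by linarith)
  have h0 := HK.ok.law.nonneg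
  have hq := q3_law (B := B) (ln := ln) HK.ok.law
  have hX0 : (0 : ℝ) ≤ X := Nat.cast_nonneg X
  have hP : (0 : ℝ) < 2 ^ X := by positivity
  have hP1 : (1 : ℝ) ≤ 2 ^ X := one_le_pow₀ (by norm_num)
  have hn1 : (0 : ℝ) < 2 ^ n := by positivity
  have hnX : (2 : ℝ) ^ n ≤ 2 ^ X := pow_le_pow_right₀ (by norm_num) HK.nX
  obtain ⟨E, hE⟩ : ∃ E : ℝ, E = 1 / 2 ^ X := ⟨_, rfl⟩
  have hE0 : 0 < E := by rw [hE]; positivity
  have hE1 : E ≤ 1 := by
    rw [hE, div_le_one hP]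
    exact hP1
  have hEX : 2 ^ X * E = 1 := by rw [hE]; field_simp
  have hcX : c ≤ (2 : ℝ) ^ (ε / 2 * X) := by
    have h1 : Real.log c / (ε / 4) ≤ X := hX₂.trans (by exact_mod_cast (le_max_right _ _).trans hX)
    rw [div_le_iff₀ (by positivity)] at h1
    have h2 : Real.log c ≤ Real.log ((2 : ℝ) ^ (ε / 2 * X)) := by
      rw [Real.log_rpow (by norm_num)]
      have hl := Real.log_two_gt_d9
      have h3 : 0 ≤ ε / 2 * X := by positivity
      have h4 := mul_le_mul_of_nonneg_left (by linarith : (1 / 2 : ℝ) ≤ Real.log 2) h3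
      linarith
    exact (Real.log_le_log_iff (by linarith) (by positivity)).1 h2
  refine le_trans (Ex_mono hq.nonneg fun w hw => ?_) (key.trans (by linarith))
  obtain ⟨a1, a2, a3, a4, a5⟩ := q3_pos h0 hw
  obtain ⟨x0, x1⟩ := time_unit (HK.ok.t0 _ a3)
  by_cases hg : n1 (gZk X M t au mu w) ≤ (2 : ℝ) ^ (ε / 2 * X) *
      max 1 (n1 (gUk (D := D) X n au w))
  swap
  · rw [if_neg hg]
    split_ifs <;> norm_num
  rw [if_pos hg, if_pos]
  -- the rounded velocity and slope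
  obtain ⟨a', ha'⟩ : ∃ a' : ℝ, a' = ((au w.1.2 : ℝ) - au w.1.1) / 2 ^ X := ⟨_, rfl⟩
  obtain ⟨a, ha⟩ : ∃ a : ℝ, a = (Pv w.1.2).coeff 1 - (Pv w.1.1).coeff 1 := ⟨_, rfl⟩
  rw [← ha]
  have c1 := HK.ca _ a1
  have c2 := HK.ca _ a2
  have haa : |a' - a| ≤ 2 * C * E := by
    have e1 : a' - a = (((au w.1.2 : ℝ) - 2 ^ X * (Pv w.1.2).coeff 1) -
          ((au w.1.1 : ℝ) - 2 ^ X * (Pv w.1.1).coeff 1)) * E := by
      rw [hE, ha', ha]
      field_simp
      ring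
    rw [e1, abs_mul, abs_of_pos hE0]
    refine mul_le_mul_of_nonneg_right ?_ hE0.le
    exact (abs_sub _ _).trans (by linarith)
  have haC : |a'| ≤ 4 * C := by
    have c1 := HK.ba _ a1
    have c2 := HK.ba _ a2
    have c4 : |a| ≤ 2 * C := by
      rw [ha]
      exact (abs_sub _ _).trans (by linarith)
    have c5 : 2 * C * E ≤ 2 * C := mul_le_of_le_one_right (by positivity) hE1
    rw [abs_le] at haa c4 ⊢
    constructor <;> linarith
  have haa2 : |a| ≤ |a'| + 2 * C * E := by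
    have h1 : a = a' - (a' - a) := by ring
    calc |a| = |a' - (a' - a)| := by rw [← h1]
      _ ≤ |a'| + |a' - a| := abs_sub _ _
      _ ≤ _ := by linarith
  have haa3 : |a'| ≤ |a| + 2 * C * E := by
    have h1 : a' = a + (a' - a) := by ring
    calc |a'| = |a + (a' - a)| := by rw [← h1]
      _ ≤ |a| + |a' - a| := abs_add_le _ _
      _ ≤ _ := by linarith
  obtain ⟨Kh, hKh⟩ : ∃ Kh : ℝ, Kh = ∑ j : Fin D, |kh X (mu w.1.2) j.succ| := ⟨_, rfl⟩
  obtain ⟨Kt, hKt⟩ : ∃ Kt : ℝ, Kt = ∑ j : Fin D, |ka w.1.2 j.succ| := ⟨_, rfl⟩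
  rw [← hKt]
  have hKh0 : 0 ≤ Kh := by
    rw [hKh]
    exact Finset.sum_nonneg fun _ _ => abs_nonneg _
  have hkd : ∀ j : Fin (D + 1), |ka w.1.2 j| ≤ |kh X (mu w.1.2) j| + C * E := by
    intro j
    have c1 := HK.cm _ a2 j
    have e1 : ka w.1.2 j = kh X (mu w.1.2) j - ((mu w.1.2 j : ℝ) - 2 ^ X * ka w.1.2 j) * E := by
      unfold kh
      rw [hE]
      field_simp
      ring
    rw [e1]
    refine (abs_sub _ _).trans ?_
    rw [abs_mul, abs_of_pos hE0]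
    have := mul_le_mul_of_nonneg_right c1 hE0.le
    linarith
  have hKK : Kt ≤ Kh + D * (C * E) := by
    rw [hKt, hKh]
    refine (Finset.sum_le_sum fun j _ => hkd j.succ).trans (le_of_eq ?_)
    rw [Finset.sum_add_distrib, Finset.sum_const, Finset.card_univ, Fintype.card_fin,
      nsmul_eq_mul]
  have hKhC : Kh ≤ D * (2 * C) := by
    rw [hKh]
    have h1 : ∀ j ∈ (Finset.univ : Finset (Fin D)), |kh X (mu w.1.2) j.succ| ≤ 2 * C := by
      intro j _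
      have c1 := HK.cm _ a2 j.succ
      have c2 := HK.bk _ a2 j.succ
      have e1 : kh X (mu w.1.2) j.succ = ((mu w.1.2 j.succ : ℝ) - 2 ^ X * ka w.1.2 j.succ) * E +
          ka w.1.2 j.succ := by
        unfold kh
        rw [hE]
        field_simp
        ring
      rw [e1]
      have c3 : |((mu w.1.2 j.succ : ℝ) - 2 ^ X * ka w.1.2 j.succ) * E| ≤ C := by
        rw [abs_mul, abs_of_pos hE0]
        exact (mul_le_of_le_one_right (abs_nonneg _) hE1).trans c1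
      exact (abs_add_le _ _).trans (by linarith)
    refine (Finset.sum_le_sum h1).trans (le_of_eq ?_)
    rw [Finset.sum_const, Finset.card_univ, Fintype.card_fin, nsmul_eq_mul]
  -- the rounded inequality
  rw [n1_gZk, n1_gUk, ← ha'] at hg
  have h1 := le_rpk (kh X (mu w.1.2)) x0 x1
  rw [← hKh] at h1
  obtain ⟨T, hT⟩ : ∃ T : ℝ, T = (2 : ℝ) ^ (ε / 2 * X) := ⟨_, rfl⟩
  rw [← hT] at hg hcX
  have hT1 : 1 ≤ T := hc1.trans hcX
  have hmx1 : (1 : ℝ) ≤ max 1 (2 ^ n * |a|) := le_max_left _ _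
  have hmx : max 1 (2 ^ n * |a'|) ≤ (1 + 2 * C) * max 1 (2 ^ n * |a|) := by
    refine max_le ?_ ?_
    · have h2 := mul_le_mul_of_nonneg_left hmx1 (by positivity : 0 ≤ 1 + 2 * C)
      linarith only [h2, hC0]
    · have h2 := mul_le_mul_of_nonneg_left haa3 hn1.le
      have h3 : 2 ^ n * (2 * C * E) ≤ 2 * C := by
        have h4 : 2 ^ n * (2 * C * E) ≤ 2 ^ X * (2 * C * E) :=
          mul_le_mul_of_nonneg_right hnX (by positivity)
        have h5 : 2 ^ X * (2 * C * E) = 2 * C * (2 ^ X * E) := by ring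
        rw [h5, hEX, mul_one] at h4
        exact h4
      have h4 : 2 ^ n * |a| ≤ max 1 (2 ^ n * |a|) := le_max_right _ _
      have h5 : 2 * C * 1 ≤ 2 * C * max 1 (2 ^ n * |a|) :=
        mul_le_mul_of_nonneg_left hmx1 (by positivity)
      linarith
  have h2 : 2 ^ X * (|a'| * Kh) ≤ D * (T * ((1 + 2 * C) * max 1 (2 ^ n * |a|))) := by
    have h3 := mul_le_mul_of_nonneg_left h1 (by positivity : (0 : ℝ) ≤ 2 ^ X * |a'|)
    have h4 := mul_le_mul_of_nonneg_left (hg.trans (mul_le_mul_of_nonneg_left hmx (by linarith)))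
      hD0
    calc 2 ^ X * (|a'| * Kh) = 2 ^ X * |a'| * Kh := by ring
      _ ≤ _ := h3
      _ = D * (2 ^ X * (|a'| * n1 (fun j : Fin (D + 1) =>
          (rpk (kh X (mu w.1.2)) ((t w.2 : ℝ) / 2 ^ M)).coeff ((j : ℕ) + 1)))) := by ring
      _ ≤ _ := h4
  -- the true inequality
  have h3 : 2 ^ X * |a| * Kt ≤ 2 ^ X * ((|a'| + 2 * C * E) * (Kh + D * (C * E))) := by
    rw [mul_assoc]
    refine mul_le_mul_of_nonneg_left ?_ hP.le
    have hKt0 : 0 ≤ Kt := by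
      rw [hKt]
      exact Finset.sum_nonneg fun _ _ => abs_nonneg _
    exact mul_le_mul haa2 hKK hKt0 (by positivity)
  have h4 : 2 ^ X * ((|a'| + 2 * C * E) * (Kh + D * (C * E))) =
      2 ^ X * (|a'| * Kh) + (2 ^ X * E) * (2 * C * Kh + |a'| * (D * C) + 2 * C * (D * C) * E) := by
    ring
  rw [hEX, one_mul] at h4
  have h5 : 2 * C * Kh + |a'| * (D * C) + 2 * C * (D * C) * E ≤ 10 * (D * C ^ 2) := by
    have e1 := mul_le_mul_of_nonneg_left hKhC (by positivity : 0 ≤ 2 * C)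
    have e2 := mul_le_mul_of_nonneg_right haC (by positivity : 0 ≤ D * C)
    have e3 : 2 * C * (D * C) * E ≤ 2 * C * (D * C) := mul_le_of_le_one_right (by positivity) hE1
    have e4 : 2 * C * (D * (2 * C)) = 4 * (D * C ^ 2) := by ring
    have e5 : 4 * C * (D * C) = 4 * (D * C ^ 2) := by ring
    have e6 : 2 * C * (D * C) = 2 * (D * C ^ 2) := by ring
    linarith
  obtain ⟨mx, hmxd⟩ : ∃ mx : ℝ, mx = max 1 (2 ^ n * |a|) := ⟨_, rfl⟩
  rw [← hmxd] at hmx1 h2 ⊢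
  have h6 : D * (T * ((1 + 2 * C) * mx)) + 10 * (D * C ^ 2) ≤ c * (T * mx) := by
    have hTm : 1 ≤ T * mx := one_le_mul_of_one_le_of_one_le hT1 hmx1
    have e1 : D * (T * ((1 + 2 * C) * mx)) ≤ D * (3 * C ^ 2) * (T * mx) := by
      have e2 : 1 + 2 * C ≤ 3 * C ^ 2 := by linarith only [hCsq, hC]
      have e3 := mul_le_mul_of_nonneg_left e2 (by positivity : 0 ≤ D * (T * mx))
      calc D * (T * ((1 + 2 * C) * mx)) = D * (T * mx) * (1 + 2 * C) := by ring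
        _ ≤ D * (T * mx) * (3 * C ^ 2) := e3
        _ = _ := by ring
    have e4 : 10 * (D * C ^ 2) ≤ 10 * (D * C ^ 2) * (T * mx) :=
      le_mul_of_one_le_right (by positivity) hTm
    have e5 : D * (3 * C ^ 2) * (T * mx) + 10 * (D * C ^ 2) * (T * mx) =
        13 * (D * C ^ 2) * (T * mx) := by ring
    have e6 : 13 * (D * C ^ 2) * (T * mx) ≤ c * (T * mx) := by
      refine mul_le_mul_of_nonneg_right ?_ (by linarith)
      rw [hc]
      have e7 : 0 ≤ C ^ 2 := by positivity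
      have e8 : 13 * ((D : ℝ) + 1) * C ^ 2 = 13 * (D * C ^ 2) + 13 * C ^ 2 := by ring
      rw [e8]
      linarith only [e7]
    linarith only [e1, e4, e5, e6]
  have h7 : c * (T * mx) ≤ (2 : ℝ) ^ (ε * X) * mx := by
    have e1 : (2 : ℝ) ^ (ε * X) = T * T := by
      rw [hT, ← Real.rpow_add (by norm_num)]
      congr 1
      ring
    rw [e1]
    have e2 : c * (T * mx) ≤ T * (T * mx) := mul_le_mul_of_nonneg_right hcX (by positivity)
    linarith only [e2]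
  linarith only [h2, h3, h4, h5, h6, h7]

open Classical in
/-- **The slope is constant on the lines.** -/
theorem kap_line (D : ℕ) (C h ε : ℝ) (hC : 1 ≤ C) (hh0 : 0 < h) (hh1 : h ≤ 1) (hε : 0 < ε) :
    ∃ κ ϖ : ℝ, 0 < κ ∧ 0 < ϖ ∧ ∃ X₀ : ℕ,
    ∀ {Ω β Λ υ σ σ' ν : Type} [Fintype Ω] {p : Ω → ℝ} {B : Ω → β} {ln : Ω → Λ}
    {Y : Ω → υ} {S : Ω → σ} {S' : Ω → σ'} {t U Z au : Ω → ℤ} {mu : Ω → Fin (D + 1) → ℤ}
    {Pv PN : Ω → Polynomial ℝ} {ka : Ω → Fin (D + 1) → ℝ} {nat : Ω → ν} {Nb : υ → Finset υ}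
    {M X n m' : ℕ} {d κ₀ e : ℝ},
    Kp D p B ln Y S S' t U Z au mu Pv PN ka nat Nb M X n C h ϖ d κ₀ → X₀ ≤ X → 0 ≤ d →
    d ≤ κ * X →
    Ex (q3 p B ln) (fun w => if 1 ≤ 2 ^ m' * |(Pv w.1.2).coeff 1 - (Pv w.1.1).coeff 1|
      then 0 else 1) ≤ e →
    Ex p (fun ω => if 2 ^ X * ∑ j : Fin D, |ka ω j.succ| ≤ (2 : ℝ) ^ (ε * X) * 2 ^ max n m'
      then 0 else 1) ≤ ε + e := by
  obtain ⟨κ, ϖ, hκ, hϖ, X₀, H⟩ := kap_small D C h ε hC hh0 hh1 hε
  refine ⟨κ, ϖ, hκ, hϖ, X₀, ?_⟩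
  intro Ω β Λ υ σ σ' ν _ p B ln Y S S' t U Z au mu Pv PN ka nat Nb M X n m' d κ₀ e HK hX hd hdκ
    hal
  have key := H HK hX hd hdκ
  have h0 := HK.ok.law.nonneg
  have hq := q3_law (B := B) (ln := ln) HK.ok.law
  rw [← (q3_2 (B := B) (ln := ln) h0).Ex]
  refine le_trans ?_ (add_le_add key hal)
  have h1 : ∀ f g : (Ω × Ω) × Ω → ℝ, Ex (q3 p B ln) f + Ex (q3 p B ln) g =
      Ex (q3 p B ln) (fun w => f w + g w) := by
    intro f g
    unfold Ex
    rw [← Finset.sum_add_distrib]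
    refine Finset.sum_congr rfl fun w _ => ?_
    ring
  rw [h1]
  refine Ex_mono hq.nonneg fun w hw => ?_
  obtain ⟨a, ha⟩ : ∃ a : ℝ, a = |(Pv w.1.2).coeff 1 - (Pv w.1.1).coeff 1| := ⟨_, rfl⟩
  rw [← ha]
  have ha0 : 0 ≤ a := by
    rw [ha]
    exact abs_nonneg _
  by_cases g1 : 2 ^ X * a * ∑ j : Fin D, |ka w.1.2 j.succ| ≤ (2 : ℝ) ^ (ε * X) * max 1 (2 ^ n * a)
  · by_cases g2 : 1 ≤ 2 ^ m' * a
    · rw [if_pos g1, if_pos g2, if_pos]
      · norm_num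
      have hm0 : (0 : ℝ) < 2 ^ m' := by positivity
      have ha1 : 0 < a := by
        by_contra hc
        have : a = 0 := le_antisymm (not_lt.1 hc) ha0
        rw [this, mul_zero] at g2
        linarith
      have hmax : max 1 (2 ^ n * a) ≤ 2 ^ max n m' * a := by
        refine max_le ?_ ?_
        · refine g2.trans (mul_le_mul_of_nonneg_right ?_ ha0)
          exact pow_le_pow_right₀ (by norm_num) (le_max_right _ _)
        · refine mul_le_mul_of_nonneg_right ?_ ha0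
          exact pow_le_pow_right₀ (by norm_num) (le_max_left _ _)
      have hT0 : (0 : ℝ) ≤ (2 : ℝ) ^ (ε * X) := by positivity
      have g3 := g1.trans (mul_le_mul_of_nonneg_left hmax hT0)
      have g4 : (2 ^ X * ∑ j : Fin D, |ka w.1.2 j.succ|) * a ≤
          ((2 : ℝ) ^ (ε * X) * 2 ^ max n m') * a := by
        refine le_trans (le_of_eq ?_) (g3.trans (le_of_eq ?_))
        · ring
        · ring
      exact le_of_mul_le_mul_right g4 ha1
    · rw [if_neg g2]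
      split_ifs <;> norm_num
  · rw [if_neg g1]
    split_ifs <;> norm_num

end Pool.LPK12
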