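import Pool.Agent.H12.LPK.Hfv
import Pool.Agent.H12.LPK.Kap

/-!
# The slopes over several sides

As `Kap`, with a finite family of sides `v l` and of slopes `κ l`.
-/

set_option autoImplicit false

namespace Pool.LPK12

open Finset Real
open Pool.Agent.H49.Ent Pool.Agent.H32.Dense Pool.STK Pool.POT Pool.TQ Pool.LPX
open Pool.K2S (Pe)

/-- Several coordinates with affine paths and the slopes `κ l` of the last over them along the
hops. `au`, `mu`: the codes of the velocities and of the slopes. -/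
structure Kpv {Ω β Λ υ σ σ' ν ι : Type} [Fintype Ω] [Fintype ι] (D : ℕ) (p : Ω → ℝ) (B : Ω → β)
    (ln : Ω → Λ) (Y : Ω → υ) (S : Ω → σ) (S' : Ω → σ') (t : Ω → ℤ) (U : Ω → ι → ℤ) (Z : Ω → ℤ)
    (au : Ω → ι → ℤ) (mu : Ω → ι → Fin (D + 1) → ℤ) (Pv : Ω → ι → Polynomial ℝ)
    (PN : Ω → Polynomial ℝ) (ka : Ω → ι → Fin (D + 1) → ℝ) (nat : Ω → ν) (Nb : υ → Finset υ)
    (M X n : ℕ) (C h ϖ d κ₀ : ℝ) : Prop where
  nX : n ≤ X
  XM : X ≤ M
  ok : Lp p B ln Y S t Nb M d κ₀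
  dv : Det p ln Pv
  dN : Det p ln PN
  dk : Det p ln ka
  da : Det p ln au
  dm : Det p ln mu
  degv : ∀ ω, 0 < p ω → ∀ l, (Pv ω l).natDegree ≤ 1
  degN : ∀ ω, 0 < p ω → (PN ω).natDegree ≤ 1
  ru : ∀ ω, 0 < p ω → ∀ l, |(U ω l : ℝ) - 2 ^ n * (Pv ω l).eval ((t ω : ℝ) / 2 ^ M)| ≤ C
  rz : ∀ ω, 0 < p ω → |(Z ω : ℝ) - 2 ^ X * ((PN ω).eval ((t ω : ℝ) / 2 ^ M) -
    ∑ l, (pof (ka ω l)).eval ((t ω : ℝ) / 2 ^ M) * (Pv ω l).eval ((t ω : ℝ) / 2 ^ M))| ≤ C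
  bv : ∀ ω, 0 < p ω → ∀ l x, 0 ≤ x → x ≤ 1 → |(Pv ω l).eval x| ≤ C
  ba : ∀ ω, 0 < p ω → ∀ l, |(Pv ω l).coeff 1| ≤ C
  bk : ∀ ω, 0 < p ω → ∀ l j, |ka ω l j| ≤ C
  ca : ∀ ω, 0 < p ω → ∀ l, |(au ω l : ℝ) - 2 ^ X * (Pv ω l).coeff 1| ≤ C
  cm : ∀ ω, 0 < p ω → ∀ l j, |(mu ω l j : ℝ) - 2 ^ X * ka ω l j| ≤ C
  jv : ∀ ω ω', 0 < p ω → 0 < p ω' → B ω = B ω' → ∀ l,
    |(Pv ω' l).eval ((t ω : ℝ) / 2 ^ M) - (Pv ω l).eval ((t ω : ℝ) / 2 ^ M)| ≤ C / 2 ^ X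
  jN : ∀ ω ω', 0 < p ω → 0 < p ω' → B ω = B ω' →
    |(PN ω').eval ((t ω : ℝ) / 2 ^ M) - (PN ω).eval ((t ω : ℝ) / 2 ^ M)| ≤ C / 2 ^ X
  jD : ∀ ω ω', 0 < p ω → 0 < p ω' → B ω = B ω' →
    |(PN ω').coeff 1 - (PN ω).coeff 1 - ∑ l, (pof (ka ω' l)).eval ((t ω : ℝ) / 2 ^ M) *
      ((Pv ω' l).coeff 1 - (Pv ω l).coeff 1)| ≤ C / 2 ^ X
  SY' : Det p (fun ω => ((Y ω, mu ω), t ω)) S'
  natl : Det p ln nat
  natB : Det p B nat
  ind : CH p (fun ω => (au ω, mu ω)) (fun ω => (Y ω, nat ω)) ≤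
    CH p (fun ω => (au ω, mu ω)) (fun ω => (Y ω, B ω)) + d
  nfz : Nzv p U Z S' X h ϖ d

/-- The codes of a pair. -/
def kxv {Ω ι : Type} {D : ℕ} (au : Ω → ι → ℤ) (mu : Ω → ι → Fin (D + 1) → ℤ) (ω ω' : Ω) :
    (ι → ℤ) × (ι → Fin (D + 1) → ℤ) := (fun l => au ω' l - au ω l, mu ω')

/-- The rounded velocities of a hop. -/
noncomputable def ahv {Ω ι : Type} (X : ℕ) (au : Ω → ι → ℤ) (w : (Ω × Ω) × Ω) (l : ι) : ℝ :=
  ((au w.1.2 l : ℝ) - au w.1.1 l) / 2 ^ X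

/-- The rounded combination of the slopes. -/
noncomputable def Kc {Ω ι : Type} [Fintype ι] {D : ℕ} (X : ℕ) (au : Ω → ι → ℤ)
    (mu : Ω → ι → Fin (D + 1) → ℤ) (w : (Ω × Ω) × Ω) (j : Fin (D + 1)) : ℝ :=
  ∑ l, ahv X au w l * kh X (mu w.1.2 l) j

/-- The coefficients of the displacements. -/
noncomputable def gUv {Ω ι : Type} (D X n : ℕ) (au : Ω → ι → ℤ) (w : (Ω × Ω) × Ω) (l : ι) :
    Fin (D + 1) → ℝ := fun j => if j = 0 then - (2 ^ n * ahv X au w l) else 0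

noncomputable def gZv {Ω ι : Type} [Fintype ι] {D : ℕ} (X M : ℕ) (t : Ω → ℤ) (au : Ω → ι → ℤ)
    (mu : Ω → ι → Fin (D + 1) → ℤ) (w : (Ω × Ω) × Ω) : Fin (D + 1) → ℝ := fun j => 2 ^ X *
  (rpk (Kc X au mu w) ((t w.2 : ℝ) / 2 ^ M)).coeff ((j : ℕ) + 1)

section

variable {Ω ι : Type} {D : ℕ} {au : Ω → ι → ℤ} {mu : Ω → ι → Fin (D + 1) → ℤ} {t : Ω → ℤ}
  {M X n : ℕ}

theorem n1_gUv (w : (Ω × Ω) × Ω) (l : ι) : n1 (gUv D X n au w l) = 2 ^ n * |ahv X au w l| := by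
  unfold n1 gUv
  rw [Finset.sum_eq_single (0 : Fin (D + 1))]
  · rw [if_pos rfl, abs_neg, abs_mul, abs_of_pos (by positivity : (0 : ℝ) < 2 ^ n)]
  · intro j _ hj
    rw [if_neg hj, abs_zero]
  · intro h
    exact absurd (Finset.mem_univ _) h

theorem n1_gZv [Fintype ι] (w : (Ω × Ω) × Ω) : n1 (gZv X M t au mu w) =
    2 ^ X * n1 (fun j : Fin (D + 1) =>
      (rpk (Kc X au mu w) ((t w.2 : ℝ) / 2 ^ M)).coeff ((j : ℕ) + 1)) := by
  unfold gZv n1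
  rw [Finset.mul_sum]
  refine Finset.sum_congr rfl fun j _ => ?_
  rw [abs_mul, abs_of_pos (by positivity : (0 : ℝ) < 2 ^ X)]

theorem pol_gUv (w : (Ω × Ω) × Ω) (l : ι) (x : ℝ) : (pol (gUv D X n au w l)).eval x =
    - (2 ^ n * ahv X au w l) * x := by
  rw [pol_eval, Finset.sum_eq_single (0 : Fin (D + 1))]
  · unfold gUv
    rw [if_pos rfl]
    simp
  · intro j _ hj
    unfold gUv
    rw [if_neg hj, zero_mul]
  · intro h
    exact absurd (Finset.mem_univ _) h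

theorem pof_Kc [Fintype ι] (w : (Ω × Ω) × Ω) (x : ℝ) : (pof (Kc X au mu w)).eval x =
    ∑ l, ahv X au w l * (pof (kh X (mu w.1.2 l))).eval x := by
  rw [pof_eval]
  unfold Kc
  have h1 : ∀ l : ι, ahv X au w l * (pof (kh X (mu w.1.2 l))).eval x =
      ∑ j : Fin (D + 1), ahv X au w l * kh X (mu w.1.2 l) j * x ^ (j : ℕ) := by
    intro l
    rw [pof_eval, Finset.mul_sum]
    refine Finset.sum_congr rfl fun j _ => ?_
    ring
  rw [Finset.sum_congr rfl fun l _ => h1 l, Finset.sum_comm]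
  refine Finset.sum_congr rfl fun j _ => ?_
  rw [Finset.sum_mul]

theorem pol_gZv [Fintype ι] (w : (Ω × Ω) × Ω) (x : ℝ) : (pol (gZv X M t au mu w)).eval x =
    2 ^ X * ((∑ l, ahv X au w l * ((((t w.2 : ℝ) / 2 ^ M) - x) *
      ((pof (kh X (mu w.1.2 l))).eval x -
        (pof (kh X (mu w.1.2 l))).eval ((t w.2 : ℝ) / 2 ^ M)))) -
      (rpk (Kc X au mu w) ((t w.2 : ℝ) / 2 ^ M)).coeff 0) := by
  have h1 := eval_pol (rpk (Kc X au mu w) ((t w.2 : ℝ) / 2 ^ M)) (rpk_deg _ _) x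
  rw [rpk_eval, pof_Kc, pof_Kc, ← Finset.sum_sub_distrib, Finset.mul_sum] at h1
  have h2 : (∑ l, ahv X au w l * ((((t w.2 : ℝ) / 2 ^ M) - x) *
      ((pof (kh X (mu w.1.2 l))).eval x -
        (pof (kh X (mu w.1.2 l))).eval ((t w.2 : ℝ) / 2 ^ M)))) =
      ∑ l, (((t w.2 : ℝ) / 2 ^ M) - x) * (ahv X au w l * (pof (kh X (mu w.1.2 l))).eval x -
        ahv X au w l * (pof (kh X (mu w.1.2 l))).eval ((t w.2 : ℝ) / 2 ^ M)) := by
    refine Finset.sum_congr rfl fun l _ => ?_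
    ring
  rw [h2, h1, pol_eval, pol_eval, add_sub_cancel_left, Finset.mul_sum]
  refine Finset.sum_congr rfl fun j _ => ?_
  unfold gZv
  ring

end

/-- The elementary estimate. -/
theorem kpv_est {ι : Type} [Fintype ι] {N₁ N₀ D₁ D₀ x y C E m : ℝ}
    {v₁ v₀ a₁ a₀ a' κx κy κx' κy' : ι → ℝ} (hC : 1 ≤ C)
    (hE : 0 < E) (hm : 1 ≤ m) (hx0 : 0 ≤ x) (hx1 : x ≤ 1) (hy0 : 0 ≤ y) (hy1 : y ≤ 1)
    (he₁ : |N₁ - N₀| ≤ C * E) (he₃ : |D₁ - D₀ - ∑ l, κy l * (a₁ l - a₀ l)| ≤ C * E)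
    (he₂ : ∀ l, |v₁ l - v₀ l| ≤ C * E) (ha : ∀ l, |a' l - (a₁ l - a₀ l)| ≤ 2 * C * E)
    (haC : ∀ l, |a' l| ≤ 4 * C)
    (hκx : ∀ l, |κx' l - κx l| ≤ m * C * E) (hκy : ∀ l, |κy' l - κy l| ≤ m * C * E)
    (hκxC : ∀ l, |κx l| ≤ m * C) (hκyC : ∀ l, |κy l| ≤ m * C)
    (hv₀ : ∀ l, |v₀ l + a₀ l * (x - y)| ≤ C) :
    |(N₁ + D₁ * (x - y) - ∑ l, κx l * (v₁ l + a₁ l * (x - y))) -
      (N₀ + D₀ * (x - y) - ∑ l, κx' l * (v₀ l + a₀ l * (x - y)) +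
        ∑ l, a' l * ((x - y) * (κy' l - κx' l)))| ≤
      16 * ((Fintype.card ι + 1) * (m * C ^ 2 * E)) := by
  have hC0 : 0 < C := by linarith
  have hm0 : 0 < m := by linarith
  have hxy : |x - y| ≤ 1 := by
    rw [abs_le]
    constructor <;> linarith
  have hCE : C * E ≤ m * C ^ 2 * E := by
    have h1 : C ≤ C ^ 2 := by nlinarith
    have h2 : C ^ 2 ≤ m * C ^ 2 := le_mul_of_one_le_left (by positivity) hm
    exact mul_le_mul_of_nonneg_right (h1.trans h2) hE.le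
  obtain ⟨A, hA⟩ : ∃ A : ℝ, A = m * C ^ 2 * E := ⟨_, rfl⟩
  have hA0 : 0 ≤ A := by rw [hA]; positivity
  -- the four terms of a side
  have hl : ∀ l, |(κx' l - κx l) * (v₀ l + a₀ l * (x - y)) -
      (x - y) * ((a' l - (a₁ l - a₀ l)) * (κy l - κx l)) -
      (x - y) * (a' l * ((κy' l - κy l) - (κx' l - κx l))) - κx l * (v₁ l - v₀ l)| ≤ 14 * A := by
    intro l
    have b1 : |(κx' l - κx l) * (v₀ l + a₀ l * (x - y))| ≤ A := by
      rw [abs_mul, hA]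
      refine (mul_le_mul (hκx l) (hv₀ l) (abs_nonneg _) (by positivity)).trans (le_of_eq ?_)
      ring
    have b2 : |(x - y) * ((a' l - (a₁ l - a₀ l)) * (κy l - κx l))| ≤ 4 * A := by
      rw [abs_mul, abs_mul, hA]
      have h1 : |κy l - κx l| ≤ 2 * (m * C) := (abs_sub _ _).trans (by linarith [hκyC l, hκxC l])
      have h2 := mul_le_mul (ha l) h1 (abs_nonneg _) (by positivity)
      have h3 := mul_le_mul hxy h2 (by positivity) zero_le_one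
      refine h3.trans (le_of_eq ?_)
      ring
    have b3 : |(x - y) * (a' l * ((κy' l - κy l) - (κx' l - κx l)))| ≤ 8 * A := by
      rw [abs_mul, abs_mul, hA]
      have h1 : |(κy' l - κy l) - (κx' l - κx l)| ≤ 2 * (m * C * E) :=
        (abs_sub _ _).trans (by linarith [hκy l, hκx l])
      have h2 := mul_le_mul (haC l) h1 (abs_nonneg _) (by positivity)
      have h3 := mul_le_mul hxy h2 (by positivity) zero_le_one
      refine h3.trans (le_of_eq ?_)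
      ring
    have b5 : |κx l * (v₁ l - v₀ l)| ≤ A := by
      rw [abs_mul, hA]
      refine (mul_le_mul (hκxC l) (he₂ l) (abs_nonneg _) (by positivity)).trans (le_of_eq ?_)
      ring
    rw [abs_le] at b1 b2 b3 b5 ⊢
    constructor <;> linarith
  have b4 : |(x - y) * (D₁ - D₀ - ∑ l, κy l * (a₁ l - a₀ l))| ≤ A := by
    rw [abs_mul, hA]
    have h3 := mul_le_mul hxy he₃ (abs_nonneg _) zero_le_one
    linarith
  have hs : |∑ l, ((κx' l - κx l) * (v₀ l + a₀ l * (x - y)) -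
      (x - y) * ((a' l - (a₁ l - a₀ l)) * (κy l - κx l)) -
      (x - y) * (a' l * ((κy' l - κy l) - (κx' l - κx l))) - κx l * (v₁ l - v₀ l))| ≤
      Fintype.card ι * (14 * A) := by
    refine (Finset.abs_sum_le_sum_abs _ _).trans ((Finset.sum_le_sum fun l _ => hl l).trans ?_)
    rw [Finset.sum_const, Finset.card_univ, nsmul_eq_mul]
  have key : (N₁ + D₁ * (x - y) - ∑ l, κx l * (v₁ l + a₁ l * (x - y))) -
      (N₀ + D₀ * (x - y) - ∑ l, κx' l * (v₀ l + a₀ l * (x - y)) +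
        ∑ l, a' l * ((x - y) * (κy' l - κx' l))) =
      (∑ l, ((κx' l - κx l) * (v₀ l + a₀ l * (x - y)) -
      (x - y) * ((a' l - (a₁ l - a₀ l)) * (κy l - κx l)) -
      (x - y) * (a' l * ((κy' l - κy l) - (κx' l - κx l))) - κx l * (v₁ l - v₀ l))) +
        (N₁ - N₀) + (x - y) * (D₁ - D₀ - ∑ l, κy l * (a₁ l - a₀ l)) := by
    have e1 : ∀ l, ((κx' l - κx l) * (v₀ l + a₀ l * (x - y)) -
      (x - y) * ((a' l - (a₁ l - a₀ l)) * (κy l - κx l)) -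
      (x - y) * (a' l * ((κy' l - κy l) - (κx' l - κx l))) - κx l * (v₁ l - v₀ l)) =
      (x - y) * (κy l * (a₁ l - a₀ l)) - κx l * (v₁ l + a₁ l * (x - y)) +
        κx' l * (v₀ l + a₀ l * (x - y)) - a' l * ((x - y) * (κy' l - κx' l)) := fun l => by ring
    rw [Finset.sum_congr rfl fun l _ => e1 l, Finset.sum_sub_distrib, Finset.sum_add_distrib,
      Finset.sum_sub_distrib, ← Finset.mul_sum]
    ring
  rw [key]
  obtain ⟨z1, hz1⟩ : ∃ z, z = ∑ l, ((κx' l - κx l) * (v₀ l + a₀ l * (x - y)) -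
      (x - y) * ((a' l - (a₁ l - a₀ l)) * (κy l - κx l)) -
      (x - y) * (a' l * ((κy' l - κy l) - (κx' l - κx l))) - κx l * (v₁ l - v₀ l)) := ⟨_, rfl⟩
  obtain ⟨z4, hz4⟩ : ∃ z, z = (x - y) * (D₁ - D₀ - ∑ l, κy l * (a₁ l - a₀ l)) := ⟨_, rfl⟩
  obtain ⟨z6, hz6⟩ : ∃ z, z = N₁ - N₀ := ⟨_, rfl⟩
  rw [← hz1] at hs ⊢
  rw [← hz4] at b4 ⊢
  rw [← hz6] at he₁ ⊢
  rw [← hA] at hCE ⊢
  have hcA : 0 ≤ (Fintype.card ι : ℝ) * A := by positivity
  have e9 : 16 * (((Fintype.card ι : ℝ) + 1) * A) = 16 * (Fintype.card ι * A) + 16 * A := by ring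
  have e10 : (Fintype.card ι : ℝ) * (14 * A) = 14 * (Fintype.card ι * A) := by ring
  rw [e9]
  rw [e10] at hs
  rw [abs_le] at hs b4 he₁ ⊢
  constructor <;> linarith

section

variable {Ω β Λ υ σ σ' ν ι : Type} [Fintype Ω] [Fintype ι] {D : ℕ} {p : Ω → ℝ} {B : Ω → β}
  {ln : Ω → Λ} {Y : Ω → υ} {S : Ω → σ} {S' : Ω → σ'} {t : Ω → ℤ} {U : Ω → ι → ℤ} {Z : Ω → ℤ}
  {au : Ω → ι → ℤ} {mu : Ω → ι → Fin (D + 1) → ℤ} {Pv : Ω → ι → Polynomial ℝ}
  {PN : Ω → Polynomial ℝ} {ka : Ω → ι → Fin (D + 1) → ℝ} {nat : Ω → ν} {Nb : υ → Finset υ}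
  {M X n : ℕ} {C h ϖ d κ₀ : ℝ}

/-- The rounded velocities and slopes. -/
theorem Kpv.rnd (H : Kpv D p B ln Y S S' t U Z au mu Pv PN ka nat Nb M X n C h ϖ d κ₀)
    (hC : 1 ≤ C) {w : (Ω × Ω) × Ω} (hw : 0 < q3 p B ln w) :
    (∀ l, |ahv X au w l - ((Pv w.1.2 l).coeff 1 - (Pv w.1.1 l).coeff 1)| ≤
      2 * C * (1 / 2 ^ X)) ∧ (∀ l, |ahv X au w l| ≤ 4 * C) ∧
    (∀ l j, |kh X (mu w.1.2 l) j| ≤ 2 * C) ∧
    ∀ l j, |kh X (mu w.1.2 l) j - ka w.1.2 l j| ≤ C * (1 / 2 ^ X) := by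
  have h0 := H.ok.law.nonneg
  have hC0 : 0 < C := by linarith
  have hP : (0 : ℝ) < 2 ^ X := by positivity
  have hP1 : (1 : ℝ) ≤ 2 ^ X := one_le_pow₀ (by norm_num)
  obtain ⟨E, hE⟩ : ∃ E : ℝ, E = 1 / 2 ^ X := ⟨_, rfl⟩
  rw [← hE]
  have hE0 : 0 < E := by rw [hE]; positivity
  have hE1 : E ≤ 1 := by
    rw [hE, div_le_one hP]
    exact hP1
  obtain ⟨a1, a2, a3, a4, a5⟩ := q3_pos h0 hw
  have hav : ∀ l, |ahv X au w l - ((Pv w.1.2 l).coeff 1 - (Pv w.1.1 l).coeff 1)| ≤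
      2 * C * E := by
    intro l
    have c1 := H.ca _ a1 l
    have c2 := H.ca _ a2 l
    have e1 : ahv X au w l - ((Pv w.1.2 l).coeff 1 - (Pv w.1.1 l).coeff 1) =
        (((au w.1.2 l : ℝ) - 2 ^ X * (Pv w.1.2 l).coeff 1) -
          ((au w.1.1 l : ℝ) - 2 ^ X * (Pv w.1.1 l).coeff 1)) * E := by
      unfold ahv
      rw [hE]
      field_simp
      ring
    rw [e1, abs_mul, abs_of_pos hE0]
    refine mul_le_mul_of_nonneg_right ?_ hE0.le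
    exact (abs_sub _ _).trans (by linarith)
  have hkd : ∀ l j, |kh X (mu w.1.2 l) j - ka w.1.2 l j| ≤ C * E := by
    intro l j
    have c1 := H.cm _ a2 l j
    have e1 : kh X (mu w.1.2 l) j - ka w.1.2 l j =
        ((mu w.1.2 l j : ℝ) - 2 ^ X * ka w.1.2 l j) * E := by
      unfold kh
      rw [hE]
      field_simp
    rw [e1, abs_mul, abs_of_pos hE0]
    exact mul_le_mul_of_nonneg_right c1 hE0.le
  refine ⟨hav, fun l => ?_, fun l j => ?_, hkd⟩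
  · have c1 := H.ba _ a1 l
    have c2 := H.ba _ a2 l
    have c3 := hav l
    have c4 : |(Pv w.1.2 l).coeff 1 - (Pv w.1.1 l).coeff 1| ≤ 2 * C :=
      (abs_sub _ _).trans (by linarith)
    have c5 : 2 * C * E ≤ 2 * C := mul_le_of_le_one_right (by positivity) hE1
    rw [abs_le] at c3 c4 ⊢
    constructor <;> linarith
  · have c1 := hkd l j
    have c2 := H.bk _ a2 l j
    have c5 : C * E ≤ C := mul_le_of_le_one_right (by positivity) hE1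
    rw [abs_le] at c1 c2 ⊢
    constructor <;> linarith

/-- **The relations** of the hop. -/
theorem Kpv.hpz (H : Kpv D p B ln Y S S' t U Z au mu Pv PN ka nat Nb M X n C h ϖ d κ₀)
    (hC : 1 ≤ C) :
    Hpz (D + 1) p (q3 p B ln) Prod.snd (Wq ln t Y (kxv au mu)) (fun w => t w.1.1) Z S'
      (fun w => 2 ^ X * ((PN w.1.1).eval ((t w.2 : ℝ) / 2 ^ M) -
        (∑ l, (pof (kh X (mu w.1.2 l))).eval ((t w.2 : ℝ) / 2 ^ M) *
          (Pv w.1.1 l).eval ((t w.2 : ℝ) / 2 ^ M)) +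
        (rpk (Kc X au mu w) ((t w.2 : ℝ) / 2 ^ M)).coeff 0))
      (gZv X M t au mu) M (32 * ((Fintype.card ι + 1) * ((D + 1) ^ 2 * C ^ 2))) (4 * d) := by
  have h0 := H.ok.law.nonneg
  have hq := q3_law (B := B) (ln := ln) H.ok.law
  have hC0 : 0 < C := by linarith
  have hD0 : (0 : ℝ) ≤ D := Nat.cast_nonneg D
  have hf0 : (0 : ℝ) ≤ Fintype.card ι := Nat.cast_nonneg _
  have hP : (0 : ℝ) < 2 ^ X := by positivity
  obtain ⟨E, hE⟩ : ∃ E : ℝ, E = 1 / 2 ^ X := ⟨_, rfl⟩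
  have hE0 : 0 < E := by rw [hE]; positivity
  have hEX : 2 ^ X * E = 1 := by rw [hE]; field_simp
  have hCX : C / 2 ^ X = C * E := by rw [hE]; ring
  have hCC : C ≤ C ^ 2 := by nlinarith
  have hDD : ((D : ℝ) + 1) * C ^ 2 ≤ (D + 1) ^ 2 * C ^ 2 := by
    refine mul_le_mul_of_nonneg_right ?_ (by positivity)
    nlinarith
  have hDC : C ≤ (D + 1) ^ 2 * C ^ 2 := by
    have h1 : C ^ 2 ≤ (D + 1) * C ^ 2 := le_mul_of_one_le_left (by positivity) (by linarith)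
    linarith
  refine ⟨H.ok.law, hq, q3_3 h0, fun w hw => H.ok.t0 _ (q3_pos h0 hw).1, ?_, ⟨?_, ?_, ?_⟩, ?_⟩
  · exact time_fullI H.ok (fun ω => (au ω, mu ω))
      (fun ω ω' a b e => by rw [Prod.mk.injEq]; exact ⟨H.da _ _ a b e, H.dm _ _ a b e⟩) nat
      H.natl H.natB H.ind (kxv au mu) (fun x y => (fun l => y.1 l - x.1 l, y.2)) (fun _ _ => rfl)
  · intro w w' x x' e
    have e1 : ln w.1.1 = ln w'.1.1 := congrArg (fun z => z.1) e
    have e2 : t w.2 = t w'.2 := congrArg (fun z => z.2.1) e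
    have e3 := H.dv _ _ (q3_pos h0 x).1 (q3_pos h0 x').1 e1
    have e3' := H.dN _ _ (q3_pos h0 x).1 (q3_pos h0 x').1 e1
    have e4 : (fun l => au w.1.2 l - au w.1.1 l) = fun l => au w'.1.2 l - au w'.1.1 l :=
      congrArg (fun z => z.2.2.2.1) e
    have e6 : mu w.1.2 = mu w'.1.2 := congrArg (fun z => z.2.2.2.2) e
    have e5 : ahv X au w = ahv X au w' := by
      funext l
      unfold ahv
      have e7 := congrFun e4 l
      have e8 : (au w.1.2 l : ℝ) - au w.1.1 l = (au w'.1.2 l : ℝ) - au w'.1.1 l := by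
        exact_mod_cast e7
      rw [e8]
    have e9 : Kc X au mu w = Kc X au mu w' := by
      unfold Kc
      rw [e5, e6]
    simp only [e2, e3, e3', e9, e6]
  · intro w w' x x' e
    have e2 : t w.2 = t w'.2 := congrArg (fun z => z.2.1) e
    have e4 : (fun l => au w.1.2 l - au w.1.1 l) = fun l => au w'.1.2 l - au w'.1.1 l :=
      congrArg (fun z => z.2.2.2.1) e
    have e6 : mu w.1.2 = mu w'.1.2 := congrArg (fun z => z.2.2.2.2) e
    have e5 : ahv X au w = ahv X au w' := by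
      funext l
      unfold ahv
      have e7 := congrFun e4 l
      have e8 : (au w.1.2 l : ℝ) - au w.1.1 l = (au w'.1.2 l : ℝ) - au w'.1.1 l := by
        exact_mod_cast e7
      rw [e8]
    have e9 : Kc X au mu w = Kc X au mu w' := by
      unfold Kc
      rw [e5, e6]
    unfold gZv
    simp only [e2, e9]
  · intro w hw
    obtain ⟨a1, a2, a3, a4, a5⟩ := q3_pos h0 hw
    have g3 := H.rz _ a3
    have g7 := H.dv _ _ a2 a3 a5
    have g7' := H.dN _ _ a2 a3 a5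
    have g7k := H.dk _ _ a2 a3 a5
    rw [← g7, ← g7', ← g7k] at g3
    obtain ⟨x0, x1⟩ := time_unit (H.ok.t0 _ a3)
    obtain ⟨y0, y1⟩ := time_unit (H.ok.t0 _ a1)
    have g4 := H.jv _ _ a1 a2 a4
    have g4' := H.jN _ _ a1 a2 a4
    have g4'' := H.jD _ _ a1 a2 a4
    obtain ⟨g8, g9, -, -⟩ := H.rnd hC hw
    have kx1 := fun l => kh_near (H.cm _ a2 l) x0 x1
    have ky1 := fun l => kh_near (H.cm _ a2 l) y0 y1
    have kxc := fun l => pof_le (H.bk _ a2 l) x0 x1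
    have kyc := fun l => pof_le (H.bk _ a2 l) y0 y1
    have hv0 := fun l => H.bv _ a1 l _ x0 x1
    rw [pol_gZv]
    obtain ⟨x, hx⟩ : ∃ x : ℝ, x = (t w.2 : ℝ) / 2 ^ M := ⟨_, rfl⟩
    obtain ⟨y, hy⟩ : ∃ y : ℝ, y = (t w.1.1 : ℝ) / 2 ^ M := ⟨_, rfl⟩
    rw [← hx] at x0 x1 g3
    rw [← hy] at y0 y1
    simp only [← hx, ← hy] at kx1 ky1 kxc kyc hv0 g4 g4' g4'' ⊢
    simp only [hCX] at g4 g4' g4''
    have e0 : ((D : ℝ) + 1) * C / 2 ^ X = (D + 1) * C * E := by rw [hE]; ring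
    simp only [e0] at kx1 ky1
    rw [← hE] at g8
    have hv0' : ∀ l, |(Pv w.1.1 l).eval y + (Pv w.1.1 l).coeff 1 * (x - y)| ≤ C := fun l => by
      rw [← aff_eval (H.degv _ a1 l) x y]
      exact hv0 l
    have est := kpv_est hC hE0 (by linarith : (1 : ℝ) ≤ D + 1) x0 x1 y0 y1 g4' g4'' g4 g8 g9 kx1
      ky1 kxc kyc hv0'
    have f1 : ∀ l, (Pv w.1.2 l).eval y + (Pv w.1.2 l).coeff 1 * (x - y) = (Pv w.1.2 l).eval x :=
      fun l => (aff_eval (H.degv _ a2 l) x y).symm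
    have f2 : ∀ l, (Pv w.1.1 l).eval y + (Pv w.1.1 l).coeff 1 * (x - y) = (Pv w.1.1 l).eval x :=
      fun l => (aff_eval (H.degv _ a1 l) x y).symm
    have f3 : (PN w.1.2).eval y + (PN w.1.2).coeff 1 * (x - y) = (PN w.1.2).eval x :=
      (aff_eval (H.degN _ a2) x y).symm
    have f4 : (PN w.1.1).eval y + (PN w.1.1).coeff 1 * (x - y) = (PN w.1.1).eval x :=
      (aff_eval (H.degN _ a1) x y).symm
    simp only [f1, f2, f3, f4] at est
    obtain ⟨r, hr⟩ : ∃ r : ℝ, r = ((PN w.1.2).eval x -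
      ∑ l, (pof (ka w.1.2 l)).eval x * (Pv w.1.2 l).eval x) -
      ((PN w.1.1).eval x - ∑ l, (pof (kh X (mu w.1.2 l))).eval x * (Pv w.1.1 l).eval x +
        ∑ l, ahv X au w l * ((x - y) * ((pof (kh X (mu w.1.2 l))).eval y -
          (pof (kh X (mu w.1.2 l))).eval x))) := ⟨_, rfl⟩
    rw [← hr] at est
    have hr2 : |2 ^ X * r| ≤ 16 * ((Fintype.card ι + 1) * ((D + 1) ^ 2 * C ^ 2)) := by
      rw [abs_mul, abs_of_pos hP]
      have h1 := mul_le_mul_of_nonneg_left est hP.le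
      refine h1.trans ?_
      have h2 : 2 ^ X * (16 * (((Fintype.card ι : ℝ) + 1) * ((D + 1) * C ^ 2 * E))) =
          16 * ((Fintype.card ι + 1) * ((D + 1) * C ^ 2)) * (2 ^ X * E) := by ring
      rw [h2, hEX, mul_one]
      refine mul_le_mul_of_nonneg_left ?_ (by norm_num)
      exact mul_le_mul_of_nonneg_left hDD (by linarith)
    obtain ⟨rc, hrc⟩ : ∃ rc : ℝ, rc = (rpk (Kc X au mu w) x).coeff 0 := ⟨_, rfl⟩
    rw [← hrc]
    have e2 : (Z w.2 : ℝ) - (2 ^ X * ((PN w.1.1).eval x -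
        (∑ l, (pof (kh X (mu w.1.2 l))).eval x * (Pv w.1.1 l).eval x) + rc) +
        2 ^ X * ((∑ l, ahv X au w l * ((x - y) * ((pof (kh X (mu w.1.2 l))).eval y -
          (pof (kh X (mu w.1.2 l))).eval x))) - rc)) =
        ((Z w.2 : ℝ) - 2 ^ X * ((PN w.1.2).eval x -
          ∑ l, (pof (ka w.1.2 l)).eval x * (Pv w.1.2 l).eval x)) + 2 ^ X * r := by
      rw [hr]
      ring
    rw [e2]
    refine (abs_add_le _ _).trans ?_
    have h5 : (D + 1) ^ 2 * C ^ 2 ≤ ((Fintype.card ι : ℝ) + 1) * ((D + 1) ^ 2 * C ^ 2) :=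
      le_mul_of_one_le_left (by positivity) (by linarith)
    linarith
  · intro w w' x y e0
    obtain ⟨-, x2, x3, -, x5⟩ := q3_pos h0 x
    obtain ⟨-, y2, y3, -, y5⟩ := q3_pos h0 y
    have e1 : t w.2 = t w'.2 := congrArg (fun z => z.2.1) e0
    have e2 : Y w.1.2 = Y w'.1.2 := congrArg (fun z => z.2.2.1) e0
    have e2' : mu w.1.2 = mu w'.1.2 := congrArg (fun z => z.2.2.2.2) e0
    have e3 := H.ok.lY _ _ x2 x3 x5
    have e4 := H.ok.lY _ _ y2 y3 y5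
    have e3' := H.dm _ _ x2 x3 x5
    have e4' := H.dm _ _ y2 y3 y5
    have e6 : Y w.2 = Y w'.2 := by rw [← e3, e2, e4]
    have e6' : mu w.2 = mu w'.2 := by rw [← e3', e2', e4']
    exact H.SY' _ _ x3 y3 (Prod.ext (Prod.ext e6 e6') e1)

/-- **The relations of the sides.** -/
theorem Kpv.rlu (H : Kpv D p B ln Y S S' t U Z au mu Pv PN ka nat Nb M X n C h ϖ d κ₀)
    (hC : 1 ≤ C) (l : ι) :
    Rlp (q3 p B ln) (Wq ln t Y (kxv au mu)) (fun w => t w.1.1) (fun w => U w.2 l)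
      (fun w => 2 ^ n * ((Pv w.1.1 l).eval ((t w.2 : ℝ) / 2 ^ M) +
        ahv X au w l * ((t w.2 : ℝ) / 2 ^ M))) (fun w => gUv D X n au w l) M (4 * C) := by
  have h0 := H.ok.law.nonneg
  have hC0 : 0 < C := by linarith
  have hP : (0 : ℝ) < 2 ^ X := by positivity
  have hn1 : (0 : ℝ) < 2 ^ n := by positivity
  have hnX : (2 : ℝ) ^ n ≤ 2 ^ X := pow_le_pow_right₀ (by norm_num) H.nX
  obtain ⟨E, hE⟩ : ∃ E : ℝ, E = 1 / 2 ^ X := ⟨_, rfl⟩
  have hE0 : 0 < E := by rw [hE]; positivity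
  have hEX : 2 ^ X * E = 1 := by rw [hE]; field_simp
  have hCX : C / 2 ^ X = C * E := by rw [hE]; ring
  refine ⟨?_, ?_, ?_⟩
  · intro w w' x x' e
    have e1 : ln w.1.1 = ln w'.1.1 := congrArg (fun z => z.1) e
    have e2 : t w.2 = t w'.2 := congrArg (fun z => z.2.1) e
    have e3 := H.dv _ _ (q3_pos h0 x).1 (q3_pos h0 x').1 e1
    have e4 : (fun l => au w.1.2 l - au w.1.1 l) = fun l => au w'.1.2 l - au w'.1.1 l :=
      congrArg (fun z => z.2.2.2.1) e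
    have e5 : ahv X au w l = ahv X au w' l := by
      unfold ahv
      have e7 := congrFun e4 l
      have e8 : (au w.1.2 l : ℝ) - au w.1.1 l = (au w'.1.2 l : ℝ) - au w'.1.1 l := by
        exact_mod_cast e7
      rw [e8]
    simp only [e2, e3, e5]
  · intro w w' x x' e
    have e4 : (fun l => au w.1.2 l - au w.1.1 l) = fun l => au w'.1.2 l - au w'.1.1 l :=
      congrArg (fun z => z.2.2.2.1) e
    have e5 : ahv X au w l = ahv X au w' l := by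
      unfold ahv
      have e7 := congrFun e4 l
      have e8 : (au w.1.2 l : ℝ) - au w.1.1 l = (au w'.1.2 l : ℝ) - au w'.1.1 l := by
        exact_mod_cast e7
      rw [e8]
    unfold gUv
    simp only [e5]
  · intro w hw
    obtain ⟨a1, a2, a3, a4, a5⟩ := q3_pos h0 hw
    have g3 := H.ru _ a3 l
    have g7 := H.dv _ _ a2 a3 a5
    rw [← g7] at g3
    obtain ⟨x0, x1⟩ := time_unit (H.ok.t0 _ a3)
    obtain ⟨y0, y1⟩ := time_unit (H.ok.t0 _ a1)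
    have g4 := H.jv _ _ a1 a2 a4 l
    have g8 := (H.rnd hC hw).1 l
    rw [pol_gUv]
    obtain ⟨x, hx⟩ : ∃ x : ℝ, x = (t w.2 : ℝ) / 2 ^ M := ⟨_, rfl⟩
    obtain ⟨y, hy⟩ : ∃ y : ℝ, y = (t w.1.1 : ℝ) / 2 ^ M := ⟨_, rfl⟩
    obtain ⟨a', ha'⟩ : ∃ a' : ℝ, a' = ahv X au w l := ⟨_, rfl⟩
    rw [← ha', ← hE] at g8
    simp only [← ha', ← hx, ← hy]
    rw [← hx] at x0 x1 g3
    rw [← hy] at y0 y1 g4
    rw [hCX] at g4
    rw [aff_eval (H.degv _ a2 l) x y] at g3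
    rw [aff_eval (H.degv _ a1 l) x y]
    have hxy : |x - y| ≤ 1 := by
      rw [abs_le]
      constructor <;> linarith
    obtain ⟨r, hr⟩ : ∃ r : ℝ, r = ((Pv w.1.2 l).eval y + (Pv w.1.2 l).coeff 1 * (x - y)) -
        ((Pv w.1.1 l).eval y + (Pv w.1.1 l).coeff 1 * (x - y) + a' * (x - y)) := ⟨_, rfl⟩
    have hr1 : |r| ≤ 3 * C * E := by
      have e1 : r = ((Pv w.1.2 l).eval y - (Pv w.1.1 l).eval y) -
          (a' - ((Pv w.1.2 l).coeff 1 - (Pv w.1.1 l).coeff 1)) * (x - y) := by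
        rw [hr]
        ring
      rw [e1]
      refine (abs_sub _ _).trans ?_
      rw [abs_mul]
      have := mul_le_mul g8 hxy (abs_nonneg _) (by positivity)
      linarith
    have hr2 : |2 ^ n * r| ≤ 3 * C := by
      rw [abs_mul, abs_of_pos hn1]
      have h1 : 2 ^ n * |r| ≤ 2 ^ X * (3 * C * E) := mul_le_mul hnX hr1 (abs_nonneg _) hP.le
      refine h1.trans (le_of_eq ?_)
      have : 2 ^ X * (3 * C * E) = 3 * C * (2 ^ X * E) := by ring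
      rw [this, hEX, mul_one]
    have e2 : (U w.2 l : ℝ) - (2 ^ n * ((Pv w.1.1 l).eval y + (Pv w.1.1 l).coeff 1 * (x - y) +
        a' * x) + -(2 ^ n * a') * y) = ((U w.2 l : ℝ) - 2 ^ n * ((Pv w.1.2 l).eval y +
          (Pv w.1.2 l).coeff 1 * (x - y))) + 2 ^ n * r := by
      rw [hr]
      ring
    rw [e2]
    refine (abs_add_le _ _).trans ?_
    linarith

end

end Pool.LPK12
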