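import Pool.Agent.H12.LPK.Kxv

/-!
# The slopes over several sides, with one more code, the theorem

`kapx_small`: as `kapv_small`, with an arbitrary code `ex` of the line which determines the code of
the slopes.
-/

set_option autoImplicit false

namespace Pool.LPK12

open Finset Real
open Pool.Agent.H49.Ent Pool.Agent.H32.Dense Pool.STK Pool.POT Pool.TQ Pool.LPX
open Pool.K2S (Pe)

open Classical in
/-- **The slopes along the hops are constant on the lines.** -/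
theorem kapx_small (D f : ℕ) (C h ε : ℝ) (hC : 1 ≤ C) (hh0 : 0 < h) (hh1 : h ≤ 1)
    (hε : 0 < ε) :
    ∃ κ ϖ : ℝ, 0 < κ ∧ 0 < ϖ ∧ ∃ X₀ : ℕ,
    ∀ {Ω β Λ υ σ σ' ν ι Ξ : Type} [Fintype Ω] [Fintype ι] {p : Ω → ℝ} {B : Ω → β} {ln : Ω → Λ}
    {Y : Ω → υ} {S : Ω → σ} {S' : Ω → σ'} {t : Ω → ℤ} {U : Ω → ι → ℤ} {Z : Ω → ℤ}
    {au : Ω → ι → ℤ} {ex : Ω → Ξ} {mh : Ξ → ι → Fin (D + 1) → ℤ} {Pv : Ω → ι → Polynomial ℝ}
    {PN : Ω → Polynomial ℝ} {ka : Ω → ι → Fin (D + 1) → ℝ} {nat : Ω → ν} {Nb : υ → Finset υ}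
    {M X n : ℕ} {d κ₀ : ℝ}, Fintype.card ι = f →
    Kpx D p B ln Y S S' t U Z au ex mh Pv PN ka nat Nb M X n C h ϖ d κ₀ → X₀ ≤ X → 0 ≤ d →
    d ≤ κ * X →
    Ex (q3 p B ln) (fun w => if 2 ^ X * ∑ j : Fin D,
      |∑ l, ((Pv w.1.2 l).coeff 1 - (Pv w.1.1 l).coeff 1) * ka w.1.2 l j.succ| ≤
        (2 : ℝ) ^ (ε * X) *
        max 1 (2 ^ n * ∑ l, |(Pv w.1.2 l).coeff 1 - (Pv w.1.1 l).coeff 1|) then 0 else 1) ≤ ε := by
  obtain ⟨C₁, hC₁⟩ : ∃ C₁ : ℝ, C₁ = 32 * (((f : ℝ) + 1) * ((D + 1) ^ 2 * C ^ 2)) := ⟨_, rfl⟩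
  have hC0 : 0 < C := by linarith
  have hD0 : (0 : ℝ) ≤ D := Nat.cast_nonneg D
  have hf0 : (0 : ℝ) ≤ f := Nat.cast_nonneg f
  have hCsq : C ≤ C ^ 2 := by nlinarith
  have hDC : C ^ 2 ≤ (D + 1) ^ 2 * C ^ 2 := le_mul_of_one_le_left (by positivity) (by nlinarith)
  have hfD : (D + 1) ^ 2 * C ^ 2 ≤ ((f : ℝ) + 1) * ((D + 1) ^ 2 * C ^ 2) :=
    le_mul_of_one_le_left (by positivity) (by linarith)
  have hC₁1 : 1 ≤ C₁ := by
    rw [hC₁]
    linarith only [hfD, hDC, hCsq, hC]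
  have hC₁4 : 4 * C ≤ C₁ := by
    rw [hC₁]
    linarith only [hfD, hDC, hCsq, hC]
  obtain ⟨κ, ϖ, hκ, hϖ, X₁, H⟩ := hopv_fast (D + 1) f C₁ h (ε / 2) hC₁1 hh0 hh1 (by positivity)
  obtain ⟨c, hc⟩ : ∃ c : ℝ, c = 9 * (((f : ℝ) + 1) * (D + 1) * C ^ 2) := ⟨_, rfl⟩
  have hc0 : 0 < c := by
    rw [hc]
    positivity
  obtain ⟨X₂, hX₂⟩ := exists_nat_ge (Real.log c / (ε / 4))
  refine ⟨κ / 4, ϖ, by positivity, hϖ, max X₁ X₂, ?_⟩
  intro Ω β Λ υ σ σ' ν ι Ξ _ _ p B ln Y S S' t U Z au ex mh Pv PN ka nat Nb M X n d κ₀ hcard HK hX hd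
    hdκ
  have h0 := HK.ok.law.nonneg
  have hq := q3_law (B := B) (ln := ln) HK.ok.law
  have hX0 : (0 : ℝ) ≤ X := Nat.cast_nonneg X
  have hP : (0 : ℝ) < 2 ^ X := by positivity
  have hn1 : (0 : ℝ) < 2 ^ n := by positivity
  have hz := HK.hpz hC
  rw [hcard, ← hC₁] at hz
  have hu := fun l => (HK.rlu hC l).mono hC₁4
  have hsu : ∀ w, 0 < q3 p B ln w → ∀ l, n1 (gUv D X n au w l) ≤ C₁ * 2 ^ n := by
    intro w hw l
    rw [n1_gUv, mul_comm]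
    exact mul_le_mul_of_nonneg_right (((HK.rnd hC hw).2.1 l).trans hC₁4) hn1.le
  have hsz : ∀ w, 0 < q3 p B ln w → n1 (gZv X M t au (fun ω => mh (ex ω)) w) ≤ C₁ * 2 ^ X := by
    intro w hw
    obtain ⟨a1, a2, a3, a4, a5⟩ := q3_pos h0 hw
    obtain ⟨x0, x1⟩ := time_unit (HK.ok.t0 _ a3)
    obtain ⟨-, g2, g3, -⟩ := HK.rnd hC hw
    rw [n1_gZv, mul_comm]
    refine mul_le_mul_of_nonneg_right ?_ hP.le
    have h1 : ∀ j, |Kc X au (fun ω => mh (ex ω)) w j| ≤ 8 * (f * C ^ 2) := by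
      intro j
      unfold Kc
      have h2 : ∀ l ∈ (Finset.univ : Finset ι), |ahv X au w l * kh X (mh (ex w.1.2) l) j| ≤
          8 * C ^ 2 := by
        intro l _
        rw [abs_mul]
        refine (mul_le_mul (g2 l) (g3 l j) (abs_nonneg _) (by positivity)).trans (le_of_eq ?_)
        ring
      refine (Finset.abs_sum_le_sum_abs _ _).trans ((Finset.sum_le_sum h2).trans (le_of_eq ?_))
      rw [Finset.sum_const, Finset.card_univ, nsmul_eq_mul, hcard]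
      ring
    refine (rpk_le (Kc X au (fun ω => mh (ex ω)) w) x0 x1 h1).trans ?_
    rw [hC₁]
    have h2 : 4 * ((D : ℝ) + 1) ^ 2 * (8 * (f * C ^ 2)) = 32 * (f * ((D + 1) ^ 2 * C ^ 2)) := by
      ring
    rw [h2]
    refine mul_le_mul_of_nonneg_left (mul_le_mul_of_nonneg_right (by linarith) (by positivity))
      (by norm_num)
  have key := H hcard hz hu HK.nX HK.XM hsu hsz
    (fun i hi G hG => (HK.nfz i hi G hG).trans (by linarith))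
    ((le_max_left _ _).trans hX) (by positivity) (by linarith)
  have hcX : c ≤ (2 : ℝ) ^ (ε / 2 * X) := by
    have h1 : Real.log c / (ε / 4) ≤ X := hX₂.trans (by exact_mod_cast (le_max_right _ _).trans hX)
    rw [div_le_iff₀ (by positivity)] at h1
    have h2 : Real.log c ≤ Real.log ((2 : ℝ) ^ (ε / 2 * X)) := by
      rw [Real.log_rpow (by norm_num)]
      have hl := Real.log_two_gt_d9
      have h3 : 0 ≤ ε / 2 * X := by positivity
      have h4 := mul_le_mul_of_nonneg_left (by linarith : (1 / 2 : ℝ) ≤ Real.log 2) h3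
      linarith
    exact (Real.log_le_log_iff hc0 (by positivity)).1 h2
  refine le_trans (Ex_mono hq.nonneg fun w hw => ?_) (key.trans (by linarith))
  obtain ⟨a1, a2, a3, a4, a5⟩ := q3_pos h0 hw
  obtain ⟨x0, x1⟩ := time_unit (HK.ok.t0 _ a3)
  obtain ⟨g1, g2, g3, g4⟩ := HK.rnd hC hw
  by_cases hg : n1 (gZv X M t au (fun ω => mh (ex ω)) w) ≤ (2 : ℝ) ^ (ε / 2 * X) *
      max 1 (∑ l, n1 (gUv D X n au w l))
  swap
  · rw [if_neg hg]
    split_ifs <;> norm_num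
  rw [if_pos hg, if_pos]
  have hT1 : (1 : ℝ) ≤ (2 : ℝ) ^ (ε / 2 * X) :=
    Real.one_le_rpow (by norm_num) (by positivity)
  obtain ⟨T, hT⟩ : ∃ T : ℝ, T = (2 : ℝ) ^ (ε / 2 * X) := ⟨_, rfl⟩
  rw [← hT] at hg hcX hT1
  have hs : ∑ l, n1 (gUv D X n au w l) = 2 ^ n * ∑ l, |ahv X au w l| := by
    rw [Finset.mul_sum]
    exact Finset.sum_congr rfl fun l _ => n1_gUv w l
  rw [hs, n1_gZv] at hg
  have h1 := le_rpk (Kc X au (fun ω => mh (ex ω)) w) x0 x1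
  have h2 := kpv_num (k := fun l (j : Fin D) => ka w.1.2 l j.succ)
    (k' := fun l (j : Fin D) => kh X (mh (ex w.1.2) l) j.succ)
    (a := fun l => (Pv w.1.2 l).coeff 1 - (Pv w.1.1 l).coeff 1) hC HK.nX g1 g2
    (fun l j => g4 l j.succ) (fun l j => HK.bk _ a2 l j.succ) h1 hg hT1
  rw [hcard, ← hc] at h2
  refine h2.trans ?_
  refine mul_le_mul_of_nonneg_right ?_ (le_trans zero_le_one (le_max_left _ _))
  have e1 : (2 : ℝ) ^ (ε * X) = T * T := by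
    rw [hT, ← Real.rpow_add (by norm_num)]
    congr 1
    ring
  rw [e1]
  exact mul_le_mul_of_nonneg_right hcX (by linarith)

end Pool.LPK12
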