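import Pool.Agent.H12.LPK.Ksv

/-!
# The slopes over several sides, with one more code

As `Kav`, `Ksv`; the codes of a line are `(au, ex)`, `ex` of any type, and the code of the slopes is a
function `mh` of `ex`. So `ex` may contain more (the far position of the base place, the coefficients
of the paths of orders above one, ..).
-/

set_option autoImplicit false

namespace Pool.LPK12

open Finset Real
open Pool.Agent.H49.Ent Pool.Agent.H32.Dense Pool.STK Pool.POT Pool.TQ Pool.LPX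
open Pool.K2S (Pe)

/-- `Kpv` with a code `ex` of the line which determines the code of the slopes. -/
structure Kpx {Ω β Λ υ σ σ' ν ι Ξ : Type} [Fintype Ω] [Fintype ι] (D : ℕ) (p : Ω → ℝ) (B : Ω → β)
    (ln : Ω → Λ) (Y : Ω → υ) (S : Ω → σ) (S' : Ω → σ') (t : Ω → ℤ) (U : Ω → ι → ℤ) (Z : Ω → ℤ)
    (au : Ω → ι → ℤ) (ex : Ω → Ξ) (mh : Ξ → ι → Fin (D + 1) → ℤ) (Pv : Ω → ι → Polynomial ℝ)
    (PN : Ω → Polynomial ℝ) (ka : Ω → ι → Fin (D + 1) → ℝ) (nat : Ω → ν) (Nb : υ → Finset υ)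
    (M X n : ℕ) (C h ϖ d κ₀ : ℝ) : Prop where
  nX : n ≤ X
  XM : X ≤ M
  ok : Lp p B ln Y S t Nb M d κ₀
  dv : Det p ln Pv
  dN : Det p ln PN
  dk : Det p ln ka
  da : Det p ln au
  dx : Det p ln ex
  degv : ∀ ω, 0 < p ω → ∀ l, (Pv ω l).natDegree ≤ 1
  degN : ∀ ω, 0 < p ω → (PN ω).natDegree ≤ 1
  ru : ∀ ω, 0 < p ω → ∀ l, |(U ω l : ℝ) - 2 ^ n * (Pv ω l).eval ((t ω : ℝ) / 2 ^ M)| ≤ C
  rz : ∀ ω, 0 < p ω → |(Z ω : ℝ) - 2 ^ X * ((PN ω).eval ((t ω : ℝ) / 2 ^ M) -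
    ∑ l, (pof (ka ω l)).eval ((t ω : ℝ) / 2 ^ M) * (Pv ω l).eval ((t ω : ℝ) / 2 ^ M))| ≤ C
  bv : ∀ ω, 0 < p ω → ∀ l x, 0 ≤ x → x ≤ 1 → |(Pv ω l).eval x| ≤ C
  ba : ∀ ω, 0 < p ω → ∀ l, |(Pv ω l).coeff 1| ≤ C
  bk : ∀ ω, 0 < p ω → ∀ l j, |ka ω l j| ≤ C
  ca : ∀ ω, 0 < p ω → ∀ l, |(au ω l : ℝ) - 2 ^ X * (Pv ω l).coeff 1| ≤ C
  cm : ∀ ω, 0 < p ω → ∀ l j, |(mh (ex ω) l j : ℝ) - 2 ^ X * ka ω l j| ≤ C
  jv : ∀ ω ω', 0 < p ω → 0 < p ω' → B ω = B ω' → ∀ l,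
    |(Pv ω' l).eval ((t ω : ℝ) / 2 ^ M) - (Pv ω l).eval ((t ω : ℝ) / 2 ^ M)| ≤ C / 2 ^ X
  jN : ∀ ω ω', 0 < p ω → 0 < p ω' → B ω = B ω' →
    |(PN ω').eval ((t ω : ℝ) / 2 ^ M) - (PN ω).eval ((t ω : ℝ) / 2 ^ M)| ≤ C / 2 ^ X
  jD : ∀ ω ω', 0 < p ω → 0 < p ω' → B ω = B ω' →
    |(PN ω').coeff 1 - (PN ω).coeff 1 - ∑ l, (pof (ka ω' l)).eval ((t ω : ℝ) / 2 ^ M) *
      ((Pv ω' l).coeff 1 - (Pv ω l).coeff 1)| ≤ C / 2 ^ X
  SY' : Det p (fun ω => ((Y ω, ex ω), t ω)) S'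
  natl : Det p ln nat
  natB : Det p B nat
  ind : CH p (fun ω => (au ω, ex ω)) (fun ω => (Y ω, nat ω)) ≤
    CH p (fun ω => (au ω, ex ω)) (fun ω => (Y ω, B ω)) + d
  nfz : Nzv p U Z S' X h ϖ d

/-- The codes of a pair. -/
def kxx {Ω ι Ξ : Type} (au : Ω → ι → ℤ) (ex : Ω → Ξ) (ω ω' : Ω) : (ι → ℤ) × Ξ :=
  (fun l => au ω' l - au ω l, ex ω')

section

variable {Ω β Λ υ σ σ' ν ι Ξ : Type} [Fintype Ω] [Fintype ι] {D : ℕ} {p : Ω → ℝ} {B : Ω → β}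
  {ln : Ω → Λ} {Y : Ω → υ} {S : Ω → σ} {S' : Ω → σ'} {t : Ω → ℤ} {U : Ω → ι → ℤ} {Z : Ω → ℤ}
  {au : Ω → ι → ℤ} {ex : Ω → Ξ} {mh : Ξ → ι → Fin (D + 1) → ℤ} {Pv : Ω → ι → Polynomial ℝ}
  {PN : Ω → Polynomial ℝ} {ka : Ω → ι → Fin (D + 1) → ℝ} {nat : Ω → ν} {Nb : υ → Finset υ}
  {M X n : ℕ} {C h ϖ d κ₀ : ℝ}

/-- The rounded velocities and slopes. -/
theorem Kpx.rnd (H : Kpx D p B ln Y S S' t U Z au ex mh Pv PN ka nat Nb M X n C h ϖ d κ₀)
    (hC : 1 ≤ C) {w : (Ω × Ω) × Ω} (hw : 0 < q3 p B ln w) :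
    (∀ l, |ahv X au w l - ((Pv w.1.2 l).coeff 1 - (Pv w.1.1 l).coeff 1)| ≤
      2 * C * (1 / 2 ^ X)) ∧ (∀ l, |ahv X au w l| ≤ 4 * C) ∧
    (∀ l j, |kh X (mh (ex w.1.2) l) j| ≤ 2 * C) ∧
    ∀ l j, |kh X (mh (ex w.1.2) l) j - ka w.1.2 l j| ≤ C * (1 / 2 ^ X) := by
  have h0 := H.ok.law.nonneg
  have hC0 : 0 < C := by linarith
  have hP : (0 : ℝ) < 2 ^ X := by positivity
  have hP1 : (1 : ℝ) ≤ 2 ^ X := one_le_pow₀ (by norm_num)
  obtain ⟨E, hE⟩ : ∃ E : ℝ, E = 1 / 2 ^ X := ⟨_, rfl⟩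
  rw [← hE]
  have hE0 : 0 < E := by rw [hE]; positivity
  have hE1 : E ≤ 1 := by
    rw [hE, div_le_one hP]
    exact hP1
  obtain ⟨a1, a2, a3, a4, a5⟩ := q3_pos h0 hw
  have hav : ∀ l, |ahv X au w l - ((Pv w.1.2 l).coeff 1 - (Pv w.1.1 l).coeff 1)| ≤
      2 * C * E := by
    intro l
    have c1 := H.ca _ a1 l
    have c2 := H.ca _ a2 l
    have e1 : ahv X au w l - ((Pv w.1.2 l).coeff 1 - (Pv w.1.1 l).coeff 1) =
        (((au w.1.2 l : ℝ) - 2 ^ X * (Pv w.1.2 l).coeff 1) -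
          ((au w.1.1 l : ℝ) - 2 ^ X * (Pv w.1.1 l).coeff 1)) * E := by
      unfold ahv
      rw [hE]
      field_simp
      ring
    rw [e1, abs_mul, abs_of_pos hE0]
    refine mul_le_mul_of_nonneg_right ?_ hE0.le
    exact (abs_sub _ _).trans (by linarith)
  have hkd : ∀ l j, |kh X (mh (ex w.1.2) l) j - ka w.1.2 l j| ≤ C * E := by
    intro l j
    have c1 := H.cm _ a2 l j
    have e1 : kh X (mh (ex w.1.2) l) j - ka w.1.2 l j =
        ((mh (ex w.1.2) l j : ℝ) - 2 ^ X * ka w.1.2 l j) * E := by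
      unfold kh
      rw [hE]
      field_simp
    rw [e1, abs_mul, abs_of_pos hE0]
    exact mul_le_mul_of_nonneg_right c1 hE0.le
  refine ⟨hav, fun l => ?_, fun l j => ?_, hkd⟩
  · have c1 := H.ba _ a1 l
    have c2 := H.ba _ a2 l
    have c3 := hav l
    have c4 : |(Pv w.1.2 l).coeff 1 - (Pv w.1.1 l).coeff 1| ≤ 2 * C :=
      (abs_sub _ _).trans (by linarith)
    have c5 : 2 * C * E ≤ 2 * C := mul_le_of_le_one_right (by positivity) hE1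
    rw [abs_le] at c3 c4 ⊢
    constructor <;> linarith
  · have c1 := hkd l j
    have c2 := H.bk _ a2 l j
    have c5 : C * E ≤ C := mul_le_of_le_one_right (by positivity) hE1
    rw [abs_le] at c1 c2 ⊢
    constructor <;> linarith

/-- **The relations** of the hop. -/
theorem Kpx.hpz (H : Kpx D p B ln Y S S' t U Z au ex mh Pv PN ka nat Nb M X n C h ϖ d κ₀)
    (hC : 1 ≤ C) :
    Hpz (D + 1) p (q3 p B ln) Prod.snd (Wq ln t Y (kxx au ex)) (fun w => t w.1.1) Z S'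
      (fun w => 2 ^ X * ((PN w.1.1).eval ((t w.2 : ℝ) / 2 ^ M) -
        (∑ l, (pof (kh X (mh (ex w.1.2) l))).eval ((t w.2 : ℝ) / 2 ^ M) *
          (Pv w.1.1 l).eval ((t w.2 : ℝ) / 2 ^ M)) +
        (rpk (Kc X au (fun ω => mh (ex ω)) w) ((t w.2 : ℝ) / 2 ^ M)).coeff 0))
      (gZv X M t au (fun ω => mh (ex ω))) M (32 * ((Fintype.card ι + 1) * ((D + 1) ^ 2 * C ^ 2))) (4 * d) := by
  have h0 := H.ok.law.nonneg
  have hq := q3_law (B := B) (ln := ln) H.ok.law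
  have hC0 : 0 < C := by linarith
  have hD0 : (0 : ℝ) ≤ D := Nat.cast_nonneg D
  have hf0 : (0 : ℝ) ≤ Fintype.card ι := Nat.cast_nonneg _
  have hP : (0 : ℝ) < 2 ^ X := by positivity
  obtain ⟨E, hE⟩ : ∃ E : ℝ, E = 1 / 2 ^ X := ⟨_, rfl⟩
  have hE0 : 0 < E := by rw [hE]; positivity
  have hEX : 2 ^ X * E = 1 := by rw [hE]; field_simp
  have hCX : C / 2 ^ X = C * E := by rw [hE]; ring
  have hCC : C ≤ C ^ 2 := by nlinarith
  have hDD : ((D : ℝ) + 1) * C ^ 2 ≤ (D + 1) ^ 2 * C ^ 2 := by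
    refine mul_le_mul_of_nonneg_right ?_ (by positivity)
    nlinarith
  have hDC : C ≤ (D + 1) ^ 2 * C ^ 2 := by
    have h1 : C ^ 2 ≤ (D + 1) * C ^ 2 := le_mul_of_one_le_left (by positivity) (by linarith)
    linarith
  refine ⟨H.ok.law, hq, q3_3 h0, fun w hw => H.ok.t0 _ (q3_pos h0 hw).1, ?_, ⟨?_, ?_, ?_⟩, ?_⟩
  · exact time_fullI H.ok (fun ω => (au ω, ex ω))
      (fun ω ω' a b e => by rw [Prod.mk.injEq]; exact ⟨H.da _ _ a b e, H.dx _ _ a b e⟩) nat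
      H.natl H.natB H.ind (kxx au ex) (fun x y => (fun l => y.1 l - x.1 l, y.2)) (fun _ _ => rfl)
  · intro w w' x x' e
    have e1 : ln w.1.1 = ln w'.1.1 := congrArg (fun z => z.1) e
    have e2 : t w.2 = t w'.2 := congrArg (fun z => z.2.1) e
    have e3 := H.dv _ _ (q3_pos h0 x).1 (q3_pos h0 x').1 e1
    have e3' := H.dN _ _ (q3_pos h0 x).1 (q3_pos h0 x').1 e1
    have e4 : (fun l => au w.1.2 l - au w.1.1 l) = fun l => au w'.1.2 l - au w'.1.1 l :=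
      congrArg (fun z => z.2.2.2.1) e
    have e6 : mh (ex w.1.2) = mh (ex w'.1.2) :=
      congrArg mh (congrArg (fun z => z.2.2.2.2) e)
    have e5 : ahv X au w = ahv X au w' := by
      funext l
      unfold ahv
      have e7 := congrFun e4 l
      have e8 : (au w.1.2 l : ℝ) - au w.1.1 l = (au w'.1.2 l : ℝ) - au w'.1.1 l := by
        exact_mod_cast e7
      rw [e8]
    have e9 : Kc X au (fun ω => mh (ex ω)) w = Kc X au (fun ω => mh (ex ω)) w' := by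
      unfold Kc
      simp only [e5, e6]
    simp only [e2, e3, e3', e9, e6]
  · intro w w' x x' e
    have e2 : t w.2 = t w'.2 := congrArg (fun z => z.2.1) e
    have e4 : (fun l => au w.1.2 l - au w.1.1 l) = fun l => au w'.1.2 l - au w'.1.1 l :=
      congrArg (fun z => z.2.2.2.1) e
    have e6 : mh (ex w.1.2) = mh (ex w'.1.2) :=
      congrArg mh (congrArg (fun z => z.2.2.2.2) e)
    have e5 : ahv X au w = ahv X au w' := by
      funext l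
      unfold ahv
      have e7 := congrFun e4 l
      have e8 : (au w.1.2 l : ℝ) - au w.1.1 l = (au w'.1.2 l : ℝ) - au w'.1.1 l := by
        exact_mod_cast e7
      rw [e8]
    have e9 : Kc X au (fun ω => mh (ex ω)) w = Kc X au (fun ω => mh (ex ω)) w' := by
      unfold Kc
      simp only [e5, e6]
    unfold gZv
    simp only [e2, e9]
  · intro w hw
    obtain ⟨a1, a2, a3, a4, a5⟩ := q3_pos h0 hw
    have g3 := H.rz _ a3
    have g7 := H.dv _ _ a2 a3 a5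
    have g7' := H.dN _ _ a2 a3 a5
    have g7k := H.dk _ _ a2 a3 a5
    rw [← g7, ← g7', ← g7k] at g3
    obtain ⟨x0, x1⟩ := time_unit (H.ok.t0 _ a3)
    obtain ⟨y0, y1⟩ := time_unit (H.ok.t0 _ a1)
    have g4 := H.jv _ _ a1 a2 a4
    have g4' := H.jN _ _ a1 a2 a4
    have g4'' := H.jD _ _ a1 a2 a4
    obtain ⟨g8, g9, -, -⟩ := H.rnd hC hw
    have kx1 := fun l => kh_near (H.cm _ a2 l) x0 x1
    have ky1 := fun l => kh_near (H.cm _ a2 l) y0 y1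
    have kxc := fun l => pof_le (H.bk _ a2 l) x0 x1
    have kyc := fun l => pof_le (H.bk _ a2 l) y0 y1
    have hv0 := fun l => H.bv _ a1 l _ x0 x1
    rw [pol_gZv]
    obtain ⟨x, hx⟩ : ∃ x : ℝ, x = (t w.2 : ℝ) / 2 ^ M := ⟨_, rfl⟩
    obtain ⟨y, hy⟩ : ∃ y : ℝ, y = (t w.1.1 : ℝ) / 2 ^ M := ⟨_, rfl⟩
    rw [← hx] at x0 x1 g3
    rw [← hy] at y0 y1
    simp only [← hx, ← hy] at kx1 ky1 kxc kyc hv0 g4 g4' g4'' ⊢
    simp only [hCX] at g4 g4' g4''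
    have e0 : ((D : ℝ) + 1) * C / 2 ^ X = (D + 1) * C * E := by rw [hE]; ring
    simp only [e0] at kx1 ky1
    rw [← hE] at g8
    have hv0' : ∀ l, |(Pv w.1.1 l).eval y + (Pv w.1.1 l).coeff 1 * (x - y)| ≤ C := fun l => by
      rw [← aff_eval (H.degv _ a1 l) x y]
      exact hv0 l
    have est := kpv_est hC hE0 (by linarith : (1 : ℝ) ≤ D + 1) x0 x1 y0 y1 g4' g4'' g4 g8 g9 kx1
      ky1 kxc kyc hv0'
    have f1 : ∀ l, (Pv w.1.2 l).eval y + (Pv w.1.2 l).coeff 1 * (x - y) = (Pv w.1.2 l).eval x :=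
      fun l => (aff_eval (H.degv _ a2 l) x y).symm
    have f2 : ∀ l, (Pv w.1.1 l).eval y + (Pv w.1.1 l).coeff 1 * (x - y) = (Pv w.1.1 l).eval x :=
      fun l => (aff_eval (H.degv _ a1 l) x y).symm
    have f3 : (PN w.1.2).eval y + (PN w.1.2).coeff 1 * (x - y) = (PN w.1.2).eval x :=
      (aff_eval (H.degN _ a2) x y).symm
    have f4 : (PN w.1.1).eval y + (PN w.1.1).coeff 1 * (x - y) = (PN w.1.1).eval x :=
      (aff_eval (H.degN _ a1) x y).symm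
    simp only [f1, f2, f3, f4] at est
    obtain ⟨r, hr⟩ : ∃ r : ℝ, r = ((PN w.1.2).eval x -
      ∑ l, (pof (ka w.1.2 l)).eval x * (Pv w.1.2 l).eval x) -
      ((PN w.1.1).eval x - ∑ l, (pof (kh X (mh (ex w.1.2) l))).eval x * (Pv w.1.1 l).eval x +
        ∑ l, ahv X au w l * ((x - y) * ((pof (kh X (mh (ex w.1.2) l))).eval y -
          (pof (kh X (mh (ex w.1.2) l))).eval x))) := ⟨_, rfl⟩
    rw [← hr] at est
    have hr2 : |2 ^ X * r| ≤ 16 * ((Fintype.card ι + 1) * ((D + 1) ^ 2 * C ^ 2)) := by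
      rw [abs_mul, abs_of_pos hP]
      have h1 := mul_le_mul_of_nonneg_left est hP.le
      refine h1.trans ?_
      have h2 : 2 ^ X * (16 * (((Fintype.card ι : ℝ) + 1) * ((D + 1) * C ^ 2 * E))) =
          16 * ((Fintype.card ι + 1) * ((D + 1) * C ^ 2)) * (2 ^ X * E) := by ring
      rw [h2, hEX, mul_one]
      refine mul_le_mul_of_nonneg_left ?_ (by norm_num)
      exact mul_le_mul_of_nonneg_left hDD (by linarith)
    obtain ⟨rc, hrc⟩ : ∃ rc : ℝ, rc = (rpk (Kc X au (fun ω => mh (ex ω)) w) x).coeff 0 := ⟨_, rfl⟩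
    rw [← hrc]
    have e2 : (Z w.2 : ℝ) - (2 ^ X * ((PN w.1.1).eval x -
        (∑ l, (pof (kh X (mh (ex w.1.2) l))).eval x * (Pv w.1.1 l).eval x) + rc) +
        2 ^ X * ((∑ l, ahv X au w l * ((x - y) * ((pof (kh X (mh (ex w.1.2) l))).eval y -
          (pof (kh X (mh (ex w.1.2) l))).eval x))) - rc)) =
        ((Z w.2 : ℝ) - 2 ^ X * ((PN w.1.2).eval x -
          ∑ l, (pof (ka w.1.2 l)).eval x * (Pv w.1.2 l).eval x)) + 2 ^ X * r := by
      rw [hr]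
      ring
    rw [e2]
    refine (abs_add_le _ _).trans ?_
    have h5 : (D + 1) ^ 2 * C ^ 2 ≤ ((Fintype.card ι : ℝ) + 1) * ((D + 1) ^ 2 * C ^ 2) :=
      le_mul_of_one_le_left (by positivity) (by linarith)
    linarith
  · intro w w' x y e0
    obtain ⟨-, x2, x3, -, x5⟩ := q3_pos h0 x
    obtain ⟨-, y2, y3, -, y5⟩ := q3_pos h0 y
    have e1 : t w.2 = t w'.2 := congrArg (fun z => z.2.1) e0
    have e2 : Y w.1.2 = Y w'.1.2 := congrArg (fun z => z.2.2.1) e0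
    have e2' : ex w.1.2 = ex w'.1.2 := congrArg (fun z => z.2.2.2.2) e0
    have e3 := H.ok.lY _ _ x2 x3 x5
    have e4 := H.ok.lY _ _ y2 y3 y5
    have e3' := H.dx _ _ x2 x3 x5
    have e4' := H.dx _ _ y2 y3 y5
    have e6 : Y w.2 = Y w'.2 := by rw [← e3, e2, e4]
    have e6' : ex w.2 = ex w'.2 := by rw [← e3', e2', e4']
    exact H.SY' _ _ x3 y3 (Prod.ext (Prod.ext e6 e6') e1)

/-- **The relations of the sides.** -/
theorem Kpx.rlu (H : Kpx D p B ln Y S S' t U Z au ex mh Pv PN ka nat Nb M X n C h ϖ d κ₀)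
    (hC : 1 ≤ C) (l : ι) :
    Rlp (q3 p B ln) (Wq ln t Y (kxx au ex)) (fun w => t w.1.1) (fun w => U w.2 l)
      (fun w => 2 ^ n * ((Pv w.1.1 l).eval ((t w.2 : ℝ) / 2 ^ M) +
        ahv X au w l * ((t w.2 : ℝ) / 2 ^ M))) (fun w => gUv D X n au w l) M (4 * C) := by
  have h0 := H.ok.law.nonneg
  have hC0 : 0 < C := by linarith
  have hP : (0 : ℝ) < 2 ^ X := by positivity
  have hn1 : (0 : ℝ) < 2 ^ n := by positivity
  have hnX : (2 : ℝ) ^ n ≤ 2 ^ X := pow_le_pow_right₀ (by norm_num) H.nX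
  obtain ⟨E, hE⟩ : ∃ E : ℝ, E = 1 / 2 ^ X := ⟨_, rfl⟩
  have hE0 : 0 < E := by rw [hE]; positivity
  have hEX : 2 ^ X * E = 1 := by rw [hE]; field_simp
  have hCX : C / 2 ^ X = C * E := by rw [hE]; ring
  refine ⟨?_, ?_, ?_⟩
  · intro w w' x x' e
    have e1 : ln w.1.1 = ln w'.1.1 := congrArg (fun z => z.1) e
    have e2 : t w.2 = t w'.2 := congrArg (fun z => z.2.1) e
    have e3 := H.dv _ _ (q3_pos h0 x).1 (q3_pos h0 x').1 e1
    have e4 : (fun l => au w.1.2 l - au w.1.1 l) = fun l => au w'.1.2 l - au w'.1.1 l :=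
      congrArg (fun z => z.2.2.2.1) e
    have e5 : ahv X au w l = ahv X au w' l := by
      unfold ahv
      have e7 := congrFun e4 l
      have e8 : (au w.1.2 l : ℝ) - au w.1.1 l = (au w'.1.2 l : ℝ) - au w'.1.1 l := by
        exact_mod_cast e7
      rw [e8]
    simp only [e2, e3, e5]
  · intro w w' x x' e
    have e4 : (fun l => au w.1.2 l - au w.1.1 l) = fun l => au w'.1.2 l - au w'.1.1 l :=
      congrArg (fun z => z.2.2.2.1) e
    have e5 : ahv X au w l = ahv X au w' l := by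
      unfold ahv
      have e7 := congrFun e4 l
      have e8 : (au w.1.2 l : ℝ) - au w.1.1 l = (au w'.1.2 l : ℝ) - au w'.1.1 l := by
        exact_mod_cast e7
      rw [e8]
    unfold gUv
    simp only [e5]
  · intro w hw
    obtain ⟨a1, a2, a3, a4, a5⟩ := q3_pos h0 hw
    have g3 := H.ru _ a3 l
    have g7 := H.dv _ _ a2 a3 a5
    rw [← g7] at g3
    obtain ⟨x0, x1⟩ := time_unit (H.ok.t0 _ a3)
    obtain ⟨y0, y1⟩ := time_unit (H.ok.t0 _ a1)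
    have g4 := H.jv _ _ a1 a2 a4 l
    have g8 := (H.rnd hC hw).1 l
    rw [pol_gUv]
    obtain ⟨x, hx⟩ : ∃ x : ℝ, x = (t w.2 : ℝ) / 2 ^ M := ⟨_, rfl⟩
    obtain ⟨y, hy⟩ : ∃ y : ℝ, y = (t w.1.1 : ℝ) / 2 ^ M := ⟨_, rfl⟩
    obtain ⟨a', ha'⟩ : ∃ a' : ℝ, a' = ahv X au w l := ⟨_, rfl⟩
    rw [← ha', ← hE] at g8
    simp only [← ha', ← hx, ← hy]
    rw [← hx] at x0 x1 g3
    rw [← hy] at y0 y1 g4
    rw [hCX] at g4
    rw [aff_eval (H.degv _ a2 l) x y] at g3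
    rw [aff_eval (H.degv _ a1 l) x y]
    have hxy : |x - y| ≤ 1 := by
      rw [abs_le]
      constructor <;> linarith
    obtain ⟨r, hr⟩ : ∃ r : ℝ, r = ((Pv w.1.2 l).eval y + (Pv w.1.2 l).coeff 1 * (x - y)) -
        ((Pv w.1.1 l).eval y + (Pv w.1.1 l).coeff 1 * (x - y) + a' * (x - y)) := ⟨_, rfl⟩
    have hr1 : |r| ≤ 3 * C * E := by
      have e1 : r = ((Pv w.1.2 l).eval y - (Pv w.1.1 l).eval y) -
          (a' - ((Pv w.1.2 l).coeff 1 - (Pv w.1.1 l).coeff 1)) * (x - y) := by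
        rw [hr]
        ring
      rw [e1]
      refine (abs_sub _ _).trans ?_
      rw [abs_mul]
      have := mul_le_mul g8 hxy (abs_nonneg _) (by positivity)
      linarith
    have hr2 : |2 ^ n * r| ≤ 3 * C := by
      rw [abs_mul, abs_of_pos hn1]
      have h1 : 2 ^ n * |r| ≤ 2 ^ X * (3 * C * E) := mul_le_mul hnX hr1 (abs_nonneg _) hP.le
      refine h1.trans (le_of_eq ?_)
      have : 2 ^ X * (3 * C * E) = 3 * C * (2 ^ X * E) := by ring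
      rw [this, hEX, mul_one]
    have e2 : (U w.2 l : ℝ) - (2 ^ n * ((Pv w.1.1 l).eval y + (Pv w.1.1 l).coeff 1 * (x - y) +
        a' * x) + -(2 ^ n * a') * y) = ((U w.2 l : ℝ) - 2 ^ n * ((Pv w.1.2 l).eval y +
          (Pv w.1.2 l).coeff 1 * (x - y))) + 2 ^ n * r := by
      rw [hr]
      ring
    rw [e2]
    refine (abs_add_le _ _).trans ?_
    linarith

end

end Pool.LPK12
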