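import Pool.Agent.H12.LPK.Nea

/-!
# The displacements of LPK are usually small

`lk0_near`: two values at the sample below are polynomials in a full time, the slow one has `θ X`
digits, the fast one `X` digits, jointly not full; then both polynomials are constant up to `2^(ε X)`
off a set of mass `ε`.
-/

set_option autoImplicit false

namespace Pool.LPK12

open Finset Real
open Pool.Agent.H49.Ent Pool.Agent.H32.Dense Pool.STK Pool.POT Pool.TQ Pool.LPX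
open Pool.K2S (Pe)

open Classical in
/-- **The displacements of LPK are usually small.** -/
theorem lk0_near (D : ℕ) (C θ h ε : ℝ) (hC : 1 ≤ C) (hθ0 : 0 < θ) (hθ1 : θ < 1) (hh0 : 0 < h)
    (hh1 : h ≤ 1) (hε : 0 < ε) : ∃ κ ϖ : ℝ, 0 < κ ∧ 0 < ϖ ∧ ∃ X₀ : ℕ,
    ∀ {Ω Ω' τ σ : Type} [Fintype Ω] [Fintype Ω'] {p : Ω → ℝ} {q : Ω' → ℝ} {f : Ω' → Ω}
    {W : Ω' → τ} {t : Ω' → ℤ} {U Z : Ω → ℤ} {S : Ω → σ} {AU AZ : Ω' → ℝ}
    {gU gZ : Ω' → Fin D → ℝ} {M X : ℕ} {d : ℝ},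
    Lk0 D p q f W t U Z S AU AZ gU gZ M X C θ h ϖ d → X₀ ≤ X → 0 ≤ d → d ≤ κ * X →
    Ex q (fun w => if n1 (gZ w) ≤ (2 : ℝ) ^ (ε * X) ∧ n1 (gU w) ≤ (2 : ℝ) ^ (ε * X)
      then 0 else 1) ≤ ε := by
  obtain ⟨K, hK, hb⟩ := card_bads D
  have hl2 : 0 < Real.log 2 := Real.log_pos (by norm_num)
  have hl2a := Real.log_two_gt_d9
  have hl2b := Real.log_two_lt_d9
  have hl2' : Real.log 2 ≤ 1 := by linarith
  have hθ' : 0 < 1 - θ := by linarith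
  have hD0 : (0 : ℝ) ≤ D := Nat.cast_nonneg D
  obtain ⟨r₀, hr₀⟩ : ∃ r₀ : ℕ, 4 * K * ((D : ℝ) ^ 2 + 1) < 2 ^ r₀ :=
    pow_unbounded_of_one_lt _ one_lt_two
  obtain ⟨Q, hQ⟩ : ∃ Q : ℝ, Q = 3 / (h * (1 - θ)) := ⟨_, rfl⟩
  have hQ0 : 0 < Q := by rw [hQ]; positivity
  obtain ⟨s, hs⟩ : ∃ s : ℝ, s = ε / (32 * Q) := ⟨_, rfl⟩
  have hs0 : 0 < s := by rw [hs]; positivity
  have hQs : Q * s = ε / 32 := by rw [hs]; field_simp
  obtain ⟨η, hη⟩ : ∃ η : ℝ, η = s / 2 := ⟨_, rfl⟩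
  have hη0 : 0 < η := by rw [hη]; positivity
  obtain ⟨N, hN⟩ : ∃ N : ℕ, N = ⌈2 / η⌉₊ := ⟨_, rfl⟩
  have hNη : 2 / η ≤ N := by rw [hN]; exact Nat.le_ceil _
  obtain ⟨ϖ', hϖ'⟩ : ∃ ϖ' : ℝ, ϖ' = ε / (8 * ((N : ℝ) + 2) ^ 2) := ⟨_, rfl⟩
  have hϖ'0 : 0 < ϖ' := by rw [hϖ']; positivity
  obtain ⟨Kn, hKn⟩ : ∃ Kn : ℕ, Kn = ⌈2 / (ϖ' * s)⌉₊ + 1 := ⟨_, rfl⟩
  have hKn0 : 0 < Kn := by rw [hKn]; exact Nat.succ_pos _
  have hKnr : 2 / (ϖ' * s) ≤ Kn := by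
    have := Nat.le_ceil (2 / (ϖ' * s))
    rw [hKn]
    push_cast
    linarith
  obtain ⟨ϖ, hϖ⟩ : ∃ ϖ : ℝ, ϖ = s * ϖ' / 2 := ⟨_, rfl⟩
  have hϖ0 : 0 < ϖ := by rw [hϖ]; positivity
  obtain ⟨η₂, hη₂⟩ : ∃ η₂ : ℝ, η₂ = min (min (s * ϖ') s) (1 / 2) / (D + 1) := ⟨_, rfl⟩
  have hm0 : 0 < min (min (s * ϖ') s) (1 / 2 : ℝ) :=
    lt_min (lt_min (by positivity) hs0) (by norm_num)
  have hη₂0 : 0 < η₂ := by rw [hη₂]; positivity
  have hη₂D : η₂ * (D + 1) = min (min (s * ϖ') s) (1 / 2) := by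
    rw [hη₂]
    field_simp
  have hη₂1 : η₂ * (D + 1) ≤ s * ϖ' := by
    rw [hη₂D]
    exact (min_le_left _ _).trans (min_le_left _ _)
  have hη₂2 : η₂ * (D + 1) ≤ s := by
    rw [hη₂D]
    exact (min_le_left _ _).trans (min_le_right _ _)
  have hη₂3 : η₂ * (D + 1) ≤ 1 / 2 := by
    rw [hη₂D]
    exact min_le_right _ _
  obtain ⟨κ, hκ⟩ : ∃ κ : ℝ, κ = min s (min (s * ϖ' / 4) (ε * η₂ / 64)) := ⟨_, rfl⟩
  have hκ0 : 0 < κ := by
    rw [hκ]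
    exact lt_min hs0 (lt_min (by positivity) (by positivity))
  have hκ1 : κ ≤ s := by rw [hκ]; exact min_le_left _ _
  have hκ2 : κ ≤ s * ϖ' / 4 := by rw [hκ]; exact (min_le_right _ _).trans (min_le_left _ _)
  have hκ3 : κ ≤ ε * η₂ / 64 := by rw [hκ]; exact (min_le_right _ _).trans (min_le_right _ _)
  obtain ⟨C₂, hC₂⟩ : ∃ C₂ : ℝ, C₂ = (D + 2) * C := ⟨_, rfl⟩
  have hC₂1 : 1 ≤ C₂ := by
    rw [hC₂]
    have : 0 ≤ (D : ℝ) * C := by positivity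
    linarith
  have hlK : 0 ≤ Real.log ((Kn : ℝ) + 1) := Real.log_nonneg (by
    have : (0 : ℝ) ≤ Kn := Nat.cast_nonneg _
    linarith)
  have hl5 : 0 ≤ Real.log 5 := Real.log_nonneg (by norm_num)
  have hl9 : 0 ≤ Real.log (9 * C₂) := Real.log_nonneg (by linarith)
  have hlC : 0 ≤ Real.log C := Real.log_nonneg hC
  have hlD : 0 ≤ Real.log ((D : ℝ) + 1) := Real.log_nonneg (by linarith)
  obtain ⟨c₁, hc₁⟩ : ∃ c₁ : ℝ, c₁ = s * Real.log 5 + Real.log (Kn + 1) + r₀ / ϖ' + 2 * r₀ +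
    4 * Real.log (9 * C₂) := ⟨_, rfl⟩
  have hc₁0 : 0 ≤ c₁ := by rw [hc₁]; positivity
  obtain ⟨c₀, hc₀⟩ : ∃ c₀ : ℝ, c₀ = Q * c₁ + 2 * Q + Real.log C := ⟨_, rfl⟩
  have hc₀0 : 0 ≤ c₀ := by rw [hc₀]; positivity
  obtain ⟨M₀, hM⟩ : ∃ M₀ : ℝ, M₀ = 2 / η + 8 * c₀ / ε + 2 * r₀ +
    (1 + Real.log (D + 1)) / (η₂ / 8) + 16 / (ε * η₂) := ⟨_, rfl⟩
  refine ⟨κ, ϖ, hκ0, hϖ0, ⌈M₀⌉₊, ?_⟩
  intro Ω Ω' τ σ _ _ p q f W t U Z S AU AZ gU gZ M X d H hX hd hdκ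
  have hXM : M₀ ≤ X := (Nat.le_ceil _).trans (by exact_mod_cast hX)
  have t1 : 0 ≤ 2 / η := by positivity
  have t2 : 0 ≤ 8 * c₀ / ε := by positivity
  have t3 : 0 ≤ 2 * (r₀ : ℝ) := by positivity
  have t4 : 0 ≤ (1 + Real.log ((D : ℝ) + 1)) / (η₂ / 8) := by positivity
  have t5 : 0 ≤ 16 / (ε * η₂) := by positivity
  rw [hM] at hXM
  have hX1 : 2 / η ≤ X := by linarith only [hXM, t1, t2, t3, t4, t5]
  have hX2 : 8 * c₀ / ε ≤ X := by linarith only [hXM, t1, t2, t3, t4, t5]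
  have hX3 : 2 * (r₀ : ℝ) ≤ X := by linarith only [hXM, t1, t2, t3, t4, t5]
  have hX4 : (1 + Real.log ((D : ℝ) + 1)) / (η₂ / 8) ≤ X := by
    linarith only [hXM, t1, t2, t3, t4, t5]
  have hX5 : 16 / (ε * η₂) ≤ X := by linarith only [hXM, t1, t2, t3, t4, t5]
  have hX0 : (0 : ℝ) ≤ X := Nat.cast_nonneg X
  have hηX : 2 ≤ η * X := by
    rw [div_le_iff₀ hη0] at hX1
    linarith only [hX1]
  have hXpos : (0 : ℝ) < X := by
    by_contra hc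
    have : (X : ℝ) = 0 := le_antisymm (not_lt.1 hc) hX0
    rw [this, mul_zero] at hηX
    linarith only [hηX]
  obtain ⟨g, hg⟩ : ∃ g : ℕ, g = ⌊η * X⌋₊ := ⟨_, rfl⟩
  have hg1 : (g : ℝ) ≤ η * X := by rw [hg]; exact Nat.floor_le (by positivity)
  have hg2 : η * X / 2 ≤ g := by
    have := Nat.lt_floor_add_one (η * (X : ℝ))
    rw [hg]
    linarith only [this, hηX]
  have hNg : X ≤ N * g := by
    have h1 : (X : ℝ) ≤ N * g := by
      have h2 : 2 / η * (η * X / 2) ≤ N * g :=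
        mul_le_mul hNη hg2 (by positivity) (Nat.cast_nonneg N)
      have h3 : 2 / η * (η * X / 2) = X := by field_simp
      linarith only [h2, h3]
    exact_mod_cast h1
  obtain ⟨r, hr⟩ : ∃ r : ℕ, r = ⌊η₂ * X⌋₊ := ⟨_, rfl⟩
  have hr1 : (r : ℝ) ≤ η₂ * X := by rw [hr]; exact Nat.floor_le (by positivity)
  have hr2 : η₂ * X - 1 ≤ r := by
    have := Nat.lt_floor_add_one (η₂ * (X : ℝ))
    rw [hr]
    linarith only [this]
  obtain ⟨R, hRd⟩ : ∃ R : ℕ, R = r * (D + 1) + r₀ := ⟨_, rfl⟩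
  have hrR : r ≤ R := by
    rw [hRd, Nat.mul_add, Nat.mul_one]
    omega
  have hRr : (R : ℝ) ≤ η₂ * (D + 1) * X + r₀ := by
    rw [hRd]
    push_cast
    have := mul_le_mul_of_nonneg_right hr1 (by positivity : (0 : ℝ) ≤ D + 1)
    linarith only [this]
  have hRX : R ≤ X := by
    have h1 := mul_le_mul_of_nonneg_right hη₂3 hX0
    have : (R : ℝ) ≤ X := by linarith only [h1, hRr, hX3]
    exact_mod_cast this
  have hR : 4 * K * ((D : ℝ) ^ 2 + 1) * 2 ^ (r * D) ≤ 2 ^ R := by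
    have h1 : 4 * K * ((D : ℝ) ^ 2 + 1) * 2 ^ (r * D) ≤ 2 ^ r₀ * 2 ^ (r * D) :=
      mul_le_mul_of_nonneg_right hr₀.le (by positivity)
    refine h1.trans ?_
    rw [← pow_add]
    refine pow_le_pow_right₀ (by norm_num) ?_
    rw [hRd, Nat.mul_add, Nat.mul_one]
    omega
  have hRx1 : (R : ℝ) * Real.log 2 / ϖ' ≤ s * X + r₀ / ϖ' := by
    have h1 : (R : ℝ) * Real.log 2 ≤ η₂ * (D + 1) * X + r₀ := by
      refine le_trans (mul_le_mul_of_nonneg_left hl2' (Nat.cast_nonneg R)) ?_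
      rw [mul_one]
      exact hRr
    have h2 := mul_le_mul_of_nonneg_right hη₂1 hX0
    rw [div_le_iff₀ hϖ'0]
    have h3 : (s * X + r₀ / ϖ') * ϖ' = s * ϖ' * X + r₀ := by field_simp
    rw [h3]
    linarith only [h1, h2]
  have hRx2 : 2 * (R : ℝ) * Real.log 2 ≤ 2 * (s * X) + 2 * r₀ := by
    have h1 : (R : ℝ) * Real.log 2 ≤ R := mul_le_of_le_one_right (Nat.cast_nonneg R) hl2'
    have h2 := mul_le_mul_of_nonneg_right hη₂2 hX0
    linarith only [h1, h2, hRr]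
  have hgx : 2 * (g : ℝ) * Real.log 2 ≤ s * X := by
    have h1 : (g : ℝ) * Real.log 2 ≤ g := mul_le_of_le_one_right (Nat.cast_nonneg g) hl2'
    have h2 : 2 * (η * X) = s * X := by rw [hη]; ring
    linarith only [h1, h2, hg1]
  have hdx1 : d ≤ s * X := hdκ.trans (mul_le_mul_of_nonneg_right hκ1 hX0)
  have hdx2 : 4 * d / ϖ' ≤ s * X := by
    rw [div_le_iff₀ hϖ'0]
    have h1 : d ≤ s * ϖ' / 4 * X := hdκ.trans (mul_le_mul_of_nonneg_right hκ2 hX0)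
    linarith only [h1]
  have hQ₁ : 1 / ϖ' / Kn + 1 / ϖ' * ϖ ≤ s := by
    have h1 : 1 / ϖ' / Kn ≤ s / 2 := by
      have hKr : (0 : ℝ) < Kn := by exact_mod_cast hKn0
      rw [div_le_iff₀ hKr, div_le_iff₀ hϖ'0]
      rw [div_le_iff₀ (by positivity)] at hKnr
      linarith only [hKnr]
    have h2 : 1 / ϖ' * ϖ = s / 2 := by
      rw [hϖ]
      field_simp
    linarith only [h1, h2]
  obtain ⟨E, hE⟩ : ∃ E : ℝ, E = Er2 X g R Kn C₂ ϖ' ϖ d := ⟨_, rfl⟩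
  have hQ₁0 : 0 ≤ 1 / ϖ' / Kn + 1 / ϖ' * ϖ := by positivity
  have hE0 : 0 ≤ E := by
    rw [hE]
    unfold Er2
    positivity
  have hE1 : E ≤ 7 * (s * X) + c₁ := by
    rw [hE, hc₁]
    unfold Er2
    have h1 : (1 / ϖ' / Kn + 1 / ϖ' * ϖ) * (X * Real.log 2 + Real.log 5) ≤
        s * X + s * Real.log 5 := by
      have h2 : (X : ℝ) * Real.log 2 + Real.log 5 ≤ X + Real.log 5 := by
        have := mul_le_of_le_one_right hX0 hl2'
        linarith only [this]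
      have h3 : 0 ≤ (X : ℝ) * Real.log 2 + Real.log 5 := by positivity
      refine (mul_le_mul hQ₁ h2 h3 hs0.le).trans (le_of_eq ?_)
      ring
    have h4 : (4 * d + R * Real.log 2) / ϖ' = 4 * d / ϖ' + R * Real.log 2 / ϖ' := by ring
    have h5 : 2 * ((g : ℝ) + R) * Real.log 2 = 2 * g * Real.log 2 + 2 * R * Real.log 2 := by ring
    rw [h4, h5]
    linarith only [h1, hdx1, hdx2, hRx1, hRx2, hgx]
  obtain ⟨e, he⟩ : ∃ e : ℝ, e = E / (h * Real.log 2) := ⟨_, rfl⟩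
  have he0 : 0 ≤ e := by rw [he]; positivity
  have heE : e * (h * Real.log 2) = E := by
    rw [he, div_mul_cancel₀ _ (by positivity)]
  obtain ⟨nn, hnn⟩ : ∃ nn : ℕ, nn = ⌈(2 * e + 2) / (1 - θ) + 2 + e⌉₊ := ⟨_, rfl⟩
  have hn1 : (2 * e + 2) / (1 - θ) + 2 + e ≤ nn := by rw [hnn]; exact Nat.le_ceil _
  have hn2 : (nn : ℝ) ≤ (2 * e + 2) / (1 - θ) + 3 + e := by
    have := (Nat.ceil_lt_add_one (by positivity : 0 ≤ (2 * e + 2) / (1 - θ) + 2 + e)).le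
    rw [hnn]
    linarith only [this]
  have hnl : nn * Real.log 2 ≤ Q * E + 2 * Q := by
    have h1 : (nn : ℝ) ≤ (3 * e + 5) / (1 - θ) := by
      refine hn2.trans ?_
      have h2 : 3 + e ≤ (3 + e) / (1 - θ) := by
        rw [le_div_iff₀ hθ']
        nlinarith only [he0, hθ0]
      have h3 : (2 * e + 2) / (1 - θ) + (3 + e) / (1 - θ) = (3 * e + 5) / (1 - θ) := by
        rw [← add_div]
        congr 1
        ring
      linarith only [h2, h3]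
    have h2 := mul_le_mul_of_nonneg_right h1 hl2.le
    refine h2.trans ?_
    have h3 : (3 * e + 5) / (1 - θ) * Real.log 2 =
        3 * (e * (h * Real.log 2)) / (h * (1 - θ)) + 5 * Real.log 2 / (1 - θ) := by
      field_simp
    rw [h3, heE]
    have h5 : 3 * E / (h * (1 - θ)) = Q * E := by rw [hQ]; ring
    have h6 : 5 * Real.log 2 / (1 - θ) ≤ 2 * Q := by
      rw [hQ, div_le_iff₀ hθ']
      have h7 : 2 * (3 / (h * (1 - θ))) * (1 - θ) = 6 / h := by field_simp; norm_num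
      rw [h7]
      have h8 : (6 : ℝ) ≤ 6 / h := by
        rw [le_div_iff₀ hh0]
        linarith only [hh1]
      linarith only [h8, hl2']
    linarith only [h5, h6]
  have hc : c₀ ≤ ε / 8 * X := by
    rw [div_le_iff₀ hε] at hX2
    linarith only [hX2]
  have hln : C * (2 : ℝ) ^ nn ≤ (2 : ℝ) ^ (ε * X) := by
    have h3 : Real.log (C * 2 ^ nn) ≤ Real.log ((2 : ℝ) ^ (ε * X)) := by
      rw [Real.log_mul (by positivity) (by positivity), Real.log_pow,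
        Real.log_rpow (by norm_num)]
      have h4 : Q * E ≤ 7 * (ε / 32) * X + Q * c₁ := by
        have h5 := mul_le_mul_of_nonneg_left hE1 hQ0.le
        have h6 : Q * (7 * (s * X) + c₁) = 7 * (Q * s) * X + Q * c₁ := by ring
        rw [h6, hQs] at h5
        exact h5
      have h8 : 11 / 32 * (ε * X) ≤ ε * X * Real.log 2 := by
        have h10 : 0 ≤ ε * X := by positivity
        have h11 := mul_le_mul_of_nonneg_left
          (by linarith only [hl2a] : (11 / 32 : ℝ) ≤ Real.log 2) h10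
        linarith only [h11]
      rw [hc₀] at hc
      linarith only [h4, h8, hc, hnl]
    exact (Real.log_le_log_iff (by positivity) (by positivity)).1 h3
  obtain ⟨x, hx⟩ : ∃ x : ℝ, x = η₂ * X / 2 := ⟨_, rfl⟩
  have hx0 : 0 < x := by rw [hx]; positivity
  have hx1 : x ≤ r * Real.log 2 - Real.log (D + 1) := by
    rw [div_le_iff₀ (by positivity)] at hX4
    have h1 : (η₂ * X - 1) * Real.log 2 ≤ r * Real.log 2 := mul_le_mul_of_nonneg_right hr2 hl2.le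
    have h2 : η₂ * X * (5 / 8) ≤ η₂ * X * Real.log 2 :=
      mul_le_mul_of_nonneg_left (by linarith only [hl2a]) (by positivity)
    have h3 : (η₂ * X - 1) * Real.log 2 = η₂ * X * Real.log 2 - Real.log 2 := by ring
    rw [h3] at h1
    rw [hx]
    linarith only [h1, h2, hX4, hl2']
  have hR' : 4 * K * ((D : ℝ) ^ 2 + 1) * 2 ^ (r * D) ≤ 2 ^ R := hR
  have hEe : Er2 X g R Kn C₂ ϖ' ϖ d ≤ e * (h * Real.log 2) := by rw [heE, hE]
  have key := lk0_nearN H hC hθ0 hθ1 hh0 hh1 hϖ0.le hd hNg hKn0 hK hb hR' hrR (hRX.trans H.XM)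
    hC₂ hϖ'0 hEe he0 hn1 hln hx0 hx1
  refine key.trans ?_
  have hN2 : ((N : ℝ) + 2) ^ 2 * ϖ' = ε / 8 := by
    rw [hϖ']
    field_simp
  have hbad : 2 * ((4 * d + Real.log 2) / x) ≤ ε / 2 := by
    rw [← mul_div_assoc, div_le_iff₀ hx0, hx]
    have h1 : d ≤ ε * η₂ / 64 * X := hdκ.trans (mul_le_mul_of_nonneg_right hκ3 hX0)
    rw [div_le_iff₀ (by positivity)] at hX5
    have h2 : 0 ≤ ε * η₂ * X := by positivity
    have h3 : ε / 2 * (η₂ * X / 2) = ε * η₂ * X / 4 := by ring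
    have h4 : X * (ε * η₂) = ε * η₂ * X := by ring
    have h5 : ε * η₂ / 64 * X = ε * η₂ * X / 64 := by ring
    rw [h3]
    rw [h4] at hX5
    rw [h5] at h1
    linarith only [h1, hX5, hl2']
  rw [hN2]
  linarith only [hbad, hε]

end Pool.LPK12
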