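import Pool.Agent.H12.LPK.Cel
import Pool.Agent.H16.LP.Fin

/-!
# The displacement polynomials are usually small, with all the numbers
-/

set_option autoImplicit false

namespace Pool.LPK12

open Finset Real
open Pool.Agent.H49.Ent Pool.Agent.H32.Dense Pool.STK Pool.POT Pool.TQ Pool.LPX
open Pool.K2S (Pe)

/-- A full variable is rarely in a small set which is a function of the condition. -/
theorem bad_massD {Ω' τ : Type} [Fintype Ω'] {q : Ω' → ℝ} {W : Ω' → τ} {e : Ω' → ℤ} (hq : IsLaw q)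
    {R : ℕ} {D : ℝ} (he : ∀ ω, 0 < q ω → 0 ≤ e ω ∧ e ω < 2 ^ R)
    (full : R * Real.log 2 - D ≤ CH q e W) (T : Ω' → Finset ℤ) (hdet : Det q W T) {x : ℝ}
    (hx : x ≤ R * Real.log 2) (hT : ∀ w, Real.log ((T w).card : ℝ) ≤ R * Real.log 2 - x) :
    Pe q (fun ω => e ω ∈ T ω) * x ≤ D + Real.log 2 := by
  classical
  obtain ⟨T', hT'⟩ : ∃ T' : τ → Finset ℤ, T' = fun z => if h : ∃ w, 0 < q w ∧ W w = z then
    T h.choose else ∅ := ⟨_, rfl⟩
  have h1 : ∀ w, 0 < q w → T' (W w) = T w := by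
    intro w hw
    have h : ∃ w', 0 < q w' ∧ W w' = W w := ⟨w, hw, rfl⟩
    rw [hT']
    simp only [h, dite_true]
    exact hdet _ _ h.choose_spec.1 hw h.choose_spec.2
  have h2 := bad_mass hq he full T' (x := x) (by
    intro z
    rw [hT']
    by_cases h : ∃ w, 0 < q w ∧ W w = z
    · simp only [h, dite_true]
      exact hT _
    · simp only [h, dite_false, Finset.card_empty, Nat.cast_zero, Real.log_zero]
      linarith)
  have h3 : Pe q (fun ω => e ω ∈ T ω) = Pe q (fun ω => e ω ∈ T' (W ω)) := by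
    rw [Pool.K2S.Pe_eq, Pool.K2S.Pe_eq]
    refine Finset.sum_congr rfl fun ω _ => ?_
    rcases (hq.nonneg ω).eq_or_lt with h0 | h0
    · rw [← h0]
      split_ifs <;> rfl
    · rw [h1 ω h0]
  rw [h3]
  exact h2

/-- The logarithm of the number of bad intervals. -/
theorem log_bads {D R r : ℕ} {K : ℝ} (hK : 1 ≤ K) (hr : r ≤ R)
    (hb : ∀ (c : Fin D → ℝ) (R r : ℕ) (lam : ℝ), r ≤ R →
      K * 2 ^ (r * D) * lam < n1 c → ((bads c R lam).card : ℝ) ≤ D * 2 ^ (R - r))
    (c : Fin D → ℝ) : Real.log ((bads c R (thr K r c)).card : ℝ) ≤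
      R * Real.log 2 - (r * Real.log 2 - Real.log (D + 1)) := by
  have hl2 : 0 ≤ Real.log 2 := Real.log_nonneg (by norm_num)
  have hD : (0 : ℝ) ≤ D := Nat.cast_nonneg D
  have hlD : 0 ≤ Real.log ((D : ℝ) + 1) := Real.log_nonneg (by linarith)
  have hrR : (r : ℝ) * Real.log 2 ≤ R * Real.log 2 :=
    mul_le_mul_of_nonneg_right (by exact_mod_cast hr) hl2
  have h2r : (0 : ℝ) < 2 ^ (r * D) := by positivity
  rcases (n1_nonneg c).eq_or_lt with h0 | h0
  · have h1 : bads c R (thr K r c) = ∅ := by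
      unfold bads thr
      rw [← h0, zero_div]
      refine Finset.filter_eq_empty_iff.2 fun e _ he => ?_
      exact absurd (abs_nonneg ((Polynomial.derivative (pol c)).eval ((e : ℝ) / 2 ^ R)))
        (not_le.2 he)
    rw [h1, Finset.card_empty, Nat.cast_zero, Real.log_zero]
    linarith
  · have h1 := hb c R r (thr K r c) hr (by
      unfold thr
      have : K * 2 ^ (r * D) * (n1 c / (2 * K * 2 ^ (r * D))) = n1 c / 2 := by
        field_simp
      rw [this]
      linarith)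
    rcases Nat.eq_zero_or_pos (bads c R (thr K r c)).card with h2 | h2
    · rw [h2, Nat.cast_zero, Real.log_zero]
      linarith
    · have h3 : (0 : ℝ) < ((bads c R (thr K r c)).card : ℝ) := by exact_mod_cast h2
      have h4 : Real.log ((bads c R (thr K r c)).card : ℝ) ≤
          Real.log (((D : ℝ) + 1) * 2 ^ (R - r)) := by
        refine Real.log_le_log h3 (h1.trans ?_)
        exact mul_le_mul_of_nonneg_right (by linarith) (by positivity)
      rw [Real.log_mul (by positivity) (by positivity), Real.log_pow, Nat.cast_sub hr] at h4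
      linarith

variable {Ω Ω' τ σ : Type} [Fintype Ω] [Fintype Ω']
  {D : ℕ} {p : Ω → ℝ} {q : Ω' → ℝ} {f : Ω' → Ω} {W : Ω' → τ} {t : Ω' → ℤ} {U Z : Ω → ℤ}
  {S : Ω → σ} {AU AZ : Ω' → ℝ} {gU gZ : Ω' → Fin D → ℝ} {M X : ℕ} {C θ h ϖ d : ℝ}

/-- The mass of the bad times. -/
theorem mass_gd (H : Lk0 D p q f W t U Z S AU AZ gU gZ M X C θ h ϖ d) {R r : ℕ} {K : ℝ}
    (hK : 1 ≤ K) (hr : r ≤ R) (hRM : R ≤ M)
    (hb : ∀ (c : Fin D → ℝ) (R r : ℕ) (lam : ℝ), r ≤ R →
      K * 2 ^ (r * D) * lam < n1 c → ((bads c R lam).card : ℝ) ≤ D * 2 ^ (R - r))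
    (c : Ω' → Fin D → ℝ) (hdet : Det q W c) :
    Pe q (fun w => ¬ gd t c M R r K w) *
      (r * Real.log 2 - Real.log (D + 1)) ≤ 4 * d + Real.log 2 := by
  classical
  have hq := H.lq
  have hl2 : 0 ≤ Real.log 2 := Real.log_nonneg (by norm_num)
  have hlD : 0 ≤ Real.log ((D : ℝ) + 1) := Real.log_nonneg (by
    have : (0 : ℝ) ≤ D := Nat.cast_nonneg D
    linarith)
  have h1 := time_tp hq t W hRM H.full
  have h2 := bad_massD hq (e := fun w => tp M R (t w)) (R := R)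
    (fun w hw => tp_range hRM (H.t0 w hw)) h1 (fun w => bads (c w) R (thr K r (c w)))
    (fun w w' x x' e => by
      have := hdet w w' x x' e
      simp only [this])
    (x := r * Real.log 2 - Real.log (D + 1)) (by
      have : (r : ℝ) * Real.log 2 ≤ R * Real.log 2 :=
        mul_le_mul_of_nonneg_right (by exact_mod_cast hr) hl2
      linarith)
    (fun w => log_bads hK hr hb _)
  have h3 : (fun w => ¬ gd t c M R r K w) =
      (fun w => tp M R (t w) ∈ bads (c w) R (thr K r (c w))) := by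
    funext w
    unfold gd
    rw [not_not]
  rw [h3]
  exact h2

open Classical in
/-- The displacements are usually small, with all the numbers. -/
theorem lk0_nearN (H : Lk0 D p q f W t U Z S AU AZ gU gZ M X C θ h ϖ d) (hC : 1 ≤ C)
    (hθ0 : 0 < θ) (hθ1 : θ < 1) (hh0 : 0 < h) (hh1 : h ≤ 1) (hϖ : 0 ≤ ϖ) (hd : 0 ≤ d)
    {g N Kn R r : ℕ} {K C₂ : ℝ} (hN : X ≤ N * g) (hKn : 0 < Kn) (hK : 1 ≤ K)
    (hb : ∀ (c : Fin D → ℝ) (R r : ℕ) (lam : ℝ), r ≤ R →
      K * 2 ^ (r * D) * lam < n1 c → ((bads c R lam).card : ℝ) ≤ D * 2 ^ (R - r))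
    (hR : 4 * K * (D ^ 2 + 1) * 2 ^ (r * D) ≤ 2 ^ R) (hrR : r ≤ R) (hRM : R ≤ M)
    (hC₂ : C₂ = (D + 2) * C) {ϖ' : ℝ} (hϖ' : 0 < ϖ') {e : ℝ}
    (he : Er2 X g R Kn C₂ ϖ' ϖ d ≤ e * (h * Real.log 2)) (he0 : 0 ≤ e) {nn : ℕ}
    (hnn : (2 * e + 2) / (1 - θ) + 2 + e ≤ nn) {T : ℝ} (hT : C * 2 ^ nn ≤ T)
    {x : ℝ} (hx0 : 0 < x) (hx : x ≤ r * Real.log 2 - Real.log (D + 1)) :
    Ex q (fun w => if n1 (gZ w) ≤ T ∧ n1 (gU w) ≤ T then 0 else 1) ≤
      (N + 2) ^ 2 * ϖ' + 2 * ((4 * d + Real.log 2) / x) := by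
  have hq := H.lq
  have HSU := H.su
  obtain ⟨n, hnd⟩ : ∃ n : ℕ, n = ⌈θ * X⌉₊ := ⟨_, rfl⟩
  rw [← hnd] at HSU
  obtain ⟨P, hP⟩ : ∃ P : ℕ → ℕ → Prop, P = fun i j => X ≤ j * g + nn ∧ n ≤ i * g + nn := ⟨_, rfl⟩
  obtain ⟨gu, hgu⟩ : ∃ gu : Ω' → Prop, gu = gd t gU M R r K := ⟨_, rfl⟩
  obtain ⟨gz, hgz⟩ : ∃ gz : Ω' → Prop, gz = gd t gZ M R r K := ⟨_, rfl⟩
  obtain ⟨I, hI⟩ : ∃ I : Ω' → ℕ, I = fun w => idx C g N (n1 (gU w) / 2 ^ n) := ⟨_, rfl⟩
  obtain ⟨J, hJ⟩ : ∃ J : Ω' → ℕ, J = fun w => idx C g N (n1 (gZ w) / 2 ^ X) := ⟨_, rfl⟩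
  obtain ⟨I', hI'⟩ : ∃ I' : Ω' → ℕ, I' = fun w => if gu w ∧ gz w then I w else N + 1 :=
    ⟨_, rfl⟩
  have hIN : ∀ w, I w ≤ N := fun w => by rw [hI]; exact idx_le _ _ _ _
  have hJN : ∀ w, J w ≤ N := fun w => by rw [hJ]; exact idx_le _ _ _ _
  have hbad := bad_le (q := q) (N + 1) I' J (fun w => by
      rw [hI']
      have := hIN w
      simp only
      split_ifs <;> omega) (fun w => (hJN w).trans (Nat.le_succ _)) hϖ'.le
    (fun i j => i ≤ N → P i j) (by
      intro i j hij hiN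
      have hcel : ϖ' ≤ Pe q (cel gU gZ t M X ⌈θ * X⌉₊ g N R r C K i j) := by
        refine hij.trans ?_
        refine Pool.K2S.Pe_mono hq ?_
        rintro w ⟨h1, h2⟩
        rw [hI'] at h1
        simp only at h1
        by_cases hgg : gu w ∧ gz w
        · rw [if_pos hgg] at h1
          refine ⟨⟨?_, ?_⟩, ?_, ?_⟩
          · rw [← hnd, ← h1, hI]
          · rw [← h2, hJ]
          · rw [← hgu]
            exact hgg.1
          · rw [← hgz]
            exact hgg.2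
        · rw [if_neg hgg] at h1
          omega
      obtain ⟨h1, h2⟩ := cell_okP H hC hθ0 hθ1 hh0 hh1 hϖ hd hN hKn hK hR hRM hC₂ hϖ' i j hcel he
      rw [← hnd] at h2
      rw [hP]
      constructor
      · have : (X : ℝ) ≤ ((j * g + nn : ℕ) : ℝ) := by
          push_cast at h1 ⊢
          linarith
        exact_mod_cast this
      · have : (n : ℝ) ≤ ((i * g + nn : ℕ) : ℝ) := by
          push_cast at h2 ⊢
          linarith
        exact_mod_cast this)
  -- the bad times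
  have mu := mass_gd H hK hrR hRM hb gU H.u.dc
  have mz := mass_gd H hK hrR hRM hb gZ H.z.dc
  rw [← hgu] at mu
  rw [← hgz] at mz
  have mass : ∀ A : Ω' → Prop, Pe q A * (r * Real.log 2 - Real.log (D + 1)) ≤
      4 * d + Real.log 2 → Pe q A ≤ (4 * d + Real.log 2) / x := by
    intro A hA
    rw [le_div_iff₀ hx0]
    refine le_trans ?_ hA
    exact mul_le_mul_of_nonneg_left hx (Pool.K2S.Pe_nonneg hq A)
  have mu' := mass _ mu
  have mz' := mass _ mz
  -- the differences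
  have hdif : ∀ (c : Fin D → ℝ) (n a : ℕ), n ≤ a + nn → n1 c / 2 ^ n * 2 ^ a ≤ C → n1 c ≤ T := by
    intro c n a hna h1
    have hPn : (0 : ℝ) < 2 ^ n := by positivity
    have hPa : (0 : ℝ) < 2 ^ a := by positivity
    rw [div_mul_eq_mul_div, div_le_iff₀ hPn] at h1
    have h3 : n1 c * 2 ^ a ≤ (C * 2 ^ nn) * 2 ^ a := by
      refine h1.trans ?_
      rw [mul_assoc, ← pow_add]
      refine mul_le_mul_of_nonneg_left (pow_le_pow_right₀ (by norm_num) (by omega)) (by linarith)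
    have h4 := le_of_mul_le_mul_right h3 hPa
    linarith
  have abn : ∀ (c : Fin D → ℝ) (n : ℕ), |n1 c / 2 ^ n| = n1 c / 2 ^ n := fun c n =>
    abs_of_nonneg (div_nonneg (n1_nonneg _) (by positivity))
  have hgood : ∀ w : Ω', 0 < q w → P (I w) (J w) → n1 (gZ w) ≤ T ∧ n1 (gU w) ≤ T := by
    intro w hw hPw
    rw [hP] at hPw
    constructor
    · refine hdif (gZ w) X (J w * g) hPw.1 ?_
      have e1 : |n1 (gZ w) / 2 ^ X| ≤ C := by
        rw [abn, div_le_iff₀ (by positivity)]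
        exact H.sz w hw
      have e2 := idx_spec (g := g) (N := N) e1
      rw [abn] at e2
      rw [hJ]
      exact e2
    · refine hdif (gU w) n (I w * g) hPw.2 ?_
      have e1 : |n1 (gU w) / 2 ^ n| ≤ C := by
        rw [abn, div_le_iff₀ (by positivity)]
        exact HSU w hw
      have e2 := idx_spec (g := g) (N := N) e1
      rw [abn] at e2
      rw [hI]
      exact e2
  have e2 : Ex q (fun w => if n1 (gZ w) ≤ T ∧ n1 (gU w) ≤ T then (0 : ℝ) else 1) ≤
      Ex q (fun w => (if (I' w ≤ N → P (I' w) (J w)) then (0 : ℝ) else 1) +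
        ((if ¬ gu w then (1 : ℝ) else 0) + (if ¬ gz w then (1 : ℝ) else 0))) := by
    refine Ex_mono hq.nonneg fun w hw => ?_
    by_cases hgg : gu w ∧ gz w
    · have hI1 : I' w = I w := by
        rw [hI']
        simp only [hgg, and_self, if_true]
      rw [hI1]
      by_cases h1 : P (I w) (J w)
      · rw [if_pos (hgood w hw h1)]
        positivity
      · have h2 : ¬ (I w ≤ N → P (I w) (J w)) := fun h => h1 (h (hIN w))
        rw [if_neg h2]
        have h3 : (0 : ℝ) ≤ (if ¬ gu w then (1 : ℝ) else 0) + (if ¬ gz w then (1 : ℝ) else 0) := by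
          positivity
        split_ifs <;> linarith
    · have h3 : (1 : ℝ) ≤ (if ¬ gu w then (1 : ℝ) else 0) + (if ¬ gz w then (1 : ℝ) else 0) := by
        by_cases h4 : gu w
        · have h5 : ¬ gz w := fun h => hgg ⟨h4, h⟩
          rw [if_neg (not_not.2 h4), if_pos h5]
          norm_num
        · rw [if_pos h4]
          have : (0 : ℝ) ≤ (if ¬ gz w then (1 : ℝ) else 0) := by positivity
          linarith
      have h5 : (0 : ℝ) ≤ (if (I' w ≤ N → P (I' w) (J w)) then (0 : ℝ) else 1) := by positivity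
      split_ifs at h3 h5 ⊢ <;> linarith
  refine e2.trans ?_
  have e3 : Ex q (fun w => (if (I' w ≤ N → P (I' w) (J w)) then (0 : ℝ) else 1) +
        ((if ¬ gu w then (1 : ℝ) else 0) + (if ¬ gz w then (1 : ℝ) else 0))) =
      Ex q (fun w => if (I' w ≤ N → P (I' w) (J w)) then (0 : ℝ) else 1) +
        (Pe q (fun w => ¬ gu w) + Pe q (fun w => ¬ gz w)) := by
    rw [Pool.K2S.Pe_eq, Pool.K2S.Pe_eq]
    unfold Ex
    rw [← Finset.sum_add_distrib, ← Finset.sum_add_distrib]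
    refine Finset.sum_congr rfl fun w _ => ?_
    by_cases h1 : gu w <;> by_cases h2 : gz w <;> simp only [h1, h2, not_true, not_false_iff,
      if_true, if_false] <;> ring
  rw [e3]
  push_cast at hbad
  have e4 : ((N : ℝ) + 1 + 1) ^ 2 * ϖ' = (N + 2) ^ 2 * ϖ' := by ring
  rw [e4] at hbad
  have e5 : Ex q (fun w => if (I' w ≤ N → P (I' w) (J w)) then (0 : ℝ) else 1) ≤
      (N + 2) ^ 2 * ϖ' := by
    refine le_trans (le_of_eq ?_) hbad
    unfold Ex
    refine Finset.sum_congr rfl fun w _ => ?_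
    beta_reduce
    by_cases h1 : (I' w ≤ N → P (I' w) (J w))
    · rw [if_pos h1, if_pos h1]
    · rw [if_neg h1, if_neg h1]
  linarith

end Pool.LPK12
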