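import Pool.Agent.H20.KAL.TAY

/-!
# A polynomial all of whose jets but one are small at a point
-/

set_option autoImplicit false

namespace Pool.LPK12

open Finset Real

/-- The value from the jets at a point. -/
theorem taylor_sum {D : ℕ} {E : Polynomial ℝ} (hE : E.natDegree ≤ D) (x τ : ℝ) :
    E.eval x = ∑ k ∈ range (D + 1), (Polynomial.taylor τ E).coeff k * (x - τ) ^ k := by
  have h1 : E.eval x = (Polynomial.taylor τ E).eval (x - τ) := by
    rw [Polynomial.taylor_eval]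
    congr 1
    ring
  rw [h1, Polynomial.eval_eq_sum_range' (n := D + 1)]
  rw [Polynomial.natDegree_taylor]
  omega

theorem taylor_jet (E : Polynomial ℝ) (τ : ℝ) (k : ℕ) :
    (k.factorial : ℝ) * (Polynomial.taylor τ E).coeff k =
      (Polynomial.derivative^[k] E).eval τ := by
  rw [Polynomial.taylor_coeff]
  have h1 := congrFun (Polynomial.factorial_smul_hasseDeriv (R := ℝ) k) E
  rw [← h1]
  simp

theorem taylor_le {E : Polynomial ℝ} {τ C : ℝ} {k : ℕ}
    (h : |(Polynomial.derivative^[k] E).eval τ| ≤ C) :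
    |(Polynomial.taylor τ E).coeff k| ≤ C := by
  rw [← taylor_jet, abs_mul] at h
  have h1 : (1 : ℝ) ≤ |(k.factorial : ℝ)| := by
    rw [abs_of_nonneg (by positivity)]
    exact_mod_cast Nat.one_le_iff_ne_zero.2 (Nat.factorial_ne_zero k)
  exact (le_mul_of_one_le_left (abs_nonneg _) h1).trans h

/-- **One large jet**: the polynomial is its coefficient times the power. -/
theorem one_jet (D : ℕ) : ∃ K : ℝ, 1 ≤ K ∧ ∀ (E : Polynomial ℝ) (i₀ : ℕ) (τ C : ℝ),
    E.natDegree ≤ D → i₀ ≤ D → 0 ≤ τ → τ ≤ 1 → 0 ≤ C →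
    (∀ k, k ≠ i₀ → |(Polynomial.derivative^[k] E).eval τ| ≤ C) →
    ∀ x, 0 ≤ x → x ≤ 1 → |E.eval x - E.coeff i₀ * (x - τ) ^ i₀| ≤ K * C := by
  classical
  obtain ⟨B, hB0, hB⟩ := Pool.KAL.TAY.coef_bound D
  refine ⟨(D + 1) * (1 + B) + 1, by
    have : 0 ≤ ((D : ℝ) + 1) * (1 + B) := by positivity
    linarith, ?_⟩
  intro E i₀ τ C hE hi hτ0 hτ1 hC hjet x hx0 hx1
  obtain ⟨g, hg⟩ : ∃ g : ℝ, g = (Polynomial.taylor τ E).coeff i₀ := ⟨_, rfl⟩
  obtain ⟨F, hF⟩ : ∃ F : Polynomial ℝ, F = E - Polynomial.C g * (Polynomial.X - Polynomial.C τ) ^ i₀ :=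
    ⟨_, rfl⟩
  have hFdeg : F.natDegree ≤ D := by
    rw [hF]
    refine (Polynomial.natDegree_sub_le _ _).trans (max_le hE ?_)
    refine (Polynomial.natDegree_C_mul_le _ _).trans ?_
    rw [Polynomial.natDegree_pow, Polynomial.natDegree_X_sub_C, mul_one]
    exact hi
  have hFval : ∀ y, F.eval y = E.eval y - g * (y - τ) ^ i₀ := by
    intro y
    rw [hF]
    simp
  have hFle : ∀ y, 0 ≤ y → y ≤ 1 → |F.eval y| ≤ (D + 1) * C := by
    intro y hy0 hy1
    rw [hFval, taylor_sum hE y τ]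
    have hmem : i₀ ∈ range (D + 1) := Finset.mem_range.2 (by omega)
    rw [← Finset.add_sum_erase _ _ hmem, ← hg, add_sub_cancel_left]
    have hyτ : |y - τ| ≤ 1 := by
      rw [abs_le]
      constructor <;> linarith
    have h1 : ∀ k ∈ (range (D + 1)).erase i₀,
        |(Polynomial.taylor τ E).coeff k * (y - τ) ^ k| ≤ C := by
      intro k hk
      have h2 := taylor_le (hjet k (Finset.mem_erase.1 hk).1)
      rw [abs_mul, abs_pow]
      calc |(Polynomial.taylor τ E).coeff k| * |y - τ| ^ k ≤ C * 1 :=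
            mul_le_mul h2 (pow_le_one₀ (abs_nonneg _) hyτ) (by positivity) hC
        _ = C := mul_one C
    refine (Finset.abs_sum_le_sum_abs _ _).trans ((Finset.sum_le_sum h1).trans ?_)
    rw [Finset.sum_const, nsmul_eq_mul]
    refine mul_le_mul_of_nonneg_right ?_ hC
    have h3 : ((range (D + 1)).erase i₀).card ≤ D + 1 :=
      (Finset.card_erase_le).trans (by rw [Finset.card_range])
    exact_mod_cast h3
  have hco := hB F ((D + 1) * C) hFdeg hFle i₀ hi
  have hmon : ((Polynomial.X - Polynomial.C τ) ^ i₀ : Polynomial ℝ).coeff i₀ = 1 := by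
    have h1 := (Polynomial.monic_X_sub_C τ).pow i₀
    have h2 : ((Polynomial.X - Polynomial.C τ) ^ i₀ : Polynomial ℝ).natDegree = i₀ := by
      rw [Polynomial.natDegree_pow, Polynomial.natDegree_X_sub_C, mul_one]
    have h3 := h1.coeff_natDegree
    rwa [h2] at h3
  have hcF : F.coeff i₀ = E.coeff i₀ - g := by
    rw [hF, Polynomial.coeff_sub, Polynomial.coeff_C_mul, hmon, mul_one]
  rw [hcF] at hco
  have hxτ : |x - τ| ≤ 1 := by
    rw [abs_le]
    constructor <;> linarith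
  have h4 : E.eval x - E.coeff i₀ * (x - τ) ^ i₀ = F.eval x - (E.coeff i₀ - g) * (x - τ) ^ i₀ := by
    rw [hFval]
    ring
  rw [h4]
  refine (abs_sub _ _).trans ?_
  have h5 : |(E.coeff i₀ - g) * (x - τ) ^ i₀| ≤ B * ((D + 1) * C) := by
    rw [abs_mul, abs_pow]
    calc |E.coeff i₀ - g| * |x - τ| ^ i₀ ≤ (B * ((D + 1) * C)) * 1 :=
          mul_le_mul hco (pow_le_one₀ (abs_nonneg _) hxτ) (by positivity) (by positivity)
      _ = B * ((D + 1) * C) := mul_one _
  have h6 := hFle x hx0 hx1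
  have h7 : ((D : ℝ) + 1) * C + B * ((D + 1) * C) = (D + 1) * (1 + B) * C := by ring
  linarith

/-- The binomial formula, without the constant term. -/
theorem binom_pow {D i₀ : ℕ} (hi : i₀ ≤ D) (x t : ℝ) : (x - t) ^ i₀ = x ^ i₀ +
    ∑ j : Fin D, ((-1) ^ ((j : ℕ) + 1) * x ^ (i₀ - ((j : ℕ) + 1)) * (i₀.choose ((j : ℕ) + 1))) *
      t ^ ((j : ℕ) + 1) := by
  have h1 : (x - t) ^ i₀ = ∑ k ∈ range (D + 1), (-1) ^ k * x ^ (i₀ - k) * (i₀.choose k) * t ^ k := by
    have h2 : (x - t) ^ i₀ = ∑ k ∈ range (i₀ + 1), (-t) ^ k * x ^ (i₀ - k) * (i₀.choose k) := by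
      rw [← add_pow]
      congr 1
      ring
    rw [h2]
    have h3 : range (i₀ + 1) ⊆ range (D + 1) := Finset.range_subset_range.2 (by omega)
    rw [← Finset.sum_subset h3]
    · refine Finset.sum_congr rfl fun k _ => ?_
      rw [neg_pow]
      ring
    · intro k _ hk
      have h4 : i₀ < k := by
        rw [Finset.mem_range] at hk
        omega
      rw [Nat.choose_eq_zero_of_lt h4]
      simp
  rw [h1, Finset.sum_range_succ', Fin.sum_univ_eq_sum_range
    (fun j => ((-1) ^ (j + 1) * x ^ (i₀ - (j + 1)) * (i₀.choose (j + 1) : ℝ)) * t ^ (j + 1))]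
  simp only [pow_zero, Nat.sub_zero, Nat.choose_zero_right, Nat.cast_one, mul_one, one_mul]
  ring

end Pool.LPK12
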