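import Pool.Agent.H12.LPK.Lk0
import Pool.Agent.H12.LPK.Tay
import Pool.Agent.H16.LP.Alv

/-!
# LPK, one alive order on each path

`Crq`: the own path of a line is a polynomial; two lines over one ball have the same jets at the time
of the ball, except for the order `i₀`. `lq_near`: the alive codes of two lines over one ball are
usually near.
-/

set_option autoImplicit false

namespace Pool.LPK12

open Finset Real
open Pool.Agent.H49.Ent Pool.Agent.H32.Dense Pool.STK Pool.POT Pool.TQ Pool.LPX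
open Pool.K2S (Pe)

/-- One coordinate with the own path `P` and one alive order `i₀` with the code `a`; the time has `M`
digits, the value `n` digits. -/
structure Crq {Ω β Λ : Type} (D i₀ : ℕ) (p : Ω → ℝ) (B : Ω → β) (ln : Ω → Λ) (t V a : Ω → ℤ)
    (P : Ω → Polynomial ℝ) (M n : ℕ) (C : ℝ) : Prop where
  i1 : 1 ≤ i₀
  iD : i₀ ≤ D
  dP : Det p ln P
  da : Det p ln a
  deg : ∀ ω, 0 < p ω → (P ω).natDegree ≤ D
  rel : ∀ ω, 0 < p ω → |(V ω : ℝ) - (P ω).eval ((t ω : ℝ) / 2 ^ M)| ≤ C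
  jet : ∀ ω ω', 0 < p ω → 0 < p ω' → B ω = B ω' → ∀ k, k ≠ i₀ →
    |(Polynomial.derivative^[k] (P ω)).eval ((t ω : ℝ) / 2 ^ M) -
      (Polynomial.derivative^[k] (P ω')).eval ((t ω' : ℝ) / 2 ^ M)| ≤ C
  cod : ∀ ω, 0 < p ω → |(a ω : ℝ) - (P ω).coeff i₀| ≤ C
  siz : ∀ ω ω', 0 < p ω → 0 < p ω' → B ω = B ω' → |(a ω : ℝ) - a ω'| ≤ C * 2 ^ n

/-- The coefficients of the displacement of order `i₀`. -/
noncomputable def gq {Ω : Type} (D i₀ : ℕ) (t a : Ω → ℤ) (M : ℕ) (w : (Ω × Ω) × Ω) : Fin D → ℝ :=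
  fun j => ((a w.1.2 : ℝ) - a w.1.1) * ((-1) ^ ((j : ℕ) + 1) *
    ((t w.2 : ℝ) / 2 ^ M) ^ (i₀ - ((j : ℕ) + 1)) * (i₀.choose ((j : ℕ) + 1)))

variable {Ω β Λ υ σ : Type}

theorem gq_le {D i₀ : ℕ} (hi : i₀ ≤ D) {t a : Ω → ℤ} {M : ℕ} {w : (Ω × Ω) × Ω}
    (ht : 0 ≤ t w.2 ∧ t w.2 < 2 ^ M) :
    n1 (gq D i₀ t a M w) ≤ 2 ^ D * |(a w.1.2 : ℝ) - a w.1.1| := by
  obtain ⟨x0, x1⟩ := time_unit ht
  unfold n1 gq
  have h1 : ∀ j ∈ (Finset.univ : Finset (Fin D)), |((a w.1.2 : ℝ) - a w.1.1) *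
      ((-1) ^ ((j : ℕ) + 1) * ((t w.2 : ℝ) / 2 ^ M) ^ (i₀ - ((j : ℕ) + 1)) *
        (i₀.choose ((j : ℕ) + 1)))| ≤ |(a w.1.2 : ℝ) - a w.1.1| * (D.choose ((j : ℕ) + 1)) := by
    intro j _
    rw [abs_mul]
    refine mul_le_mul_of_nonneg_left ?_ (abs_nonneg _)
    rw [abs_mul, abs_mul, abs_pow, abs_neg, abs_one, one_pow, one_mul, abs_pow, abs_of_nonneg x0,
      Nat.abs_cast]
    have h2 : ((i₀.choose ((j : ℕ) + 1) : ℕ) : ℝ) ≤ (D.choose ((j : ℕ) + 1) : ℕ) := by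
      exact_mod_cast Nat.choose_le_choose _ hi
    calc ((t w.2 : ℝ) / 2 ^ M) ^ (i₀ - ((j : ℕ) + 1)) * ((i₀.choose ((j : ℕ) + 1) : ℕ) : ℝ) ≤
          1 * ((i₀.choose ((j : ℕ) + 1) : ℕ) : ℝ) :=
          mul_le_mul_of_nonneg_right (pow_le_one₀ x0 x1) (Nat.cast_nonneg _)
      _ ≤ (D.choose ((j : ℕ) + 1) : ℕ) := by
          rw [one_mul]
          exact h2
  refine (Finset.sum_le_sum h1).trans ?_
  rw [← Finset.mul_sum, mul_comm]
  refine mul_le_mul_of_nonneg_right ?_ (abs_nonneg _)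
  have h3 : ∑ j : Fin D, ((D.choose ((j : ℕ) + 1) : ℕ) : ℝ) ≤ ((2 ^ D : ℕ) : ℝ) := by
    rw [Fin.sum_univ_eq_sum_range (fun j => ((D.choose (j + 1) : ℕ) : ℝ)), ← Nat.cast_sum]
    have h4 := Nat.sum_range_choose D
    rw [Finset.sum_range_succ'] at h4
    exact_mod_cast (by omega : ∑ k ∈ range D, D.choose (k + 1) ≤ 2 ^ D)
  refine h3.trans (le_of_eq ?_)
  push_cast
  rfl

theorem le_gq {D i₀ : ℕ} (hi1 : 1 ≤ i₀) (hi : i₀ ≤ D) {t a : Ω → ℤ} {M : ℕ} {w : (Ω × Ω) × Ω} :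
    |(a w.1.2 : ℝ) - a w.1.1| ≤ n1 (gq D i₀ t a M w) := by
  have h1 := le_n1 (gq D i₀ t a M w) ⟨i₀ - 1, by omega⟩
  have h2 : gq D i₀ t a M w ⟨i₀ - 1, by omega⟩ = ((a w.1.2 : ℝ) - a w.1.1) * (-1) ^ i₀ := by
    unfold gq
    have e1 : i₀ - 1 + 1 = i₀ := by omega
    simp only [e1, Nat.sub_self, pow_zero, mul_one, Nat.choose_self, Nat.cast_one]
  rw [h2, abs_mul, abs_pow, abs_neg, abs_one, one_pow, mul_one] at h1
  exact h1

/-- **The relation** of one alive order: `V₃ = A + (a₁ - a₀) ((t₃ - t₁)^i₀ - t₃^i₀)`. -/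
theorem crq_rel (D : ℕ) : ∃ K : ℝ, 1 ≤ K ∧
    ∀ {Ω β Λ υ σ : Type} [Fintype Ω] {p : Ω → ℝ} {B : Ω → β} {ln : Ω → Λ} {Y : Ω → υ}
    {S : Ω → σ} {t V a : Ω → ℤ} {P : Ω → Polynomial ℝ} {Nb : υ → Finset υ} {M n i₀ : ℕ}
    {d κ₀ C : ℝ}, Lp p B ln Y S t Nb M d κ₀ → Crq D i₀ p B ln t V a P M n C → 0 ≤ C →
    ∀ {δ : Type} (k : Ω → Ω → δ) (f : δ → ℤ), (∀ ω ω', f (k ω ω') = a ω' - a ω) →
    Rlp (q3 p B ln) (Wq ln t Y k) (fun w => t w.1.1) (fun w => V w.2)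
      (fun w => (P w.1.1).eval ((t w.2 : ℝ) / 2 ^ M) +
        ((a w.1.2 : ℝ) - a w.1.1) * ((t w.2 : ℝ) / 2 ^ M) ^ i₀)
      (gq D i₀ t a M) M (K * C) := by
  obtain ⟨K, hK, hone⟩ := one_jet D
  refine ⟨K + 3, by linarith, ?_⟩
  intro Ω β Λ υ σ _ p B ln Y S t V a P Nb M n i₀ d κ₀ C h hV hC δ k f hk
  have h0 := h.law.nonneg
  have hd : ∀ w : (Ω × Ω) × Ω, (f (Wq ln t Y k w).2.2.2 : ℝ) = (a w.1.2 : ℝ) - a w.1.1 := by
    intro w
    show (f (k w.1.1 w.1.2) : ℝ) = _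
    rw [hk]
    push_cast
    ring
  have hdel : ∀ w w', 0 < q3 p B ln w → 0 < q3 p B ln w' → Wq ln t Y k w = Wq ln t Y k w' →
      (a w.1.2 : ℝ) - a w.1.1 = (a w'.1.2 : ℝ) - a w'.1.1 := by
    intro w w' _ _ e
    rw [← hd, ← hd, e]
  refine ⟨?_, ?_, ?_⟩
  · intro w w' x x' e
    have e1 : ln w.1.1 = ln w'.1.1 := congrArg (fun z => z.1) e
    have e2 : t w.2 = t w'.2 := congrArg (fun z => z.2.1) e
    have e3 := hV.dP _ _ (q3_pos h0 x).1 (q3_pos h0 x').1 e1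
    have e4 := hdel w w' x x' e
    simp only [e2, e3, e4]
  · intro w w' x x' e
    have e2 : t w.2 = t w'.2 := congrArg (fun z => z.2.1) e
    have e4 := hdel w w' x x' e
    unfold gq
    simp only [e2, e4]
  · intro w hw
    obtain ⟨a1, a2, a3, a4, a5⟩ := q3_pos h0 hw
    have g3 := hV.rel _ a3
    have g5 := h.tB _ _ a1 a2 a4
    have g7 := hV.dP _ _ a2 a3 a5
    rw [← g7] at g3
    obtain ⟨x0, x1⟩ := time_unit (h.t0 _ a3)
    obtain ⟨y0, y1⟩ := time_unit (h.t0 _ a1)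
    obtain ⟨x, hx⟩ : ∃ x : ℝ, x = (t w.2 : ℝ) / 2 ^ M := ⟨_, rfl⟩
    obtain ⟨y, hy⟩ : ∃ y : ℝ, y = (t w.1.1 : ℝ) / 2 ^ M := ⟨_, rfl⟩
    rw [← hx] at x0 x1 g3
    rw [← hy] at y0 y1
    have g8 := hone (P w.1.2 - P w.1.1) i₀ y C
      ((Polynomial.natDegree_sub_le _ _).trans (max_le (hV.deg _ a2) (hV.deg _ a1))) hV.iD y0 y1 hC
      (by
        intro k hk'
        rw [Polynomial.iterate_derivative_sub, Polynomial.eval_sub]
        have g9 := hV.jet _ _ a2 a1 a4.symm k hk'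
        rw [← g5, ← hy] at g9
        exact g9) x x0 x1
    rw [Polynomial.eval_sub, Polynomial.coeff_sub] at g8
    have c1 := hV.cod _ a1
    have c2 := hV.cod _ a2
    have hxy : |(x - y) ^ i₀| ≤ 1 := by
      rw [abs_pow]
      refine pow_le_one₀ (abs_nonneg _) ?_
      rw [abs_le]
      constructor <;> linarith
    have g10 : |((P w.1.2).coeff i₀ - (P w.1.1).coeff i₀ - ((a w.1.2 : ℝ) - a w.1.1)) *
        (x - y) ^ i₀| ≤ 2 * C := by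
      rw [abs_mul]
      have e1 : |(P w.1.2).coeff i₀ - (P w.1.1).coeff i₀ - ((a w.1.2 : ℝ) - a w.1.1)| ≤ 2 * C := by
        rw [abs_le] at c1 c2 ⊢
        constructor <;> linarith
      calc _ ≤ (2 * C) * 1 := mul_le_mul e1 hxy (abs_nonneg _) (by positivity)
        _ = 2 * C := mul_one _
    have g11 : (pol (gq D i₀ t a M w)).eval y =
        ((a w.1.2 : ℝ) - a w.1.1) * ((x - y) ^ i₀ - x ^ i₀) := by
      rw [pol_eval, binom_pow hV.iD x y, add_sub_cancel_left, Finset.mul_sum]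
      refine Finset.sum_congr rfl fun j _ => ?_
      unfold gq
      rw [← hx]
      ring
    simp only [← hx, ← hy, g11]
    rw [abs_le] at g3 g8 g10 ⊢
    constructor <;> nlinarith

end Pool.LPK12
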