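import Pool.Agent.H33.KAL.RMG
import Pool.Agent.H20.KAL.TAY

/-!
# Displacement polynomials

`pol c = Σ c_i X^(i+1)`: upper and lower bounds for its increments, the number of dyadic intervals on
which its derivative is small.
-/

set_option autoImplicit false

namespace Pool.LPK12

open Finset Real

/-- The polynomial with the coefficients `c` of the orders `1, .., D`. -/
noncomputable def pol {D : ℕ} (c : Fin D → ℝ) : Polynomial ℝ :=
  ∑ i : Fin D, Polynomial.C (c i) * Polynomial.X ^ ((i : ℕ) + 1)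

/-- The size of the coefficients. -/
noncomputable def n1 {D : ℕ} (c : Fin D → ℝ) : ℝ := ∑ i : Fin D, |c i|

theorem n1_nonneg {D : ℕ} (c : Fin D → ℝ) : 0 ≤ n1 c := Finset.sum_nonneg fun _ _ => abs_nonneg _

theorem le_n1 {D : ℕ} (c : Fin D → ℝ) (i : Fin D) : |c i| ≤ n1 c :=
  Finset.single_le_sum (f := fun i => |c i|) (fun _ _ => abs_nonneg _) (Finset.mem_univ i)

theorem pol_eval {D : ℕ} (c : Fin D → ℝ) (x : ℝ) :
    (pol c).eval x = ∑ i : Fin D, c i * x ^ ((i : ℕ) + 1) := by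
  unfold pol
  rw [Polynomial.eval_finsetSum]
  refine Finset.sum_congr rfl fun i _ => ?_
  simp

theorem pol_d1 {D : ℕ} (c : Fin D → ℝ) : Polynomial.derivative (pol c) =
    ∑ i : Fin D, Polynomial.C (c i * ((i : ℕ) + 1)) * Polynomial.X ^ (i : ℕ) := by
  unfold pol
  rw [map_sum]
  refine Finset.sum_congr rfl fun i _ => ?_
  rw [Polynomial.derivative_C_mul, Polynomial.derivative_X_pow]
  simp only [Nat.add_sub_cancel, Polynomial.C_mul, Nat.cast_add, Nat.cast_one, Polynomial.C_add,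
    Polynomial.C_1, map_natCast]
  ring

theorem pol_d2 {D : ℕ} (c : Fin D → ℝ) :
    Polynomial.derivative (Polynomial.derivative (pol c)) =
    ∑ i : Fin D, Polynomial.C (c i * ((i : ℕ) + 1) * (i : ℕ)) * Polynomial.X ^ ((i : ℕ) - 1) := by
  rw [pol_d1, map_sum]
  refine Finset.sum_congr rfl fun i _ => ?_
  rw [Polynomial.derivative_C_mul, Polynomial.derivative_X_pow]
  simp only [Polynomial.C_mul]
  ring

theorem d1_eval {D : ℕ} (c : Fin D → ℝ) (x : ℝ) : (Polynomial.derivative (pol c)).eval x =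
    ∑ i : Fin D, c i * ((i : ℕ) + 1) * x ^ (i : ℕ) := by
  rw [pol_d1, Polynomial.eval_finsetSum]
  refine Finset.sum_congr rfl fun i _ => ?_
  simp

theorem d2_eval {D : ℕ} (c : Fin D → ℝ) (x : ℝ) :
    (Polynomial.derivative (Polynomial.derivative (pol c))).eval x =
    ∑ i : Fin D, c i * ((i : ℕ) + 1) * (i : ℕ) * x ^ ((i : ℕ) - 1) := by
  rw [pol_d2, Polynomial.eval_finsetSum]
  refine Finset.sum_congr rfl fun i _ => ?_
  simp

theorem d1_coeff {D : ℕ} (c : Fin D → ℝ) (i : Fin D) :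
    (Polynomial.derivative (pol c)).coeff i = c i * ((i : ℕ) + 1) := by
  rw [pol_d1, Polynomial.finsetSum_coeff, Finset.sum_eq_single i]
  · rw [Polynomial.coeff_C_mul_X_pow, if_pos rfl]
  · intro j _ hj
    rw [Polynomial.coeff_C_mul_X_pow, if_neg]
    intro h
    exact hj (Fin.ext h.symm)
  · intro h
    exact absurd (Finset.mem_univ i) h

theorem d1_deg {D : ℕ} (c : Fin D → ℝ) : (Polynomial.derivative (pol c)).natDegree ≤ D := by
  rw [pol_d1]
  refine Polynomial.natDegree_sum_le_of_forall_le _ _ fun i _ => ?_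
  exact (Polynomial.natDegree_C_mul_X_pow_le _ _).trans (by omega)

theorem d1_le {D : ℕ} (c : Fin D → ℝ) {x : ℝ} (h0 : 0 ≤ x) (h1 : x ≤ 1) :
    |(Polynomial.derivative (pol c)).eval x| ≤ D * n1 c := by
  rw [d1_eval]
  unfold n1
  rw [Finset.mul_sum]
  refine (Finset.abs_sum_le_sum_abs _ _).trans (Finset.sum_le_sum fun i _ => ?_)
  rw [abs_mul, abs_mul]
  have e1 : |x ^ (i : ℕ)| ≤ 1 := by
    rw [abs_of_nonneg (by positivity)]
    exact pow_le_one₀ h0 h1
  have e2 : |(((i : ℕ) : ℝ) + 1)| ≤ D := by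
    rw [abs_of_nonneg (by positivity)]
    exact_mod_cast i.2
  have e3 : |c i| * |(((i : ℕ) : ℝ) + 1)| ≤ |c i| * D := mul_le_mul_of_nonneg_left e2 (abs_nonneg _)
  calc |c i| * |(((i : ℕ) : ℝ) + 1)| * |x ^ (i : ℕ)| ≤ (|c i| * D) * 1 :=
        mul_le_mul e3 e1 (abs_nonneg _) (by positivity)
    _ = D * |c i| := by ring

theorem d2_le {D : ℕ} (c : Fin D → ℝ) {x : ℝ} (h0 : 0 ≤ x) (h1 : x ≤ 1) :
    |(Polynomial.derivative (Polynomial.derivative (pol c))).eval x| ≤ D ^ 2 * n1 c := by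
  rw [d2_eval]
  unfold n1
  rw [Finset.mul_sum]
  refine (Finset.abs_sum_le_sum_abs _ _).trans (Finset.sum_le_sum fun i _ => ?_)
  rw [abs_mul, abs_mul, abs_mul]
  have e1 : |x ^ ((i : ℕ) - 1)| ≤ 1 := by
    rw [abs_of_nonneg (by positivity)]
    exact pow_le_one₀ h0 h1
  have e2 : |(((i : ℕ) : ℝ) + 1)| ≤ D := by
    rw [abs_of_nonneg (by positivity)]
    exact_mod_cast i.2
  have e4 : |((i : ℕ) : ℝ)| ≤ D := by
    rw [abs_of_nonneg (by positivity)]
    exact_mod_cast i.2.le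
  have e3 : |c i| * |(((i : ℕ) : ℝ) + 1)| ≤ |c i| * D := mul_le_mul_of_nonneg_left e2 (abs_nonneg _)
  have e5 : |c i| * |(((i : ℕ) : ℝ) + 1)| * |((i : ℕ) : ℝ)| ≤ |c i| * D * D :=
    mul_le_mul e3 e4 (abs_nonneg _) (by positivity)
  calc |c i| * |(((i : ℕ) : ℝ) + 1)| * |((i : ℕ) : ℝ)| * |x ^ ((i : ℕ) - 1)| ≤
        (|c i| * D * D) * 1 := mul_le_mul e5 e1 (abs_nonneg _) (by positivity)
    _ = D ^ 2 * |c i| := by ring

/-- The mean value theorem. -/
theorem pol_mvt (P : Polynomial ℝ) (x y : ℝ) : ∃ z, min x y ≤ z ∧ z ≤ max x y ∧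
    P.eval x - P.eval y = (Polynomial.derivative P).eval z * (x - y) := by
  rcases lt_trichotomy x y with h | h | h
  · obtain ⟨z, hz, e⟩ := exists_hasDerivAt_eq_slope (fun x => P.eval x)
      (fun x => (Polynomial.derivative P).eval x) h P.continuous.continuousOn
      fun x _ => P.hasDerivAt x
    refine ⟨z, (min_le_left _ _).trans hz.1.le, hz.2.le.trans (le_max_right _ _), ?_⟩
    have h0 : y - x ≠ 0 := by linarith
    rw [eq_div_iff h0] at e
    linarith
  · subst h
    exact ⟨x, min_le_left _ _, le_max_left _ _, by simp⟩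
  · obtain ⟨z, hz, e⟩ := exists_hasDerivAt_eq_slope (fun x => P.eval x)
      (fun x => (Polynomial.derivative P).eval x) h P.continuous.continuousOn
      fun x _ => P.hasDerivAt x
    refine ⟨z, (min_le_right _ _).trans hz.1.le, hz.2.le.trans (le_max_left _ _), ?_⟩
    have h0 : x - y ≠ 0 := by linarith
    rw [eq_div_iff h0] at e
    linarith

theorem pol_up {D : ℕ} (c : Fin D → ℝ) {x y : ℝ} (hx0 : 0 ≤ x) (hx1 : x ≤ 1) (hy0 : 0 ≤ y)
    (hy1 : y ≤ 1) : |(pol c).eval x - (pol c).eval y| ≤ D * n1 c * |x - y| := by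
  obtain ⟨z, z1, z2, e⟩ := pol_mvt (pol c) x y
  rw [e, abs_mul]
  exact mul_le_mul_of_nonneg_right (d1_le c ((le_min hx0 hy0).trans z1)
    (z2.trans (max_le hx1 hy1))) (abs_nonneg _)

/-- **The lower bound** near a point where the derivative is large. -/
theorem pol_lo {D : ℕ} (c : Fin D → ℝ) {x y e ρ lam : ℝ} (hx0 : 0 ≤ x) (hx1 : x ≤ 1) (hy0 : 0 ≤ y)
    (hy1 : y ≤ 1) (he0 : 0 ≤ e) (he1 : e ≤ 1) (hx : |x - e| ≤ ρ) (hy : |y - e| ≤ ρ)
    (hlam : lam ≤ |(Polynomial.derivative (pol c)).eval e|) (hρ : D ^ 2 * n1 c * ρ ≤ lam / 2) :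
    lam / 2 * |x - y| ≤ |(pol c).eval x - (pol c).eval y| := by
  obtain ⟨z, z1, z2, e1⟩ := pol_mvt (pol c) x y
  obtain ⟨u, u1, u2, e2⟩ := pol_mvt (Polynomial.derivative (pol c)) z e
  have hz0 : 0 ≤ z := (le_min hx0 hy0).trans z1
  have hz1 : z ≤ 1 := z2.trans (max_le hx1 hy1)
  have hze : |z - e| ≤ ρ := by
    rw [abs_le] at hx hy ⊢
    have h1 := min_le_iff.1 z1
    have h2 := le_max_iff.1 z2
    constructor
    · rcases h1 with h1 | h1 <;> linarith
    · rcases h2 with h2 | h2 <;> linarith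
  have h3 := d2_le c ((le_min hz0 he0).trans u1) (u2.trans (max_le hz1 he1))
  have h4 : |(Polynomial.derivative (pol c)).eval z - (Polynomial.derivative (pol c)).eval e| ≤
      lam / 2 := by
    rw [e2, abs_mul]
    refine le_trans (mul_le_mul h3 hze (abs_nonneg _) ?_) hρ
    exact mul_nonneg (by positivity) (n1_nonneg c)
  have h5 : lam / 2 ≤ |(Polynomial.derivative (pol c)).eval z| := by
    have h6 := abs_sub_abs_le_abs_sub ((Polynomial.derivative (pol c)).eval e)
      ((Polynomial.derivative (pol c)).eval z)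
    rw [abs_sub_comm ((Polynomial.derivative (pol c)).eval e)] at h6
    linarith
  rw [e1, abs_mul]
  exact mul_le_mul_of_nonneg_right h5 (abs_nonneg _)

/-- The dyadic intervals of length `2 ^ -R` at whose left ends the derivative is small. -/
noncomputable def bads {D : ℕ} (c : Fin D → ℝ) (R : ℕ) (lam : ℝ) : Finset ℤ :=
  (Finset.Ico (0 : ℤ) (2 ^ R)).filter
    fun e => |(Polynomial.derivative (pol c)).eval ((e : ℝ) / 2 ^ R)| < lam

/-- **Few bad intervals.** -/
theorem card_bads (D : ℕ) : ∃ K : ℝ, 1 ≤ K ∧ ∀ (c : Fin D → ℝ) (R r : ℕ) (lam : ℝ), r ≤ R →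
    K * 2 ^ (r * D) * lam < n1 c → ((bads c R lam).card : ℝ) ≤ D * 2 ^ (R - r) := by
  obtain ⟨C, hC0, hC⟩ := Pool.KAL.TAY.coef_bound D
  refine ⟨D * (C * (D + 1)) + 1, by
    have : 0 ≤ (D : ℝ) * (C * (D + 1)) := by positivity
    linarith, ?_⟩
  intro c R r lam hr hlam
  by_contra hcon
  push Not at hcon
  have hcard : 2 ^ (R - r) * D + 1 ≤ (bads c R lam).card := by
    have : ((2 ^ (R - r) * D : ℕ) : ℝ) < ((bads c R lam).card : ℕ) := by
      push_cast
      linarith
    have h2 : 2 ^ (R - r) * D < (bads c R lam).card := by exact_mod_cast this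
    omega
  have hR : (0 : ℝ) < 2 ^ R := by positivity
  have hlam0 : 0 ≤ lam := by
    have hne : (bads c R lam).Nonempty := by
      rw [← Finset.card_pos]
      omega
    obtain ⟨e, he⟩ := hne
    have := (Finset.mem_filter.1 he).2
    exact (abs_nonneg _).trans this.le
  set g := Polynomial.derivative (pol c) with hg
  have hval : ∀ x : ℝ, 0 ≤ x → x ≤ 1 → |g.eval x| ≤ (D + 1) * 2 ^ (r * D) * lam := by
    intro x hx0 hx1
    have h := Pool.KAL.rmg_thm D (2 ^ (R - r)) (g.comp (Polynomial.C (1 / 2 ^ R) * Polynomial.X))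
      (bads c R lam) (2 ^ R * x) (2 ^ R) lam (by
        refine Polynomial.natDegree_comp_le.trans ?_
        have h1 : (Polynomial.C (1 / 2 ^ R : ℝ) * Polynomial.X).natDegree ≤ 1 := by
          have := Polynomial.natDegree_C_mul_X_pow_le (1 / 2 ^ R : ℝ) 1
          rwa [pow_one] at this
        calc g.natDegree * (Polynomial.C (1 / 2 ^ R : ℝ) * Polynomial.X).natDegree ≤ D * 1 :=
              Nat.mul_le_mul (d1_deg c) h1
          _ = D := mul_one D) Nat.one_le_two_pow hcard (by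
        intro e he
        have h1 := Finset.mem_Ico.1 (Finset.mem_filter.1 he).1
        have h2 : (0 : ℝ) ≤ e := by exact_mod_cast h1.1
        have h3 : (e : ℝ) < 2 ^ R := by exact_mod_cast h1.2
        have h4 : 2 ^ R * x ≤ 2 ^ R := by nlinarith
        have h5 : 0 ≤ 2 ^ R * x := by positivity
        rw [abs_le]
        constructor <;> linarith) (by
        intro e he
        have h1 := (Finset.mem_filter.1 he).2
        rw [Polynomial.eval_comp]
        simp only [Polynomial.eval_mul, Polynomial.eval_C, Polynomial.eval_X]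
        have h2 : (1 / 2 ^ R : ℝ) * e = e / 2 ^ R := by ring
        rw [h2]
        exact h1.le)
    rw [Polynomial.eval_comp] at h
    simp only [Polynomial.eval_mul, Polynomial.eval_C, Polynomial.eval_X] at h
    have h2 : (1 / 2 ^ R : ℝ) * (2 ^ R * x) = x := by field_simp
    rw [h2] at h
    have h3 : ((2 : ℝ) ^ R / ((2 ^ (R - r) : ℕ) : ℝ)) = 2 ^ r := by
      push_cast
      rw [div_eq_iff (by positivity), ← pow_add]
      congr 1
      omega
    rw [h3, ← pow_mul] at h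
    exact h
  have hco : ∀ i : Fin D, |c i| ≤ C * ((D + 1) * 2 ^ (r * D) * lam) := by
    intro i
    have h1 := hC g _ (d1_deg c) hval i (by omega)
    rw [hg, d1_coeff, abs_mul] at h1
    have h2 : (1 : ℝ) ≤ |(((i : ℕ) : ℝ) + 1)| := by
      rw [abs_of_nonneg (by positivity)]
      have : (0 : ℝ) ≤ (i : ℕ) := Nat.cast_nonneg _
      linarith
    exact (le_mul_of_one_le_right (abs_nonneg _) h2).trans h1
  have hsum : n1 c ≤ D * (C * ((D + 1) * 2 ^ (r * D) * lam)) := by
    unfold n1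
    refine (Finset.sum_le_sum fun i _ => hco i).trans ?_
    rw [Finset.sum_const, Finset.card_univ, Fintype.card_fin, nsmul_eq_mul]
  have h4 : (D : ℝ) * (C * ((D + 1) * 2 ^ (r * D) * lam)) ≤
      (D * (C * (D + 1)) + 1) * 2 ^ (r * D) * lam := by
    have h5 : 0 ≤ (2 : ℝ) ^ (r * D) * lam := by positivity
    nlinarith
  linarith

end Pool.LPK12
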