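import Pool.Agent.H12.LPK.Row

/-!
# LPK for own paths

`lpk_path`: two families of polynomial paths on the lines, `a` resp. `b` digits per unit of radius,
`b < a`. The values and all jets but one (order `i₁` resp. `i₂`) are few bits given the record, the
two others are natural; the rows of each path are not full given the other one; the record does not
see more of the two jets than the context. Then all jets are few bits.
-/

set_option autoImplicit false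

namespace Pool.LPK12

open Finset Real
open Pool.Agent.H49.Ent Pool.Agent.H32.Dense Pool.STK Pool.KA Pool.KSAT Pool.K2S Pool.PB Pool.GEN
open Pool.S6C Pool.LA91 Pool.OWN68 Pool.AJ18 Pool.PAIR76 Pool.PN18 Pool.LPX

variable {m J : ℕ}

/-- The jets `i₀` known to units, the others known. -/
theorem jv_few {F : Fam m J} {R : LnT F → Polynomial ℝ} {W D i₀ : ℕ} {x : ℝ} {q : F.Ω → ℝ}
    (hq : ∀ ω, 0 ≤ q ω) {Γ : Type} {Y : F.Ω → Γ} {e : ℝ}
    (h0 : CH q (fun ω => ⌊pj F R W 0 ω⌋) Y ≤ e)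
    (hk : ∀ j, 1 ≤ j → j ≤ D → j ≠ i₀ → CH q (fun ω => ⌊pj F R W j ω⌋) Y ≤ e)
    (hn : CH q (fun ω => ⌊pj F R W i₀ ω / 2 ^ x⌋) Y ≤ e) :
    CH q (jv F R W D i₀ x) Y ≤ (D + 1) * e := by
  refine (CH_pis hq _ Y).trans ?_
  have h1 : ∀ k ∈ (univ : Finset (Fin (D + 1))), CH q (fun ω => jv F R W D i₀ x ω k) Y ≤ e := by
    intro k _
    unfold jv
    by_cases hki : (k : ℕ) = i₀
    · simp only [hki, if_true]
      exact hn
    · simp only [hki, if_false]
      rcases Nat.eq_zero_or_pos (k : ℕ) with h2 | h2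
      · rw [h2]
        exact h0
      · exact hk k h2 (by omega) hki
  refine (Finset.sum_le_sum h1).trans (le_of_eq ?_)
  rw [Finset.sum_const, Finset.card_univ, Fintype.card_fin, nsmul_eq_mul]
  push_cast
  ring

/-- The condition without the time. -/
theorem drop_time {Ω S U T : Type} [Fintype Ω] {q : Ω → ℝ} (hq : ∀ ω, 0 ≤ q ω) (X : Ω → S)
    (t : Ω → T) (Z : Ω → U) {u v : ℝ} (h1 : CH q t Z ≤ u)
    (h2 : v ≤ CH q t (fun ω => (X ω, Z ω))) :
    CH q X Z ≤ CH q X (fun ω => (t ω, Z ω)) + (u - v) := by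
  have e1 := CH_chain hq X t Z
  have e2 := CH_chain hq t X Z
  have e3 : CH q (fun ω => (X ω, t ω)) Z = CH q (fun ω => (t ω, X ω)) Z :=
    CH_congr hq (fun ω ω' _ _ e => by
      simp only [Prod.mk.injEq] at e ⊢
      exact ⟨e.1.2, e.1.1⟩) (fun ω ω' _ _ e => by
      simp only [Prod.mk.injEq] at e ⊢
      exact ⟨e.1.2, e.1.1⟩) (fun _ _ _ _ e => e) (fun _ _ _ _ e => e)
  linarith

/-- The time from the window and the time in the window. -/
theorem T_tm (F : Fam m J) (w : ℕ) {ω ω' : F.Ω} (h1 : F.T1 w ω = F.T1 w ω')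
    (h2 : tm F w ω = tm F w ω') : F.T ω = F.T ω' := by
  refine T_tw F w h1 ?_
  unfold tm at h2
  unfold tw
  rw [h2]

/-- **LPK for own paths**, rows at real radii. -/
theorem lpk_path (D : ℕ) {i₁ i₂ : ℕ} (hi₁ : 1 ≤ i₁ ∧ i₁ ≤ D) (hi₂ : 1 ≤ i₂ ∧ i₂ ≤ D) {a b : ℝ}
    (hb : 0 < b) (hba : b < a) {h : ℝ} (hh : 0 < h) (hhb : h ≤ b) {ε : ℝ} (hε : 0 < ε) :
    ∃ δ : ℝ, 0 < δ ∧ ∃ c₀ : ℝ, 0 < c₀ ∧
    ∀ {w μ : ℝ} (_ : 0 ≤ w) (_ : 0 < μ) (_ : w + a * μ ≤ 1),
    ∃ J₀ : ℕ, ∀ J ≥ J₀, ∀ {m : ℕ} (F : Fam m J) (A : F.Ω → Prop) (_ : 0 < Pe F.p A)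
      (R₁ R₂ : LnT F → Polynomial ℝ) {𝒞 Γ : Type} (c : LnT F → 𝒞) (Y : F.Ω → Γ),
    PnH F A R₁ R₂ c Y {i₁} {i₂} D ⌊w * J⌋₊ a b μ δ →
    CH (Pool.Agent.H49.Ent.cond F.p A True)
        (fun ω => (⌊pj F R₁ ⌊w * J⌋₊ i₁ ω⌋, ⌊pj F R₂ ⌊w * J⌋₊ i₂ ω⌋))
        (fun ω => (c (slam F ⌊w * J⌋₊ ω), F.W ω)) ≤
      CH (Pool.Agent.H49.Ent.cond F.p A True)
        (fun ω => (⌊pj F R₁ ⌊w * J⌋₊ i₁ ω⌋, ⌊pj F R₂ ⌊w * J⌋₊ i₂ ω⌋))
        (fun ω => (c (slam F ⌊w * J⌋₊ ω), Y ω)) + δ * μ * J →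
    NFo F A R₂ R₁ c ⌊w * J⌋₊ b a μ h (δ * μ) c₀ →
    NFo F A R₁ R₂ c ⌊w * J⌋₊ a b μ h (δ * μ) c₀ →
    ∀ j, 1 ≤ j → j ≤ D → CH (Pool.Agent.H49.Ent.cond F.p A True)
      (fun ω => ⌊pj F R₁ ⌊w * J⌋₊ j ω⌋) Y ≤ ε * μ * J ∧
      CH (Pool.Agent.H49.Ent.cond F.p A True)
      (fun ω => ⌊pj F R₂ ⌊w * J⌋₊ j ω⌋) Y ≤ ε * μ * J := by
  have ha : 0 < a := hb.trans hba
  obtain ⟨K, hK1, hK2⟩ := cvt D
  have hK : Cvt D K := ⟨hK1, hK2⟩
  obtain ⟨KB, hKB⟩ : ∃ KB : ℝ, KB = 6 * D + 7 := ⟨_, rfl⟩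
  have hKB0 : 0 < KB := by rw [hKB]; positivity
  obtain ⟨C₀, hC₀⟩ : ∃ C₀ : ℝ, C₀ = 2 ^ (a / b + 1) := ⟨_, rfl⟩
  have hC₀0 : 0 ≤ C₀ := by rw [hC₀]; positivity
  obtain ⟨C, hC⟩ : ∃ C : ℝ, C = K * C₀ + 1 + 2 ^ D := ⟨_, rfl⟩
  have hC1 : 1 ≤ C := by
    rw [hC]
    have h1 : 0 ≤ K * C₀ := mul_nonneg (by linarith) hC₀0
    have h2 : (0 : ℝ) ≤ 2 ^ D := by positivity
    linarith
  have hθ0 : 0 < b / a := div_pos hb ha
  have hθ1 : b / a < 1 := by
    rw [div_lt_one ha]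
    exact hba
  have hab1 : 1 < a / b := by
    rw [one_lt_div hb]
    exact hba
  obtain ⟨ε', hε'⟩ : ∃ ε' : ℝ, ε' = ε / (2 * a) := ⟨_, rfl⟩
  have hε'0 : 0 < ε' := by rw [hε']; positivity
  obtain ⟨κ, ϖ, hκ, hϖ, X₀, H⟩ := lq_few D C (b / a) (h / a) ε' hC1 hθ0 hθ1 (by positivity)
    (by rw [div_le_one ha]; linarith) hε'0
  obtain ⟨δ, hδ⟩ : ∃ δ : ℝ, δ = min (κ * a / (2 * (KB + 7))) (ε / (2 * (KB + 1))) := ⟨_, rfl⟩
  have hδ0 : 0 < δ := by
    rw [hδ]
    exact lt_min (by positivity) (by positivity)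
  have hd1 : δ * (2 * (KB + 7)) ≤ κ * a := by
    rw [← le_div_iff₀ (by positivity), hδ]
    exact min_le_left _ _
  have hd2 : δ * (2 * (KB + 1)) ≤ ε := by
    rw [← le_div_iff₀ (by positivity), hδ]
    exact min_le_right _ _
  refine ⟨δ, hδ0, ϖ, hϖ, ?_⟩
  intro w μ hw hμ hwμ
  obtain ⟨J₁, hJ₁⟩ := exists_nat_ge ((LK K + Real.log 3 + Real.log 5) / (δ * μ))
  obtain ⟨J₂, hJ₂⟩ := exists_nat_ge ((a / b + 1 + X₀) / (a * μ / 2))
  refine ⟨max (max J₁ J₂) 1, ?_⟩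
  intro J hJ m F A hA R₁ R₂ 𝒞 Γ c Y HP hI hnu hnz
  have hJ1 : (J₁ : ℝ) ≤ J := by exact_mod_cast ((le_max_left _ _).trans (le_max_left _ _)).trans hJ
  have hJ2 : (J₂ : ℝ) ≤ J := by exact_mod_cast ((le_max_right _ _).trans (le_max_left _ _)).trans hJ
  have hJp : 0 < J := lt_of_lt_of_le one_pos ((le_max_right _ _).trans hJ)
  have hJ0 : (0 : ℝ) < J := by exact_mod_cast hJp
  have hl2 : 0 < Real.log 2 := Real.log_pos one_lt_two
  have l3 : 0 ≤ Real.log 3 := Real.log_nonneg (by norm_num)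
  have l5 : 0 ≤ Real.log 5 := Real.log_nonneg (by norm_num)
  have lK := LK_nonneg K
  obtain ⟨g, hg⟩ : ∃ g : ℝ, g = δ * μ * J := ⟨_, rfl⟩
  have hg0 : 0 ≤ g := by rw [hg]; positivity
  have kg : LK K + Real.log 3 + Real.log 5 ≤ g := by
    have h1 := hJ₁.trans hJ1
    rw [div_le_iff₀ (by positivity)] at h1
    rw [hg]
    linarith
  have hlg : a / b + 1 + X₀ ≤ a * μ / 2 * J := by
    have h1 := hJ₂.trans hJ2
    rw [div_le_iff₀ (by positivity)] at h1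
    linarith
  have hX₀0 : (0 : ℝ) ≤ X₀ := Nat.cast_nonneg X₀
  -- the digits
  obtain ⟨X, hX⟩ : ∃ X : ℕ, X = ⌊a * μ * J - a / b⌋₊ := ⟨_, rfl⟩
  have x0 : 0 ≤ a * μ * J - a / b := by
    have e1 : a * μ * J = a * μ / 2 * J + a * μ / 2 * J := by ring
    linarith
  have x1 : (X : ℝ) ≤ a * μ * J - a / b := by
    rw [hX]
    exact Nat.floor_le x0
  have x2 : a * μ * J - a / b < X + 1 := by
    rw [hX]
    exact Nat.lt_floor_add_one _
  have x3 : a * μ / 2 * J + X₀ ≤ X := by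
    have e1 : a * μ * J = a * μ / 2 * J + a * μ / 2 * J := by ring
    rw [e1] at x2
    linarith
  have hX₀X : X₀ ≤ X := by
    have h1 : (X₀ : ℝ) ≤ X := by
      have : 0 ≤ a * μ / 2 * J := by positivity
      linarith
    exact_mod_cast h1
  have hXa : (X : ℝ) ≤ a * μ * J := by linarith
  have hX0 : (0 : ℝ) ≤ X := Nat.cast_nonneg X
  obtain ⟨n, hn⟩ : ∃ n : ℕ, n = ⌈b / a * X⌉₊ := ⟨_, rfl⟩
  have hbX : b / a * X ≤ b * μ * J - 1 := by
    have h1 := mul_le_mul_of_nonneg_left x1 hθ0.le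
    have h2 : b / a * (a * μ * J - a / b) = b * μ * J - 1 := by
      field_simp
    linarith
  have n1' : (n : ℝ) < b / a * X + 1 := by
    rw [hn]
    exact Nat.ceil_lt_add_one (by positivity)
  have n2' : b / a * X ≤ n := by
    rw [hn]
    exact Nat.le_ceil _
  have hnb : (n : ℝ) ≤ b * μ * J := by linarith
  have rp : ∀ x : ℝ, (0 : ℝ) < 2 ^ x := fun x => Real.rpow_pos_of_pos (by norm_num) x
  have s1 : (2 : ℝ) ^ (a * μ * J) ≤ C₀ * 2 ^ X := by
    rw [hC₀, ← Real.rpow_natCast 2 X, ← Real.rpow_add (by norm_num)]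
    exact Real.rpow_le_rpow_of_exponent_le (by norm_num) (by linarith)
  have s2 : (2 : ℝ) ^ (b * μ * J) ≤ C₀ * 2 ^ n := by
    rw [hC₀, ← Real.rpow_natCast 2 n, ← Real.rpow_add (by norm_num)]
    refine Real.rpow_le_rpow_of_exponent_le (by norm_num) ?_
    have h1 := mul_le_mul_of_nonneg_left x2.le hθ0.le
    have h2 : b / a * (a * μ * J - a / b) = b * μ * J - 1 := by
      field_simp
    have h3 : b / a * ((X : ℝ) + 1) = b / a * X + b / a := by ring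
    linarith
  -- the law
  obtain ⟨W, hW⟩ : ∃ W : ℕ, W = ⌊w * J⌋₊ := ⟨_, rfl⟩
  have hWw : (W : ℝ) ≤ w * J := by
    rw [hW]
    exact Nat.floor_le (by positivity)
  have haμ : 0 < a * μ := by positivity
  have hwJ : (w + a * μ) * J ≤ 1 * J := mul_le_mul_of_nonneg_right hwμ hJ0.le
  have haJ' : 0 ≤ a * μ * J := by positivity
  have hwJ' : w * J + a * μ * J ≤ J := by linarith
  have hWJ' : (W : ℝ) ≤ J := by linarith
  have hWJ : W ≤ J := by exact_mod_cast hWJ'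
  have hXM : X ≤ J - W := by
    have h1 : (X : ℝ) ≤ ((J - W : ℕ) : ℝ) := by
      rw [Nat.cast_sub hWJ]
      linarith
    exact_mod_cast h1
  rw [← hW] at HP hI hnu hnz ⊢
  obtain ⟨q, hq⟩ : ∃ q : F.Ω → ℝ, q = Pool.Agent.H49.Ent.cond F.p A True := ⟨_, rfl⟩
  have hql : IsLaw q := by
    rw [hq]
    exact isLaw_cond F.isLaw hA
  have h0 := hql.nonneg
  have hqA : ∀ ω, 0 < q ω → A ω := fun ω hω => by
    rw [hq] at hω
    exact Pool.LA91.of_cond_pos hω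
  have hkey : ∀ ω ω', 0 < q ω → 0 < q ω' → Y ω = Y ω' → F.T ω = F.T ω' ∧ F.Z ω = F.Z ω' :=
    fun ω ω' a b e => HP.key ω ω' (hqA ω a) (hqA ω' b) e
  have htim := HP.tim
  have hctx := HP.ctx
  rw [← hq, ← hg] at hI
  rw [← hq] at htim hctx ⊢
  rw [← hg] at htim hctx
  -- the record of the ball
  obtain ⟨V₁, hV₁⟩ : ∃ V₁ : F.Ω → Fin (D + 1) → ℤ, V₁ = jv F R₁ W D i₁ (a * μ * J) := ⟨_, rfl⟩
  obtain ⟨V₂, hV₂⟩ : ∃ V₂ : F.Ω → Fin (D + 1) → ℤ, V₂ = jv F R₂ W D i₂ (b * μ * J) := ⟨_, rfl⟩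
  obtain ⟨B, hB⟩ : ∃ B : F.Ω → Γ × (𝒞 × ((Fin (D + 1) → ℤ) × ((Fin (D + 1) → ℤ) ×
      ((Fin (D + 1) → ℤ) × (Fin (D + 1) → ℤ))))), B = fun ω => (Y ω, (c (slam F W ω),
        (V₁ ω, (V₂ ω, (hv F R₁ D i₁ (slam F W ω), hv F R₂ D i₂ (slam F W ω)))))) := ⟨_, rfl⟩
  have haJ : 0 ≤ a * μ * J := by positivity
  have hbJ : 0 ≤ b * μ * J := by positivity
  have hYt : Det q Y (tm F W) := fun ω ω' a b e => by
    unfold tm
    rw [(hkey ω ω' a b e).1]
  have c1 : CH q V₁ Y ≤ (D + 1) * g := by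
    rw [hV₁]
    refine jv_few h0 ?_ (fun j h1 h2 h3 => ?_) ?_
    · have := HP.valu
      rw [← hq, ← hg] at this
      exact this
    · have := HP.knu j h1 h2 (by simpa using h3)
      rw [← hq, ← hg] at this
      exact this
    · have := HP.natu i₁ (by simp)
      rw [← hq, ← hg] at this
      exact this
  have c2 : CH q V₂ Y ≤ (D + 1) * g := by
    rw [hV₂]
    refine jv_few h0 ?_ (fun j h1 h2 h3 => ?_) ?_
    · have := HP.valz
      rw [← hq, ← hg] at this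
      exact this
    · have := HP.knz j h1 h2 (by simpa using h3)
      rw [← hq, ← hg] at this
      exact this
    · have := HP.natz i₂ (by simp)
      rw [← hq, ← hg] at this
      exact this
  have c3 : CH q (fun ω => hv F R₁ D i₁ (slam F W ω)) Y ≤ (D + 1) * g + (D + 1) * LK K := by
    have h1 := CH_le_add h0 (fun ω => hv F R₁ D i₁ (slam F W ω)) V₁ Y
    have h2 := hv_few (G := fun ω => (V₁ ω, Y ω)) hql hK HP.degu haJ
      (fun ω ω' a b e => hYt ω ω' a b (Prod.ext_iff.mp e).2)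
      (fun ω ω' a b e => by rw [hV₁] at e; exact (Prod.ext_iff.mp e).1)
    linarith
  have c4 : CH q (fun ω => hv F R₂ D i₂ (slam F W ω)) Y ≤ (D + 1) * g + (D + 1) * LK K := by
    have h1 := CH_le_add h0 (fun ω => hv F R₂ D i₂ (slam F W ω)) V₂ Y
    have h2 := hv_few (G := fun ω => (V₂ ω, Y ω)) hql hK HP.degz hbJ
      (fun ω ω' a b e => hYt ω ω' a b (Prod.ext_iff.mp e).2)
      (fun ω ω' a b e => by rw [hV₂] at e; exact (Prod.ext_iff.mp e).1)
    linarith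
  have hDg : (D + 1) * LK K ≤ (D + 1) * g :=
    mul_le_mul_of_nonneg_left (by linarith) (by positivity)
  have cB : CH q B Y ≤ KB * g := by
    rw [hB]
    have h1 := CH_subadd h0 Y (fun ω => (c (slam F W ω),
        (V₁ ω, (V₂ ω, (hv F R₁ D i₁ (slam F W ω), hv F R₂ D i₂ (slam F W ω)))))) Y
    have h2 := CH_subadd h0 (fun ω => c (slam F W ω)) (fun ω =>
        (V₁ ω, (V₂ ω, (hv F R₁ D i₁ (slam F W ω), hv F R₂ D i₂ (slam F W ω))))) Y
    have h3 := CH_subadd h0 V₁ (fun ω =>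
        (V₂ ω, (hv F R₁ D i₁ (slam F W ω), hv F R₂ D i₂ (slam F W ω)))) Y
    have h4 := CH_subadd h0 V₂ (fun ω =>
        (hv F R₁ D i₁ (slam F W ω), hv F R₂ D i₂ (slam F W ω))) Y
    have h5 := CH_subadd h0 (fun ω => hv F R₁ D i₁ (slam F W ω))
      (fun ω => hv F R₂ D i₂ (slam F W ω)) Y
    have h6 : CH q Y Y = 0 := CH_eq_zero h0 fun _ _ _ _ e => e
    have e1 : KB * g = 6 * ((D + 1) * g) + g := by
      rw [hKB]
      ring
    rw [e1]
    linarith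
  -- the codes
  obtain ⟨JJ, hJJ⟩ : ∃ JJ : F.Ω → ℤ × ℤ, JJ = fun ω => (⌊pj F R₁ W i₁ ω⌋, ⌊pj F R₂ W i₂ ω⌋) :=
    ⟨_, rfl⟩
  rw [← hJJ] at hI
  obtain ⟨cc, hcc⟩ : ∃ cc : F.Ω → ℤ × ℤ, cc = fun ω => (cd F R₂ i₂ (slam F W ω),
      cd F R₁ i₁ (slam F W ω)) := ⟨_, rfl⟩
  have both : ∀ {Δ : Type} (G : F.Ω → Δ), Det q G (tm F W) →
      Det q G (fun ω => hv F R₁ D i₁ (slam F W ω)) →
      Det q G (fun ω => hv F R₂ D i₂ (slam F W ω)) →
      CH q JJ (fun ω => (cc ω, G ω)) ≤ 2 * LK K ∧ CH q cc (fun ω => (JJ ω, G ω)) ≤ 2 * LK K := by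
    intro Δ G g1 g2 g3
    have k1 := jet_cod (F := F) (W := W) hql hK HP.degu g1 g2
    have k2 := jet_cod (F := F) (W := W) hql hK HP.degz g1 g3
    have k3 := cod_jet (F := F) (W := W) hql hK HP.degu g1 g2
    have k4 := cod_jet (F := F) (W := W) hql hK HP.degz g1 g3
    constructor
    · have h1 := CH_subadd h0 (fun ω => ⌊pj F R₁ W i₁ ω⌋) (fun ω => ⌊pj F R₂ W i₂ ω⌋)
        (fun ω => (cc ω, G ω))
      have h2 : CH q (fun ω => ⌊pj F R₁ W i₁ ω⌋) (fun ω => (cc ω, G ω)) ≤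
          CH q (fun ω => ⌊pj F R₁ W i₁ ω⌋) (fun ω => (cd F R₁ i₁ (slam F W ω), G ω)) :=
        CH_mono_cond h0 fun ω ω' _ _ e => by
          rw [hcc] at e
          simp only [Prod.mk.injEq] at e ⊢
          exact ⟨e.1.2, e.2⟩
      have h3 : CH q (fun ω => ⌊pj F R₂ W i₂ ω⌋) (fun ω => (cc ω, G ω)) ≤
          CH q (fun ω => ⌊pj F R₂ W i₂ ω⌋) (fun ω => (cd F R₂ i₂ (slam F W ω), G ω)) :=
        CH_mono_cond h0 fun ω ω' _ _ e => by
          rw [hcc] at e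
          simp only [Prod.mk.injEq] at e ⊢
          exact ⟨e.1.1, e.2⟩
      rw [hJJ]
      linarith
    · have h1 := CH_subadd h0 (fun ω => cd F R₂ i₂ (slam F W ω))
        (fun ω => cd F R₁ i₁ (slam F W ω)) (fun ω => (JJ ω, G ω))
      have h2 : CH q (fun ω => cd F R₁ i₁ (slam F W ω)) (fun ω => (JJ ω, G ω)) ≤
          CH q (fun ω => cd F R₁ i₁ (slam F W ω)) (fun ω => (⌊pj F R₁ W i₁ ω⌋, G ω)) :=
        CH_mono_cond h0 fun ω ω' _ _ e => by
          rw [hJJ] at e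
          simp only [Prod.mk.injEq] at e ⊢
          exact ⟨e.1.1, e.2⟩
      have h3 : CH q (fun ω => cd F R₂ i₂ (slam F W ω)) (fun ω => (JJ ω, G ω)) ≤
          CH q (fun ω => cd F R₂ i₂ (slam F W ω)) (fun ω => (⌊pj F R₂ W i₂ ω⌋, G ω)) :=
        CH_mono_cond h0 fun ω ω' _ _ e => by
          rw [hJJ] at e
          simp only [Prod.mk.injEq] at e ⊢
          exact ⟨e.1.2, e.2⟩
      rw [hcc]
      linarith
  -- the path of the line, the natural part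
  obtain ⟨Yl, hYl⟩ : ∃ Yl : F.Ω → 𝒞 × (F.ζ × ℕ), Yl = fun ω => (c (slam F W ω), (slam F W ω).2) :=
    ⟨_, rfl⟩
  obtain ⟨nt, hnt⟩ : ∃ nt : F.Ω → (Fin (D + 1) → ℤ) × (Fin (D + 1) → ℤ), nt = fun ω =>
      (hv F R₁ D i₁ (slam F W ω), hv F R₂ D i₂ (slam F W ω)) := ⟨_, rfl⟩
  have hBY : ∀ ω ω', B ω = B ω' → Y ω = Y ω' := fun ω ω' e => by
    rw [hB] at e
    exact (Prod.ext_iff.mp e).1
  have hBYl : Det q B Yl := fun ω ω' a b e => by
    have h1 := hkey ω ω' a b (hBY ω ω' e)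
    rw [hB] at e
    simp only [Prod.mk.injEq] at e
    rw [hYl]
    refine Prod.ext e.2.1 ?_
    show (F.Z ω, F.T1 W ω) = (F.Z ω', F.T1 W ω')
    unfold Fam.T1
    rw [h1.1, h1.2]
  have htf := tm_full F hql hWJ htim
  have hnat : CH q cc (fun ω => (Yl ω, nt ω)) ≤ CH q cc (fun ω => (Yl ω, B ω)) + (KB + 7) * g := by
    have a1 : CH q (tm F W) (fun ω => (Yl ω, nt ω)) ≤ ((J - W : ℕ) : ℝ) * Real.log 2 := by
      have h1 := CH_le_card h0 hql.sum_one (tm F W) (fun ω => (Yl ω, nt ω))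
        (fun _ => Finset.Ico 0 (2 ^ (J - W))) (fun ω _ => by
          rw [Finset.mem_Ico]
          exact tm_range F W ω)
      refine h1.trans (le_of_eq ?_)
      rw [Ex_const hql.sum_one, Int.card_Ico, sub_zero]
      have h2 : (((2 ^ (J - W) : ℤ).toNat : ℕ) : ℝ) = 2 ^ (J - W) := by
        have h3 : ((2 ^ (J - W) : ℤ).toNat : ℤ) = 2 ^ (J - W) :=
          Int.toNat_of_nonneg (by positivity)
        exact_mod_cast h3
      rw [h2, Real.log_pow]
    have a2 : ((J - W : ℕ) : ℝ) * Real.log 2 - (g + Real.log 3) ≤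
        CH q (tm F W) (fun ω => (cc ω, (Yl ω, nt ω))) := by
      refine htf.trans (CH_mono_cond h0 fun ω ω' _ _ e => ?_)
      rw [hcc, hYl, hnt]
      simp only [e]
    have b1 := drop_time h0 cc (tm F W) (fun ω => (Yl ω, nt ω)) a1 a2
    have b2 := CH_le_add h0 cc JJ (fun ω => (tm F W ω, (Yl ω, nt ω)))
    have b3 := (both (fun ω => (tm F W ω, (Yl ω, nt ω))) (fun ω ω' _ _ e => (Prod.ext_iff.mp e).1)
      (fun ω ω' _ _ e => by
        rw [hnt] at e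
        simp only [Prod.mk.injEq] at e
        exact e.2.2.1) (fun ω ω' _ _ e => by
        rw [hnt] at e
        simp only [Prod.mk.injEq] at e
        exact e.2.2.2)).2
    have b4 : CH q JJ (fun ω => (tm F W ω, (Yl ω, nt ω))) ≤
        CH q JJ (fun ω => (c (slam F W ω), F.W ω)) := by
      refine CH_mono_cond h0 fun ω ω' _ _ e => ?_
      rw [hYl] at e
      simp only [Prod.mk.injEq] at e ⊢
      obtain ⟨e1, ⟨e2, e3⟩, -⟩ := e
      have e4 : F.Z ω = F.Z ω' := (Prod.ext_iff.mp e3).1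
      have e5 : F.T1 W ω = F.T1 W ω' := (Prod.ext_iff.mp e3).2
      refine ⟨e2, ?_⟩
      unfold Fam.W
      rw [T_tm F W e5 e1, e4]
    have b5 := CH_le_add h0 JJ B (fun ω => (c (slam F W ω), Y ω))
    have b6 : CH q B (fun ω => (c (slam F W ω), Y ω)) ≤ CH q B Y :=
      CH_mono_cond h0 fun ω ω' _ _ e => (Prod.ext_iff.mp e).2
    have b7 : CH q JJ (fun ω => (B ω, (c (slam F W ω), Y ω))) ≤ CH q JJ (fun ω => (Yl ω, B ω)) :=
      CH_mono_cond h0 fun ω ω' a b e =>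
        Prod.ext (hBYl ω ω' a b (Prod.ext_iff.mp e).1) (Prod.ext_iff.mp e).1
    have b8 := CH_le_add h0 JJ cc (fun ω => (Yl ω, B ω))
    have b9 := (both (fun ω => (Yl ω, B ω)) (fun ω ω' a b e =>
      hYt ω ω' a b (hBY ω ω' (Prod.ext_iff.mp e).2)) (fun ω ω' _ _ e => by
        rw [hB] at e
        simp only [Prod.mk.injEq] at e
        exact e.2.2.2.2.2.1) (fun ω ω' _ _ e => by
        rw [hB] at e
        simp only [Prod.mk.injEq] at e
        exact e.2.2.2.2.2.2)).1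
    have e1 : (KB + 7) * g = KB * g + 7 * g := by ring
    rw [e1]
    linarith
  -- the hypotheses
  have hd0 : 0 ≤ (KB + 7) * g := by positivity
  have hKg : g ≤ (KB + 7) * g := by
    have e1 : (KB + 7) * g = KB * g + 6 * g + g := by ring
    have e2 : 0 ≤ KB * g := by positivity
    linarith
  have hKg2 : 2 * g ≤ (KB + 7) * g := by
    have e1 : (KB + 7) * g = KB * g + 5 * g + 2 * g := by ring
    have e2 : 0 ≤ KB * g := by positivity
    linarith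
  have hLq : LqO D i₂ i₁ q B (slam F W) Yl (fun ω => (c (slam F W ω), F.W ω)) (tm F W)
      (fun ω => ⌊pj F R₂ W 0 ω⌋) (fun ω => ⌊pj F R₁ W 0 ω⌋)
      (fun ω => cd F R₂ i₂ (slam F W ω)) (fun ω => cd F R₁ i₁ (slam F W ω))
      (fun ω => Pq (R₂ (slam F W ω))) (fun ω => Pq (R₁ (slam F W ω))) nt (fun y => {y}) (J - W) X C
      (b / a) (h / a) ϖ ((KB + 7) * g) 0 := by
    refine ⟨hXM, ?_, ?_, ?_, ?_, ?_, ?_, ?_, ?_⟩
    · refine ⟨hql, fun ω _ => tm_range F W ω, fun ω ω' a b e => hYt ω ω' a b (hBY ω ω' e), ?_, ?_,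
        ?_, ?_, ?_, ?_⟩
      · intro ω ω' _ _ e
        rw [hYl]
        simp only [e]
      · intro ω ω' _ _ e
        rw [hYl] at e
        simp only [Prod.mk.injEq] at e ⊢
        obtain ⟨⟨e2, e3⟩, e1⟩ := e
        have e4 : F.Z ω = F.Z ω' := (Prod.ext_iff.mp e3).1
        have e5 : F.T1 W ω = F.T1 W ω' := (Prod.ext_iff.mp e3).2
        refine ⟨e2, ?_⟩
        unfold Fam.W
        rw [T_tm F W e5 e1, e4]
      · linarith
      · intro ω ω' a b e
        rw [Finset.mem_singleton]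
        exact (hBYl ω ω' a b e).symm
      · intro y
        rw [Finset.card_singleton, Real.exp_zero, Nat.cast_one]
      · have := CH_nonneg h0 Yl B
        linarith
    · rw [← hn]
      refine crq_of hK hi₂.1 hi₂.2 HP.degz hbJ s2 hC.ge hC₀0
        (fun ω ω' a b e => hYt ω ω' a b (hBY ω ω' e)) ?_
      intro ω ω' _ _ e
      rw [hB] at e
      simp only [Prod.mk.injEq] at e
      rw [hV₂] at e
      exact e.2.2.2.1
    · refine crq_of hK hi₁.1 hi₁.2 HP.degu haJ s1 hC.ge hC₀0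
        (fun ω ω' a b e => hYt ω ω' a b (hBY ω ω' e)) ?_
      intro ω ω' _ _ e
      rw [hB] at e
      simp only [Prod.mk.injEq] at e
      rw [hV₁] at e
      exact e.2.2.1
    · intro ω ω' _ _ e
      rw [hnt]
      simp only [e]
    · intro ω ω' _ _ e
      rw [hB] at e
      rw [hnt]
      simp only [Prod.mk.injEq] at e ⊢
      exact e.2.2.2.2
    · rw [hcc] at hnat
      exact hnat
    · rw [hq]
      exact nz_of hA hJp ha hXa hnz (by rw [← hg]; exact hKg) le_rfl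
    · rw [hq]
      refine nu_of hA hJp ha hb hϖ (by rw [← hn]; exact hnb) hnu (by rw [← hg]; linarith) ?_
      exact div_le_div_of_nonneg_left hh.le hb hba.le
  have hκX : (KB + 7) * g ≤ κ * X := by
    have h1 : κ * (a * μ / 2 * J) ≤ κ * X := mul_le_mul_of_nonneg_left (by linarith) hκ.le
    have h2 : δ * (2 * (KB + 7)) * (μ * J) ≤ κ * a * (μ * J) :=
      mul_le_mul_of_nonneg_right hd1 (by positivity)
    have h3 : (KB + 7) * g = δ * (2 * (KB + 7)) * (μ * J) / 2 := by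
      rw [hg]
      ring
    have h4 : κ * (a * μ / 2 * J) = κ * a * (μ * J) / 2 := by ring
    rw [h3]
    linarith
  have fin := H hLq hX₀X hd0 hκX
  have hεX : ε' * X ≤ ε / 2 * μ * J := by
    have h1 : ε' * X ≤ ε' * (a * μ * J) := mul_le_mul_of_nonneg_left hXa hε'0.le
    have h2 : ε' * (a * μ * J) = ε / 2 * μ * J := by
      rw [hε']
      field_simp
    linarith
  have hg2 : (KB + 1) * g ≤ ε / 2 * μ * J := by
    have h2 : δ * (2 * (KB + 1)) * (μ * J) ≤ ε * (μ * J) :=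
      mul_le_mul_of_nonneg_right hd2 (by positivity)
    have h3 : (KB + 1) * g = δ * (2 * (KB + 1)) * (μ * J) / 2 := by
      rw [hg]
      ring
    rw [h3]
    linarith
  have hgε : g ≤ ε * μ * J := by
    have h1 : 0 ≤ KB * g := by positivity
    have h2 : 0 ≤ ε / 2 * μ * J := by positivity
    have h3 : ε * μ * J = ε / 2 * μ * J + ε / 2 * μ * J := by ring
    linarith
  have hsum : ε * μ * J = ε / 2 * μ * J + ε / 2 * μ * J := by ring
  have hBt : Det q B (tm F W) := fun ω ω' a b e => hYt ω ω' a b (hBY ω ω' e)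
  intro j hj1 hjD
  constructor
  · by_cases hj : j = i₁
    · subst hj
      have d1 := CH_le_add h0 (fun ω => ⌊pj F R₁ W j ω⌋) B Y
      have d2 : CH q (fun ω => ⌊pj F R₁ W j ω⌋) (fun ω => (B ω, Y ω)) ≤
          CH q (fun ω => ⌊pj F R₁ W j ω⌋) B :=
        CH_mono_cond h0 fun ω ω' _ _ e => (Prod.ext_iff.mp e).1
      have d3 := CH_le_add h0 (fun ω => ⌊pj F R₁ W j ω⌋) (fun ω => cd F R₁ j (slam F W ω)) B
      have d4 := jet_cod (F := F) (W := W) (G := B) hql hK HP.degu hBt (i₀ := j)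
        (fun ω ω' _ _ e => by
          rw [hB] at e
          simp only [Prod.mk.injEq] at e
          exact e.2.2.2.2.1)
      have d5 := CH_mono_left (W := B) (X' := fun ω => (cd F R₁ j (slam F W ω),
        cd F R₂ i₂ (slam F W ω))) (X := fun ω => cd F R₁ j (slam F W ω)) h0 (by
          intro ω ω' _ _ e
          simp only [Prod.mk.injEq] at e
          exact e.1.1)
      have e1 : (KB + 1) * g = KB * g + g := by ring
      rw [e1] at hg2
      linarith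
    · have := HP.knu j hj1 hjD (by simpa using hj)
      rw [← hq, ← hg] at this
      linarith
  · by_cases hj : j = i₂
    · subst hj
      have d1 := CH_le_add h0 (fun ω => ⌊pj F R₂ W j ω⌋) B Y
      have d2 : CH q (fun ω => ⌊pj F R₂ W j ω⌋) (fun ω => (B ω, Y ω)) ≤
          CH q (fun ω => ⌊pj F R₂ W j ω⌋) B :=
        CH_mono_cond h0 fun ω ω' _ _ e => (Prod.ext_iff.mp e).1
      have d3 := CH_le_add h0 (fun ω => ⌊pj F R₂ W j ω⌋) (fun ω => cd F R₂ j (slam F W ω)) B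
      have d4 := jet_cod (F := F) (W := W) (G := B) hql hK HP.degz hBt (i₀ := j)
        (fun ω ω' _ _ e => by
          rw [hB] at e
          simp only [Prod.mk.injEq] at e
          exact e.2.2.2.2.2)
      have d5 := CH_mono_left (W := B) (X' := fun ω => (cd F R₁ i₁ (slam F W ω),
        cd F R₂ j (slam F W ω))) (X := fun ω => cd F R₂ j (slam F W ω)) h0 (by
          intro ω ω' _ _ e
          simp only [Prod.mk.injEq] at e
          exact e.1.2)
      have e1 : (KB + 1) * g = KB * g + g := by ring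
      rw [e1] at hg2
      linarith
    · have := HP.knz j hj1 hjD (by simpa using hj)
      rw [← hq, ← hg] at this
      linarith

end Pool.LPK12
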