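import Pool.Agent.H12.LPK.Pol
import Pool.Agent.H12.LPK.Dis

/-!
# A value which is a polynomial in a full time

`Rlp`: `V = A + Q (t)`, the number `A` and the polynomial `Q` are functions of the condition. Where
the derivative is not small at the left end of the dyadic interval of the time, `Q` is bi-Lipschitz.
-/

set_option autoImplicit false

namespace Pool.LPK12

open Finset Real
open Pool.Agent.H49.Ent Pool.Agent.H32.Dense Pool.STK Pool.POT Pool.LPX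
open Pool.K2S (Pe)

/-- The relation of a polynomial displacement. -/
structure Rlp {D : ℕ} {τ Ω' : Type} (q : Ω' → ℝ) (W : Ω' → τ) (t V : Ω' → ℤ) (A : Ω' → ℝ)
    (c : Ω' → Fin D → ℝ) (X : ℕ) (C : ℝ) : Prop where
  dA : Det q W A
  dc : Det q W c
  rel : ∀ ω, 0 < q ω → |(V ω : ℝ) - (A ω + (pol (c ω)).eval ((t ω : ℝ) / 2 ^ X))| ≤ C

/-- The condition with the first digits of the time. -/
def Wr {τ Ω' : Type} (W : Ω' → τ) (t : Ω' → ℤ) (X R : ℕ) (w : Ω') : τ × ℤ := (W w, tp X R (t w))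

/-- The threshold of the derivative. -/
noncomputable def thr {D : ℕ} (K : ℝ) (r : ℕ) (c : Fin D → ℝ) : ℝ := n1 c / (2 * K * 2 ^ (r * D))

/-- The derivative is not small at the left end of the interval of the time. -/
def gd {D : ℕ} {Ω' : Type} (t : Ω' → ℤ) (c : Ω' → Fin D → ℝ) (X R r : ℕ) (K : ℝ) (w : Ω') : Prop :=
  tp X R (t w) ∉ bads (c w) R (thr K r (c w))

variable {D : ℕ} {τ Ω' : Type} {q : Ω' → ℝ} {W : Ω' → τ} {t V : Ω' → ℤ} {A : Ω' → ℝ}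
  {c : Ω' → Fin D → ℝ} {X n : ℕ} {C : ℝ}

theorem time_unit {X : ℕ} {t : ℤ} (h : 0 ≤ t ∧ t < 2 ^ X) :
    0 ≤ (t : ℝ) / 2 ^ X ∧ (t : ℝ) / 2 ^ X ≤ 1 := by
  have f1 : (0 : ℝ) ≤ t := by exact_mod_cast h.1
  have f2 : (t : ℝ) < 2 ^ X := by exact_mod_cast h.2
  refine ⟨by positivity, ?_⟩
  rw [div_le_one (by positivity)]
  exact f2.le

/-- **The upper bound for the speed.** -/
theorem Rlp.up (h : Rlp q W t V A c X C) (ht : ∀ ω, 0 < q ω → 0 ≤ t ω ∧ t ω < 2 ^ X)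
    {a : ℕ} {C₁ : ℝ} (hs : ∀ ω, 0 < q ω → n1 (c ω) / 2 ^ n * 2 ^ a ≤ C₁) {C₂ : ℝ}
    (hC₂ : 2 * C ≤ C₂) (hC₁ : D * C₁ ≤ C₂) (R : ℕ) : Dup q (Wr W t X R) t V X n a C₂ := by
  intro ω ω' x x' e
  have e0 : W ω = W ω' := (Prod.ext_iff.mp e).1
  have h1 := h.rel ω x
  have h2 := h.rel ω' x'
  rw [← h.dA ω ω' x x' e0, ← h.dc ω ω' x x' e0] at h2
  obtain ⟨p1, p2⟩ := time_unit (ht ω x)
  obtain ⟨p3, p4⟩ := time_unit (ht ω' x')
  have h3 := pol_up (c ω) p1 p2 p3 p4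
  have h4 : (t ω : ℝ) / 2 ^ X - (t ω' : ℝ) / 2 ^ X = ((t ω : ℝ) - t ω') / 2 ^ X := by ring
  have hP : (0 : ℝ) < 2 ^ X := by positivity
  rw [h4, abs_div, abs_of_pos hP] at h3
  have h5 : D * n1 (c ω) ≤ C₂ * 2 ^ n / 2 ^ a := by
    have h6 := hs ω x
    have ha : (0 : ℝ) < 2 ^ a := by positivity
    have hn : (0 : ℝ) < 2 ^ n := by positivity
    rw [le_div_iff₀ ha]
    rw [div_mul_eq_mul_div, div_le_iff₀ hn] at h6
    have h7 : (D : ℝ) * (n1 (c ω) * 2 ^ a) ≤ D * (C₁ * 2 ^ n) :=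
      mul_le_mul_of_nonneg_left h6 (Nat.cast_nonneg D)
    have h8 : D * C₁ * 2 ^ n ≤ C₂ * 2 ^ n := mul_le_mul_of_nonneg_right hC₁ hn.le
    linarith
  have h6 : 0 ≤ |(t ω : ℝ) - t ω'| / 2 ^ X := by positivity
  have h7 := mul_le_mul_of_nonneg_right h5 h6
  have h8 : |(V ω : ℝ) - V ω'| ≤
      |(pol (c ω)).eval ((t ω : ℝ) / 2 ^ X) - (pol (c ω)).eval ((t ω' : ℝ) / 2 ^ X)| + 2 * C := by
    have h9 : (V ω : ℝ) - V ω' =
        ((pol (c ω)).eval ((t ω : ℝ) / 2 ^ X) - (pol (c ω)).eval ((t ω' : ℝ) / 2 ^ X)) +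
        (((V ω : ℝ) - (A ω + (pol (c ω)).eval ((t ω : ℝ) / 2 ^ X))) -
          ((V ω' : ℝ) - (A ω + (pol (c ω)).eval ((t ω' : ℝ) / 2 ^ X)))) := by ring
    rw [h9]
    refine (abs_add_le _ _).trans (add_le_add_right ?_ _)
    refine (abs_sub _ _).trans ?_
    linarith
  linarith

/-- **The lower bound for the speed** where the derivative is not small. -/
theorem Rlp.lo (h : Rlp q W t V A c X C) (ht : ∀ ω, 0 < q ω → 0 ≤ t ω ∧ t ω < 2 ^ X)
    {a R r : ℕ} {K : ℝ} (hK : 1 ≤ K) (hR : 4 * K * (D ^ 2 + 1) * 2 ^ (r * D) ≤ 2 ^ R) (hRX : R ≤ X)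
    (hs : ∀ ω, 0 < q ω → 1 ≤ n1 (c ω) / 2 ^ n * 2 ^ a)
    (hg : ∀ ω, 0 < q ω → gd t c X R r K ω) {C₂ : ℝ} (hC₂ : 2 * C ≤ C₂) :
    Dlo q (Wr W t X R) t V X n (a + R) C₂ := by
  intro ω ω' x x' e
  obtain ⟨e0, e1⟩ := Prod.ext_iff.mp e
  have h1 := h.rel ω x
  have h2 := h.rel ω' x'
  rw [← h.dA ω ω' x x' e0, ← h.dc ω ω' x x' e0] at h2
  obtain ⟨p1, p2⟩ := time_unit (ht ω x)
  obtain ⟨p3, p4⟩ := time_unit (ht ω' x')
  have hP : (0 : ℝ) < 2 ^ X := by positivity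
  have hPR : (0 : ℝ) < 2 ^ R := by positivity
  have hPa : (0 : ℝ) < 2 ^ a := by positivity
  have hPn : (0 : ℝ) < 2 ^ n := by positivity
  have hPr : (0 : ℝ) < 2 ^ (r * D) := by positivity
  -- the left end of the interval
  have hz : (0 : ℤ) < 2 ^ (X - R) := by positivity
  have hend : ∀ ω, 0 < q ω → 0 ≤ tp X R (t ω) ∧ tp X R (t ω) < 2 ^ R ∧
      |(t ω : ℝ) / 2 ^ X - (tp X R (t ω) : ℝ) / 2 ^ R| ≤ 1 / 2 ^ R := by
    intro ω x
    obtain ⟨t0, t1⟩ := ht ω x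
    have f1 := Int.ediv_mul_le (t ω) hz.ne'
    have f2 := Int.lt_ediv_add_one_mul_self (t ω) hz
    have f3 : (tp X R (t ω) : ℝ) * 2 ^ (X - R) ≤ t ω := by
      have : ((t ω / 2 ^ (X - R) * 2 ^ (X - R) : ℤ) : ℝ) ≤ t ω := by exact_mod_cast f1
      push_cast at this
      exact this
    have f4 : (t ω : ℝ) < ((tp X R (t ω) : ℝ) + 1) * 2 ^ (X - R) := by
      have : ((t ω : ℤ) : ℝ) < (((t ω / 2 ^ (X - R)) + 1) * 2 ^ (X - R) : ℤ) := by exact_mod_cast f2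
      push_cast at this
      exact this
    have f5 : (2 : ℝ) ^ X = 2 ^ (X - R) * 2 ^ R := by rw [← pow_add]; congr 1; omega
    refine ⟨Int.ediv_nonneg t0 hz.le, ?_, ?_⟩
    · unfold tp
      refine Int.ediv_lt_of_lt_mul hz ?_
      have : (2 : ℤ) ^ R * 2 ^ (X - R) = 2 ^ X := by rw [← pow_add]; congr 1; omega
      rw [this]
      exact t1
    · have hPX : (0 : ℝ) < 2 ^ (X - R) := by positivity
      have f6 : (t ω : ℝ) / 2 ^ X - (tp X R (t ω) : ℝ) / 2 ^ R =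
          ((t ω : ℝ) - tp X R (t ω) * 2 ^ (X - R)) / (2 ^ (X - R) * 2 ^ R) := by
        rw [f5]
        field_simp
      rw [f6, abs_div, abs_of_pos (by positivity : (0 : ℝ) < 2 ^ (X - R) * 2 ^ R),
        div_le_div_iff₀ (by positivity) hPR, one_mul]
      refine mul_le_mul_of_nonneg_right ?_ hPR.le
      rw [abs_le]
      constructor <;> nlinarith
  obtain ⟨a1, a2, a3⟩ := hend ω x
  obtain ⟨-, -, b3⟩ := hend ω' x'
  have e2 : tp X R (t ω) = tp X R (t ω') := e1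
  rw [← e2] at b3
  obtain ⟨e, he⟩ : ∃ e : ℝ, e = (tp X R (t ω) : ℝ) / 2 ^ R := ⟨_, rfl⟩
  rw [← he] at a3 b3
  have he0 : 0 ≤ e := by
    rw [he]
    have : (0 : ℝ) ≤ tp X R (t ω) := by exact_mod_cast a1
    positivity
  have he1 : e ≤ 1 := by
    rw [he, div_le_one hPR]
    exact_mod_cast a2.le
  -- the derivative
  obtain ⟨lam, hlam⟩ : ∃ lam : ℝ, lam = thr K r (c ω) := ⟨_, rfl⟩
  have hg1 : lam ≤ |(Polynomial.derivative (pol (c ω))).eval e| := by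
    have h3 := hg ω x
    unfold gd bads at h3
    rw [Finset.mem_filter] at h3
    push Not at h3
    have h4 := h3 (Finset.mem_Ico.2 ⟨a1, a2⟩)
    rw [← hlam, ← he] at h4
    exact h4
  have hn0 := n1_nonneg (c ω)
  have hK0 : 0 < K := by linarith
  have hlo : lam / 2 = n1 (c ω) / (4 * K * 2 ^ (r * D)) := by
    rw [hlam]
    unfold thr
    field_simp
    norm_num
  have hρ : D ^ 2 * n1 (c ω) * (1 / 2 ^ R) ≤ lam / 2 := by
    rw [hlo, mul_one_div, div_le_div_iff₀ hPR (by positivity)]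
    have h3 : (D : ℝ) ^ 2 * (4 * K * 2 ^ (r * D)) ≤ 2 ^ R := by
      refine le_trans ?_ hR
      have : 0 ≤ 4 * K * 2 ^ (r * D) := by positivity
      nlinarith
    have h4 := mul_le_mul_of_nonneg_left h3 hn0
    linarith
  have h3 := pol_lo (c ω) p1 p2 p3 p4 he0 he1 a3 b3 hg1 hρ
  have h4 : (t ω : ℝ) / 2 ^ X - (t ω' : ℝ) / 2 ^ X = ((t ω : ℝ) - t ω') / 2 ^ X := by ring
  rw [h4, abs_div, abs_of_pos hP] at h3
  have h5 : (2 : ℝ) ^ n / 2 ^ (a + R) ≤ lam / 2 := by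
    have h6 := hs ω x
    rw [div_mul_eq_mul_div, le_div_iff₀ hPn, one_mul] at h6
    rw [hlo, div_le_div_iff₀ (by positivity) (by positivity), pow_add]
    have h7 : 4 * K * 2 ^ (r * D) ≤ 2 ^ R := by
      refine le_trans ?_ hR
      have h8 : 0 ≤ 4 * K * 2 ^ (r * D) := by positivity
      have h9 : (1 : ℝ) ≤ D ^ 2 + 1 := by
        have : (0 : ℝ) ≤ (D : ℝ) ^ 2 := by positivity
        linarith
      nlinarith
    calc 2 ^ n * (4 * K * 2 ^ (r * D)) ≤ (n1 (c ω) * 2 ^ a) * 2 ^ R :=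
          mul_le_mul h6 h7 (by positivity) (by positivity)
      _ = n1 (c ω) * (2 ^ a * 2 ^ R) := by ring
  have h6 : 0 ≤ |(t ω : ℝ) - t ω'| / 2 ^ X := by positivity
  have h7 := mul_le_mul_of_nonneg_right h5 h6
  have h8 : |(pol (c ω)).eval ((t ω : ℝ) / 2 ^ X) - (pol (c ω)).eval ((t ω' : ℝ) / 2 ^ X)| ≤
      |(V ω : ℝ) - V ω'| + 2 * C := by
    have h9 : (pol (c ω)).eval ((t ω : ℝ) / 2 ^ X) - (pol (c ω)).eval ((t ω' : ℝ) / 2 ^ X) =
        ((V ω : ℝ) - V ω') -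
        (((V ω : ℝ) - (A ω + (pol (c ω)).eval ((t ω : ℝ) / 2 ^ X))) -
          ((V ω' : ℝ) - (A ω + (pol (c ω)).eval ((t ω' : ℝ) / 2 ^ X)))) := by ring
    rw [h9]
    refine (abs_sub _ _).trans (add_le_add_right ?_ _)
    refine (abs_sub _ _).trans ?_
    linarith
  linarith

/-- The good event is a function of the condition. -/
theorem det_gd (hc : Det q W c) (R r : ℕ) (K : ℝ) : Det q (Wr W t X R) (gd t c X R r K) := by
  intro w w' x x' e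
  obtain ⟨e0, e1⟩ := Prod.ext_iff.mp e
  have e2 := hc w w' x x' e0
  have e3 : tp X R (t w) = tp X R (t w') := e1
  unfold gd
  rw [e2, e3]

end Pool.LPK12
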