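import Pool.Agent.H12.LPK.Cvt

/-!
# LPK for own paths: the rows
-/

set_option autoImplicit false

namespace Pool.LPK12

open Finset Real
open Pool.Agent.H49.Ent Pool.Agent.H32.Dense Pool.STK Pool.KA Pool.KSAT Pool.K2S Pool.PB Pool.GEN
open Pool.S6C Pool.LA91 Pool.OWN68 Pool.AJ18 Pool.PAIR76 Pool.PN18 Pool.LPX

variable {m J : ℕ}

theorem tp_fl (X i : ℕ) (x : ℝ) : tp X i ⌊x⌋ = ⌊x / 2 ^ (X - i)⌋ := by
  have h := Int.floor_div_natCast (x : ℝ) (2 ^ (X - i))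
  push_cast at h
  unfold tp
  exact h.symm

theorem part_pos {F : Fam m J} {A : F.Ω → Prop} (hA : 0 < Pe F.p A) {ϖ : ℝ} {G : F.Ω → Prop}
    (hG : ϖ ≤ Pe (Pool.Agent.H49.Ent.cond F.p A True) G) :
    ϖ * Pe F.p A ≤ Pe F.p (fun ω => A ω ∧ G ω) := by
  rw [Pe_cond, le_div_iff₀ hA] at hG
  exact hG

/-- The row of the fast coordinate. -/
theorem nz_of {F : Fam m J} {A : F.Ω → Prop} (hA : 0 < Pe F.p A) {R₁ R₂ : LnT F → Polynomial ℝ}
    {𝒞 : Type} {c : LnT F → 𝒞} {W X : ℕ} {a b μ h e ϖ h' d : ℝ} (hJ : 0 < J) (ha : 0 < a)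
    (hX : (X : ℝ) ≤ a * μ * J) (H : NFo F A R₁ R₂ c W a b μ h e ϖ) (he : e * J ≤ d)
    (hh : h' ≤ h / a) :
    Nz (Pool.Agent.H49.Ent.cond F.p A True) (fun ω => ⌊pj F R₂ W 0 ω⌋)
      (fun ω => ⌊pj F R₁ W 0 ω⌋) (fun ω => (c (slam F W ω), F.W ω)) X h' ϖ d := by
  have hJ0 : (0 : ℝ) < J := by exact_mod_cast hJ
  have hl2 : 0 < Real.log 2 := Real.log_pos one_lt_two
  intro i hi G hG
  rw [cond_and G hA.ne']
  have hiX : (i : ℝ) ≤ X := by exact_mod_cast hi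
  have h1 := H (fun ω => A ω ∧ G ω) (fun ω h => h.1) (part_pos hA hG) 0 (((X : ℝ) - i) / (a * J))
    le_rfl (by
      refine div_nonneg (by linarith) (by positivity)) (by
      rw [div_le_iff₀ (by positivity)]
      have : (0 : ℝ) ≤ i := Nat.cast_nonneg i
      nlinarith)
  have e1 : (a * (((X : ℝ) - i) / (a * J))) * J = ((X - i : ℕ) : ℝ) := by
    rw [Nat.cast_sub hi]
    field_simp
  have e2 : ((a - h) * (((X : ℝ) - i) / (a * J) - 0) * Real.log 2 + e) * J =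
      (1 - h / a) * ((X : ℝ) - i) * Real.log 2 + e * J := by
    field_simp
    ring
  rw [e1, e2] at h1
  simp only [mul_zero, zero_mul, Real.rpow_zero, div_one, Real.rpow_natCast] at h1
  simp only [tp_fl]
  refine h1.trans ?_
  have h2 : (1 - h / a) * ((X : ℝ) - i) * Real.log 2 ≤ (1 - h') * ((X : ℝ) - i) * Real.log 2 :=
    mul_le_mul_of_nonneg_right (mul_le_mul_of_nonneg_right (by linarith) (by linarith)) hl2.le
  linarith

/-- The rows of the slow coordinate. -/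
theorem nu_of {F : Fam m J} {A : F.Ω → Prop} (hA : 0 < Pe F.p A) {R₁ R₂ : LnT F → Polynomial ℝ}
    {𝒞 : Type} {c : LnT F → 𝒞} {W X : ℕ} {a b μ h e ϖ h' d : ℝ} (hJ : 0 < J) (ha : 0 < a)
    (hb : 0 < b) (hϖ : 0 < ϖ) (hn : ((⌈b / a * X⌉₊ : ℕ) : ℝ) ≤ b * μ * J)
    (H : NFo F A R₂ R₁ c W b a μ h e ϖ) (he : e * J + Real.log 5 ≤ d) (hh : h' ≤ h / b) :
    Nu (Pool.Agent.H49.Ent.cond F.p A True) (fun ω => ⌊pj F R₂ W 0 ω⌋)
      (fun ω => ⌊pj F R₁ W 0 ω⌋) (fun ω => (c (slam F W ω), F.W ω)) X ⌈b / a * X⌉₊ (b / a) h' ϖ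
      d := by
  have hJ0 : (0 : ℝ) < J := by exact_mod_cast hJ
  have hl2 : 0 < Real.log 2 := Real.log_pos one_lt_two
  have rp : ∀ x : ℝ, (0 : ℝ) < 2 ^ x := fun x => Real.rpow_pos_of_pos (by norm_num) x
  intro i k l hil hkX hlk G hG
  rw [cond_and G hA.ne']
  have hPB : 0 < Pe F.p (fun ω => A ω ∧ G ω) :=
    lt_of_lt_of_le (mul_pos hϖ hA) (part_pos hA hG)
  have hBl : IsLaw (Pool.Agent.H49.Ent.cond F.p (fun ω => A ω ∧ G ω) True) :=
    isLaw_cond F.isLaw hPB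
  obtain ⟨n, hnn⟩ : ∃ n : ℕ, n = ⌈b / a * X⌉₊ := ⟨_, rfl⟩
  rw [← hnn] at hn ⊢
  have hkX' : (k : ℝ) ≤ X := by exact_mod_cast hkX
  have hθ : 0 < b / a := div_pos hb ha
  have hln' : (l : ℝ) ≤ n := by
    have h1 : b / a * X ≤ n := by
      rw [hnn]
      exact Nat.le_ceil _
    have h2 : b / a * k ≤ b / a * X := mul_le_mul_of_nonneg_left hkX' hθ.le
    linarith
  have hln : l ≤ n := by exact_mod_cast hln'
  have hil' : (i : ℝ) ≤ l := by exact_mod_cast hil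
  have hi0 : (0 : ℝ) ≤ i := Nat.cast_nonneg i
  have h1 := H (fun ω => A ω ∧ G ω) (fun ω h => h.1) (part_pos hA hG) (((n : ℝ) - l) / (b * J))
    (((n : ℝ) - i) / (b * J)) (div_nonneg (by linarith) (by positivity))
    (div_le_div_of_nonneg_right (by linarith) (by positivity)) (by
      rw [div_le_iff₀ (by positivity)]
      nlinarith)
  have e1 : (b * (((n : ℝ) - i) / (b * J))) * J = ((n - i : ℕ) : ℝ) := by
    rw [Nat.cast_sub (hil.trans hln)]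
    field_simp
  have e2 : (b * (((n : ℝ) - l) / (b * J))) * J = ((n - l : ℕ) : ℝ) := by
    rw [Nat.cast_sub hln]
    field_simp
  have e3 : ((b - h) * (((n : ℝ) - i) / (b * J) - ((n : ℝ) - l) / (b * J)) * Real.log 2 + e) * J =
      (1 - h / b) * ((l : ℝ) - i) * Real.log 2 + e * J := by
    field_simp
    ring
  have e4 : ((X - k : ℕ) : ℝ) ≤ (a * (((n : ℝ) - l) / (b * J))) * J := by
    rw [Nat.cast_sub hkX]
    have h2 : (a * (((n : ℝ) - l) / (b * J))) * J = ((n : ℝ) - l) / (b / a) := by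
      field_simp
    rw [h2, le_div_iff₀ hθ]
    have h3 : b / a * X ≤ n := by
      rw [hnn]
      exact Nat.le_ceil _
    linarith
  rw [e1, e2, e3] at h1
  simp only [Real.rpow_natCast] at h1
  simp only [tp_fl]
  have h2 := coarse hBl (fun ω => ⌊pj F R₂ W 0 ω / 2 ^ (n - l)⌋) (fun ω => pj F R₁ W 0 ω)
    (fun ω => ⌊pj F R₂ W 0 ω / 2 ^ (n - i)⌋) (fun ω => (c (slam F W ω), F.W ω))
    (s₁ := 2 ^ ((X - k : ℕ) : ℝ)) (s₂ := 2 ^ ((a * (((n : ℝ) - l) / (b * J))) * J)) (rp _)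
    (Real.rpow_le_rpow_of_exponent_le (by norm_num) e4)
  simp only [Real.rpow_natCast] at h2
  refine h2.trans ?_
  have h3 : (1 - h / b) * ((l : ℝ) - i) * Real.log 2 ≤ (1 - h') * ((l : ℝ) - i) * Real.log 2 :=
    mul_le_mul_of_nonneg_right (mul_le_mul_of_nonneg_right (by linarith) (by linarith)) hl2.le
  linarith

end Pool.LPK12
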