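import Pool.Agent.H12.LPK.Hin

/-!
# Several times and several values

`Vbl`: real values which are bi-Lipschitz functions of a vector of times, given a condition.
`vec_cell`: if the times are full then the digits of the values behind `l` are full given the
digits before and few other things. `hopv_ind`: the same for a law downstairs, all large events.
-/

set_option autoImplicit false

namespace Pool.LPK12

open Finset Real
open Pool.Agent.H49.Ent Pool.Agent.H32.Dense Pool.STK Pool.POT Pool.TQ Pool.LPX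
open Pool.K2S (Pe)

/-- Subadditivity for a finite family. -/
theorem CH_fam {Ω ι S T : Type} [Fintype Ω] [Fintype ι] {p : Ω → ℝ} (hp0 : ∀ ω, 0 ≤ p ω)
    (X : Ω → ι → S) (W : Ω → T) : CH p X W ≤ ∑ i, CH p (fun ω => X ω i) W := by
  classical
  have key : ∀ s : Finset ι, CH p (fun ω i => if i ∈ s then some (X ω i) else none) W ≤
      ∑ i ∈ s, CH p (fun ω => X ω i) W := by
    intro s
    induction s using Finset.induction_on with
    | empty =>
      rw [Finset.sum_empty]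
      refine le_of_eq (CH_eq_zero hp0 ?_)
      intro ω ω' _ _ _
      funext i
      simp
    | insert j s hj ih =>
      rw [Finset.sum_insert hj]
      have h1 : CH p (fun ω i => if i ∈ insert j s then some (X ω i) else none) W ≤
          CH p (fun ω => (X ω j, fun i => if i ∈ s then some (X ω i) else none)) W := by
        refine CH_mono_left hp0 ?_
        intro ω ω' _ _ h
        simp only [Prod.mk.injEq] at h
        funext i
        by_cases hi : i = j
        · subst hi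
          simp only [Finset.mem_insert_self, if_true]
          rw [h.1.1]
        · have h2 := congrFun h.1.2 i
          simp only [Finset.mem_insert, hi, false_or]
          exact h2
      have h2 := CH_subadd hp0 (fun ω => X ω j) (fun ω i => if i ∈ s then some (X ω i) else none) W
      linarith
  refine le_trans (le_of_eq ?_) (key Finset.univ)
  refine CH_congr hp0 ?_ ?_ (fun _ _ _ _ h => h) (fun _ _ _ _ h => h)
  · intro ω ω' _ _ h
    have h3 := (Prod.ext_iff.mp h).1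
    funext i
    simp only [Finset.mem_univ, if_true]
    rw [show X ω = X ω' from h3]
  · intro ω ω' _ _ h
    have h3 := (Prod.ext_iff.mp h).1
    funext i
    have h4 := congrFun h3 i
    simp only [Finset.mem_univ, if_true, Option.some.injEq] at h4
    exact h4

/-- A variable which is full on the whole is full on any event. -/
theorem full_anyT {Ω τ κ : Type} [Fintype Ω] {q : Ω → ℝ} (hq : IsLaw q) {F : Ω → Prop}
    (t : Ω → κ) (W : Ω → τ) (T : Finset κ) (hT : ∀ w, 0 < q w → t w ∈ T) {D : ℝ}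
    (full : Real.log T.card - D ≤ CH q t W) (h0 : 0 < Pe q F) :
    Real.log T.card - (D + Real.log 2) / Pe q F ≤ CH (cond q F True) t W := by
  classical
  have hn := hq.nonneg
  have hl2 : 0 ≤ Real.log 2 := Real.log_nonneg (by norm_num)
  obtain ⟨I, hI⟩ : ∃ I : Ω → Bool, I = fun ω => decide (F ω) := ⟨_, rfl⟩
  have h1 := CH_le_add hn t I W
  have h2 : CH q I W ≤ Real.log 2 := by
    have := CH_le_card hn hq.sum_one I W (fun _ => Finset.univ) fun _ _ => Finset.mem_univ _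
    rw [Ex_const hq.sum_one] at this
    simpa using this
  have h3 : Det q (fun ω => (I ω, W ω)) F := by
    intro ω ω' _ _ e
    have e1 : I ω = I ω' := (Prod.ext_iff.mp e).1
    rw [hI] at e1
    exact propext (decide_eq_decide.1 e1)
  have hle : ∀ q' : Ω → ℝ, IsLaw q' → (∀ w, 0 < q' w → 0 < q w) →
      CH q' t (fun ω => (I ω, W ω)) ≤ Real.log T.card := by
    intro q' hq' hs
    have g := CH_le_card hq'.nonneg hq'.sum_one t (fun ω => (I ω, W ω)) (fun _ => T)
      (fun w hw => hT w (hs w hw))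
    rw [Ex_const hq'.sum_one] at g
    exact g
  have h4 := CH_ev hn t (fun ω => (I ω, W ω)) h3
  have h5 := law_ev hq F
  have h6 : Pe q F = law q F True := rfl
  have hpos : ∀ b : Prop, ∀ w, 0 < cond q F b w → 0 < q w := fun b w hw =>
    ((cond_pos_iff hn F b w).1 hw).1
  have h7 : law q F False * CH (cond q F False) t (fun ω => (I ω, W ω)) ≤
      law q F False * Real.log T.card := by
    rcases (law_nonneg hn F False).eq_or_lt with e | e
    · rw [← e, zero_mul, zero_mul]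
    · have hl : IsLaw (cond q F False) := ⟨cond_nonneg hn _ _, sum_cond _ _ e.ne'⟩
      exact mul_le_mul_of_nonneg_left (hle _ hl (hpos False)) e.le
  have h8 : CH (cond q F True) t (fun ω => (I ω, W ω)) ≤ CH (cond q F True) t W :=
    CH_mono_cond (cond_law hn h0).nonneg fun ω ω' _ _ e => (Prod.ext_iff.mp e).2
  refine le_trans ?_ h8
  rw [h6] at h0 ⊢
  have h9 : law q F False = 1 - law q F True := by linarith
  have h10 : law q F True * (Real.log T.card - (D + Real.log 2) / law q F True) ≤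
      law q F True * CH (cond q F True) t (fun ω => (I ω, W ω)) := by
    have e1 : law q F True * (Real.log T.card - (D + Real.log 2) / law q F True) =
        law q F True * Real.log T.card - (D + Real.log 2) := by
      field_simp
    rw [e1]
    rw [h9] at h7 h4
    linarith
  exact le_of_mul_le_mul_left h10 h0

/-- **Bi-Lipschitz values**: `y i` moves in `2 ^ r i` units. -/
structure Vbl {ι Ω τ : Type} [Fintype ι] (q : Ω → ℝ) (W : Ω → τ) (t : Ω → ι → ℤ)
    (y : Ω → ι → ℝ) (M : ℕ) (r : ι → ℕ) (g : ℕ) (C : ℝ) : Prop where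
  up : ∀ w w', 0 < q w → 0 < q w' → W w = W w' → ∀ i,
    |y w i - y w' i| ≤ C * 2 ^ r i * ((∑ j, |(t w j : ℝ) - t w' j|) / 2 ^ M)
  lo : ∀ w w', 0 < q w → 0 < q w' → W w = W w' →
    (∑ j, |(t w j : ℝ) - t w' j|) / 2 ^ M ≤ 2 ^ g * ∑ i, |y w i - y w' i| / 2 ^ r i

/-- **One cell.** -/
theorem vec_cell {ι Ω τ ζ σ : Type} [Fintype ι] [Fintype Ω] {ρ : Ω → ℝ} {W : Ω → τ}
    {t U : Ω → ι → ℤ} {y : Ω → ι → ℝ} {M : ℕ} {r n l : ι → ℕ} {g k : ℕ} {C Df ez : ℝ} {Z : Ω → ζ}
    {S : Ω → σ} (hρ : IsLaw ρ) (hb : Vbl ρ W t y M r g C) (hC : 1 ≤ C)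
    (ht : ∀ w, 0 < ρ w → ∀ i, 0 ≤ t w i ∧ t w i < 2 ^ M)
    (full : (Fintype.card ι : ℝ) * (M * Real.log 2) - Df ≤ CH ρ t W)
    (hU : ∀ w, 0 < ρ w → ∀ i, |(U w i : ℝ) - y w i| ≤ C)
    (hrM : ∀ i, r i ≤ M) (hln : ∀ i, n i ≤ l i + r i + k)
    (hZ : CH ρ Z W ≤ ez) (hS : Det ρ W S) :
    (∑ i, ((n i : ℝ) - l i)) * Real.log 2 - (Df + ez + Fintype.card ι *
      ((g + k) * Real.log 2 + 3 * Real.log (7 * C * (Fintype.card ι + 2)))) ≤
      CH ρ U (fun w => ((fun i => tp (n i) (l i) (U w i)), (Z w, S w))) := by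
  classical
  have hn := hρ.nonneg
  have hl2 : 0 < Real.log 2 := Real.log_pos (by norm_num)
  obtain ⟨c, hc⟩ : ∃ c : ℝ, c = (Fintype.card ι : ℝ) := ⟨_, rfl⟩
  have hc0 : 0 ≤ c := by rw [hc]; exact Nat.cast_nonneg _
  rw [← hc] at full ⊢
  obtain ⟨Lc, hLc⟩ : ∃ Lc : ℝ, Lc = Real.log (7 * C * (c + 2)) := ⟨_, rfl⟩
  rw [← hLc]
  have hC0 : 0 < C := by linarith
  have hCc : 1 ≤ C * (c + 2) := by
    have : C * 1 ≤ C * (c + 2) := mul_le_mul_of_nonneg_left (by linarith) hC0.le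
    linarith
  have hLc0 : 0 ≤ Lc := by
    rw [hLc]
    refine Real.log_nonneg ?_
    have : 7 * C * (c + 2) = 7 * (C * (c + 2)) := by ring
    linarith
  -- the deeper digits
  obtain ⟨V, hV⟩ : ∃ V : Ω → ι → ℤ, V = fun w i => ⌊2 ^ (M - r i) * y w i⌋ := ⟨_, rfl⟩
  have hPr : ∀ i, (2 : ℝ) ^ (M - r i) * 2 ^ r i = 2 ^ M := fun i => by
    rw [← pow_add, Nat.sub_add_cancel (hrM i)]
  -- sum of the displacements
  have hts : ∀ w w', 0 < ρ w → 0 < ρ w' →
      (∑ j, |(t w j : ℝ) - t w' j|) / 2 ^ M ≤ c := by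
    intro w w' x x'
    rw [Finset.sum_div]
    have h1 : ∑ j, |(t w j : ℝ) - t w' j| / 2 ^ M ≤ ∑ _j : ι, (1 : ℝ) :=
      Finset.sum_le_sum fun j _ => tdif (ht w x j) (ht w' x' j)
    rw [Finset.sum_const, Finset.card_univ, nsmul_eq_mul, mul_one, ← hc] at h1
    exact h1
  -- A: the time from the deep digits
  have eA : CH ρ t (fun w => (V w, W w)) ≤ c * (g * Real.log 2 + Lc) := by
    refine (CH_fam hn t _).trans ?_
    have h1 : ∀ i ∈ (Finset.univ : Finset ι), CH ρ (fun w => t w i) (fun w => (V w, W w)) ≤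
        g * Real.log 2 + Lc := by
      intro i _
      have h2 := CH_few hρ (fun w => t w i) (fun w => (V w, W w)) (L := 2 ^ g * c) (by
        intro w w' x x' e
        obtain ⟨e1, e2⟩ := Prod.ext_iff.mp e
        have e3 : V w = V w' := e1
        have h3 := hb.lo w w' x x' e2
        have h4 : ∀ j, |y w j - y w' j| / 2 ^ r j ≤ 1 / 2 ^ M := by
          intro j
          have e4 : V w j = V w' j := congrFun e3 j
          rw [hV] at e4
          have e5 : ⌊(2 : ℝ) ^ (M - r j) * y w j⌋ = ⌊(2 : ℝ) ^ (M - r j) * y w' j⌋ := e4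
          have e6 := (Int.abs_sub_lt_one_of_floor_eq_floor e5).le
          rw [← mul_sub, abs_mul, abs_of_pos (by positivity : (0 : ℝ) < 2 ^ (M - r j))] at e6
          rw [div_le_div_iff₀ (by positivity) (by positivity), one_mul, ← hPr j]
          have e7 := mul_le_mul_of_nonneg_right e6 (by positivity : (0 : ℝ) ≤ 2 ^ r j)
          linarith
        have h5 : ∑ j, |y w j - y w' j| / 2 ^ r j ≤ c / 2 ^ M := by
          have h6 : ∑ j, |y w j - y w' j| / 2 ^ r j ≤ ∑ _j : ι, (1 : ℝ) / 2 ^ M :=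
            Finset.sum_le_sum fun j _ => h4 j
          rw [Finset.sum_const, Finset.card_univ, nsmul_eq_mul, ← hc, mul_one_div] at h6
          exact h6
        have h6 : (∑ j, |(t w j : ℝ) - t w' j|) / 2 ^ M ≤ 2 ^ g * (c / 2 ^ M) :=
          h3.trans (mul_le_mul_of_nonneg_left h5 (by positivity))
        rw [← mul_div_assoc, div_le_div_iff_of_pos_right (by positivity)] at h6
        push_cast
        exact (Finset.single_le_sum (f := fun j => |(t w j : ℝ) - t w' j|)
          (fun j _ => abs_nonneg _) (Finset.mem_univ i)).trans h6)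
      refine h2.trans ?_
      have h3 : (0 : ℝ) < 2 ^ g := by positivity
      have h4 : (1 : ℝ) ≤ 2 ^ g := one_le_pow₀ (by norm_num)
      rw [hLc, ← Real.log_pow, ← Real.log_mul h3.ne' (by positivity)]
      refine Real.log_le_log (by positivity) ?_
      have h5 : 2 * c + 1 ≤ 7 * C * (c + 2) := by
        have : 7 * (c + 2) ≤ 7 * C * (c + 2) := by
          have := mul_le_mul_of_nonneg_right hC (by linarith : 0 ≤ 7 * (c + 2))
          linarith
        linarith
      have h6 := mul_le_mul_of_nonneg_left h5 h3.le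
      linarith
    refine (Finset.sum_le_sum h1).trans (le_of_eq ?_)
    rw [Finset.sum_const, Finset.card_univ, nsmul_eq_mul, hc]
  -- B: the deep digits from the digits
  have eB : CH ρ V (fun w => (U w, W w)) ≤ ∑ i, (((M : ℝ) - r i) * Real.log 2 + Lc) := by
    refine (CH_fam hn V _).trans (Finset.sum_le_sum fun i _ => ?_)
    have h2 := CH_few hρ (fun w => V w i) (fun w => (U w, W w)) (L := 2 ^ (M - r i) * (2 * C) + 1)
      (by
        intro w w' x x' e
        obtain ⟨e1, e2⟩ := Prod.ext_iff.mp e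
        have e3 : U w i = U w' i := congrFun e1 i
        have h3 := hU w x i
        have h4 := hU w' x' i
        rw [e3] at h3
        have h5 : |y w i - y w' i| ≤ 2 * C := by
          have h6 : y w i - y w' i = ((U w' i : ℝ) - y w' i) - ((U w' i : ℝ) - y w i) := by ring
          rw [h6]
          exact (abs_sub _ _).trans (by linarith)
        rw [hV]
        beta_reduce
        push_cast
        obtain ⟨a, ha⟩ : ∃ a : ℝ, a = 2 ^ (M - r i) * y w i := ⟨_, rfl⟩
        obtain ⟨b, hb'⟩ : ∃ b : ℝ, b = 2 ^ (M - r i) * y w' i := ⟨_, rfl⟩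
        have h6 : |a - b| ≤ 2 ^ (M - r i) * (2 * C) := by
          rw [ha, hb', ← mul_sub, abs_mul, abs_of_pos (by positivity : (0 : ℝ) < 2 ^ (M - r i))]
          exact mul_le_mul_of_nonneg_left h5 (by positivity)
        rw [← ha, ← hb']
        have f1 := Int.floor_le a
        have f2 := Int.lt_floor_add_one a
        have f3 := Int.floor_le b
        have f4 := Int.lt_floor_add_one b
        rw [abs_le] at h6 ⊢
        constructor <;> linarith)
    refine h2.trans ?_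
    have h3 : (0 : ℝ) < 2 ^ (M - r i) := by positivity
    have h4 : (1 : ℝ) ≤ 2 ^ (M - r i) := one_le_pow₀ (by norm_num)
    rw [hLc, ← Nat.cast_sub (hrM i), ← Real.log_pow, ← Real.log_mul h3.ne' (by positivity)]
    refine Real.log_le_log (by positivity) ?_
    have h5 : 2 * (2 ^ (M - r i) * (2 * C) + 1) + 1 ≤ 2 ^ (M - r i) * (4 * C + 3) := by linarith
    refine h5.trans (mul_le_mul_of_nonneg_left ?_ h3.le)
    have h6 : 7 * C * 2 ≤ 7 * C * (c + 2) := mul_le_mul_of_nonneg_left (by linarith) (by linarith)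
    linarith
  -- C: the first digits
  have eC : CH ρ (fun w i => tp (n i) (l i) (U w i)) W ≤
      ∑ i, (((r i - (n i - l i) : ℕ) : ℝ) * Real.log 2 + Lc) := by
    refine (CH_fam hn _ _).trans (Finset.sum_le_sum fun i _ => ?_)
    have h2 := CH_few_tp hρ (fun w => U w i) W (X := n i) (m := l i)
      (L := C * (c + 2) * 2 ^ (r i - (n i - l i))) (by
        intro w w' x x' e
        have h3 := hU w x i
        have h4 := hU w' x' i
        have h5 := hb.up w w' x x' e i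
        have h6 := hts w w' x x'
        have h7 : |y w i - y w' i| ≤ C * 2 ^ r i * c :=
          h5.trans (mul_le_mul_of_nonneg_left h6 (by positivity))
        have h8 : (U w i : ℝ) - U w' i = ((U w i : ℝ) - y w i) + (y w i - y w' i) -
            ((U w' i : ℝ) - y w' i) := by ring
        rw [h8]
        refine (abs_sub _ _).trans ?_
        have h9 := abs_add_le ((U w i : ℝ) - y w i) (y w i - y w' i)
        have h10 : (2 : ℝ) ^ r i ≤ 2 ^ (r i - (n i - l i)) * 2 ^ (n i - l i) := by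
          rw [← pow_add]
          exact pow_le_pow_right₀ (by norm_num) (by omega)
        have h11 : (1 : ℝ) ≤ 2 ^ r i := one_le_pow₀ (by norm_num)
        have h12 : C * 2 ^ r i * c + 2 * C ≤ C * (c + 2) * 2 ^ r i := by
          have h13 := mul_le_mul_of_nonneg_left h11 (by linarith : 0 ≤ 2 * C)
          have h14 : C * (c + 2) * 2 ^ r i = C * 2 ^ r i * c + 2 * C * 2 ^ r i := by ring
          rw [h14]
          linarith
        have h13 := mul_le_mul_of_nonneg_left h10 (by linarith : 0 ≤ C * (c + 2))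
        have h14 : C * (c + 2) * (2 ^ (r i - (n i - l i)) * 2 ^ (n i - l i)) =
            C * (c + 2) * 2 ^ (r i - (n i - l i)) * 2 ^ (n i - l i) := by ring
        linarith)
    refine h2.trans ?_
    have h3 : (0 : ℝ) < 2 ^ (r i - (n i - l i)) := by positivity
    have h4 : (1 : ℝ) ≤ 2 ^ (r i - (n i - l i)) := one_le_pow₀ (by norm_num)
    rw [hLc, ← Real.log_pow, ← Real.log_mul h3.ne' (by positivity)]
    refine Real.log_le_log (by positivity) ?_
    have h5 := mul_le_mul_of_nonneg_right h4 (by linarith : 0 ≤ C * (c + 2))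
    have h6 : 2 * (C * (c + 2) * 2 ^ (r i - (n i - l i))) + 3 ≤
        5 * (2 ^ (r i - (n i - l i)) * (C * (c + 2))) := by
      have h7 : C * (c + 2) * 2 ^ (r i - (n i - l i)) =
          2 ^ (r i - (n i - l i)) * (C * (c + 2)) := by ring
      rw [h7]
      linarith
    have h8 : 2 ^ (r i - (n i - l i)) * (7 * C * (c + 2)) =
        7 * (2 ^ (r i - (n i - l i)) * (C * (c + 2))) := by ring
    rw [h8]
    have h9 : 0 ≤ 2 ^ (r i - (n i - l i)) * (C * (c + 2)) := by positivity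
    linarith
  -- the chain
  obtain ⟨ul, hul⟩ : ∃ ul : Ω → ι → ℤ, ul = fun w i => tp (n i) (l i) (U w i) := ⟨_, rfl⟩
  rw [← hul] at eC
  have c1 := CH_le_add hn t ul W
  have c2 := CH_le_add hn t Z (fun w => (ul w, W w))
  have c3 := CH_le_add hn t U (fun w => (Z w, (ul w, W w)))
  have c4 : CH ρ Z (fun w => (ul w, W w)) ≤ CH ρ Z W :=
    CH_mono_cond hn fun _ _ _ _ e => (Prod.ext_iff.mp e).2
  have c5 := CH_le_add hn t V (fun w => (U w, (Z w, (ul w, W w))))
  have c6 : CH ρ V (fun w => (U w, (Z w, (ul w, W w)))) ≤ CH ρ V (fun w => (U w, W w)) := by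
    refine CH_mono_cond hn fun w w' _ _ e => ?_
    simp only [Prod.mk.injEq] at e ⊢
    exact ⟨e.1, e.2.2.2⟩
  have c7 : CH ρ t (fun w => (V w, (U w, (Z w, (ul w, W w))))) ≤ CH ρ t (fun w => (V w, W w)) := by
    refine CH_mono_cond hn fun w w' _ _ e => ?_
    simp only [Prod.mk.injEq] at e ⊢
    exact ⟨e.1, e.2.2.2.2⟩
  have c8 : CH ρ U (fun w => (Z w, (ul w, W w))) ≤
      CH ρ U (fun w => ((fun i => tp (n i) (l i) (U w i)), (Z w, S w))) := by
    refine CH_mono_cond hn fun w w' x x' e => ?_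
    simp only [Prod.mk.injEq] at e
    have e6 := hS w w' x x' e.2.2
    have e8 := e.2.1
    rw [hul] at e8
    have e9 : (fun i => tp (n i) (l i) (U w i)) = fun i => tp (n i) (l i) (U w' i) := e8
    exact Prod.ext e9 (Prod.ext e.1 e6)
  have h9 : ∀ i, (n i : ℝ) - l i - k ≤ (r i : ℝ) - ((r i - (n i - l i) : ℕ) : ℝ) := by
    intro i
    have h10 := hln i
    have h11 : ((n i : ℤ) : ℤ) - l i - k ≤ (r i : ℤ) - ((r i - (n i - l i) : ℕ) : ℤ) := by omega
    exact_mod_cast h11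
  have h10 : ∑ i, ((n i : ℝ) - l i - k) ≤
      ∑ i, ((r i : ℝ) - ((r i - (n i - l i) : ℕ) : ℝ)) := Finset.sum_le_sum fun i _ => h9 i
  have h11 := mul_le_mul_of_nonneg_right h10 hl2.le
  have h12 : (∑ i, ((n i : ℝ) - l i - k)) = ∑ i, ((n i : ℝ) - l i) - c * k := by
    rw [Finset.sum_sub_distrib (f := fun i => (n i : ℝ) - l i) (g := fun _ => (k : ℝ)),
      Finset.sum_const, Finset.card_univ, nsmul_eq_mul, hc]
  rw [h12] at h11
  have h13 : ∑ i, (((M : ℝ) - r i) * Real.log 2 + Lc) =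
      c * (M * Real.log 2) - (∑ i, (r i : ℝ)) * Real.log 2 + c * Lc := by
    rw [Finset.sum_add_distrib, ← Finset.sum_mul, Finset.sum_sub_distrib, Finset.sum_const,
      Finset.sum_const, Finset.card_univ, nsmul_eq_mul, nsmul_eq_mul, hc]
    ring
  have h14 : ∑ i, (((r i - (n i - l i) : ℕ) : ℝ) * Real.log 2 + Lc) =
      (∑ i, ((r i - (n i - l i) : ℕ) : ℝ)) * Real.log 2 + c * Lc := by
    rw [Finset.sum_add_distrib, ← Finset.sum_mul, Finset.sum_const, Finset.card_univ,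
      nsmul_eq_mul, hc]
  rw [h13] at eB
  rw [h14] at eC
  rw [Finset.sum_sub_distrib (f := fun i => (r i : ℝ))] at h11
  have e1 : c * ((g + k) * Real.log 2 + 3 * Lc) = c * (g * Real.log 2 + Lc) +
      c * k * Real.log 2 + 2 * (c * Lc) := by ring
  rw [e1]
  have e2 : (∑ i, ((n i : ℝ) - l i) - c * k) * Real.log 2 =
      (∑ i, ((n i : ℝ) - l i)) * Real.log 2 - c * k * Real.log 2 := by ring
  rw [e2] at h11
  have e3 : (∑ i, (r i : ℝ) - ∑ i, ((r i - (n i - l i) : ℕ) : ℝ)) * Real.log 2 =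
      (∑ i, (r i : ℝ)) * Real.log 2 - (∑ i, ((r i - (n i - l i) : ℕ) : ℝ)) * Real.log 2 := by ring
  rw [e3] at h11
  linarith

/-- **Several hops.** -/
structure Hopv {Ω Ω' τ ζ σ ι : Type} [Fintype Ω] [Fintype Ω'] [Fintype ι] (p : Ω → ℝ)
    (q : Ω' → ℝ) (f : Ω' → Ω) (W : Ω' → τ) (t : Ω' → ι → ℤ) (Z : Ω → ζ) (S : Ω → σ) (M : ℕ)
    (d : ℝ) : Prop where
  lp : IsLaw p
  lq : IsLaw q
  im : Im q p f
  t0 : ∀ w, 0 < q w → ∀ i, 0 ≤ t w i ∧ t w i < 2 ^ M
  full : (Fintype.card ι : ℝ) * (M * Real.log 2) - d ≤ CH q t W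
  zf : CH q (fun w => Z (f w)) W ≤ d
  dS : Det q W (fun w => S (f w))

/-- **All events.** -/
theorem vec_all {Ω Ω' τ ζ σ ι : Type} [Fintype Ω] [Fintype Ω'] [Fintype ι] {p : Ω → ℝ}
    {q : Ω' → ℝ} {f : Ω' → Ω} {W : Ω' → τ} {t : Ω' → ι → ℤ} {Z : Ω → ζ} {S : Ω → σ} {M : ℕ}
    {d : ℝ} (H : Hopv p q f W t Z S M d) (hd : 0 ≤ d) {U : Ω → ι → ℤ} {y : Ω' → ι → ℝ}
    {r n l : ι → ℕ} {g k : ℕ} {C : ℝ} (hC : 1 ≤ C) {Gd : Ω' → Prop}
    (hb : Vbl (cond q Gd True) W t y M r g C)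
    (hU : ∀ w, 0 < q w → Gd w → ∀ i, |(U (f w) i : ℝ) - y w i| ≤ C)
    (hrM : ∀ i, r i ≤ M) (hln : ∀ i, n i ≤ l i + r i + k) (G : Ω → Prop) {b : ℝ}
    (hbad : Pe q (fun w => ¬ Gd w) ≤ b) (hbG : b < Pe p G) :
    (∑ i, ((n i : ℝ) - l i)) * Real.log 2 - Fintype.card ι *
      ((g + k) * Real.log 2 + 3 * Real.log (7 * C * (Fintype.card ι + 2))) -
      b / Pe p G * ((∑ i, (n i : ℝ)) * Real.log 2) - (2 * d + Real.log 2) / Pe p G ≤
      CH (cond p G True) U (fun ω => ((fun i => tp (n i) (l i) (U ω i)), (Z ω, S ω))) := by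
  classical
  have hq := H.lq
  have hl2 : 0 < Real.log 2 := Real.log_pos (by norm_num)
  have hb0 : 0 ≤ b := le_trans (law_nonneg hq.nonneg _ _) hbad
  have h0 : 0 < Pe p G := lt_of_le_of_lt hb0 hbG
  obtain ⟨E, hE⟩ : ∃ E : Ω' → Prop, E = fun w => G (f w) := ⟨_, rfl⟩
  have hPE : Pe q E = Pe p G := by
    rw [hE]
    exact H.im.law G True
  rw [← hPE] at h0 hbG ⊢
  obtain ⟨qE, hqE⟩ : ∃ qE, qE = cond q E True := ⟨_, rfl⟩
  have hqEl : IsLaw qE := by
    rw [hqE]
    exact cond_law hq.nonneg h0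
  have him : Im qE (cond p G True) f := by
    rw [hqE, hE]
    exact im_cond H.im G
  have e0 := him.CH U (fun ω => ((fun i => tp (n i) (l i) (U ω i)), (Z ω, S ω)))
  rw [← e0]
  obtain ⟨F, hF⟩ : ∃ F : Ω' → Prop, F = fun w => E w ∧ Gd w := ⟨_, rfl⟩
  have hPF : Pe q E - b ≤ Pe q F := by
    have h1 : Pe q E ≤ Pe q F + Pe q (fun w => ¬ Gd w) := by
      rw [Pool.K2S.Pe_eq, Pool.K2S.Pe_eq, Pool.K2S.Pe_eq, ← Finset.sum_add_distrib]
      refine Finset.sum_le_sum fun w _ => ?_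
      have hw := hq.nonneg w
      by_cases h1 : E w <;> by_cases h2 : Gd w
      · rw [if_pos h1, if_pos (by rw [hF]; exact ⟨h1, h2⟩), if_neg (not_not.2 h2), add_zero]
      · rw [if_pos h1, if_neg (by rw [hF]; exact fun h => h2 h.2), if_pos h2, zero_add]
      · rw [if_neg h1, if_neg (by rw [hF]; exact fun h => h1 h.1), if_neg (not_not.2 h2), add_zero]
      · rw [if_neg h1, if_neg (by rw [hF]; exact fun h => h1 h.1), if_pos h2, zero_add]
        exact hw
    linarith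
  have hF0 : 0 < Pe q F := by linarith
  have hFE : Pe q F ≤ Pe q E := Pool.K2S.Pe_mono hq fun w hw => by
    rw [hF] at hw
    exact hw.1
  -- the law on `F`
  obtain ⟨ρ, hρ⟩ : ∃ ρ, ρ = cond q F True := ⟨_, rfl⟩
  have hρl : IsLaw ρ := by
    rw [hρ]
    exact cond_law hq.nonneg hF0
  have hρq : ∀ w, 0 < ρ w → 0 < q w ∧ (E w ∧ Gd w) := fun w hw => by
    rw [hρ] at hw
    have h1 := (cond_pos_iff hq.nonneg F True w).1 hw
    have h2 : F w := by simpa using h1.2
    rw [hF] at h2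
    exact ⟨h1.1, h2⟩
  have hρg : ∀ w, 0 < ρ w → 0 < cond q Gd True w := fun w hw => by
    obtain ⟨h1, h2⟩ := hρq w hw
    exact (cond_pos_iff hq.nonneg Gd True w).2 ⟨h1, by simpa using h2.2⟩
  have hb' : Vbl ρ W t y M r g C := ⟨fun w w' a a' => hb.up w w' (hρg w a) (hρg w' a'),
    fun w w' a a' => hb.lo w w' (hρg w a) (hρg w' a')⟩
  obtain ⟨c, hc⟩ : ∃ c : ℝ, c = (Fintype.card ι : ℝ) := ⟨_, rfl⟩
  have hTc : Real.log ((Fintype.piFinset fun _ : ι => Finset.Ico (0 : ℤ) (2 ^ M)).card : ℝ) =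
      c * (M * Real.log 2) := by
    have h1 : (Fintype.piFinset fun _ : ι => Finset.Ico (0 : ℤ) (2 ^ M)).card =
        (2 ^ M) ^ Fintype.card ι := by
      rw [Fintype.card_piFinset, Finset.prod_const, Finset.card_univ, Int.card_Ico, sub_zero]
      have : ((2 : ℤ) ^ M) = ((2 ^ M : ℕ) : ℤ) := by push_cast; rfl
      rw [this, Int.toNat_natCast]
    rw [h1]
    push_cast
    rw [Real.log_pow, Real.log_pow, hc]
  have full := full_anyT hq (F := F) t W (Fintype.piFinset fun _ : ι => Finset.Ico (0 : ℤ) (2 ^ M))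
    (fun w hw => by
      rw [Fintype.mem_piFinset]
      intro i
      rw [Finset.mem_Ico]
      exact H.t0 w hw i) (D := d) (by
      rw [hTc, hc]
      exact H.full) hF0
  rw [hTc, hc, ← hρ] at full
  have hzf : CH ρ (fun w => Z (f w)) W ≤ d / Pe q F := by
    rw [le_div_iff₀ hF0, mul_comm, hρ]
    exact (Pool.K2S.Piece.law_CH_le hq.nonneg (fun w => Z (f w)) W F True).trans H.zf
  have key := vec_cell (t := t) (U := fun w => U (f w)) (l := l) (n := n) (k := k) hρl hb' hC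
    (fun w hw => H.t0 w (hρq w hw).1) full
    (fun w hw => hU w (hρq w hw).1 (hρq w hw).2.2) hrM hln hzf
    (fun w w' a a' e => H.dS w w' (hρq w a).1 (hρq w' a').1 e)
  obtain ⟨A, hA⟩ : ∃ A : ℝ, A = Fintype.card ι *
      ((g + k) * Real.log 2 + 3 * Real.log (7 * C * (Fintype.card ι + 2))) := ⟨_, rfl⟩
  rw [← hA] at key ⊢
  have hA0 : 0 ≤ A := by
    rw [hA]
    have : 0 ≤ Real.log (7 * C * ((Fintype.card ι : ℝ) + 2)) := by
      refine Real.log_nonneg ?_
      have h1 : (0 : ℝ) ≤ Fintype.card ι := Nat.cast_nonneg _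
      have h2 : C * 2 ≤ C * ((Fintype.card ι : ℝ) + 2) :=
        mul_le_mul_of_nonneg_left (by linarith) (by linarith)
      have h3 : 7 * C * ((Fintype.card ι : ℝ) + 2) = 7 * (C * ((Fintype.card ι : ℝ) + 2)) := by
        ring
      linarith
    positivity
  obtain ⟨sg, hsg⟩ : ∃ sg : ℝ, sg = (∑ i, ((n i : ℝ) - l i)) * Real.log 2 := ⟨_, rfl⟩
  rw [← hsg] at key ⊢
  obtain ⟨sn, hsn⟩ : ∃ sn : ℝ, sn = (∑ i, (n i : ℝ)) * Real.log 2 := ⟨_, rfl⟩
  rw [← hsn]
  have hsn0 : 0 ≤ sn := by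
    rw [hsn]
    exact mul_nonneg (Finset.sum_nonneg fun i _ => Nat.cast_nonneg _) hl2.le
  have hss : sg ≤ sn := by
    rw [hsg, hsn]
    refine mul_le_mul_of_nonneg_right (Finset.sum_le_sum fun i _ => ?_) hl2.le
    have : (0 : ℝ) ≤ l i := Nat.cast_nonneg _
    linarith
  have hCC : (Pe q F / Pe q E) * CH ρ (fun w => U (f w))
      (fun w => ((fun i => tp (n i) (l i) (U (f w) i)), (Z (f w), S (f w)))) ≤
      CH qE (fun w => U (f w))
        (fun w => ((fun i => tp (n i) (l i) (U (f w) i)), (Z (f w), S (f w)))) := by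
    have h1 := Pool.K2S.Piece.law_CH_le hqEl.nonneg (fun w => U (f w))
      (fun w => ((fun i => tp (n i) (l i) (U (f w) i)), (Z (f w), S (f w)))) Gd True
    have h2 : law qE Gd True = Pe q F / Pe q E := by
      rw [hqE, hF]
      exact Pool.K2S.Pe_cond _
    have h3 : cond qE Gd True = ρ := by
      rw [hqE, hρ, hF]
      exact Pool.K2S.Piece.cond_inter h0.ne'
    rw [h2, h3] at h1
    exact h1
  refine le_trans ?_ hCC
  obtain ⟨v, hv⟩ : ∃ v : ℝ, v = CH ρ (fun w => U (f w))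
      (fun w => ((fun i => tp (n i) (l i) (U (f w) i)), (Z (f w), S (f w)))) := ⟨_, rfl⟩
  have hv0 : 0 ≤ v := by
    rw [hv]
    exact CH_nonneg hρl.nonneg _ _
  have key' : sg - ((d + Real.log 2) / Pe q F + d / Pe q F + A) ≤ v := by
    rw [hv]
    exact key
  rw [← hv]
  have hx0 : 0 ≤ Pe q F / Pe q E := by positivity
  have hx1 : Pe q F / Pe q E ≤ 1 := by
    rw [div_le_one h0]
    exact hFE
  have hx2 : 1 - b / Pe q E ≤ Pe q F / Pe q E := by
    rw [← div_self h0.ne', ← sub_div]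
    exact div_le_div_of_nonneg_right hPF h0.le
  have hbE : 0 ≤ b / Pe q E := by positivity
  have h1 := mul_le_mul_of_nonneg_left key' hx0
  have h2 : Pe q F / Pe q E * (sg - ((d + Real.log 2) / Pe q F + d / Pe q F + A)) =
      Pe q F / Pe q E * (sg - A) - (2 * d + Real.log 2) / Pe q E := by
    field_simp
    ring
  rw [h2] at h1
  rcases le_total (sg - A) 0 with h3 | h3
  · have h4 : 0 ≤ Pe q F / Pe q E * v := mul_nonneg hx0 hv0
    have h5 : 0 ≤ (2 * d + Real.log 2) / Pe q E := by positivity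
    have h6 : 0 ≤ b / Pe q E * sn := by positivity
    linarith
  · have h4 := mul_le_mul_of_nonneg_right hx2 h3
    have h5 : b / Pe q E * (sg - A) ≤ b / Pe q E * sn :=
      mul_le_mul_of_nonneg_left (by linarith) hbE
    have h6 : (1 - b / Pe q E) * (sg - A) = (sg - A) - b / Pe q E * (sg - A) := by ring
    rw [h6] at h4
    linarith

/-- **Several hops, the numbers.** -/
theorem hopv_ind (m : ℕ) (C ε ϖ : ℝ) (hC : 1 ≤ C) (hε : 0 < ε) (hϖ : 0 < ϖ) :
    ∃ κ : ℝ, 0 < κ ∧ ∃ X₀ : ℕ,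
    ∀ {Ω Ω' τ ζ σ ι : Type} [Fintype Ω] [Fintype Ω'] [Fintype ι] {p : Ω → ℝ} {q : Ω' → ℝ}
    {f : Ω' → Ω} {W : Ω' → τ} {t : Ω' → ι → ℤ} {Z : Ω → ζ} {S : Ω → σ} {M X : ℕ} {d : ℝ}
    {U : Ω → ι → ℤ} {y : Ω' → ι → ℝ} {r n l : ι → ℕ} {g k : ℕ} {Gd : Ω' → Prop},
    Fintype.card ι = m → Hopv p q f W t Z S M d →
    Vbl (cond q Gd True) W t y M r g C →
    (∀ w, 0 < q w → Gd w → ∀ i, |(U (f w) i : ℝ) - y w i| ≤ C) →
    (∀ i, r i ≤ M) → (∀ i, n i ≤ l i + r i + k) → (∀ i, n i ≤ X) →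
    X₀ ≤ X → 0 ≤ d → d ≤ κ * X → (g : ℝ) ≤ κ * X → (k : ℝ) ≤ κ * X →
    Pe q (fun w => ¬ Gd w) ≤ κ → ∀ G : Ω → Prop, ϖ ≤ Pe p G →
    (∑ i, ((n i : ℝ) - l i)) * Real.log 2 - ε * X ≤
      CH (cond p G True) U (fun ω => ((fun i => tp (n i) (l i) (U ω i)), (Z ω, S ω))) := by
  have hl2 : 0 < Real.log 2 := Real.log_pos (by norm_num)
  have hl2b := Real.log_two_lt_d9
  have hl2' : Real.log 2 ≤ 1 := by linarith
  obtain ⟨A, hA⟩ : ∃ A : ℝ, A = (m : ℝ) + 1 := ⟨_, rfl⟩
  have hm0 : (0 : ℝ) ≤ m := Nat.cast_nonneg m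
  have hA1 : 1 ≤ A := by rw [hA]; linarith
  have hA0 : 0 < A := by linarith
  obtain ⟨κ, hκ⟩ : ∃ κ : ℝ, κ = min (ϖ / 2) (min (ε / (8 * A)) (ε * ϖ / (8 * A))) := ⟨_, rfl⟩
  have hκ0 : 0 < κ := by
    rw [hκ]
    exact lt_min (by positivity) (lt_min (by positivity) (by positivity))
  have hκ1 : κ ≤ ϖ / 2 := by rw [hκ]; exact min_le_left _ _
  have hκ2 : κ ≤ ε / (8 * A) := by rw [hκ]; exact (min_le_right _ _).trans (min_le_left _ _)
  have hκ3 : κ ≤ ε * ϖ / (8 * A) := by
    rw [hκ]; exact (min_le_right _ _).trans (min_le_right _ _)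
  obtain ⟨Lc, hLc⟩ : ∃ Lc : ℝ, Lc = Real.log (7 * C * ((m : ℝ) + 2)) := ⟨_, rfl⟩
  have hLc0 : 0 ≤ Lc := by
    rw [hLc]
    refine Real.log_nonneg ?_
    have h2 : C * 2 ≤ C * ((m : ℝ) + 2) := mul_le_mul_of_nonneg_left (by linarith) (by linarith)
    have h3 : 7 * C * ((m : ℝ) + 2) = 7 * (C * ((m : ℝ) + 2)) := by ring
    linarith
  obtain ⟨c₀, hc₀⟩ : ∃ c₀ : ℝ, c₀ = 3 * (m * Lc) + 1 / ϖ := ⟨_, rfl⟩
  have hc₀0 : 0 ≤ c₀ := by rw [hc₀]; positivity
  refine ⟨κ, hκ0, ⌈4 * c₀ / ε⌉₊, ?_⟩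
  intro Ω Ω' τ ζ σ ι _ _ _ p q f W t Z S M X d U y r n l g k Gd hm H hb hU hrM hln hnX hX hd hdκ
    hg hk hbad G hG
  have h0 : 0 < Pe p G := lt_of_lt_of_le hϖ hG
  have key := vec_all H hd hC hb hU hrM hln G hbad (by linarith)
  refine le_trans ?_ key
  rw [hm, ← hLc]
  have hX0 : (0 : ℝ) ≤ X := Nat.cast_nonneg X
  have hXc : c₀ ≤ ε / 4 * X := by
    have h1 : 4 * c₀ / ε ≤ X := (Nat.le_ceil _).trans (by exact_mod_cast hX)
    rw [div_le_iff₀ hε] at h1
    linarith
  have hmA : (m : ℝ) ≤ A := by rw [hA]; linarith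
  -- the first error
  have E1 : (m : ℝ) * ((g + k) * Real.log 2 + 3 * Lc) ≤ ε / 4 * X + 3 * (m * Lc) := by
    have h1 : ((g : ℝ) + k) * Real.log 2 ≤ 2 * (κ * X) := by
      have h2 : ((g : ℝ) + k) * Real.log 2 ≤ g + k := mul_le_of_le_one_right (by positivity) hl2'
      linarith
    have h2 : (m : ℝ) * (((g : ℝ) + k) * Real.log 2) ≤ A * (2 * (κ * X)) :=
      mul_le_mul hmA h1 (by positivity) hA0.le
    have h3 := mul_le_mul_of_nonneg_right hκ2 (by positivity : 0 ≤ A * (2 * (X : ℝ)))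
    have h4 : ε / (8 * A) * (A * (2 * X)) = ε / 4 * X := by
      field_simp
      ring
    rw [h4] at h3
    linarith
  -- the second error
  have E2 : κ / Pe p G * ((∑ i, (n i : ℝ)) * Real.log 2) ≤ ε / 8 * X := by
    have h1 : ∑ i, (n i : ℝ) ≤ m * X := by
      have h2 : ∑ i, (n i : ℝ) ≤ ∑ _i : ι, (X : ℝ) :=
        Finset.sum_le_sum fun i _ => by exact_mod_cast hnX i
      rw [Finset.sum_const, Finset.card_univ, nsmul_eq_mul, hm] at h2
      exact h2
    have hn0 : 0 ≤ ∑ i, (n i : ℝ) := Finset.sum_nonneg fun i _ => Nat.cast_nonneg _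
    have h2 : (∑ i, (n i : ℝ)) * Real.log 2 ≤ A * X :=
      (mul_le_of_le_one_right hn0 hl2').trans (h1.trans (mul_le_mul_of_nonneg_right hmA hX0))
    have h3 : κ / Pe p G ≤ κ / ϖ := div_le_div_of_nonneg_left hκ0.le hϖ hG
    refine (mul_le_mul h3 h2 (by positivity) (by positivity)).trans ?_
    rw [div_mul_eq_mul_div, div_le_iff₀ hϖ]
    have h4 := mul_le_mul_of_nonneg_right hκ3 (by positivity : 0 ≤ A * (X : ℝ))
    refine h4.trans (le_of_eq ?_)
    field_simp
  -- the third error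
  have E3 : (2 * d + Real.log 2) / Pe p G ≤ ε / 4 * X + 1 / ϖ := by
    have h1 : (2 * d + Real.log 2) / Pe p G ≤ (2 * (κ * X) + 1) / ϖ :=
      div_le_div₀ (by positivity) (by linarith) hϖ hG
    refine h1.trans ?_
    rw [add_div, add_le_add_iff_right, div_le_iff₀ hϖ]
    have h2 : κ ≤ ε * ϖ / 8 := by
      refine hκ3.trans (div_le_div_of_nonneg_left (by positivity) (by norm_num) ?_)
      linarith
    have h3 := mul_le_mul_of_nonneg_right h2 hX0
    linarith
  rw [hc₀] at hXc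
  have h9 : 0 ≤ ε * X := by positivity
  linarith

end Pool.LPK12
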