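import Pool.Agent.H12.LPK.Vec

/-!
# Linear values of several times

`vbl_lin`: a linear map with a bounded left inverse. `vbl_two`: two times and two values, with the
determinant.
-/

set_option autoImplicit false

namespace Pool.LPK12

open Finset Real
open Pool.Agent.H49.Ent Pool.Agent.H32.Dense Pool.STK Pool.POT Pool.TQ Pool.LPX
open Pool.K2S (Pe)

/-- **A linear map with a bounded left inverse.** -/
theorem vbl_lin {ι Ω τ : Type} [Fintype ι] [DecidableEq ι] {q : Ω → ℝ} {W : Ω → τ}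
    {t : Ω → ι → ℤ} {A : Ω → ι → ℝ} {G : Ω → ι → ι → ℝ} {M : ℕ} {r : ι → ℕ} {C : ℝ}
    (hA : Det q W A) (hG : Det q W G)
    (hup : ∀ w, 0 < q w → ∀ i j, |G w i j| ≤ C * 2 ^ r i) (B : Ω → ι → ι → ℝ)
    (hB : ∀ w, 0 < q w → ∀ k j, ∑ i, B w k i * (G w i j / 2 ^ r i) = if k = j then 1 else 0)
    {b : ℝ} (hBs : ∀ w, 0 < q w → ∀ k i, |B w k i| ≤ b) {g : ℕ}
    (hg : Fintype.card ι * b ≤ 2 ^ g) :
    Vbl q W t (fun w i => A w i + ∑ j, G w i j * ((t w j : ℝ) / 2 ^ M)) M r g C := by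
  have hP : (0 : ℝ) < 2 ^ M := by positivity
  have hdif : ∀ w w', 0 < q w → 0 < q w' → W w = W w' → ∀ i,
      (A w i + ∑ j, G w i j * ((t w j : ℝ) / 2 ^ M)) -
        (A w' i + ∑ j, G w' i j * ((t w' j : ℝ) / 2 ^ M)) =
      ∑ j, G w i j * (((t w j : ℝ) - t w' j) / 2 ^ M) := by
    intro w w' x x' e i
    rw [← hA w w' x x' e, ← hG w w' x x' e, add_sub_add_left_eq_sub, ← Finset.sum_sub_distrib]
    refine Finset.sum_congr rfl fun j _ => ?_
    ring
  refine ⟨?_, ?_⟩
  · intro w w' x x' e i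
    rw [hdif w w' x x' e i]
    refine (Finset.abs_sum_le_sum_abs _ _).trans ?_
    rw [Finset.sum_div, Finset.mul_sum]
    refine Finset.sum_le_sum fun j _ => ?_
    rw [abs_mul, abs_div, abs_of_pos hP]
    exact mul_le_mul_of_nonneg_right (hup w x i j) (by positivity)
  · intro w w' x x' e
    obtain ⟨dy, hdy⟩ : ∃ dy : ι → ℝ, dy = fun i =>
        (A w i + ∑ j, G w i j * ((t w j : ℝ) / 2 ^ M)) -
          (A w' i + ∑ j, G w' i j * ((t w' j : ℝ) / 2 ^ M)) := ⟨_, rfl⟩
    have h0 : ∀ i, (A w i + ∑ j, G w i j * ((t w j : ℝ) / 2 ^ M)) -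
        (A w' i + ∑ j, G w' i j * ((t w' j : ℝ) / 2 ^ M)) = dy i := fun i => by rw [hdy]
    have h1 : ∀ k, ((t w k : ℝ) - t w' k) / 2 ^ M = ∑ i, B w k i * (dy i / 2 ^ r i) := by
      intro k
      have h2 : ∀ i, B w k i * (dy i / 2 ^ r i) =
          ∑ j, B w k i * (G w i j / 2 ^ r i) * (((t w j : ℝ) - t w' j) / 2 ^ M) := by
        intro i
        rw [← h0 i, hdif w w' x x' e i, Finset.sum_div, Finset.mul_sum]
        refine Finset.sum_congr rfl fun j _ => ?_
        ring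
      rw [Finset.sum_congr rfl fun i _ => h2 i, Finset.sum_comm]
      have h3 : ∀ j, ∑ i, B w k i * (G w i j / 2 ^ r i) * (((t w j : ℝ) - t w' j) / 2 ^ M) =
          (if k = j then 1 else 0) * (((t w j : ℝ) - t w' j) / 2 ^ M) := by
        intro j
        rw [← Finset.sum_mul, hB w x k j]
      rw [Finset.sum_congr rfl fun j _ => h3 j]
      simp
    have h4 : ∀ k, |(t w k : ℝ) - t w' k| / 2 ^ M ≤ b * ∑ i, |dy i| / 2 ^ r i := by
      intro k
      have h5 : |(t w k : ℝ) - t w' k| / 2 ^ M = |((t w k : ℝ) - t w' k) / 2 ^ M| := by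
        rw [abs_div, abs_of_pos hP]
      rw [h5, h1 k, Finset.mul_sum]
      refine (Finset.abs_sum_le_sum_abs _ _).trans (Finset.sum_le_sum fun i _ => ?_)
      rw [abs_mul, abs_div, abs_of_pos (by positivity : (0 : ℝ) < 2 ^ r i)]
      exact mul_le_mul_of_nonneg_right (hBs w x k i) (by positivity)
    rw [Finset.sum_div]
    have h5 : ∑ k, |(t w k : ℝ) - t w' k| / 2 ^ M ≤
        Fintype.card ι * (b * ∑ i, |dy i| / 2 ^ r i) := by
      refine (Finset.sum_le_sum fun k _ => h4 k).trans (le_of_eq ?_)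
      rw [Finset.sum_const, Finset.card_univ, nsmul_eq_mul]
    refine h5.trans ?_
    rw [← mul_assoc]
    simp only [h0]
    exact mul_le_mul_of_nonneg_right hg (Finset.sum_nonneg fun i _ => by positivity)

/-- **Two times and two values.** -/
theorem vbl_two {Ω τ : Type} {q : Ω → ℝ} {W : Ω → τ}
    {t : Ω → Fin 2 → ℤ} {A : Ω → Fin 2 → ℝ} {G : Ω → Fin 2 → Fin 2 → ℝ} {M : ℕ}
    {r : Fin 2 → ℕ} {C : ℝ} (hA : Det q W A) (hG : Det q W G)
    (hup : ∀ w, 0 < q w → ∀ i j, |G w i j| ≤ C * 2 ^ r i) {g g' : ℕ}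
    (hdet : ∀ w, 0 < q w →
      2 ^ (r 0 + r 1) ≤ 2 ^ g' * |G w 0 0 * G w 1 1 - G w 0 1 * G w 1 0|)
    (hg : 2 * (C * 2 ^ g') ≤ 2 ^ g) :
    Vbl q W t (fun w i => A w i + ∑ j, G w i j * ((t w j : ℝ) / 2 ^ M)) M r g C := by
  obtain ⟨dt, hdt⟩ : ∃ dt : Ω → ℝ, dt = fun w => G w 0 0 * G w 1 1 - G w 0 1 * G w 1 0 :=
    ⟨_, rfl⟩
  have hP0 : (0 : ℝ) < 2 ^ r 0 := by positivity
  have hP1 : (0 : ℝ) < 2 ^ r 1 := by positivity
  have hd0 : ∀ w, 0 < q w → 0 < |dt w| := by
    intro w hw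
    have h1 := hdet w hw
    rw [hdt]
    have h2 : (0 : ℝ) < 2 ^ (r 0 + r 1) := by positivity
    have h3 : (0 : ℝ) < 2 ^ g' := by positivity
    by_contra hc
    push Not at hc
    have h4 := mul_nonpos_of_nonneg_of_nonpos h3.le hc
    beta_reduce at h4
    linarith
  refine vbl_lin hA hG hup
    (fun w k i => if k = 0 then (if i = 0 then G w 1 1 * 2 ^ r 0 / dt w
      else - G w 0 1 * 2 ^ r 1 / dt w)
      else (if i = 0 then - G w 1 0 * 2 ^ r 0 / dt w else G w 0 0 * 2 ^ r 1 / dt w))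
    ?_ (b := C * 2 ^ g') ?_ (by simpa using hg)
  · intro w hw k j
    have h0 : dt w ≠ 0 := abs_pos.1 (hd0 w hw)
    have h1 : dt w = G w 0 0 * G w 1 1 - G w 0 1 * G w 1 0 := by rw [hdt]
    rw [Fin.sum_univ_two]
    fin_cases k <;> fin_cases j
    · simp only [Fin.zero_eta, Fin.isValue, if_true, one_ne_zero, if_false]
      field_simp
      rw [h1]
      ring
    · simp only [Fin.zero_eta, Fin.mk_one, Fin.isValue, if_true, one_ne_zero, zero_ne_one,
        if_false]
      field_simp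
      ring
    · simp only [Fin.zero_eta, Fin.mk_one, Fin.isValue, if_true, one_ne_zero, if_false]
      field_simp
      ring
    · simp only [Fin.mk_one, Fin.isValue, if_true, one_ne_zero, if_false]
      field_simp
      rw [h1]
      ring
  · intro w hw k i
    have h1 := hdet w hw
    have h2 : G w 0 0 * G w 1 1 - G w 0 1 * G w 1 0 = dt w := by rw [hdt]
    rw [h2] at h1
    have h3 := hd0 w hw
    have key : ∀ (x : ℝ) (s s' : ℕ), s' + s = r 0 + r 1 → |x| ≤ C * 2 ^ s' →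
        |x * 2 ^ s / dt w| ≤ C * 2 ^ g' := by
      intro x s s' e hx
      rw [abs_div, div_le_iff₀ h3, abs_mul, abs_of_pos (by positivity : (0 : ℝ) < 2 ^ s)]
      have hC0 : 0 ≤ C := by
        by_contra hc
        push Not at hc
        have h5 : C * 2 ^ s' < 0 := mul_neg_of_neg_of_pos hc (by positivity)
        have := abs_nonneg x
        linarith
      have h4 : |x| * 2 ^ s ≤ C * 2 ^ s' * 2 ^ s := mul_le_mul_of_nonneg_right hx (by positivity)
      rw [mul_assoc, ← pow_add, e] at h4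
      refine h4.trans ?_
      rw [mul_assoc]
      exact mul_le_mul_of_nonneg_left h1 hC0
    fin_cases k <;> fin_cases i
    · simp only [Fin.zero_eta, Fin.isValue, if_true]
      exact key _ _ (r 1) (by omega) (hup w hw 1 1)
    · simp only [Fin.zero_eta, Fin.mk_one, Fin.isValue, if_true, one_ne_zero, if_false]
      exact key _ _ (r 0) (by omega) (by rw [abs_neg]; exact hup w hw 0 1)
    · simp only [Fin.zero_eta, Fin.mk_one, Fin.isValue, if_true, one_ne_zero, if_false]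
      exact key _ _ (r 1) (by omega) (by rw [abs_neg]; exact hup w hw 1 0)
    · simp only [Fin.mk_one, Fin.isValue, one_ne_zero, if_false]
      exact key _ _ (r 0) (by omega) (hup w hw 0 0)

end Pool.LPK12
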